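import Pool.Agent.P.MP_7a8567_an.Cnc.Defs

set_option autoImplicit false

/-! Towers of quadratic extensions. -/

namespace Ivrii.Con

variable {k K : Type} [Field k] [Field K] [Algebra k K]

theorem adjL_nil (X : IntermediateField k K) : adjL X [] = X := by
  simp [adjL]

theorem adjL_cons (X : IntermediateField k K) (y : K) (ys : List K) :
    adjL X (y :: ys) = adjL X ys ⊔ IntermediateField.adjoin k {y} := by
  have e : {z : K | z ∈ y :: ys} = {z : K | z ∈ ys} ∪ {y} := by
    ext z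
    simp
  rw [adjL, adjL, e, IntermediateField.adjoin_union, sup_assoc]

theorem le_adjL (X : IntermediateField k K) (ys : List K) : X ≤ adjL X ys := le_sup_left

theorem mem_adjL (X : IntermediateField k K) {ys : List K} {y : K} (h : y ∈ ys) :
    y ∈ adjL X ys :=
  (le_sup_right : IntermediateField.adjoin k {y | y ∈ ys} ≤ adjL X ys)
    (IntermediateField.subset_adjoin k _ h)

/-- the elements `a + b y` with `a, b ∈ X` -/
def quadF (X : IntermediateField k K) (y : K) (hy : y ^ 2 ∈ X) : IntermediateField k K where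
  carrier := {x | ∃ a ∈ X, ∃ b ∈ X, x = a + b * y}
  mul_mem' := by
    rintro _ _ ⟨a, ha, b, hb, rfl⟩ ⟨c, hc, d, hd, rfl⟩
    exact ⟨a * c + b * d * y ^ 2, add_mem (mul_mem ha hc) (mul_mem (mul_mem hb hd) hy),
      a * d + b * c, add_mem (mul_mem ha hd) (mul_mem hb hc), by ring⟩
  one_mem' := ⟨1, one_mem X, 0, zero_mem X, by ring⟩
  add_mem' := by
    rintro _ _ ⟨a, ha, b, hb, rfl⟩ ⟨c, hc, d, hd, rfl⟩
    exact ⟨a + c, add_mem ha hc, b + d, add_mem hb hd, by ring⟩
  zero_mem' := ⟨0, zero_mem X, 0, zero_mem X, by ring⟩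
  algebraMap_mem' := fun r => ⟨algebraMap k K r, X.algebraMap_mem r, 0, zero_mem X, by ring⟩
  inv_mem' := by
    rintro _ ⟨a, ha, b, hb, rfl⟩
    by_cases h0 : a + b * y = 0
    · exact ⟨0, zero_mem X, 0, zero_mem X, by rw [h0]; simp⟩
    by_cases h1 : a - b * y = 0
    · have e : a + b * y = a + a := by rw [sub_eq_zero.1 h1]
      exact ⟨(a + a)⁻¹, inv_mem (add_mem ha ha), 0, zero_mem X, by rw [e]; ring⟩
    have hn : a ^ 2 - b ^ 2 * y ^ 2 ∈ X :=
      sub_mem (pow_mem ha 2) (mul_mem (pow_mem hb 2) hy)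
    have e : a ^ 2 - b ^ 2 * y ^ 2 = (a + b * y) * (a - b * y) := by ring
    refine ⟨a / (a ^ 2 - b ^ 2 * y ^ 2), div_mem ha hn, -b / (a ^ 2 - b ^ 2 * y ^ 2),
      div_mem (neg_mem hb) hn, ?_⟩
    rw [e]
    field_simp
    ring

theorem mem_quad {X : IntermediateField k K} {y x : K} (hy : y ^ 2 ∈ X)
    (hx : x ∈ X ⊔ IntermediateField.adjoin k {y}) : ∃ a ∈ X, ∃ b ∈ X, x = a + b * y := by
  have h : X ⊔ IntermediateField.adjoin k {y} ≤ quadF X y hy := by
    refine sup_le (fun z hz => ⟨z, hz, 0, zero_mem X, by ring⟩) ?_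
    rw [IntermediateField.adjoin_simple_le_iff]
    exact ⟨0, zero_mem X, 1, one_mem X, by ring⟩
  exact h hx

theorem sq_tower [CharZero k] {X : IntermediateField k K} (ys : List K)
    (hy : ∀ y ∈ ys, y ^ 2 ∈ X) {u : K} (hu : u ∈ X) (h : Sq (adjL X ys) u) :
    ∃ S : List K, S.Sublist ys ∧ Sq X (u * (S.map fun y => y ^ 2).prod) := by
  have : CharZero K := charZero_of_injective_algebraMap (algebraMap k K).injective
  induction ys generalizing u with
  | nil => exact ⟨[], List.Sublist.slnil, by simpa [adjL_nil] using h⟩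
  | cons y ys ih =>
    have hy' : ∀ z ∈ ys, z ^ 2 ∈ X := fun z hz => hy z (List.mem_cons_of_mem _ hz)
    have hy0 : y ^ 2 ∈ X := hy y List.mem_cons_self
    have skip : Sq (adjL X ys) u →
        ∃ S : List K, S.Sublist (y :: ys) ∧ Sq X (u * (S.map fun y => y ^ 2).prod) := by
      intro h'
      obtain ⟨S, hS, hq⟩ := ih hy' hu h'
      exact ⟨S, hS.cons y, hq⟩
    obtain ⟨r, hr, e⟩ := h
    rw [adjL_cons] at hr
    obtain ⟨a, ha, b, hb, rfl⟩ := mem_quad (le_adjL X ys hy0) hr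
    by_cases hb0 : b = 0
    · exact skip ⟨a, ha, by rw [e, hb0]; ring⟩
    by_cases ha0 : a = 0
    · obtain ⟨S, hS, hq⟩ := ih hy' (mul_mem hu hy0)
        ⟨b * y ^ 2, mul_mem hb (le_adjL X ys hy0), by rw [e, ha0]; ring⟩
      refine ⟨y :: S, hS.cons_cons y, ?_⟩
      simpa [mul_assoc] using hq
    have hm : y ∈ adjL X ys := by
      have e' : y = (u - a ^ 2 - b ^ 2 * y ^ 2) / (2 * a * b) := by
        rw [e]
        field_simp
        ring
      rw [e']
      refine div_mem (sub_mem (sub_mem (le_adjL X ys hu) (pow_mem ha 2))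
        (mul_mem (pow_mem hb 2) (le_adjL X ys hy0))) (mul_mem (mul_mem ?_ ha) hb)
      exact_mod_cast natCast_mem (adjL X ys) 2
    exact skip ⟨a + b * y, add_mem ha (mul_mem hb hm), e⟩

end Ivrii.Con
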