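import Pool.Agent.P.MP_7a8567_an.Cnc.Comm
import Pool.Agent.P.MP_7a8567_an.Cnc.Sq
import Pool.Agent.P.MP_7a8567_an.Alg.Ch

set_option autoImplicit false

/-! A run of reflections in one family, grouped by levels. -/

namespace Ivrii.Con

variable {k Ω : Type} [Field k] [Field Ω] [Algebra k Ω] [IsAlgClosed k] [CharZero k]

theorem rc_of_real {τ : k →+* k} {q : Conic k} (hq : q.Δ ≠ 0) (h : RealC τ q.poly) : RC q := by
  obtain ⟨c, hc, e⟩ := h
  have e1 : MvPolynomial.rename (Equiv.swap 0 1) (MvPolynomial.map τ q.poly)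
      = (⟨τ q.c, τ q.b, τ q.a, τ q.e, τ q.d, τ q.f⟩ : Conic k).poly := by
    simp only [Conic.poly, map_add, map_mul, map_pow, MvPolynomial.map_C, MvPolynomial.map_X,
      MvPolynomial.rename_C, MvPolynomial.rename_X, Equiv.swap_apply_left, Equiv.swap_apply_right]
    ring
  rw [e1, ← scl_poly] at e
  have e2 := Conic.poly_inj e
  have ea : τ q.c = c * q.a := congrArg Conic.a e2
  have ec : τ q.a = c * q.c := congrArg Conic.c e2
  refine ⟨hq, fun h => ?_, fun h => ?_⟩
  · rw [h, mul_zero] at ea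
    exact (map_eq_zero τ).1 ea
  · rw [h, mul_zero] at ec
    exact (map_eq_zero τ).1 ec

omit [IsAlgClosed k] [CharZero k] in
theorem dec_rf {q : Conic k} {l A l' : Ω × Ω} (h : Lk q.poly l A l') :
    Rf q (yv q.poly l A) l A l' := by
  have h0 := h.Qz_ne
  have h1 := h.law
  rw [ev_d0] at h0
  rw [qv, ev_d0, ev_d1] at h1
  refine ⟨t_ne_of_gen h.gen, t_ne_of_gen h.gen', h.on, h.on', ?_, ?_, ?_⟩
  · rw [← ev_poly]; exact h.zero
  · rw [h1]; field_simp; ring
  · rw [yv, ev_d0, ev_d1]

omit [CharZero k] in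
theorem dec_norm {J : QF k} {q : Conic k} (h : J.Same q.dQ) :
    ∃ w lam : k, w ≠ 0 ∧ (scl w q).dQ = lv J lam := by
  obtain ⟨u, v, hu, e⟩ := h
  obtain ⟨w, hw⟩ := IsAlgClosed.exists_pow_nat_eq u⁻¹ (n := 2) (by norm_num)
  have hw1 : w ^ 2 * u = 1 := by rw [hw, inv_mul_cancel₀ hu]
  refine ⟨w, -(w ^ 2 * v), fun h0 => by simp [h0] at hw1, ?_⟩
  rw [scl_dQ, e]
  ext <;> simp only [lv]
  · linear_combination J.c0 * hw1
  · linear_combination J.b1 * hw1
  · linear_combination J.b2 * hw1
  · linear_combination J.B * hw1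
  · linear_combination J.c1 * hw1
  · linear_combination J.A * hw1

omit [IsAlgClosed k] [CharZero k] in
theorem dec_act_comm (L : List (Lev k Ω)) (σ : Equiv.Perm (Gl k Ω))
    (h : ∀ s ∈ L, Commute (rho s.q s.y) σ) (l : Gl k Ω) : act L (σ l) = σ (act L l) := by
  induction L with
  | nil => rfl
  | cons s L ih =>
    have h1 := ih fun s' hs' => h s' (List.mem_cons_of_mem _ hs')
    have h2 := ((h s List.mem_cons_self).zpow_left (-(s.n : ℤ))).eq
    change (rho s.q s.y ^ (-(s.n : ℤ))) (act L (σ l)) = σ ((rho s.q s.y ^ (-(s.n : ℤ))) (act L l))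
    rw [h1, ← Equiv.Perm.mul_apply, h2, Equiv.Perm.mul_apply]

omit [IsAlgClosed k] [CharZero k] in
theorem dec_act_append (L L' : List (Lev k Ω)) (l : Gl k Ω) :
    act (L ++ L') l = act L (act L' l) := by
  simp only [act, List.foldr_append]

omit [IsAlgClosed k] in
/-- grouping of a sequence of steps -/
theorem dec_group (J : QF k) (j : Ω) (l : ℕ → Gl k Ω) (q : ℕ → Conic k) (lam : ℕ → k) (y : ℕ → Ω)
    (N : ℕ) (hrc : ∀ i < N, RC (q i)) (hdq : ∀ i < N, (q i).dQ = lv J (lam i))
    (hsq : ∀ i < N, y i ^ 2 = j - algebraMap k Ω (lam i))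
    (hst : ∀ i < N, rho (q i) (y i) (l i) = l (i + 1))
    (heq : ∀ i < N, ∀ i' < N, lam i = lam i' → q i = q i' ∧ y i = y i') (n : ℕ) (hn : n ≤ N) :
    ∃ L : List (Lev k Ω), Blk J j L ∧ act L (l n) = l 0 ∧
      (∀ s ∈ L, ∃ i < n, s.q = q i ∧ s.lam = lam i ∧ s.y = y i) ∧
      ∀ i < n, y i ∈ L.map Lev.y := by
  induction n with
  | zero =>
    exact ⟨[], ⟨by simp, by simp, by simp, by simp, by simp⟩, rfl, by simp, by simp⟩
  | succ n ih =>
    obtain ⟨L, hB, hA, hs, hy⟩ := ih (by omega)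
    have hn' : n < N := by omega
    have hl : l n = (rho (q n) (y n) ^ (-1 : ℤ)) (l (n + 1)) := by
      rw [← hst n hn', zpow_neg_one]
      exact (Equiv.symm_apply_apply _ _).symm
    by_cases hm : lam n ∈ L.map Lev.lam
    · obtain ⟨s, hsL, hsl⟩ := List.mem_map.1 hm
      obtain ⟨i, hi, e1, e2, e3⟩ := hs s hsL
      obtain ⟨e4, e5⟩ := heq i (by omega) n hn' (by rw [← e2, hsl])
      obtain ⟨L1, L2, rfl⟩ := List.append_of_mem hsL
      refine ⟨L1 ++ ⟨s.q, s.lam, s.y, s.n + 1⟩ :: L2, ⟨?_, ?_, ?_, ?_, ?_⟩, ?_, ?_, ?_⟩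
      · intro s' hs'
        simp only [List.mem_append, List.mem_cons] at hs'
        rcases hs' with h | rfl | h
        · exact hB.rc s' (by simp [h])
        · exact hB.rc s hsL
        · exact hB.rc s' (by simp [h])
      · intro s' hs'
        simp only [List.mem_append, List.mem_cons] at hs'
        rcases hs' with h | rfl | h
        · exact hB.dq s' (by simp [h])
        · exact hB.dq s hsL
        · exact hB.dq s' (by simp [h])
      · intro s' hs'
        simp only [List.mem_append, List.mem_cons] at hs'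
        rcases hs' with h | rfl | h
        · exact hB.sq s' (by simp [h])
        · exact hB.sq s hsL
        · exact hB.sq s' (by simp [h])
      · intro s' hs'
        simp only [List.mem_append, List.mem_cons] at hs'
        rcases hs' with h | rfl | h
        · exact hB.pos s' (by simp [h])
        · exact Nat.le_add_left _ _
        · exact hB.pos s' (by simp [h])
      · simpa using hB.nd
      · rw [← hA, dec_act_append, dec_act_append, hl]
        congr 1
        have hc : ∀ s' ∈ L2, Commute (rho s'.q s'.y) (rho (q n) (y n) ^ (-1 : ℤ)) := fun s' h =>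
          (rho_comm (hB.rc s' (by simp [h])).nd (hrc n hn').nd (hB.dq s' (by simp [h]))
            (hdq n hn') _ _).zpow_right _
        change (rho s.q s.y ^ (-((s.n + 1 : ℕ) : ℤ))) (act L2 (l (n + 1))) =
          (rho s.q s.y ^ (-(s.n : ℤ))) (act L2 ((rho (q n) (y n) ^ (-1 : ℤ)) (l (n + 1))))
        rw [dec_act_comm L2 _ hc, ← Equiv.Perm.mul_apply, e1, e3, e4, e5, ← zpow_add]
        congr 2
        push_cast
        ring
      · intro s' hs'
        simp only [List.mem_append, List.mem_cons] at hs'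
        rcases hs' with h | rfl | h
        · obtain ⟨i', hi', h'⟩ := hs s' (by simp [h])
          exact ⟨i', by omega, h'⟩
        · exact ⟨i, by omega, e1, e2, e3⟩
        · obtain ⟨i', hi', h'⟩ := hs s' (by simp [h])
          exact ⟨i', by omega, h'⟩
      · intro i' hi'
        rcases Nat.lt_succ_iff_lt_or_eq.1 hi' with h | rfl
        · simpa using hy i' h
        · simp [e3, e5]
    · refine ⟨L ++ [⟨q n, lam n, y n, 1⟩], ⟨?_, ?_, ?_, ?_, ?_⟩, ?_, ?_, ?_⟩
      · intro s' hs'
        simp only [List.mem_append, List.mem_singleton] at hs'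
        rcases hs' with h | rfl
        · exact hB.rc s' h
        · exact hrc n hn'
      · intro s' hs'
        simp only [List.mem_append, List.mem_singleton] at hs'
        rcases hs' with h | rfl
        · exact hB.dq s' h
        · exact hdq n hn'
      · intro s' hs'
        simp only [List.mem_append, List.mem_singleton] at hs'
        rcases hs' with h | rfl
        · exact hB.sq s' h
        · exact hsq n hn'
      · intro s' hs'
        simp only [List.mem_append, List.mem_singleton] at hs'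
        rcases hs' with h | rfl
        · exact hB.pos s' h
        · exact le_rfl
      · rw [List.map_append, List.nodup_append]
        refine ⟨hB.nd, by simp, fun a ha b hb e => hm ?_⟩
        simp only [List.map_cons, List.map_nil, List.mem_singleton] at hb
        rw [← hb, ← e]
        exact ha
      · rw [← hA, dec_act_append, hl]
        rfl
      · intro s' hs'
        simp only [List.mem_append, List.mem_singleton] at hs'
        rcases hs' with h | rfl
        · obtain ⟨i', hi', h'⟩ := hs s' h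
          exact ⟨i', by omega, h'⟩
        · exact ⟨n, by omega, rfl, rfl, rfl⟩
      · intro i' hi'
        rcases Nat.lt_succ_iff_lt_or_eq.1 hi' with h | rfl
        · rw [List.map_append]
          exact List.mem_append_left _ (hy i' h)
        · simp

theorem dec {τ : k →+* k} (ch : Chain τ Ω) (J : QF k) (hN : 1 ≤ ch.N)
    (hc : ∀ j, 1 ≤ j → j ≤ ch.N → ∃ q : Conic k, q.poly = ch.Q j ∧ q.Δ ≠ 0 ∧ J.Same q.dQ) :
    ∃ (q0 : Conic k) (L : List (Lev k Ω)) (l : Gl k Ω), RC q0 ∧ J.Same q0.dQ ∧ L ≠ [] ∧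
      l.1 = ch.l ch.N ∧ Blk q0.dQ (q0.dQ.val l.1) L ∧ (act L l).1 = ch.l 0 ∧
      ch.M 0 ch.N ≤ adjL (Fd k l.1) (L.map Lev.y) := by
  classical
  obtain ⟨q0, hq0, hΔ0, hJ0⟩ := hc 1 le_rfl hN
  have h1 : ∀ i : ℕ, ∃ q : Conic k, i < ch.N → q.poly = ch.Q (i + 1) ∧ q.Δ ≠ 0 ∧ q0.dQ.Same q.dQ := by
    intro i
    by_cases hi : i < ch.N
    · obtain ⟨q, a, b, c⟩ := hc (i + 1) (by omega) hi
      exact ⟨q, fun _ => ⟨a, b, hJ0.symm.trans c⟩⟩
    · exact ⟨q0, fun h => absurd h hi⟩
  choose p hp using h1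
  have h2 : ∀ q : Conic k, ∃ w lam : k, q0.dQ.Same q.dQ → w ≠ 0 ∧ (scl w q).dQ = lv q0.dQ lam := by
    intro q
    by_cases h : q0.dQ.Same q.dQ
    · obtain ⟨w, lam, h'⟩ := dec_norm h
      exact ⟨w, lam, fun _ => h'⟩
    · exact ⟨0, 0, fun h' => absurd h' h⟩
  choose w lam hw using h2
  let l : ℕ → Gl k Ω := fun i => ⟨ch.l (min i ch.N), ch.gen _ (min_le_right _ _)⟩
  have hl : ∀ i ≤ ch.N, (l i).1 = ch.l i := fun i hi => by simp only [l, min_eq_left hi]
  let q : ℕ → Conic k := fun i => scl (w (p i)) (p i)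
  let y0 : ℕ → Ω := fun i => yv (ch.Q (i + 1)) (ch.l i) (ch.A (i + 1))
  let y : ℕ → Ω := fun i => algebraMap k Ω (w (p i)) * y0 i
  have hw0 : ∀ i < ch.N, w (p i) ≠ 0 := fun i hi => (hw _ (hp i hi).2.2).1
  have hdq : ∀ i < ch.N, (q i).dQ = lv q0.dQ (lam (p i)) := fun i hi => (hw _ (hp i hi).2.2).2
  have hrc : ∀ i < ch.N, RC (q i) := fun i hi => by
    have h := rc_of_real (τ := τ) (hp i hi).2.1
      (by rw [(hp i hi).1]; exact (ch.mir (i + 1) (by omega) hi).real)
    refine ⟨?_, ?_⟩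
    · simp only [q, scl_Δ]
      exact mul_ne_zero (pow_ne_zero _ (hw0 i hi)) h.nd
    · simp only [q, scl, mul_eq_zero, hw0 i hi, false_or]
      exact h.re
  have hrf : ∀ i < ch.N, Rf (q i) (y i) (l i).1 (ch.A (i + 1)) (l (i + 1)).1 := fun i hi => by
    have h := ch.lk i hi
    rw [← (hp i hi).1] at h
    have h' := (dec_rf h).scale (w (p i))
    rw [(hp i hi).1] at h'
    rw [hl i hi.le, hl (i + 1) hi]
    exact h'
  have hst : ∀ i < ch.N, rho (q i) (y i) (l i) = l (i + 1) := fun i hi =>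
    rho_eq (hrc i hi).nd (hrf i hi)
  have hv1 : ∀ i < ch.N, q0.dQ.val (l (i + 1)).1 = q0.dQ.val (l i).1 := fun i hi => by
    have a := (hrf i hi).sq
    have b := (hrf i hi).sq'
    rw [hdq i hi, val_lv] at a b
    linear_combination a - b
  have hv : ∀ i ≤ ch.N, q0.dQ.val (l i).1 = q0.dQ.val (l 0).1 := fun i hi => by
    induction i with
    | zero => rfl
    | succ i ih => rw [hv1 i hi, ih (by omega)]
  have hsq : ∀ i < ch.N, y i ^ 2 = q0.dQ.val (l ch.N).1 - algebraMap k Ω (lam (p i)) :=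
    fun i hi => by rw [(hrf i hi).sq, hdq i hi, val_lv, hv i hi.le, hv ch.N le_rfl]
  have heq : ∀ i < ch.N, ∀ i' < ch.N, lam (p i) = lam (p i') → q i = q i' ∧ y i = y i' := by
    intro i hi i' hi' e
    have e1 : (q i').dQ = (q i).dQ := by rw [hdq i hi, hdq i' hi', e]
    have e2 : ∃ u : k, u ≠ 0 ∧ (q i').poly = MvPolynomial.C u * (q i).poly := by
      rcases dQ_inj (hrc i hi).nd e1 with h | h
      · exact ⟨1, one_ne_zero, by rw [h]; simp⟩
      · exact ⟨-1, by simp, by rw [h, scl_poly]⟩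
    obtain ⟨u, hu, e2⟩ := e2
    simp only [q, scl_poly, (hp i hi).1, (hp i' hi').1] at e2
    have hU : ∀ a : k, a ≠ 0 → IsUnit (MvPolynomial.C a : R2 k) := fun a ha =>
      (isUnit_iff_ne_zero.2 ha).map _
    have e3 : Associated (ch.Q (i + 1)) (ch.Q (i' + 1)) := by
      have a1 : Associated (ch.Q (i + 1))
          (MvPolynomial.C u * (MvPolynomial.C (w (p i)) * ch.Q (i + 1))) :=
        (associated_unit_mul_right _ _ (hU _ (hw0 i hi))).trans
          (associated_unit_mul_right _ _ (hU _ hu))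
      rw [← e2] at a1
      exact a1.trans (associated_unit_mul_left _ _ (hU _ (hw0 i' hi')))
    have e4 := ch.nrm (i + 1) (i' + 1) (by omega) hi (by omega) hi' e3
    have e5 : p i = p i' := Conic.poly_inj (by rw [(hp i hi).1, (hp i' hi').1, e4])
    refine ⟨by simp only [q, e5], ?_⟩
    have hdeg : (ch.Q (i + 1)).totalDegree = 2 :=
      le_antisymm (by rw [← (hp i hi).1]; exact Conic.totalDegree_le _)
        (ch.mir (i + 1) (by omega) hi).deg
    have hs : y0 i + y0 i' ≠ 0 := ch.sgn i i' hi hi' e4 hdeg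
    have e6 : y i ^ 2 = y i' ^ 2 := by rw [hsq i hi, hsq i' hi', e]
    rcases sq_eq_sq_iff_eq_or_eq_neg.1 e6 with h | h
    · exact h
    · exfalso
      apply mul_ne_zero ((map_ne_zero (algebraMap k Ω)).2 (hw0 i hi)) hs
      simp only [y, ← e5] at h
      linear_combination h
  obtain ⟨L, hB, hA, -, hy⟩ := dec_group q0.dQ _ l q (fun i => lam (p i)) y ch.N hrc hdq hsq hst heq
    ch.N le_rfl
  refine ⟨q0, L, l ch.N, rc_of_real (τ := τ) hΔ0 (by rw [hq0]; exact (ch.mir 1 le_rfl hN).real),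
    hJ0, ?_, hl _ le_rfl, hB, by rw [hA, hl 0 (Nat.zero_le _)], ?_⟩
  · rintro rfl
    simpa using hy 0 hN
  · have key : ∀ d ≤ ch.N, Fd k (l (ch.N - d)).1 ≤ adjL (Fd k (l ch.N).1) (L.map Lev.y) := by
      intro d hd
      induction d with
      | zero => exact le_adjL _ _
      | succ d ih =>
        have h0 := Fd_le.1 (ih (by omega))
        obtain ⟨i, hi⟩ : ∃ i, ch.N = i + d + 1 := ⟨ch.N - d - 1, by omega⟩
        rw [show ch.N - d = i + 1 by omega] at h0
        rw [show ch.N - (d + 1) = i by omega]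
        have hi' : i < ch.N := by omega
        have e : l i = (rho (q i) (y i) ^ (-1 : ℤ)) (l (i + 1)) := by
          rw [← hst i hi', zpow_neg_one]
          exact (Equiv.symm_apply_apply _ _).symm
        rw [e]
        exact Fd_le.2 (rho_mem (hrc i hi').nd _ _ h0.1 h0.2 (mem_adjL _ (hy i hi')))
    refine ch.M_le.2 fun i _ hi => ?_
    have := key (ch.N - i) (by omega)
    rwa [show ch.N - (ch.N - i) = i by omega, hl i hi] at this

end Ivrii.Con
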