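import Pool.Agent.P.MP_7a8567_an.Cnc.XP
import Pool.Agent.P.MP_7a8567_an.Cnc.Dec
import Pool.Agent.P.MP_7a8567_an.Alg.Sq0
import Pool.Agent.P.MP_7a8567_an.Alg.Conic

set_option autoImplicit false

/-! The conic block. -/

namespace Ivrii.Con

open MvPolynomial

variable {k Ω : Type} [Field k] [Field Ω] [Algebra k Ω]

theorem same_lv (J : QF k) (c : k) : J.Same (lv J c) :=
  ⟨1, -c, one_ne_zero, by simp [lv, sub_eq_add_neg]⟩

theorem Blk.tail {J : QF k} {j : Ω} {s : Lev k Ω} {L : List (Lev k Ω)} (h : Blk J j (s :: L)) :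
    Blk J j L :=
  ⟨fun a ha => h.rc a (List.mem_cons_of_mem _ ha), fun a ha => h.dq a (List.mem_cons_of_mem _ ha),
    fun a ha => h.sq a (List.mem_cons_of_mem _ ha), fun a ha => h.pos a (List.mem_cons_of_mem _ ha),
    (List.nodup_cons.1 h.nd).2⟩

theorem act_cons (s : Lev k Ω) (L : List (Lev k Ω)) (l : Gl k Ω) :
    act (s :: L) l = (rho s.q s.y ^ (-(s.n : ℤ))) (act L l) := rfl

variable [CharZero k]

theorem act_val {J : QF k} {j : Ω} {L : List (Lev k Ω)} (h : Blk J j L) (l : Gl k Ω) :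
    J.val (act L l).1 = J.val l.1 := by
  induction L with
  | nil => rfl
  | cons s L ih =>
    rw [act_cons, val_rho' (h.rc s List.mem_cons_self).nd (h.dq s List.mem_cons_self), ih h.tail]

theorem act_le {J : QF k} {j : Ω} {L : List (Lev k Ω)} (h : Blk J j L) (l : Gl k Ω)
    {X : IntermediateField k Ω} (hX : Fd k l.1 ≤ X) :
    Fd k (act L l).1 ≤ adjL X (L.map Lev.y) := by
  induction L with
  | nil => exact hX.trans (le_adjL _ _)
  | cons s L ih =>
    have h1 : adjL X (L.map Lev.y) ≤ adjL X ((s :: L).map Lev.y) := by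
      rw [List.map_cons, adjL_cons]
      exact le_sup_left
    obtain ⟨a1, a2⟩ := Fd_le_iff.1 ((ih h.tail).trans h1)
    rw [act_cons, Fd_le_iff]
    exact rho_mem (h.rc s List.mem_cons_self).nd _ _ a1 a2 (mem_adjL _ (by simp))

theorem Blk.sq_act {J : QF k} {s : Lev k Ω} {L : List (Lev k Ω)} {l : Gl k Ω}
    (h : Blk J (J.val l.1) (s :: L)) : s.y ^ 2 = s.q.dQ.val (act L l).1 := by
  rw [h.dq s List.mem_cons_self, val_lv, act_val h.tail, h.sq s List.mem_cons_self]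

variable [IsAlgClosed k]

theorem nsq {J J' : QF k} (hJ' : Nd J') (hs : ¬ J.Same J') {l : Gl k Ω}
    {X : IntermediateField k Ω} (hX : Fd k l.1 ≤ X)
    (hr : ∀ n : R2 k, n ≠ 0 → Sq X (ev l.1 n) → ∀ π, OddP n π → J'.Vert π)
    {s : Lev k Ω} {L : List (Lev k Ω)} (h : Blk J (J.val l.1) (s :: L)) :
    s.y ∉ adjL X (L.map Lev.y) := by
  intro hy
  have hm : ∀ a ∈ s :: L, a.y ^ 2 ∈ X := fun a ha => by
    rw [h.sq a ha]
    exact sub_mem (hX (val_mem_Fd J l.1)) (X.algebraMap_mem _)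
  obtain ⟨S, hS, r, hr1, hr2⟩ := sq_tower (X := X) (L.map Lev.y) (fun y hy => by
    obtain ⟨a, ha, rfl⟩ := List.mem_map.1 hy
    exact hm a (List.mem_cons_of_mem _ ha)) (hm s List.mem_cons_self) ⟨s.y, hy, rfl⟩
  obtain ⟨S', hS', rfl⟩ := List.sublist_map_iff.1 hS
  obtain ⟨π, p1, p2, p3, p4, p5⟩ := vert (h.rc s List.mem_cons_self)
  have hdq := h.dq s List.mem_cons_self
  have hev : ∀ a ∈ s :: L, ev l.1 (J.lev a.lam) = l.1.1 ^ 2 * a.y ^ 2 := fun a ha => by
    rw [ev_lev J _ l.t_ne, h.sq a ha]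
  have hnd : ∀ a ∈ L, ¬ π ∣ J.lev a.lam := fun a ha => by
    have h1 := p4 (a.lam - s.lam) (sub_ne_zero.2 fun e =>
      (List.nodup_cons.1 h.nd).1 (List.mem_map.2 ⟨a, ha, e⟩))
    rwa [hdq, lev_lv, add_sub_cancel] at h1
  have h0 : s.q.dQ.lev 0 = J.lev s.lam := by rw [hdq, lev_lv, add_zero]
  have hne : J.lev s.lam ≠ 0 := fun e => by
    have := (l.val_ne (h.rc s List.mem_cons_self).nd 0)
    have h2 := ev_lev s.q.dQ 0 l.t_ne
    rw [h0, e, map_zero] at h2
    exact this (sub_eq_zero.1 ((mul_eq_zero.1 h2.symm).resolve_left (pow_ne_zero _ l.t_ne)))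
  have hprod : ∀ T : List (Lev k Ω), (∀ a ∈ T, a ∈ L) →
      ¬ π ∣ (T.map fun a => J.lev a.lam).prod ∧ ev l.1 (T.map fun a => J.lev a.lam).prod
        = (l.1.1 ^ T.length) ^ 2 * ((T.map Lev.y).map fun y => y ^ 2).prod := by
    intro T
    induction T with
    | nil => exact fun _ => ⟨fun e => p1.not_isUnit (isUnit_of_dvd_one e), by simp⟩
    | cons a T ih =>
      intro hT
      obtain ⟨i1, i2⟩ := ih fun b hb => hT b (List.mem_cons_of_mem _ hb)
      have ha := hT a List.mem_cons_self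
      refine ⟨fun e => ?_, ?_⟩
      · rw [List.map_cons, List.prod_cons] at e
        exact (p1.prime.dvd_or_dvd e).elim (hnd a ha) i1
      · rw [List.map_cons, List.prod_cons, map_mul, i2, hev a (List.mem_cons_of_mem _ ha)]
        simp only [List.map_cons, List.prod_cons, List.length_cons]
        ring
  obtain ⟨i1, i2⟩ := hprod S' fun a ha => hS'.subset ha
  have ho : OddP (J.lev s.lam * (S'.map fun a => J.lev a.lam).prod) π :=
    OddP.mul hne ⟨p1, p2, by rw [← h0, p3]; exact odd_one⟩ i1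
  have hp0 : (S'.map fun a => J.lev a.lam).prod ≠ 0 := fun e => i1 (e ▸ dvd_zero π)
  have hv := hr _ (mul_ne_zero hne hp0)
    ⟨l.1.1 ^ (S'.length + 1) * r, mul_mem (pow_mem (hX (fst_mem_Fd _)) _) hr1, by
      rw [map_mul, i2, hev s List.mem_cons_self, mul_pow, ← hr2]
      ring⟩ π ho
  exact hs ((same_lv J s.lam).trans (hdq ▸ p5 J' hJ' hv))

theorem blockR {J J' : QF k} (hJ' : Nd J') (hs : ¬ J.Same J') {l : Gl k Ω}
    {X : IntermediateField k Ω} (hX : Fd k l.1 ≤ X)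
    (hr : ∀ n : R2 k, n ≠ 0 → Sq X (ev l.1 n) → ∀ π, OddP n π → J'.Vert π)
    {κ : Type} [Field κ] [Algebra k κ] [IsAlgClosed κ] {j : κ} (hb : Base k j)
    (L : List (Lev k Ω)) : Blk J (J.val l.1) L → L ≠ [] → ∀ n : R2 k, n ≠ 0 → ∀ m ∈ X, m ≠ 0 →
      Sq (adjL X (L.map Lev.y)) (ev (act L l).1 n * m) → ∀ l0 : Gl k (LaurentSeries κ),
      Reg J j l0.1 → Aff l0.1 → Od n l0.1 → False := by
  induction L with
  | nil => exact fun _ h => absurd rfl h
  | cons s L ih =>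
    intro h _ n hn m hm hm0 hsq l0 r0 a0 o0
    have hq := h.rc s List.mem_cons_self
    have hdq := h.dq s List.mem_cons_self
    obtain ⟨N, d, hN, hd, e1, e2⟩ := exists_norm hq (-(s.n : ℤ)) hn
    have hsN : Sq (adjL X (L.map Lev.y)) (ev (act L l).1 N) :=
      e2 Ω (act L l) s.y h.sq_act _ (act_le h.tail l hX) (nsq hJ' hs hX hr h) m (le_adjL _ _ hm)
        hm0 (by rw [← adjL_cons]; exact hsq)
    obtain ⟨y, hy⟩ := IsAlgClosed.exists_pow_nat_eq (j - algebraMap k κ s.lam) two_pos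
    have hb' : Base k (y ^ 2) := hy ▸ hb.sub s.lam
    have hreg : ∀ l' : LaurentSeries κ × LaurentSeries κ, Reg s.q.dQ (y ^ 2) l' ↔ Reg J j l' :=
      fun l' => by rw [hdq, hy, reg_lv]
    obtain ⟨l2, e, r2, he, o2, o3, h2⟩ := step hq.nd hb' hn hd
      (show (1 : ℤ) ≤ s.n by exact_mod_cast h.pos s List.mem_cons_self)
      (fun l' hl' => e1 _ l' _ hl') ((hreg _).2 r0) o0
    have r3 := r2.step hq.nd e
    by_cases hL : L = []
    · subst hL
      have hv := hr N hN (by rwa [List.map_nil, adjL_nil] at hsN)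
      obtain ⟨x1, x2⟩ := xp hq hb' hJ' r2 (finish hq.nd hb' r2 hN o2 hv) he
        (finish hq.nd hb' r3 hN o3 hv)
      exact x2 (h2 x1 ▸ a0)
    · have key := ih h.tail hL N hN 1 (one_mem X) one_ne_zero (by rwa [mul_one])
      by_cases a2 : Aff l2.1
      · exact key l2 ((hreg _).1 r2) a2 o2
      · by_cases a3 : Aff ((rho s.q (HahnSeries.C y) ^ e) l2).1
        · exact key _ ((hreg _).1 r3) a3 o3
        · have := inf2 hq.nd hb' r2 a2 a3
          omega

theorem con (τ : k →+* k) : CON τ Ω := by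
  intro ch J q' X hN hc hq' hr' hs hX hr
  obtain ⟨q0, L, l, h0, hJ, hL, hl, hB, ha, hM⟩ := dec ch J hN hc
  have hJ' : Nd q'.dQ := (rc_of_real hq' hr').toNd
  have hs' : ¬ q0.dQ.Same q'.dQ := fun h => hs (hJ.trans h)
  rw [← hl] at hX hr
  refine ⟨fun h => ?_, fun n hn m hm hm0 hsq π ho => ?_⟩
  · obtain ⟨s, L, rfl⟩ := List.exists_cons_of_ne_nil hL
    rw [← ha, act_cons] at h
    have := nf (hB.rc s List.mem_cons_self) (act L l) hB.sq_act (act_le hB.tail l hX)
      (nsq hJ' hs' hX hr hB) (h.trans (le_adjL _ _))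
    have h1 := hB.pos s List.mem_cons_self
    omega
  · by_contra hv
    obtain ⟨κ, _, _, _, j, l0, hb, r0, a0, o0⟩ := start hn ho fun h => hv (hJ.symm.vert h)
    refine blockR hJ' hs' hX hr hb L hB hL n hn m hm hm0 ?_ l0 r0 a0 o0
    obtain ⟨r, r1, r2⟩ := hsq
    refine ⟨r, (sup_le (le_adjL _ _) (hM.trans ?_)) r1, by rw [ha, r2]⟩
    exact sup_le_sup_right hX _

end Ivrii.Con
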