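import Pool.Agent.P.MP_7a8567_an.Cnc.AlgA

set_option autoImplicit false

/-! Field identities for the reflection in a conic. -/

namespace Ivrii.Con

open MvPolynomial

variable {k K : Type} [Field k] [Field K] [Algebra k K]

variable [CharZero k]

set_option linter.unusedSectionVars false

theorem grad_id (q : Conic k) (A : K × K) :
    algebraMap k K q.a * cw q A ^ 2 - algebraMap k K q.b * cz q A * cw q A
      + algebraMap k K q.c * cz q A ^ 2
      = algebraMap k K q.Δ - algebraMap k K q.dQ.c0 * cev q A := by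
  simp only [cw, cz, cev, Conic.Δ, Conic.dQ, map_add, map_sub, map_mul, map_pow, map_ofNat]
  ring

/-- the discriminant computed at an arbitrary point of the line -/
theorem val_at (q : Conic k) {l A : K × K} (ht : l.1 ≠ 0) (h : On l A) :
    q.dQ.val l = (cz q A * l.1 + cw q A / l.1) ^ 2 - 4 * cev q A *
      (algebraMap k K q.a * l.1 ^ 2 + algebraMap k K q.b + algebraMap k K q.c / l.1 ^ 2) := by
  unfold On at h
  simp only [QF.val, cw, cz, cev, Conic.dQ, map_add, map_sub, map_mul, map_pow, map_ofNat, h]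
  field_simp
  ring

theorem Rf.sq {q : Conic k} {y : K} {l A l' : K × K} (h : Rf q y l A l') :
    y ^ 2 = q.dQ.val l := by
  rw [val_at q h.t0 h.on, h.zero, ← h.yv]
  ring

theorem Rf.sq' {q : Conic k} {y : K} {l A l' : K × K} (h : Rf q y l A l') :
    y ^ 2 = q.dQ.val l' := by
  rw [← h.symm.sq]
  ring

theorem Rf.cz_ne {q : Conic k} (hq : q.Δ ≠ 0) {y : K} {l A l' : K × K} (h : Rf q y l A l') :
    cz q A ≠ 0 := by
  intro h0
  have h1 := h.law
  have h2 := grad_id q A
  rw [h0, mul_zero, zero_add] at h1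
  rw [h0, h1, h.zero] at h2
  exact (map_ne_zero (algebraMap k K)).2 hq (by linear_combination -h2)

omit [CharZero k] in
theorem alg_key_y {q : Conic k} {y : K} {l A l' : K × K} (h : Rf q y l A l') :
    y = cz q A * (l.1 - l'.1) := by
  have h0 := h.t0
  have h1 : cw q A = -(l.1 * l'.1 * cz q A) := by linear_combination h.law
  rw [h.yv, h1]
  field_simp
  ring

theorem alg_key_Δ {q : Conic k} {y : K} {l A l' : K × K} (h : Rf q y l A l') :
    algebraMap k K q.Δ = cz q A ^ 2 * (algebraMap k K q.a * l.1 ^ 2 * l'.1 ^ 2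
      + algebraMap k K q.b * l.1 * l'.1 + algebraMap k K q.c) := by
  have h1 : cw q A = -(l.1 * l'.1 * cz q A) := by linear_combination h.law
  have h2 := grad_id q A
  rw [h.zero, h1] at h2
  linear_combination -h2

theorem alg_zv_at (q : Conic k) {l A : K × K} (ht : l.1 ≠ 0) (h : On l A) :
    zv q.dQ l = (algebraMap k K q.b * cw q A - 2 * algebraMap k K q.c * cz q A)
      + (2 * algebraMap k K q.a * cw q A - algebraMap k K q.b * cz q A) * l.1 ^ 2 := by
  have : CharZero K := charZero_of_injective_algebraMap (algebraMap k K).injective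
  unfold On at h
  simp only [zv, cw, cz, Conic.dQ, map_add, map_sub, map_mul, map_pow, map_ofNat, h]
  field_simp
  ring

theorem Rf.form1 {q : Conic k} (hq : q.Δ ≠ 0) {y : K} {l A l' : K × K} (h : Rf q y l A l') :
    l'.1 * (1 + eta q y ^ 2 * algebraMap k K (BB q.dQ) * l.1 ^ 2)
      = em q y * l.1 - eta q y * zv q.dQ l := by
  have : CharZero K := charZero_of_injective_algebraMap (algebraMap k K).injective
  have hΔ : algebraMap k K q.Δ ≠ 0 := (map_ne_zero (algebraMap k K)).2 hq
  have h1 : cw q A = -(l.1 * l'.1 * cz q A) := by linear_combination h.law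
  have h2 := alg_key_Δ h
  have h3 := alg_key_y h
  rw [alg_zv_at q h.t0 h.on, h1, BB_dQ, eta, em]
  simp only [map_mul, map_neg, map_ofNat]
  field_simp
  rw [h2, h3]
  ring

theorem Rf.form2 {q : Conic k} (hq : q.Δ ≠ 0) {y : K} {l A l' : K × K} (h : Rf q y l A l') :
    l.1 * (1 + eta q y ^ 2 * algebraMap k K (BB q.dQ) * l'.1 ^ 2)
      = em q y * l'.1 + eta q y * zv q.dQ l' := by
  have h1 := h.symm.form1 hq
  have e1 : eta q (-y) = -eta q y := by simp only [eta, neg_div]
  have e2 : em q (-y) = em q y := by simp only [em, neg_sq]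
  rw [e1, e2] at h1
  linear_combination h1

theorem Rf.formZ {q : Conic k} (hq : q.Δ ≠ 0) {y : K} (hy : y ≠ 0) {l A l' : K × K}
    (h : Rf q y l A l') :
    zv q.dQ l' * (1 + eta q y ^ 2 * algebraMap k K (BB q.dQ) * l.1 ^ 2) ^ 2
      = (em q y * zv q.dQ l
          - eta q y * (JJ q.dQ (y ^ 2) * l.1 - 2 * algebraMap k K (BB q.dQ) * l.1 ^ 3))
          * (1 + eta q y ^ 2 * algebraMap k K (BB q.dQ) * l.1 ^ 2)
        - (em q y * l.1 - eta q y * zv q.dQ l)
          * (2 * eta q y ^ 2 * algebraMap k K (BB q.dQ) * l.1 * zv q.dQ l) := by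
  have : CharZero K := charZero_of_injective_algebraMap (algebraMap k K).injective
  have hΔ : algebraMap k K q.Δ ≠ 0 := (map_ne_zero (algebraMap k K)).2 hq
  have h1 : cw q A = -(l.1 * l'.1 * cz q A) := by linear_combination h.law
  have h2 := alg_key_Δ h
  have h3 := alg_key_y h
  rw [alg_zv_at q h.t0 h.on, alg_zv_at q h.t1 h.on', h1, BB_dQ, JJ_dQ, eta, em]
  simp only [Conic.dQ, map_mul, map_neg, map_ofNat, map_sub, map_pow]
  field_simp
  rw [h2, h3]
  ring

theorem grad_pos (q : Conic k) {l A : K × K} (ht : l.1 ≠ 0) (h : On l A) :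
    cz q A * l.1 + cw q A / l.1
      = (algebraMap k K q.a * l.1 ^ 2 - algebraMap k K q.c / l.1 ^ 2) * l.2
        + algebraMap k K q.d * l.1 + algebraMap k K q.e / l.1
        + 2 * (algebraMap k K q.a * l.1 ^ 2 + algebraMap k K q.b + algebraMap k K q.c / l.1 ^ 2)
          * pos l A := by
  have : CharZero K := charZero_of_injective_algebraMap (algebraMap k K).injective
  unfold On at h
  simp only [cw, cz, pos, h]
  field_simp
  ring

/-- position of the reflection point -/
theorem Rf.pos_eq {q : Conic k} {y : K} {l A l' : K × K} (h : Rf q y l A l') :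
    2 * (algebraMap k K q.a * l.1 ^ 2 + algebraMap k K q.b + algebraMap k K q.c / l.1 ^ 2)
        * pos l A
      = y - ((algebraMap k K q.a * l.1 ^ 2 - algebraMap k K q.c / l.1 ^ 2) * l.2
        + algebraMap k K q.d * l.1 + algebraMap k K q.e / l.1) := by
  linear_combination -h.yv - grad_pos q h.t0 h.on

theorem pt_pos [CharZero K] {l A : K × K} (ht : l.1 ≠ 0) (h : On l A) :
    pt l (pos l A) = A := by
  unfold On at h
  ext
  · simp only [pt, pos, h]
    field_simp
    ring
  · simp only [pt, pos, h]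
    field_simp
    ring

theorem Rf.unique {q : Conic k} (hq : q.Δ ≠ 0) {y : K} {l A A' l' l'' : K × K}
    (hα : algebraMap k K q.a * l.1 ^ 2 + algebraMap k K q.b + algebraMap k K q.c / l.1 ^ 2 ≠ 0)
    (h : Rf q y l A l') (h' : Rf q y l A' l'') : l' = l'' := by
  have : CharZero K := charZero_of_injective_algebraMap (algebraMap k K).injective
  have e : pos l A = pos l A' :=
    mul_left_cancel₀ (mul_ne_zero two_ne_zero hα) (h.pos_eq.trans h'.pos_eq.symm)
  have eA : A = A' := by rw [← pt_pos h.t0 h.on, e, pt_pos h.t0 h'.on]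
  subst eA
  have e1 : l'.1 = l''.1 := mul_left_cancel₀ (mul_ne_zero h.t0 (h.cz_ne hq))
    (by linear_combination h.law - h'.law)
  refine Prod.ext e1 ?_
  rw [h.on', h'.on', e1]

theorem Rf.exists {q : Conic k} {y : K} {l : K × K} (ht : l.1 ≠ 0)
    (hα : algebraMap k K q.a * l.1 ^ 2 + algebraMap k K q.b + algebraMap k K q.c / l.1 ^ 2 ≠ 0)
    (hy : y ^ 2 = q.dQ.val l)
    (h1 : algebraMap k K q.a * y ^ 2 * l.1 ^ 2 ≠ algebraMap k K q.Δ)
    (h2 : algebraMap k K q.c * y ^ 2 ≠ algebraMap k K q.Δ * l.1 ^ 2) :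
    ∃ A l', Rf q y l A l' := by
  have : CharZero K := charZero_of_injective_algebraMap (algebraMap k K).injective
  set α := algebraMap k K q.a * l.1 ^ 2 + algebraMap k K q.b + algebraMap k K q.c / l.1 ^ 2
    with hαd
  set β := (algebraMap k K q.a * l.1 ^ 2 - algebraMap k K q.c / l.1 ^ 2) * l.2
    + algebraMap k K q.d * l.1 + algebraMap k K q.e / l.1 with hβd
  obtain ⟨A, hA⟩ : ∃ A, A = pt l ((y - β) / (2 * α)) := ⟨_, rfl⟩
  have hon : On l A := by
    simp only [On, hA, pt]
    field_simp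
    ring
  have hpos : pos l A = (y - β) / (2 * α) := by
    simp only [pos, hA, pt]
    field_simp
    ring
  have hg : y = cz q A * l.1 + cw q A / l.1 := by
    rw [grad_pos q ht hon, hpos, ← hαd, ← hβd]
    field_simp
    ring
  have h0 : cev q A = 0 := by
    have := val_at q ht hon
    rw [← hy, ← hg, ← hαd] at this
    have h4 : (4 * α) * cev q A = 0 := by linear_combination this
    exact (mul_eq_zero.1 h4).resolve_left (mul_ne_zero (by norm_num) hα)
  have hgr := grad_id q A
  rw [h0] at hgr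
  have hz : cz q A ≠ 0 := fun hz => h1 (by
    rw [hz] at hg hgr
    have : cw q A = y * l.1 := by
      rw [hg]
      field_simp
      ring
    rw [this] at hgr
    linear_combination hgr)
  have hw : cw q A ≠ 0 := fun hw => h2 (by
    rw [hw] at hg hgr
    rw [hg]
    linear_combination l.1 ^ 2 * hgr)
  refine ⟨A, thru A (-cw q A / (l.1 * cz q A)), ht,
    div_ne_zero (neg_ne_zero.2 hw) (mul_ne_zero ht hz), hon, rfl, h0, ?_, hg⟩
  simp only [thru]
  field_simp
  ring

/-- the reflected line lies in every field containing the line and `y` -/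
theorem Rf.mem {q : Conic k} (hq : q.Δ ≠ 0) {y : K} {l A l' : K × K}
    (hα : algebraMap k K q.a * l.1 ^ 2 + algebraMap k K q.b + algebraMap k K q.c / l.1 ^ 2 ≠ 0)
    (h : Rf q y l A l') {X : IntermediateField k K} (h1 : l.1 ∈ X) (h2 : l.2 ∈ X) (hy : y ∈ X) :
    l'.1 ∈ X ∧ l'.2 ∈ X := by
  have : CharZero K := charZero_of_injective_algebraMap (algebraMap k K).injective
  have hk : ∀ a : k, algebraMap k K a ∈ X := X.algebraMap_mem
  have htwo : (2 : K) ∈ X := ofNat_mem X 2
  have hpos : pos l A ∈ X := by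
    rw [eq_div_of_mul_eq (mul_ne_zero two_ne_zero hα) ((mul_comm _ _).trans h.pos_eq)]
    exact div_mem (sub_mem hy (add_mem (add_mem (mul_mem (sub_mem (mul_mem (hk _) (pow_mem h1 2))
      (div_mem (hk _) (pow_mem h1 2))) h2) (mul_mem (hk _) h1)) (div_mem (hk _) h1)))
      (mul_mem htwo (add_mem (add_mem (mul_mem (hk _) (pow_mem h1 2)) (hk _))
        (div_mem (hk _) (pow_mem h1 2))))
  have hA := pt_pos h.t0 h.on
  have hz : A.1 ∈ X := by
    rw [← hA]
    exact mul_mem h1 (add_mem hpos (div_mem h2 htwo))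
  have hw : A.2 ∈ X := by
    rw [← hA]
    exact div_mem (sub_mem hpos (div_mem h2 htwo)) h1
  have ht : l'.1 ∈ X := by
    have e : l'.1 = -cw q A / (l.1 * cz q A) :=
      eq_div_of_mul_eq (mul_ne_zero h.t0 (h.cz_ne hq)) (by linear_combination h.law)
    rw [e]
    exact div_mem (neg_mem (add_mem (add_mem (mul_mem (hk _) hz) (mul_mem (mul_mem htwo (hk _)) hw))
      (hk _))) (mul_mem h1 (add_mem (add_mem (mul_mem (mul_mem htwo (hk _)) hz)
        (mul_mem (hk _) hw)) (hk _)))
  refine ⟨ht, ?_⟩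
  rw [h.on']
  exact sub_mem (div_mem hz ht) (mul_mem hw ht)

theorem Rf.ex {q : Conic k} (hq : q.Δ ≠ 0) {y : K} {l A l' : K × K} (h : Rf q y l A l')
    (D : Derivation k K K) : Ex D l l' := by
  have h0 := congrArg D h.zero
  simp only [cev, map_add, Derivation.leibniz, Derivation.leibniz_pow, Derivation.map_algebraMap,
    smul_eq_mul, map_zero, nsmul_eq_mul] at h0
  have h1 : D A.1 = l.1 * l'.1 * D A.2 := mul_left_cancel₀ (h.cz_ne hq) (by
    have h2 := h.law
    simp only [cz, cw] at h2 ⊢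
    push_cast at h0
    linear_combination h0 - D A.2 * h2)
  refine ⟨A.1 / l.1 + A.2 * l.1 - (A.1 / l'.1 + A.2 * l'.1), ?_⟩
  have t0 := h.t0
  have t1 := h.t1
  rw [h.on, h.on']
  simp only [map_add, map_sub, Derivation.leibniz, Derivation.leibniz_div, smul_eq_mul, h1]
  field_simp
  ring

/-- a line is determined by `t`, `Z` and `J` -/
theorem line_ext (J : QF k) {l l' : K × K} (ht : l.1 ≠ 0) (hz : zv J l ≠ 0) (h1 : l'.1 = l.1)
    (h2 : zv J l' = zv J l) (h3 : J.val l' = J.val l) : l' = l := by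
  have : CharZero K := charZero_of_injective_algebraMap (algebraMap k K).injective
  refine Prod.ext h1 ?_
  simp only [zv, QF.val, h1] at hz h2 h3
  have h4 : algebraMap k K J.c0 * (l'.2 - l.2) = 0 :=
    mul_left_cancel₀ ht (by linear_combination h2)
  refine mul_left_cancel₀ hz ?_
  have h5 : algebraMap k K J.b2 = algebraMap k K J.b2 / l.1 * l.1 := by field_simp
  linear_combination l.1 / 2 * h3 - l.1 * (l'.2 - l.2) / 2 * h4 + (l'.2 - l.2) / 2 * h5

theorem dQ_inj {q q' : Conic k} (hq : q.Δ ≠ 0) (h : q'.dQ = q.dQ) :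
    q' = q ∨ q' = scl (-1) q := by
  have ea : ∀ p : Conic k, 16 * (p.Δ * p.a) = p.dQ.b1 ^ 2 - 4 * p.dQ.B * p.dQ.c0 := fun p => by
    simp only [Conic.Δ, Conic.dQ]; ring
  have eb : ∀ p : Conic k, 8 * (p.Δ * p.b) = p.dQ.b1 * p.dQ.b2 - 2 * p.dQ.c0 * p.dQ.c1 :=
    fun p => by simp only [Conic.Δ, Conic.dQ]; ring
  have ec : ∀ p : Conic k, 16 * (p.Δ * p.c) = p.dQ.b2 ^ 2 - 4 * p.dQ.A * p.dQ.c0 := fun p => by
    simp only [Conic.Δ, Conic.dQ]; ring
  have ed : ∀ p : Conic k, 8 * (p.Δ * p.d) = p.dQ.c1 * p.dQ.b1 - 2 * p.dQ.B * p.dQ.b2 :=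
    fun p => by simp only [Conic.Δ, Conic.dQ]; ring
  have ee : ∀ p : Conic k, 8 * (p.Δ * p.e) = 2 * p.dQ.A * p.dQ.b1 - p.dQ.c1 * p.dQ.b2 :=
    fun p => by simp only [Conic.Δ, Conic.dQ]; ring
  have ef : ∀ p : Conic k, 16 * (p.Δ * p.f) = p.dQ.c1 ^ 2 - 4 * p.dQ.A * p.dQ.B := fun p => by
    simp only [Conic.Δ, Conic.dQ]; ring
  have eΔ : ∀ p : Conic k, 32 * p.Δ ^ 2 =
      -2 * p.dQ.A * (4 * p.dQ.B * p.dQ.c0 - p.dQ.b1 ^ 2)
        + p.dQ.c1 * (2 * p.dQ.c0 * p.dQ.c1 - p.dQ.b1 * p.dQ.b2)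
        + p.dQ.b2 * (2 * p.dQ.B * p.dQ.b2 - p.dQ.c1 * p.dQ.b1) := fun p => by
    simp only [Conic.Δ, Conic.dQ]; ring
  have ha := ea q'
  have hb := eb q'
  have hc := ec q'
  have hd := ed q'
  have he := ee q'
  have hf := ef q'
  have hΔ := eΔ q'
  rw [h, ← ea q] at ha
  rw [h, ← eb q] at hb
  rw [h, ← ec q] at hc
  rw [h, ← ed q] at hd
  rw [h, ← ee q] at he
  rw [h, ← ef q] at hf
  rw [h, ← eΔ q] at hΔ
  have : (q'.Δ - q.Δ) * (q'.Δ + q.Δ) = 0 := by linear_combination hΔ / 32
  rcases mul_eq_zero.1 this with h1 | h1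
  · have h2 : q'.Δ = q.Δ := by linear_combination h1
    rw [h2] at ha hb hc hd he hf
    refine Or.inl (Conic.ext ?_ ?_ ?_ ?_ ?_ ?_) <;> refine mul_left_cancel₀ hq ?_
    · linear_combination ha / 16
    · linear_combination hb / 8
    · linear_combination hc / 16
    · linear_combination hd / 8
    · linear_combination he / 8
    · linear_combination hf / 16
  · have h2 : q'.Δ = -q.Δ := by linear_combination h1
    rw [h2] at ha hb hc hd he hf
    refine Or.inr (Conic.ext ?_ ?_ ?_ ?_ ?_ ?_) <;> refine mul_left_cancel₀ hq ?_ <;>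
      simp only [scl]
    · linear_combination -ha / 16
    · linear_combination -hb / 8
    · linear_combination -hc / 16
    · linear_combination -hd / 8
    · linear_combination -he / 8
    · linear_combination -hf / 16

omit [CharZero k] in
theorem alg_shL (s1 s2 : k) (m : K × K) : shL s1 s2 (shL (-s1) (-s2) m) = m := by
  ext
  · rfl
  · simp only [shL, map_neg]
    ring

theorem sym1_val {J : QF k} {s1 s2 u : k} (hu : u ≠ 0) (h : Inv1 J s1 s2 u) {l : K × K}
    (ht : l.1 ≠ 0) : J.val (sym1 s1 s2 u l) = J.val l ∧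
      zv J (sym1 s1 s2 u l) = algebraMap k K u * zv J l := by
  have : CharZero K := charZero_of_injective_algebraMap (algebraMap k K).injective
  have hu' : algebraMap k K u ≠ 0 := (map_ne_zero (algebraMap k K)).2 hu
  have h0 : (sym1 s1 s2 u l).1 ≠ 0 := mul_ne_zero hu' ht
  rw [← val_shift J s1 s2 h0, ← zv_shift J s1 s2 h0, ← val_shift J s1 s2 ht,
    ← zv_shift J s1 s2 ht, sym1, alg_shL]
  obtain ⟨h1, h2, h3, h4⟩ := h
  generalize shift J s1 s2 = J' at *
  have e1 := congrArg (algebraMap k K) h1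
  have e2 := congrArg (algebraMap k K) h2
  have e3 := congrArg (algebraMap k K) h3
  have e4 := congrArg (algebraMap k K) h4
  simp only [map_mul, map_pow] at e1 e2 e3 e4
  have e : (shL s1 s2 l).1 = l.1 := rfl
  simp only [QF.val, zv, e]
  generalize (shL s1 s2 l).2 = P
  have f2 : algebraMap k K J'.b2 / (algebraMap k K u * l.1) = algebraMap k K J'.b2 / l.1 := by
    field_simp
    linear_combination -e2
  have f4 : algebraMap k K J'.A / (algebraMap k K u * l.1) ^ 2
      = algebraMap k K J'.A / l.1 ^ 2 := by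
    field_simp
    linear_combination -e4
  rw [f2, f4]
  exact ⟨by linear_combination P * l.1 * e1 + l.1 ^ 2 * e3,
    by linear_combination algebraMap k K u * l.1 ^ 2 / 2 * e1 - e2 / 2⟩

theorem sym2_val {J : QF k} {s1 s2 u : k} (hu : u ≠ 0) (h : Inv2 J s1 s2 u) {l : K × K}
    (ht : l.1 ≠ 0) : J.val (sym2 s1 s2 u l) = J.val l ∧
      zv J (sym2 s1 s2 u l) = -(algebraMap k K u * zv J l / l.1 ^ 2) := by
  have : CharZero K := charZero_of_injective_algebraMap (algebraMap k K).injective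
  have hu' : algebraMap k K u ≠ 0 := (map_ne_zero (algebraMap k K)).2 hu
  have h0 : (sym2 s1 s2 u l).1 ≠ 0 := div_ne_zero hu' ht
  rw [← val_shift J s1 s2 h0, ← zv_shift J s1 s2 h0, ← val_shift J s1 s2 ht,
    ← zv_shift J s1 s2 ht, sym2, alg_shL]
  obtain ⟨h1, h2⟩ := h
  generalize shift J s1 s2 = J' at *
  have e : (shL s1 s2 l).1 = l.1 := rfl
  simp only [QF.val, zv, e, h1, h2, map_mul, map_pow, map_neg]
  generalize (shL s1 s2 l).2 = P
  constructor
  · field_simp
    ring
  · field_simp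
    ring

theorem Iso.refl (J : QF k) (a : K × K) : Iso J a a :=
  ⟨0, 0, 1, one_ne_zero, Or.inl ⟨by simp [sym1, shL], by simp [Inv1]⟩⟩

end Ivrii.Con
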