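import Pool.Agent.P.MP_7a8567_an.Cnc.Defs

set_option autoImplicit false

/-! Field identities for the reflection in a conic. -/

namespace Ivrii.Con

open MvPolynomial

variable {k K : Type} [Field k] [Field K] [Algebra k K]

theorem ev_poly (q : Conic k) (A : K × K) : ev A q.poly = cev q A := by
  simp [ev, Conic.poly, cev]

theorem ev_d0 (q : Conic k) (A : K × K) : ev A (pderiv 0 q.poly) = cz q A := by
  simp [ev, Conic.poly, cz, pderiv_X]
  ring

theorem ev_d1 (q : Conic k) (A : K × K) : ev A (pderiv 1 q.poly) = cw q A := by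
  simp [ev, Conic.poly, cw, pderiv_X]
  ring

theorem ev_lev (J : QF k) (c : k) {l : K × K} (ht : l.1 ≠ 0) :
    ev l (J.lev c) = l.1 ^ 2 * (J.val l - algebraMap k K c) := by
  simp [ev, QF.lev, QF.val]
  field_simp
  ring

theorem val_lv (J : QF k) (c : k) (l : K × K) : (lv J c).val l = J.val l - algebraMap k K c := by
  simp only [lv, QF.val, map_sub]
  ring

theorem zv_lv (J : QF k) (c : k) (l : K × K) : zv (lv J c) l = zv J l := rfl

theorem lev_lv (J : QF k) (c c' : k) : (lv J c).lev c' = J.lev (c + c') := by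
  simp only [lv, QF.lev, sub_sub]

theorem val_map {K' : Type} [Field K'] [Algebra k K'] (φ : K →ₐ[k] K') (J : QF k) (l : K × K) :
    J.val (φ l.1, φ l.2) = φ (J.val l) := by
  simp [QF.val]

theorem zv_map {K' : Type} [Field K'] [Algebra k K'] (φ : K →ₐ[k] K') (J : QF k) (l : K × K) :
    zv J (φ l.1, φ l.2) = φ (zv J l) := by
  simp [zv, map_ofNat]

theorem ev_map {K' : Type} [Field K'] [Algebra k K'] (φ : K →ₐ[k] K') (n : R2 k) (l : K × K) :
    ev (φ l.1, φ l.2) n = φ (ev l n) := by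
  have e : ![φ l.1, φ l.2] = fun i => φ (![l.1, l.2] i) := by
    funext i
    fin_cases i <;> rfl
  simp only [ev, e]
  rw [← comp_aeval_apply]

theorem Rf.symm {q : Conic k} {y : K} {l A l' : K × K} (h : Rf q y l A l') :
    Rf q (-y) l' A l := by
  refine ⟨h.t1, h.t0, h.on', h.on, h.zero, by rw [mul_comm l'.1]; exact h.law, ?_⟩
  have h0 := h.t0
  have h1 := h.t1
  rw [h.yv, eq_neg_of_add_eq_zero_right h.law]
  field_simp
  ring

theorem Rf.map {K' : Type} [Field K'] [Algebra k K'] (φ : K →ₐ[k] K') {q : Conic k} {y : K}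
    {l A l' : K × K} (h : Rf q y l A l') :
    Rf q (φ y) (φ l.1, φ l.2) (φ A.1, φ A.2) (φ l'.1, φ l'.2) := by
  have a1 : cev q (φ A.1, φ A.2) = φ (cev q A) := by simp [cev]
  have a2 : cz q (φ A.1, φ A.2) = φ (cz q A) := by simp [cz, map_ofNat]
  have a3 : cw q (φ A.1, φ A.2) = φ (cw q A) := by simp [cw, map_ofNat]
  refine ⟨(map_ne_zero φ).2 h.t0, (map_ne_zero φ).2 h.t1, ?_, ?_, ?_, ?_, ?_⟩
  · simpa [On] using congrArg φ h.on
  · simpa [On] using congrArg φ h.on'
  · rw [a1, h.zero, map_zero]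
  · rw [a2, a3]
    simpa using congrArg φ h.law
  · rw [a2, a3]
    simpa using congrArg φ h.yv

theorem Rf.scale {q : Conic k} {y : K} {l A l' : K × K} (h : Rf q y l A l') (u : k) :
    Rf (scl u q) (algebraMap k K u * y) l A l' := by
  have a1 : cev (scl u q) A = algebraMap k K u * cev q A := by
    simp only [cev, scl, map_mul]
    ring
  have a2 : cz (scl u q) A = algebraMap k K u * cz q A := by
    simp only [cz, scl, map_mul]
    ring
  have a3 : cw (scl u q) A = algebraMap k K u * cw q A := by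
    simp only [cw, scl, map_mul]
    ring
  refine ⟨h.t0, h.t1, h.on, h.on', by rw [a1, h.zero, mul_zero], ?_, ?_⟩
  · rw [a2, a3]
    linear_combination algebraMap k K u * h.law
  · rw [a2, a3, h.yv]
    ring

theorem Rf.sw {q : Conic k} {y : K} {l A l' : K × K} (h : Rf q y l A l') :
    Rf (swC q) y (swL l) (A.2, A.1) (swL l') := by
  have a1 : cev (swC q) (A.2, A.1) = cev q A := by
    simp only [cev, swC]
    ring
  have a2 : cz (swC q) (A.2, A.1) = cw q A := by
    simp only [cz, cw, swC]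
    ring
  have a3 : cw (swC q) (A.2, A.1) = cz q A := by
    simp only [cz, cw, swC]
    ring
  have h0 := h.t0
  have h1 := h.t1
  have hon : ∀ m : K × K, On m A → On (swL m) (A.2, A.1) := fun m hm => by
    simp only [On, swL] at hm ⊢
    rw [hm, div_inv_eq_mul, div_eq_mul_inv]
    ring
  refine ⟨inv_ne_zero h0, inv_ne_zero h1, hon _ h.on, hon _ h.on', a1 ▸ h.zero, ?_, ?_⟩
  · rw [a2, a3, eq_neg_of_add_eq_zero_right h.law]
    simp only [swL]
    field_simp
    ring
  · rw [a2, a3, h.yv]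
    simp only [swL, div_eq_mul_inv, inv_inv]
    ring

theorem swC_Δ (q : Conic k) : (swC q).Δ = q.Δ := by
  simp only [swC, Conic.Δ]
  ring

theorem swC_dQ (q : Conic k) : (swC q).dQ = swJ q.dQ := by
  ext <;> simp only [swC, Conic.dQ, swJ] <;> ring

theorem RC.sw {q : Conic k} (h : RC q) : RC (swC q) := by
  exact ⟨by rw [swC_Δ]; exact h.nd, h.re.symm⟩

theorem Nd.sw {J : QF k} (h : Nd J) : Nd (swJ J) := by
  have a1 : AA (swJ J) = BB J := by simp [AA, BB, swJ]
  have a2 : BB (swJ J) = AA J := by simp [AA, BB, swJ]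
  refine ⟨by rw [a1, a2]; exact h.re.symm, fun h0 => ?_⟩
  rw [a1]
  exact fun h1 => h.par h0 (h.re.2 h1)

theorem val_sw (J : QF k) (l : K × K) : (swJ J).val (swL l) = J.val l := by
  simp only [QF.val, swJ, swL, map_neg, div_eq_mul_inv, inv_pow, inv_inv]
  ring

theorem zv_sw (J : QF k) {l : K × K} (ht : l.1 ≠ 0) :
    zv (swJ J) (swL l) = -zv J l / l.1 ^ 2 := by
  simp only [zv, swJ, swL, map_neg, div_eq_mul_inv]
  generalize (2 : K)⁻¹ = h
  field_simp
  ring

theorem Pen.sw {a : K × K} (h : Pen k (swL a)) : Pen k a := by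
  rcases h with ⟨zo, wo, h⟩ | ⟨t0, h⟩
  · refine Or.inl ⟨wo, zo, ?_⟩
    simp only [On, swL, div_eq_mul_inv, inv_inv] at h ⊢
    linear_combination -h
  · refine Or.inr ⟨t0⁻¹, ?_⟩
    rw [map_inv₀, ← h]
    simp [swL]

theorem scl_Δ (u : k) (q : Conic k) : (scl u q).Δ = u ^ 3 * q.Δ := by
  simp only [scl, Conic.Δ]
  ring

theorem scl_dQ (u : k) (q : Conic k) : (scl u q).dQ =
    ⟨u ^ 2 * q.dQ.c0, u ^ 2 * q.dQ.b1, u ^ 2 * q.dQ.b2, u ^ 2 * q.dQ.B, u ^ 2 * q.dQ.c1,
      u ^ 2 * q.dQ.A⟩ := by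
  ext <;> simp only [scl, Conic.dQ] <;> ring

theorem scl_poly (u : k) (q : Conic k) : (scl u q).poly = C u * q.poly := by
  simp only [scl, Conic.poly, map_mul]
  ring

theorem val_shift (J : QF k) (s1 s2 : k) {l : K × K} (ht : l.1 ≠ 0) :
    (shift J s1 s2).val (shL s1 s2 l) = J.val l := by
  simp only [QF.val, shift, shL, map_sub, map_add, map_mul, map_pow, map_ofNat]
  field_simp
  ring

variable [CharZero k]

theorem zv_shift (J : QF k) (s1 s2 : k) {l : K × K} (ht : l.1 ≠ 0) :
    zv (shift J s1 s2) (shL s1 s2 l) = zv J l := by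
  have : CharZero K := charZero_of_injective_algebraMap (algebraMap k K).injective
  simp only [zv, shift, shL, map_sub, map_mul, map_ofNat]
  field_simp
  ring

theorem zv_sq (J : QF k) {l : K × K} (ht : l.1 ≠ 0) :
    zv J l ^ 2 = -algebraMap k K (AA J) + JJ J (J.val l) * l.1 ^ 2
      - algebraMap k K (BB J) * l.1 ^ 4 := by
  have : CharZero K := charZero_of_injective_algebraMap (algebraMap k K).injective
  simp only [zv, AA, BB, JJ, QF.val, map_sub, map_mul, map_pow, map_div₀, map_ofNat]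
  field_simp
  ring

theorem AA_dQ (q : Conic k) : AA q.dQ = -4 * q.c * q.Δ := by
  simp only [AA, Conic.dQ, Conic.Δ]
  ring

theorem BB_dQ (q : Conic k) : BB q.dQ = -4 * q.a * q.Δ := by
  simp only [BB, Conic.dQ, Conic.Δ]
  ring

theorem JJ_dQ (q : Conic k) (j : K) :
    JJ q.dQ j = algebraMap k K q.dQ.c0 * j + 4 * algebraMap k K q.b * algebraMap k K q.Δ := by
  have : CharZero K := charZero_of_injective_algebraMap (algebraMap k K).injective
  simp only [JJ, Conic.dQ, Conic.Δ, map_sub, map_add, map_mul, map_pow, map_ofNat]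
  ring

theorem RC.toNd {q : Conic k} (h : RC q) : Nd q.dQ := by
  have hΔ := h.nd
  refine ⟨?_, fun h0 h1 => ?_⟩
  · rw [AA_dQ, BB_dQ]
    simp [hΔ, h.re]
  · rw [AA_dQ] at h1
    have hc : q.c = 0 := by simpa [hΔ] using h1
    have ha := h.re.2 hc
    have hb : q.b = 0 := by simpa [Conic.dQ, hc] using h0
    exact hΔ (by simp [Conic.Δ, ha, hb, hc])

theorem em_sq {q : Conic k} (h : q.Δ ≠ 0) (y : K) :
    em q y ^ 2 = 1 + JJ q.dQ (y ^ 2) * eta q y ^ 2
      + algebraMap k K (AA q.dQ) * algebraMap k K (BB q.dQ) * eta q y ^ 4 := by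
  have : CharZero K := charZero_of_injective_algebraMap (algebraMap k K).injective
  have hΔ : algebraMap k K q.Δ ≠ 0 := (map_ne_zero _).2 h
  rw [JJ_dQ, AA_dQ, BB_dQ]
  simp only [em, eta, Conic.dQ, map_sub, map_mul, map_pow, map_neg, map_ofNat]
  field_simp
  ring

theorem em_eq {q : Conic k} (h : q.Δ ≠ 0) (y : K) :
    em q y = 1 + 2 * algebraMap k K q.b * algebraMap k K q.Δ * eta q y ^ 2 := by
  have : CharZero K := charZero_of_injective_algebraMap (algebraMap k K).injective
  have hΔ : algebraMap k K q.Δ ≠ 0 := (map_ne_zero _).2 h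
  simp only [em, eta]
  field_simp

end Ivrii.Con
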