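import Pool.Agent.P.MP_7a8567_an.Cnc.BaseA
import Pool.Agent.P.MP_7a8567_an.T.Cl

set_option autoImplicit false

/-! Valuations, automorphisms and existence of the base field. -/

namespace Ivrii.Con

open MvPolynomial

variable {k κ : Type} [Field k] [Field κ] [Algebra k κ] [IsAlgClosed k] [CharZero k]

omit [IsAlgClosed k] [CharZero k] in
theorem base_val_const {Γ : Type} [LinearOrderedCommGroupWithZero Γ] (v : Valuation κ Γ)
    (hk : ∀ a : k, v (algebraMap k κ a) ≤ 1) {a : k} (ha : a ≠ 0) : v (algebraMap k κ a) = 1 := by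
  refine (hk a).antisymm ?_
  have h1 : v (algebraMap k κ a) * v (algebraMap k κ a⁻¹) = 1 := by
    rw [← map_mul, ← map_mul, mul_inv_cancel₀ ha, map_one, map_one]
  calc (1 : Γ) = v (algebraMap k κ a) * v (algebraMap k κ a⁻¹) := h1.symm
    _ ≤ v (algebraMap k κ a) * 1 := mul_le_mul_right (hk _) _
    _ = _ := mul_one _

omit [CharZero k] in
theorem base_val_poly {Γ : Type} [LinearOrderedCommGroupWithZero Γ] (v : Valuation κ Γ)
    (hk : ∀ a : k, v (algebraMap k κ a) ≤ 1) {x : κ} (hx : ∀ a : k, v (x - algebraMap k κ a) = 1)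
    {p : Polynomial k} (hp : p ≠ 0) : v (Polynomial.aeval x p) = 1 := by
  rw [(IsAlgClosed.splits p).eq_prod_roots, map_mul, map_mul, Polynomial.aeval_C,
    base_val_const v hk (Polynomial.leadingCoeff_ne_zero.2 hp), one_mul, map_multiset_prod,
    map_multiset_prod]
  refine Multiset.prod_eq_one fun y hy => ?_
  simp only [Multiset.map_map, Multiset.mem_map, Function.comp_apply] at hy
  obtain ⟨a, -, rfl⟩ := hy
  rw [map_sub, Polynomial.aeval_X, Polynomial.aeval_C, hx]

theorem Base.val {j : κ} (h : Base k j) :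
    ∃ O : ValuationSubring κ, Val k O.valuation ∧ O.valuation j < 1 := by
  have hj : j ∈ (Algebra.adjoin k {j}).toSubring := Algebra.self_mem_adjoin_singleton k j
  have hI : Ideal.span {(⟨j, hj⟩ : (Algebra.adjoin k {j}).toSubring)} ≠ ⊤ := by
    rw [Ne, Ideal.span_singleton_eq_top, isUnit_iff_exists_inv]
    rintro ⟨⟨b, hb⟩, e⟩
    have hb' : b ∈ Algebra.adjoin k {j} := hb
    rw [Algebra.adjoin_singleton_eq_range_aeval] at hb'
    obtain ⟨p, rfl⟩ := hb'
    have e1 : Polynomial.aeval j (Polynomial.X * p) = Polynomial.aeval j (1 : Polynomial k) := by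
      rw [map_mul, Polynomial.aeval_X, map_one]
      exact congrArg Subtype.val e
    have e2 := congrArg (Polynomial.eval 0) (transcendental_iff_injective.1 h.tr e1)
    simp at e2
  obtain ⟨O, h1, h2⟩ := Ideal.image_subset_nonunits_valuationSubring _ hI
  have hv : O.valuation j < 1 := h2 ⟨⟨j, hj⟩, Ideal.subset_span rfl, rfl⟩
  have hk : ∀ a : k, O.valuation (algebraMap k κ a) ≤ 1 := fun a =>
    (O.valuation_le_one_iff _).2 (h1 ((Algebra.adjoin k {j}).algebraMap_mem a))
  refine ⟨O, ⟨hk, fun x hx => ?_⟩, hv⟩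
  by_contra hn
  have hx1 : ∀ a : k, O.valuation (x - algebraMap k κ a) = 1 := fun a =>
    (O.valuation.map_sub_le hx (hk a)).antisymm (not_lt.1 fun e => hn ⟨a, e⟩)
  have hb : Base k x := h.of_ne fun a e => by simpa [e] using hx1 a
  have hF : ∀ f : IntermediateField.adjoin k {x}, (f : κ) ∈ O := fun f => by
    obtain ⟨p, q, e⟩ := (IntermediateField.mem_adjoin_simple_iff k (f : κ)).1 f.2
    rw [← O.valuation_le_one_iff, e, map_div₀]
    by_cases hp : p = 0
    · simp [hp]
    by_cases hq : q = 0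
    · simp [hq]
    rw [base_val_poly _ hk hx1 hp, base_val_poly _ hk hx1 hq, div_one]
  let _ : Algebra (IntermediateField.adjoin k {x}) O :=
    (RingHom.codRestrict (algebraMap (IntermediateField.adjoin k {x}) κ) O hF).toAlgebra
  have : IsScalarTower (IntermediateField.adjoin k {x}) O κ := .of_algebraMap_eq fun _ => rfl
  have h3 : IsIntegral O j⁻¹ := (hb.alg.isAlgebraic j⁻¹).isIntegral.tower_top
  obtain ⟨z, hz⟩ := IsIntegrallyClosed.algebraMap_eq_of_integral h3
  have h4 : j⁻¹ ∈ O := hz ▸ z.2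
  rcases O.mem_nonunits_iff_or.1 hv with e | e
  · exact h.tr (e ▸ isAlgebraic_zero)
  · exact e h4

omit [IsAlgClosed k] [CharZero k] in
theorem base_not_sq (T : Finset k) (hT : T.Nonempty) {p q : Polynomial k} (hq : q ≠ 0) :
    (∏ c ∈ T, (Polynomial.X - Polynomial.C c)) * (q * q) ≠ p * p := by
  classical
  intro e
  obtain ⟨c, hc⟩ := hT
  have h1 : (∏ d ∈ T.erase c, (Polynomial.X - Polynomial.C d)).rootMultiplicity c = 0 := by
    refine Polynomial.rootMultiplicity_eq_zero ?_
    rw [Polynomial.IsRoot, Polynomial.eval_prod, Finset.prod_eq_zero_iff]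
    rintro ⟨d, hd, e1⟩
    rw [Polynomial.eval_sub, Polynomial.eval_X, Polynomial.eval_C, sub_eq_zero] at e1
    exact (Finset.mem_erase.1 hd).1 e1.symm
  have h2 : (∏ c ∈ T, (Polynomial.X - Polynomial.C c) : Polynomial k) ≠ 0 :=
    Finset.prod_ne_zero_iff.2 fun d _ => Polynomial.X_sub_C_ne_zero d
  have h3 := mul_ne_zero h2 (mul_ne_zero hq hq)
  have h4 := congrArg (Polynomial.rootMultiplicity c) e
  rw [Polynomial.rootMultiplicity_mul h3, Polynomial.rootMultiplicity_mul (mul_ne_zero hq hq),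
    Polynomial.rootMultiplicity_mul (e ▸ h3)] at h4
  rw [← Finset.mul_prod_erase _ _ hc] at h2 h4
  rw [Polynomial.rootMultiplicity_mul h2, h1, Polynomial.rootMultiplicity_X_sub_C_self] at h4
  omega

theorem Base.flip [IsAlgClosed κ] {y : κ} (h : Base k (y ^ 2)) (S : Finset k) (h0 : (0 : k) ∉ S) :
    ∃ g : κ ≃ₐ[k] κ, g y = -y ∧
      ∀ c ∈ S, ∀ r : κ, r ^ 2 = y ^ 2 - algebraMap k κ c → g r = r := by
  classical
  have hY : ∀ c : k, ∃ r : κ, r ^ 2 = y ^ 2 - algebraMap k κ c ∧ (c = 0 → r = y) := fun c => by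
    by_cases hc : c = 0
    · exact ⟨y, by simp [hc], fun _ => rfl⟩
    · obtain ⟨r, hr⟩ := IsAlgClosed.exists_pow_nat_eq (y ^ 2 - algebraMap k κ c) two_pos
      exact ⟨r, hr, fun e => absurd e hc⟩
  choose Y hY hY0 using hY
  have hinj := transcendental_iff_injective.1 h.tr
  obtain ⟨g, -, hg⟩ := S3.mq (IntermediateField.adjoin k {y ^ 2})
    (fun c : (insert 0 S : Finset k) => Y c)
    (fun c => by
      rw [hY]
      exact sub_mem (IntermediateField.mem_adjoin_simple_self k _)
        (IntermediateField.algebraMap_mem _ _))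
    (fun T hT hm => by
      obtain ⟨p, q, e⟩ := (IntermediateField.mem_adjoin_simple_iff k _).1 hm
      have e1 : (∏ i ∈ T, Y i) ^ 2 = Polynomial.aeval (y ^ 2)
          (∏ c ∈ T.map (Function.Embedding.subtype _), (Polynomial.X - Polynomial.C c)) := by
        rw [Finset.prod_map, map_prod, ← Finset.prod_pow]
        exact Finset.prod_congr rfl fun i _ => by simp [hY]
      have h2 : (∏ c ∈ T.map (Function.Embedding.subtype _),
          (Polynomial.X - Polynomial.C c) : Polynomial k) ≠ 0 :=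
        Finset.prod_ne_zero_iff.2 fun d _ => Polynomial.X_sub_C_ne_zero d
      have hq : q ≠ 0 := by
        rintro rfl
        rw [map_zero, div_zero] at e
        rw [e, zero_pow two_ne_zero, eq_comm, map_eq_zero_iff _ hinj] at e1
        exact h2 e1
      have hq' : Polynomial.aeval (y ^ 2) q ≠ 0 := (map_ne_zero_iff _ hinj).2 hq
      refine base_not_sq (T.map (Function.Embedding.subtype _)) (Finset.map_nonempty.2 hT)
        (p := p) hq (hinj ?_)
      rw [map_mul, map_mul, map_mul, ← e1, e]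
      field_simp)
    {c | (c : k) = 0}
  refine ⟨g, ?_, fun c hc r hr => ?_⟩
  · have := (hg ⟨0, Finset.mem_insert_self _ _⟩).1 rfl
    rwa [hY0 0 rfl] at this
  · have h1 : g (Y c) = Y c :=
      (hg ⟨c, Finset.mem_insert_of_mem hc⟩).2 fun e : c = 0 => h0 (e ▸ hc)
    rcases sq_eq_sq_iff_eq_or_eq_neg.1 (hr.trans (hY c).symm) with e | e
    · rw [e, h1]
    · rw [e, map_neg, h1]

omit [IsAlgClosed k] [CharZero k] in
theorem base_ev_lev (J : QF k) (c : k) {a : κ × κ} (ha : a.1 ≠ 0) :
    ev a (J.lev c) = a.1 ^ 2 * (J.val a - algebraMap k κ c) := by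
  simp only [ev, QF.lev, QF.val, map_add, map_mul, map_pow, map_sub, aeval_C, aeval_X,
    Matrix.cons_val_zero, Matrix.cons_val_one]
  field_simp
  ring

omit [CharZero k] in
theorem base_of_cl {x j : κ} (hx : ∀ z, z ∈ T.cl k {x}) (hj : ∀ a : k, j ≠ algebraMap k κ a) :
    Base k j := by
  have h1 : j ∉ T.cl k (∅ : Set κ) := fun e => by
    obtain ⟨a, ha⟩ := T.mem_cl_empty.1 e
    exact hj a ha.symm
  have h2 : x ∈ T.cl k {j} := by
    have := T.cl_exchange (S := ∅) (b := x) (by simpa using hx j) h1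
    simpa using this
  refine ⟨fun e => ?_, ⟨fun z => IntermediateField.isAlgebraic_adjoin_iff.2 ?_⟩⟩
  · obtain ⟨p, hp, e⟩ := e
    exact h1 (T.cl_of_root (p.map (algebraMap k κ)) (Polynomial.map_ne_zero hp)
      (fun n => by rw [Polynomial.coeff_map]; exact T.cl_algebraMap _ _)
      (by rwa [Polynomial.eval_map_algebraMap]))
  · exact T.cl_subset_cl (Set.singleton_subset_iff.2 h2) (hx z)

/-- the generic point of a prime that is not vertical -/
theorem exists_base (J : QF k) {π : R2 k} (hπ : Irreducible π) (h0 : ¬ Associated π (X 0))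
    (hv : ¬ J.Vert π) : ∃ (κ : Type) (_ : Field κ) (_ : Algebra k κ) (_ : IsAlgClosed κ)
      (a : κ × κ), a.1 ≠ 0 ∧ ev a π = 0 ∧ Base k (J.val a) := by
  have : (Ideal.span {π}).IsPrime := (Ideal.span_singleton_prime hπ.ne_zero).2 hπ.prime
  let A := R2 k ⧸ Ideal.span {π}
  let K := AlgebraicClosure (FractionRing A)
  have hi : Function.Injective (algebraMap A K) := by
    rw [IsScalarTower.algebraMap_eq A (FractionRing A) K]
    exact (algebraMap (FractionRing A) K).injective.comp (IsFractionRing.injective A _)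
  let φ : R2 k →ₐ[k] K := (IsScalarTower.toAlgHom k A K).comp (Ideal.Quotient.mkₐ k _)
  have hφ : ∀ n, φ n = 0 ↔ π ∣ n := fun n => by
    rw [← Ideal.mem_span_singleton, ← Ideal.Quotient.eq_zero_iff_mem]
    exact map_eq_zero_iff _ hi
  let a : K × K := (φ (X 0), φ (X 1))
  have he : ev a = φ := by
    refine MvPolynomial.algHom_ext fun i => ?_
    fin_cases i <;> simp [ev, a]
  have ha : a.1 ≠ 0 := fun e =>
    h0 (hπ.associated_of_dvd X_prime.irreducible ((hφ _).1 e))
  have hj : ∀ c : k, J.val a ≠ algebraMap k K c := fun c e =>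
    hv ⟨c, (hφ _).1 (by rw [← he, base_ev_lev J c ha, e, sub_self, mul_zero])⟩
  have hcl : ∀ z : K, z ∈ T.cl k {a.1, a.2} := fun z => by
    have : Algebra.IsAlgebraic A (FractionRing A) :=
      IsLocalization.isAlgebraic _ (nonZeroDivisors A)
    obtain ⟨p, hp, e⟩ := (Algebra.IsAlgebraic.trans A (FractionRing A) K).isAlgebraic z
    refine T.cl_of_root (p.map (algebraMap A K)) ((Polynomial.map_ne_zero_iff hi).2 hp)
      (fun n => ?_) (by rwa [Polynomial.eval_map_algebraMap])
    obtain ⟨m, hm⟩ := Ideal.Quotient.mk_surjective (p.coeff n)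
    have e1 : algebraMap A K (p.coeff n) = ev a m := by
      rw [he, ← hm]
      rfl
    rw [Polynomial.coeff_map, e1]
    refine T.adjoin_subset_cl _ ?_
    rw [← Matrix.range_cons_cons_empty a.1 a.2, Algebra.adjoin_range_eq_range_aeval]
    exact ⟨m, rfl⟩
  have hg : ¬ AlgebraicIndependent k ![a.1, a.2] := fun e =>
    hπ.ne_zero (e (show ev a π = ev a 0 by rw [map_zero, he, hφ]))
  refine ⟨K, inferInstance, inferInstance, inferInstance, a, ha, by rw [he, hφ], ?_⟩
  rw [T.algInd_pair, not_and_or, not_not, not_not] at hg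
  rcases hg with e | e
  · exact base_of_cl (x := a.2) (fun z => T.cl_subset_cl (Set.insert_subset
      (T.cl_mono (Set.empty_subset _) e) (T.subset_cl _)) (hcl z)) hj
  · exact base_of_cl (x := a.1) (fun z => T.cl_subset_cl (Set.insert_subset
      (T.mem_cl (Set.mem_singleton _)) (Set.singleton_subset_iff.2 e)) (hcl z)) hj

end Ivrii.Con
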