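import Pool.Agent.P.MP_7a8567_an.Cnc.Alg
import Pool.Agent.P.MP_7a8567_an.S3.Gal
import Pool.Agent.P.MP_7a8567_an.T.Der

set_option autoImplicit false

/-! The algebraic closure of a rational function field in one variable. -/

namespace Ivrii.Con

open MvPolynomial

variable {k κ : Type} [Field k] [Field κ] [Algebra k κ] [IsAlgClosed k] [CharZero k]

omit [CharZero k] in
theorem basea_iff {j : κ} :
    Base k j ↔ j ∉ T.cl k (∅ : Set κ) ∧ ∀ a : κ, a ∈ T.cl k {j} := by
  have h1 : Transcendental k j ↔ j ∉ T.cl k (∅ : Set κ) := by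
    rw [T.mem_cl_empty]
    refine ⟨fun h ⟨c, hc⟩ => h (hc ▸ isAlgebraic_algebraMap c), fun h h' => h ?_⟩
    exact minpoly.mem_range_of_degree_eq_one k j
      (IsAlgClosed.degree_eq_one_of_irreducible k (minpoly.irreducible h'.isIntegral))
  have h2 : ∀ a : κ, IsAlgebraic (IntermediateField.adjoin k {j}) a ↔ a ∈ T.cl k {j} := fun a =>
    IntermediateField.isAlgebraic_adjoin_iff
  exact ⟨fun h => ⟨h1.1 h.tr, fun a => (h2 a).1 (h.alg.isAlgebraic a)⟩,
    fun h => ⟨h1.2 h.1, ⟨fun a => (h2 a).2 (h.2 a)⟩⟩⟩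

omit [CharZero k] in
theorem basea_of {j u : κ} (h : Base k j) (hu : u ∉ T.cl k (∅ : Set κ)) : Base k u := by
  obtain ⟨-, h2⟩ := basea_iff.1 h
  refine basea_iff.2 ⟨hu, fun a => ?_⟩
  have h3 : j ∈ T.cl k (insert u (∅ : Set κ)) := T.cl_exchange (by simpa using h2 u) hu
  exact T.cl_subset_cl (by simpa using h3) (h2 a)

theorem Base.sub {j : κ} (h : Base k j) (c : k) : Base k (j - algebraMap k κ c) :=
  basea_of h fun h' => (basea_iff.1 h).1 (by simpa using T.cl_add h' (T.cl_algebraMap ∅ c))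

theorem Base.not_gen {j : κ} (h : Base k j) (a : κ × κ) : ¬ Gen k a := fun hg => by
  obtain ⟨h1, h2⟩ := T.algInd_pair.1 hg
  exact h2 ((basea_iff.1 (basea_of h h1)).2 _)

/-- every element outside `k` is again a transcendence basis -/
theorem Base.of_ne {j u : κ} (h : Base k j) (hu : ∀ a : k, u ≠ algebraMap k κ a) : Base k u :=
  basea_of h fun h' => by
    obtain ⟨a, ha⟩ := T.mem_cl_empty.1 h'
    exact hu a ha.symm

theorem Base.der {j : κ} (h : Base k j) : ∃ D : Derivation k κ κ, D j = 1 ∧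
    ∀ f, D f = 0 → ∃ a : k, f = algebraMap k κ a := by
  obtain ⟨D, -, hD⟩ := T.exists_der_one (basea_iff.1 h).1
  refine ⟨D, hD, fun f hf => ?_⟩
  by_contra hn
  have h1 := (basea_iff.1 (h.of_ne fun a ha => hn ⟨a, ha⟩)).2 j
  have h2 := T.der_cl_zero D (S := {f}) (by simpa using hf) j h1
  exact one_ne_zero (hD.symm.trans h2)

end Ivrii.Con
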