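import Pool.Agent.P.MP_7a8567_an.Cnc.Rho

set_option autoImplicit false

/-! Reflections in conics of one family commute. -/

namespace Ivrii.Con

variable {k K : Type} [Field k] [Field K] [Algebra k K] [CharZero k]

private lemma comm_id {a b J t Z e1 m1 e2 m2 : K} (hZ : Z ^ 2 = -a + J * t ^ 2 - b * t ^ 4)
    (h1 : m1 ^ 2 = 1 + J * e1 ^ 2 + a * b * e1 ^ 4)
    (h2 : m2 ^ 2 = 1 + J * e2 ^ 2 + a * b * e2 ^ 4) :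
    (m2 * (m1 * t - e1 * Z) * (1 + e1 ^ 2 * b * t ^ 2)
        - e2 * ((m1 * Z - e1 * (J * t - 2 * b * t ^ 3)) * (1 + e1 ^ 2 * b * t ^ 2)
          - (m1 * t - e1 * Z) * (2 * e1 ^ 2 * b * t * Z)))
      * ((1 + e2 ^ 2 * b * t ^ 2) ^ 2 + e1 ^ 2 * b * (m2 * t - e2 * Z) ^ 2)
    = (m1 * (m2 * t - e2 * Z) * (1 + e2 ^ 2 * b * t ^ 2)
        - e1 * ((m2 * Z - e2 * (J * t - 2 * b * t ^ 3)) * (1 + e2 ^ 2 * b * t ^ 2)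
          - (m2 * t - e2 * Z) * (2 * e2 ^ 2 * b * t * Z)))
      * ((1 + e1 ^ 2 * b * t ^ 2) ^ 2 + e2 ^ 2 * b * (m1 * t - e1 * Z) ^ 2) := by
  linear_combination (2 * a * b ^ 2 * t * e1 ^ 5 * e2 ^ 3 - 2 * a * b ^ 2 * t * e1 ^ 3 * e2 ^ 5 + 2 * b ^ 3 * t
      ^ 5 * e1 ^ 5 * e2 ^ 3 - 2 * b ^ 3 * t ^ 5 * e1 ^ 3 * e2 ^ 5 - b ^ 2 * J * t ^ 3 * e1 ^ 5 *
      e2 ^ 3 + b ^ 2 * J * t ^ 3 * e1 ^ 3 * e2 ^ 5 - b ^ 2 * t ^ 3 * e1 ^ 4 * m1 * e2 ^ 2 * m2 +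
      b ^ 2 * t ^ 3 * e1 ^ 2 * m1 * e2 ^ 4 * m2 + 3 * b ^ 2 * t ^ 2 * Z * e1 ^ 5 * e2 ^ 2 * m2 +
      b ^ 2 * t ^ 2 * Z * e1 ^ 4 * m1 * e2 ^ 3 - b ^ 2 * t ^ 2 * Z * e1 ^ 3 * e2 ^ 4 * m2 - 3 *
      b ^ 2 * t ^ 2 * Z * e1 ^ 2 * m1 * e2 ^ 5 - 2 * b ^ 2 * t * Z ^ 2 * e1 ^ 5 * e2 ^ 3 + 2 * b
      ^ 2 * t * Z ^ 2 * e1 ^ 3 * e2 ^ 5 + 2 * b * t * e1 ^ 3 * e2 * m2 ^ 2 - 2 * b * t * e1 ^ 3
      * e2 - 2 * b * t * e1 * m1 ^ 2 * e2 ^ 3 + 2 * b * t * e1 * e2 ^ 3) * hZ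
    + (2 * a * b * t * e1 * e2 ^ 3 + 2 * b ^ 3 * t ^ 7 * e1 * e2 ^ 5 - b ^ 2 * J * t ^ 5 * e1 *
      e2 ^ 5 + 4 * b ^ 2 * t ^ 5 * e1 * e2 ^ 3 - b ^ 2 * t ^ 5 * m1 * e2 ^ 4 * m2 + b ^ 2 * t ^
      4 * Z * e1 * e2 ^ 4 * m2 + b ^ 2 * t ^ 4 * Z * m1 * e2 ^ 5 - 3 * b * J * t ^ 3 * e1 * e2 ^
      3 - b * t ^ 3 * m1 * e2 ^ 2 * m2 + 3 * b * t ^ 2 * Z * e1 * e2 ^ 2 * m2 + b * t ^ 2 * Z *
      m1 * e2 ^ 3) * h1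
    + (-2 * a * b * t * e1 ^ 3 * e2 - 2 * b ^ 3 * t ^ 7 * e1 ^ 5 * e2 + b ^ 2 * J * t ^ 5 * e1 ^
      5 * e2 + b ^ 2 * t ^ 5 * e1 ^ 4 * m1 * m2 - 4 * b ^ 2 * t ^ 5 * e1 ^ 3 * e2 - b ^ 2 * t ^
      4 * Z * e1 ^ 5 * m2 - b ^ 2 * t ^ 4 * Z * e1 ^ 4 * m1 * e2 + 3 * b * J * t ^ 3 * e1 ^ 3 *
      e2 + b * t ^ 3 * e1 ^ 2 * m1 * m2 - b * t ^ 2 * Z * e1 ^ 3 * m2 - 3 * b * t ^ 2 * Z * e1 ^
      2 * m1 * e2) * h2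

private lemma comm_t {a b J t Z e1 m1 e2 m2 t1 Z1 t12 t2 Z2 t21 : K}
    (hZ : Z ^ 2 = -a + J * t ^ 2 - b * t ^ 4)
    (h1 : m1 ^ 2 = 1 + J * e1 ^ 2 + a * b * e1 ^ 4)
    (h2 : m2 ^ 2 = 1 + J * e2 ^ 2 + a * b * e2 ^ 4)
    (f1 : t1 * (1 + e1 ^ 2 * b * t ^ 2) = m1 * t - e1 * Z)
    (z1 : Z1 * (1 + e1 ^ 2 * b * t ^ 2) ^ 2 =
      (m1 * Z - e1 * (J * t - 2 * b * t ^ 3)) * (1 + e1 ^ 2 * b * t ^ 2)
        - (m1 * t - e1 * Z) * (2 * e1 ^ 2 * b * t * Z))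
    (f12 : t12 * (1 + e2 ^ 2 * b * t1 ^ 2) = m2 * t1 - e2 * Z1)
    (f2 : t2 * (1 + e2 ^ 2 * b * t ^ 2) = m2 * t - e2 * Z)
    (z2 : Z2 * (1 + e2 ^ 2 * b * t ^ 2) ^ 2 =
      (m2 * Z - e2 * (J * t - 2 * b * t ^ 3)) * (1 + e2 ^ 2 * b * t ^ 2)
        - (m2 * t - e2 * Z) * (2 * e2 ^ 2 * b * t * Z))
    (f21 : t21 * (1 + e1 ^ 2 * b * t2 ^ 2) = m1 * t2 - e1 * Z2)
    (d1 : 1 + e1 ^ 2 * b * t ^ 2 ≠ 0) (d2 : 1 + e2 ^ 2 * b * t ^ 2 ≠ 0)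
    (d12 : 1 + e2 ^ 2 * b * t1 ^ 2 ≠ 0) (d21 : 1 + e1 ^ 2 * b * t2 ^ 2 ≠ 0) : t12 = t21 := by
  have key := comm_id hZ h1 h2
  rw [← z1, ← z2, ← f1, ← f2] at key
  generalize 1 + e1 ^ 2 * b * t ^ 2 = D1 at *
  generalize 1 + e2 ^ 2 * b * t ^ 2 = D2 at *
  refine mul_left_cancel₀ (mul_ne_zero (mul_ne_zero (pow_ne_zero 2 d1) (pow_ne_zero 2 d2))
    (mul_ne_zero d12 d21)) ?_
  linear_combination key + D1 ^ 2 * D2 ^ 2 * (1 + e1 ^ 2 * b * t2 ^ 2) * f12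
    - D1 ^ 2 * D2 ^ 2 * (1 + e2 ^ 2 * b * t1 ^ 2) * f21

omit [CharZero k] in
private lemma JJ_lv (J : QF k) (c : k) (j : K) :
    JJ (lv J c) (j - algebraMap k K c) = JJ J j := by
  simp only [JJ, lv, map_sub]
  ring

private lemma y_ne {q : Conic k} (hq : q.Δ ≠ 0) {y : K} (l : Gl k K) (hy : y ^ 2 = q.dQ.val l.1) :
    y ≠ 0 := by
  rintro rfl
  exact l.val_ne hq 0 (by rw [← hy, map_zero]; ring)

private lemma fib_rho {J : QF k} {q q' : Conic k} (hq' : q'.Δ ≠ 0) {c c' : k}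
    (hJ : q.dQ = lv J c) (hJ' : q'.dQ = lv J c') (y' : K) (l : Gl k K) :
    q.dQ.val (rho q' y' l).1 = q.dQ.val l.1 := by
  have h := val_rho' hq' hJ' y' 1 l
  rw [zpow_one] at h
  rw [hJ, val_lv, val_lv, h]

private lemma t_comm {J : QF k} {q q' : Conic k} (hq : q.Δ ≠ 0) (hq' : q'.Δ ≠ 0) {c c' : k}
    (hJ : q.dQ = lv J c) (hJ' : q'.dQ = lv J c') {y y' : K} (l : Gl k K)
    (hy : y ^ 2 = q.dQ.val l.1) (hy' : y' ^ 2 = q'.dQ.val l.1) :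
    (rho q' y' (rho q y l)).1.1 = (rho q y (rho q' y' l)).1.1 := by
  have hy1 : y' ^ 2 = q'.dQ.val (rho q y l).1 := by rw [fib_rho hq hJ' hJ, hy']
  have hy2 : y ^ 2 = q.dQ.val (rho q' y' l).1 := by rw [fib_rho hq' hJ hJ', hy]
  obtain ⟨A1, r1⟩ := rho_rf hq l hy
  obtain ⟨A2, r2⟩ := rho_rf hq' l hy'
  obtain ⟨A12, r12⟩ := rho_rf hq' _ hy1
  obtain ⟨A21, r21⟩ := rho_rf hq _ hy2
  have j1 : JJ q.dQ (y ^ 2) = JJ J (J.val l.1) := by rw [hy, hJ, val_lv, JJ_lv]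
  have j2 : JJ q'.dQ (y' ^ 2) = JJ J (J.val l.1) := by rw [hy', hJ', val_lv, JJ_lv]
  have a1 : AA q.dQ = AA J := by rw [hJ]; rfl
  have a2 : AA q'.dQ = AA J := by rw [hJ']; rfl
  have b1 : BB q.dQ = BB J := by rw [hJ]; rfl
  have b2 : BB q'.dQ = BB J := by rw [hJ']; rfl
  have v1 : ∀ m : K × K, zv q.dQ m = zv J m := fun m => by rw [hJ, zv_lv]
  have v2 : ∀ m : K × K, zv q'.dQ m = zv J m := fun m => by rw [hJ', zv_lv]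
  have h1 := em_sq hq y
  have h2 := em_sq hq' y'
  have f1 := r1.form1 hq
  have z1 := r1.formZ hq (y_ne hq l hy)
  have f12 := r12.form1 hq'
  have f2 := r2.form1 hq'
  have z2 := r2.formZ hq' (y_ne hq' l hy')
  have f21 := r21.form1 hq
  have d1 := l.den_ne hq hy
  have d2 := l.den_ne hq' hy'
  have d12 := Gl.den_ne _ hq' hy1
  have d21 := Gl.den_ne _ hq hy2
  simp only [j1, j2, a1, a2, b1, b2, v1, v2] at h1 h2 f1 z1 f12 f2 z2 f21 d1 d2 d12 d21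
  exact comm_t (zv_sq J l.t_ne) h1 h2 f1 z1 f12 f2 z2 f21 d1 d2 d12 d21

theorem rho_comm {J : QF k} {q q' : Conic k} (hq : q.Δ ≠ 0) (hq' : q'.Δ ≠ 0) {c c' : k}
    (hJ : q.dQ = lv J c) (hJ' : q'.dQ = lv J c') (y y' : K) :
    Commute (rho q y) (rho q' y') := by
  have : CharZero K := charZero_of_injective_algebraMap (algebraMap k K).injective
  refine Equiv.ext fun l => ?_
  show rho q y (rho q' y' l) = rho q' y' (rho q y l)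
  by_cases hy : y ^ 2 = q.dQ.val l.1
  swap
  · rw [(isRho hq y l).2 hy, (isRho hq y _).2 (by rwa [fib_rho hq' hJ hJ'])]
  by_cases hy' : y' ^ 2 = q'.dQ.val l.1
  swap
  · rw [(isRho hq' y' l).2 hy', (isRho hq' y' _).2 (by rwa [fib_rho hq hJ' hJ])]
  have hc : ∀ m : Gl k K, rho q' (-y') (rho q' y' m) = m := fun m => by
    rw [← rho_inv hq']; exact (rho q' y').symm_apply_apply m
  have hA : (-y') ^ 2 = q'.dQ.val (rho q y (rho q' y' l)).1 := by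
    rw [fib_rho hq hJ' hJ, fib_rho hq' hJ' hJ', neg_sq, hy']
  have hB : (-y') ^ 2 = q'.dQ.val (rho q' y' (rho q y l)).1 := by
    rw [fib_rho hq' hJ' hJ', fib_rho hq hJ' hJ, neg_sq, hy']
  have t1 := t_comm hq hq' hJ hJ' l hy hy'
  have t2 := t_comm hq hq' hJ hJ' (y := y) (y' := -y') (rho q' y' l)
    (by rw [fib_rho hq' hJ hJ', hy]) (by rw [fib_rho hq' hJ' hJ', neg_sq, hy'])
  obtain ⟨A, rA⟩ := rho_rf hq' _ hA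
  obtain ⟨B, rB⟩ := rho_rf hq' _ hB
  have fA := rA.form1 hq'
  have fB := rB.form1 hq'
  rw [hc] at t2 fB
  rw [t2, ← t1] at fA
  have he : eta q' (-y') ≠ 0 := by
    refine div_ne_zero (neg_ne_zero.2 (neg_ne_zero.2 (y_ne hq' l hy'))) (mul_ne_zero two_ne_zero ?_)
    exact (map_ne_zero _).2 hq'
  refine Subtype.ext (line_ext q'.dQ (Gl.t_ne _) (Gl.zv_ne _ hq') t1.symm ?_ (hA.symm.trans hB))
  exact mul_left_cancel₀ he (by linear_combination fA - fB)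

end Ivrii.Con
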