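import Pool.Agent.P.MP_7a8567_an.Stm
import Pool.Agent.P.MP_7a8567_an.LS

set_option autoImplicit false

/-!
Definitions for the conic block (section 5 of the paper).
-/

namespace Ivrii.Con

open MvPolynomial Ivrii.PX

section Raw
variable {k K : Type} [Field k] [Field K] [Algebra k K]

/-- value of the conic at a point -/
def cev (q : Conic k) (A : K × K) : K :=
  algebraMap k K q.a * A.1 ^ 2 + algebraMap k K q.b * A.1 * A.2 + algebraMap k K q.c * A.2 ^ 2
    + algebraMap k K q.d * A.1 + algebraMap k K q.e * A.2 + algebraMap k K q.f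

/-- first derivative in `z` -/
def cz (q : Conic k) (A : K × K) : K :=
  2 * algebraMap k K q.a * A.1 + algebraMap k K q.b * A.2 + algebraMap k K q.d

/-- first derivative in `w` -/
def cw (q : Conic k) (A : K × K) : K :=
  algebraMap k K q.b * A.1 + 2 * algebraMap k K q.c * A.2 + algebraMap k K q.e

/-- `Z = t (∂J/∂P) / 2` -/
def zv (J : QF k) (l : K × K) : K :=
  algebraMap k K J.c0 * l.1 * l.2 + (algebraMap k K J.b1 * l.1 ^ 2 + algebraMap k K J.b2) / 2

/-- `Z ^ 2 = -AA + JJ t ^ 2 - BB t ^ 4` -/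
def AA (J : QF k) : k := J.c0 * J.A - J.b2 ^ 2 / 4

def BB (J : QF k) : k := J.c0 * J.B - J.b1 ^ 2 / 4

def JJ (J : QF k) (j : K) : K :=
  algebraMap k K J.c0 * (j - algebraMap k K J.c1) + algebraMap k K J.b1 * algebraMap k K J.b2 / 2

/-- shift parameter of the reflection -/
def eta (q : Conic k) (y : K) : K := -y / (2 * algebraMap k K q.Δ)

def em (q : Conic k) (y : K) : K := 1 + algebraMap k K q.b * y ^ 2 / (2 * algebraMap k K q.Δ)

/-- `l'` is the reflection of `l` in the conic `q` at the point `A`, with Joachimsthal value `y` -/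
structure Rf (q : Conic k) (y : K) (l A l' : K × K) : Prop where
  t0 : l.1 ≠ 0
  t1 : l'.1 ≠ 0
  on : On l A
  on' : On l' A
  zero : cev q A = 0
  law : l.1 * l'.1 * cz q A + cw q A = 0
  yv : y = cz q A * l.1 + cw q A / l.1

/-- a real nondegenerate conic -/
structure RC (q : Conic k) : Prop where
  nd : q.Δ ≠ 0
  re : q.a = 0 ↔ q.c = 0

/-- a real nondegenerate family -/
structure Nd (J : QF k) : Prop where
  re : AA J = 0 ↔ BB J = 0
  par : J.c0 = 0 → AA J ≠ 0

/-- `J - c` -/
def lv (J : QF k) (c : k) : QF k := ⟨J.c0, J.b1, J.b2, J.B, J.c1 - c, J.A⟩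

/-- the conic multiplied by `u` -/
def scl (u : k) (q : Conic k) : Conic k := ⟨u * q.a, u * q.b, u * q.c, u * q.d, u * q.e, u * q.f⟩

/-- exchange of `z` and `w` -/
def swC (q : Conic k) : Conic k := ⟨q.c, q.b, q.a, q.e, q.d, q.f⟩

def swJ (J : QF k) : QF k := ⟨J.c0, -J.b2, -J.b1, J.A, J.c1, J.B⟩

def swL (l : K × K) : K × K := (l.1⁻¹, -l.2)

/-- `J` written in the variable `P + s1 t + s2 / t` -/
def shift (J : QF k) (s1 s2 : k) : QF k :=
  ⟨J.c0, J.b1 - 2 * J.c0 * s1, J.b2 - 2 * J.c0 * s2, J.B - J.b1 * s1 + J.c0 * s1 ^ 2,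
    J.c1 - J.b1 * s2 - J.b2 * s1 + 2 * J.c0 * s1 * s2, J.A - J.b2 * s2 + J.c0 * s2 ^ 2⟩

def shL (s1 s2 : k) (l : K × K) : K × K :=
  (l.1, l.2 + algebraMap k K s1 * l.1 + algebraMap k K s2 / l.1)

/-- rotation about a centre -/
def sym1 (s1 s2 u : k) (l : K × K) : K × K :=
  shL (-s1) (-s2) (algebraMap k K u * l.1, (shL s1 s2 l).2)

/-- reflection in a line through a centre -/
def sym2 (s1 s2 u : k) (l : K × K) : K × K :=
  shL (-s1) (-s2) (algebraMap k K u / l.1, -(shL s1 s2 l).2)

def Inv1 (J : QF k) (s1 s2 u : k) : Prop :=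
  (shift J s1 s2).b1 * u = (shift J s1 s2).b1 ∧ (shift J s1 s2).b2 * u = (shift J s1 s2).b2 ∧
    (shift J s1 s2).B * u ^ 2 = (shift J s1 s2).B ∧ (shift J s1 s2).A * u ^ 2 = (shift J s1 s2).A

def Inv2 (J : QF k) (s1 s2 u : k) : Prop :=
  (shift J s1 s2).b2 = -(u * (shift J s1 s2).b1) ∧ (shift J s1 s2).A = u ^ 2 * (shift J s1 s2).B

/-- `a'` is the image of `a` under an isometry that preserves `J` -/
def Iso (J : QF k) (a a' : K × K) : Prop :=
  ∃ s1 s2 u : k, u ≠ 0 ∧
    ((a' = sym1 s1 s2 u a ∧ Inv1 J s1 s2 u) ∨ (a' = sym2 s1 s2 u a ∧ Inv2 J s1 s2 u))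

/-- the line passes through a point over `k` or has a direction over `k` -/
def Pen (k : Type) [Field k] [Algebra k K] (a : K × K) : Prop :=
  (∃ zo wo : k, On a (algebraMap k K zo, algebraMap k K wo)) ∨ ∃ t0 : k, a.1 = algebraMap k K t0

/-- generic lines -/
def Gl (k K : Type) [Field k] [Field K] [Algebra k K] : Type := {l : K × K // Gen k l}

/-- defining property of the reflection on generic lines -/
def IsRho (q : Conic k) (y : K) (σ : Equiv.Perm (Gl k K)) : Prop :=
  ∀ l : Gl k K, (y ^ 2 = q.dQ.val l.1 → ∃ A, Rf q y l.1 A (σ l).1) ∧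
    (y ^ 2 ≠ q.dQ.val l.1 → σ l = l)

open Classical in
/-- the reflection as a permutation of the generic lines -/
noncomputable def rho (q : Conic k) (y : K) : Equiv.Perm (Gl k K) :=
  if h : ∃ σ, IsRho q y σ then h.choose else 1

/-- image of a generic line under an embedding -/
def Gl.map {K' : Type} [Field K'] [Algebra k K'] (φ : K →ₐ[k] K') (l : Gl k K) : Gl k K' :=
  ⟨(φ l.1.1, φ l.1.2), by
    have h := l.2.map' (f := φ) φ.injective
    have e : φ ∘ ![l.1.1, l.1.2] = ![φ l.1.1, φ l.1.2] := by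
      funext i
      fin_cases i <;> rfl
    rwa [e] at h⟩

/-- one level of a block: conic, level, square root, number of hits -/
structure Lev (k K : Type) where
  q : Conic k
  lam : k
  y : K
  n : ℕ

/-- undo the reflections of a block -/
noncomputable def act (L : List (Lev k K)) (l : Gl k K) : Gl k K :=
  L.foldr (fun s l' => (rho s.q s.y ^ (-(s.n : ℤ))) l') l

/-- the levels of a block of the family `J` on the fibre `J = j` -/
structure Blk (J : QF k) (j : K) (L : List (Lev k K)) : Prop where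
  rc : ∀ s ∈ L, RC s.q
  dq : ∀ s ∈ L, s.q.dQ = lv J s.lam
  sq : ∀ s ∈ L, s.y ^ 2 = j - algebraMap k K s.lam
  pos : ∀ s ∈ L, 1 ≤ s.n
  nd : (L.map Lev.lam).Nodup

/-- `X` with a list of elements adjoined -/
noncomputable def adjL (X : IntermediateField k K) (ys : List K) : IntermediateField k K :=
  X ⊔ IntermediateField.adjoin k {y | y ∈ ys}

/-- `K` is algebraic over `k(j)` with `j` transcendental -/
structure Base (k : Type) [Field k] [Algebra k K] (j : K) : Prop where
  tr : Transcendental k j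
  alg : Algebra.IsAlgebraic (IntermediateField.adjoin k {j}) K

/-- a valuation that is trivial on `k`, with residue field `k` -/
structure Val (k : Type) [Field k] [Algebra k K] {Γ : Type} [LinearOrderedCommGroupWithZero Γ]
    (v : Valuation K Γ) : Prop where
  le : ∀ a : k, v (algebraMap k K a) ≤ 1
  res : ∀ x : K, v x ≤ 1 → ∃ a : k, v (x - algebraMap k K a) < 1

/-- two points of the fibre `dQ = j` with the same residues at a place over `j = 0` -/
structure Near {Γ : Type} [LinearOrderedCommGroupWithZero Γ] (v : Valuation K Γ) (q : Conic k)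
    (j : K) (a a' : K × K) : Prop where
  t0 : a.1 ≠ 0
  t1 : a'.1 ≠ 0
  j0 : q.dQ.val a = j
  j1 : q.dQ.val a' = j
  jne : j ≠ 0
  vj : v j < 1
  vt : v a.1 ≤ 1
  dt : v (a'.1 - a.1) < 1
  dz : v (zv q.dQ a' - zv q.dQ a) < 1

/-- `P' dt'/t' - P dt/t` is exact -/
def Ex (D : Derivation k K K) (a a' : K × K) : Prop :=
  ∃ f : K, a'.2 * D a'.1 / a'.1 - a.2 * D a.1 / a.1 = D f

end Raw

section Series
variable {k κ : Type} [Field k] [Field κ] [Algebra k κ]

/-- `f` is a power series with constant term `a` -/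
def Ev (f : LaurentSeries κ) (a : κ) : Prop :=
  ∃ g : PowerSeries κ, HahnSeries.ofPowerSeries ℤ κ g = f ∧ PowerSeries.constantCoeff g = a

/-- value at `s = 0` -/
def at0 (l : LaurentSeries κ × LaurentSeries κ) : κ × κ := (l.1.coeff 0, l.2.coeff 0)

/-- solutions of the flow of `J` on the fibre `J = j` -/
structure Reg (J : QF k) (j : κ) (l : LaurentSeries κ × LaurentSeries κ) : Prop where
  val : J.val l = HahnSeries.C j
  ode : dU κ k l.1 = zv J l

/-- affine places -/
structure Aff (l : LaurentSeries κ × LaurentSeries κ) : Prop where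
  t : Ev l.1 (at0 l).1
  p : Ev l.2 (at0 l).2
  ne : (at0 l).1 ≠ 0

/-- `n` has odd order at the place `l` -/
def Od (n : R2 k) (l : LaurentSeries κ × LaurentSeries κ) : Prop := Odd (ev l n).order

/-- an automorphism of the coefficients acting on series -/
noncomputable def cm (g : κ ≃ₐ[k] κ) : LaurentSeries κ →ₐ[k] LaurentSeries κ :=
  { cmap (g : κ →+* κ) with
    commutes' := fun a => by
      simp only [RingHom.toMonoidHom_eq_coe, OneHom.toFun_eq_coe, MonoidHom.toOneHom_coe,
        MonoidHom.coe_coe, algebraMap_ls, cmap_C]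
      simp }

/-- infinite places and affine places on a level of `J'` -/
def XS (J' : QF k) (l : LaurentSeries κ × LaurentSeries κ) : Prop :=
  ¬ Aff l ∨ ∃ c : k, J'.val (at0 l) = algebraMap k κ c

end Series

end Ivrii.Con
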