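import Pool.Agent.P.MP_7a8567_an.Cnc.Alg

set_option autoImplicit false

/-! Constant terms of power series. -/

namespace Ivrii.Con

open Ivrii.PX

variable {k κ : Type} [Field k] [Field κ] [Algebra k κ]

theorem Ev.coeff {f : LaurentSeries κ} {a : κ} (h : Ev f a) : f.coeff 0 = a := by
  obtain ⟨g, rfl, rfl⟩ := h
  have := LaurentSeries.coeff_coe_powerSeries g 0
  simpa using this

theorem Ev.uniq {f : LaurentSeries κ} {a b : κ} (h : Ev f a) (h' : Ev f b) : a = b :=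
  h.coeff.symm.trans h'.coeff

theorem ev_iff {f : LaurentSeries κ} {a : κ} :
    Ev f a ↔ (∀ i : ℤ, i < 0 → f.coeff i = 0) ∧ f.coeff 0 = a := by
  refine ⟨fun h => ⟨fun i hi => ?_, h.coeff⟩, fun h => ?_⟩
  · obtain ⟨g, rfl, -⟩ := h
    rw [PowerSeries.coeff_coe, if_pos hi]
  · refine ⟨PowerSeries.mk fun n => f.coeff n, ?_, ?_⟩
    · ext i
      rw [PowerSeries.coeff_coe]
      split_ifs with hi
      · exact (h.1 i hi).symm
      · rw [PowerSeries.coeff_mk, Int.natCast_natAbs, abs_of_nonneg (by omega)]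
    · rw [← PowerSeries.coeff_zero_eq_constantCoeff_apply, PowerSeries.coeff_mk]
      simpa using h.2

theorem Ev.C (a : κ) : Ev (HahnSeries.C a) a :=
  ⟨PowerSeries.C a, PowerSeries.coe_C a, by simp⟩

theorem Ev.alg (a : k) : Ev (algebraMap k (LaurentSeries κ) a) (algebraMap k κ a) :=
  Ev.C _

theorem Ev.nat (n : ℕ) : Ev (n : LaurentSeries κ) (n : κ) :=
  ⟨n, map_natCast _ n, map_natCast _ n⟩

theorem Ev.int (n : ℤ) : Ev (n : LaurentSeries κ) (n : κ) :=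
  ⟨n, map_intCast _ n, map_intCast _ n⟩

theorem Ev.one : Ev (1 : LaurentSeries κ) 1 :=
  ⟨1, map_one _, map_one _⟩

theorem Ev.two : Ev (2 : LaurentSeries κ) 2 := by
  simpa using Ev.nat (κ := κ) 2

theorem Ev.add {f g : LaurentSeries κ} {a b : κ} (h : Ev f a) (h' : Ev g b) :
    Ev (f + g) (a + b) := by
  obtain ⟨p, rfl, rfl⟩ := h
  obtain ⟨q, rfl, rfl⟩ := h'
  exact ⟨p + q, map_add _ _ _, map_add _ _ _⟩

theorem Ev.neg {f : LaurentSeries κ} {a : κ} (h : Ev f a) : Ev (-f) (-a) := by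
  obtain ⟨p, rfl, rfl⟩ := h
  exact ⟨-p, map_neg _ _, map_neg _ _⟩

theorem Ev.sub {f g : LaurentSeries κ} {a b : κ} (h : Ev f a) (h' : Ev g b) :
    Ev (f - g) (a - b) := by
  obtain ⟨p, rfl, rfl⟩ := h
  obtain ⟨q, rfl, rfl⟩ := h'
  exact ⟨p - q, map_sub _ _ _, map_sub _ _ _⟩

theorem Ev.mul {f g : LaurentSeries κ} {a b : κ} (h : Ev f a) (h' : Ev g b) :
    Ev (f * g) (a * b) := by
  obtain ⟨p, rfl, rfl⟩ := h
  obtain ⟨q, rfl, rfl⟩ := h'
  exact ⟨p * q, map_mul _ _ _, map_mul _ _ _⟩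

theorem Ev.pow {f : LaurentSeries κ} {a : κ} (h : Ev f a) (n : ℕ) : Ev (f ^ n) (a ^ n) := by
  obtain ⟨p, rfl, rfl⟩ := h
  exact ⟨p ^ n, map_pow _ _ _, map_pow _ _ _⟩

theorem Ev.inv {f : LaurentSeries κ} {a : κ} (h : Ev f a) (ha : a ≠ 0) : Ev f⁻¹ a⁻¹ := by
  obtain ⟨p, rfl, rfl⟩ := h
  refine ⟨p⁻¹, ?_, PowerSeries.constantCoeff_inv p⟩
  refine eq_inv_of_mul_eq_one_right ?_
  rw [← map_mul, PowerSeries.mul_inv_cancel p ha, map_one]

theorem Ev.div {f g : LaurentSeries κ} {a b : κ} (h : Ev f a) (h' : Ev g b) (hb : b ≠ 0) :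
    Ev (f / g) (a / b) := by
  rw [div_eq_mul_inv, div_eq_mul_inv]
  exact h.mul (h'.inv hb)

theorem Ev.ne {f : LaurentSeries κ} {a : κ} (h : Ev f a) (ha : a ≠ 0) : f ≠ 0 := by
  rintro rfl
  exact ha (by rw [← h.coeff]; rfl)

theorem Ev.order {f : LaurentSeries κ} {a : κ} (h : Ev f a) (ha : a ≠ 0) : f.order = 0 := by
  refine le_antisymm (HahnSeries.order_le_of_coeff_ne_zero (by rw [h.coeff]; exact ha)) ?_
  by_contra hc
  exact h.ne ha (HahnSeries.coeff_order_eq_zero.1 ((ev_iff.1 h).1 _ (not_le.1 hc)))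

/-- a series or its inverse is a power series -/
theorem ev_or (f : LaurentSeries κ) : (∃ a, Ev f a) ∨ Ev f⁻¹ 0 := by
  rcases le_or_gt 0 f.order with h | h
  · exact Or.inl ⟨_, ev_iff.2 ⟨fun i hi =>
      HahnSeries.coeff_eq_zero_of_lt_order (hi.trans_le h), rfl⟩⟩
  · have hf : f ≠ 0 := by
      rintro rfl
      simp at h
    have h1 := HahnSeries.order_mul hf (inv_ne_zero hf)
    rw [mul_inv_cancel₀ hf, HahnSeries.order_one] at h1
    exact Or.inr (ev_iff.2 ⟨fun i hi => HahnSeries.coeff_eq_zero_of_lt_order (by omega),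
      HahnSeries.coeff_eq_zero_of_lt_order (by omega)⟩)

theorem Ev.deriv {f : LaurentSeries κ} {a : κ} (h : Ev f a) : ∃ b, Ev (dU κ k f) b := by
  obtain ⟨p, rfl, -⟩ := h
  exact ⟨_, PowerSeries.derivative κ p, (dU_ofPowerSeries k p).symm, rfl⟩

theorem Ev.dco {f : LaurentSeries κ} {a : κ} (h : Ev f a) (D : Derivation k κ κ) :
    Ev (dcoef D f) (D a) := by
  obtain ⟨h1, h2⟩ := ev_iff.1 h
  exact ev_iff.2 ⟨fun i hi => by rw [coeff_dcoef, h1 i hi, map_zero], by rw [coeff_dcoef, h2]⟩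

theorem cm_coeff (g : κ ≃ₐ[k] κ) (f : LaurentSeries κ) (i : ℤ) :
    (cm g f).coeff i = g (f.coeff i) :=
  coeff_cmap (g : κ →+* κ) f i

theorem cm_C (g : κ ≃ₐ[k] κ) (a : κ) : cm g (HahnSeries.C a) = HahnSeries.C (g a) :=
  cmap_C (g : κ →+* κ) a

theorem cm_dU (g : κ ≃ₐ[k] κ) (f : LaurentSeries κ) : cm g (dU κ k f) = dU κ k (cm g f) := by
  ext i
  rw [cm_coeff, coeff_dU, coeff_dU, cm_coeff, map_mul, map_intCast]

theorem Ev.twist {f : LaurentSeries κ} {a : κ} (h : Ev f a) (g : κ ≃ₐ[k] κ) :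
    Ev (cm g f) (g a) := by
  obtain ⟨h1, h2⟩ := ev_iff.1 h
  exact ev_iff.2 ⟨fun i hi => by rw [cm_coeff, h1 i hi, map_zero], by rw [cm_coeff, h2]⟩

theorem Aff.mk' {l : LaurentSeries κ × LaurentSeries κ} {a : κ × κ} (h1 : Ev l.1 a.1)
    (h2 : Ev l.2 a.2) (h : a.1 ≠ 0) : Aff l ∧ at0 l = a := by
  have e : at0 l = a := Prod.ext h1.coeff h2.coeff
  exact ⟨⟨e ▸ h1, e ▸ h2, e ▸ h⟩, e⟩

theorem Aff.evl {l : LaurentSeries κ × LaurentSeries κ} (h : Aff l) (n : R2 k) :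
    Ev (ev l n) (ev (at0 l) n) := by
  induction n using MvPolynomial.induction_on with
  | C a =>
    simp only [ev, MvPolynomial.aeval_C]
    exact Ev.alg a
  | add p q hp hq =>
    rw [map_add, map_add]
    exact hp.add hq
  | mul_X p i hp =>
    rw [map_mul, map_mul]
    refine hp.mul ?_
    simp only [ev, MvPolynomial.aeval_X]
    fin_cases i
    · exact h.t
    · exact h.p

theorem Aff.vall {l : LaurentSeries κ × LaurentSeries κ} (h : Aff l) (J : QF k) :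
    Ev (J.val l) (J.val (at0 l)) := by
  unfold QF.val
  exact (((((Ev.alg _).mul (h.p.pow 2)).add (h.p.mul (((Ev.alg _).mul h.t).add
    ((Ev.alg _).div h.t h.ne)))).add ((Ev.alg _).mul (h.t.pow 2))).add (Ev.alg _)).add
    ((Ev.alg _).div (h.t.pow 2) (pow_ne_zero 2 h.ne))

theorem Aff.zvl [CharZero k] {l : LaurentSeries κ × LaurentSeries κ} (h : Aff l) (J : QF k) :
    Ev (zv J l) (zv J (at0 l)) := by
  have : CharZero κ := charZero_of_injective_algebraMap (algebraMap k κ).injective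
  unfold zv
  exact (((Ev.alg _).mul h.t).mul h.p).add
    ((((Ev.alg _).mul (h.t.pow 2)).add (Ev.alg _)).div Ev.two two_ne_zero)

theorem Aff.sw {l : LaurentSeries κ × LaurentSeries κ} (h : Aff l) :
    Aff (swL l) ∧ at0 (swL l) = swL (at0 l) :=
  Aff.mk' (l := swL l) (a := swL (at0 l)) (h.t.inv h.ne) h.p.neg (inv_ne_zero h.ne)

theorem aff_cm (g : κ ≃ₐ[k] κ) (l : LaurentSeries κ × LaurentSeries κ) :
    Aff (cm g l.1, cm g l.2) ↔ Aff l := by
  have key : ∀ (g : κ ≃ₐ[k] κ) (l : LaurentSeries κ × LaurentSeries κ), Aff l →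
      Aff (cm g l.1, cm g l.2) := fun g l h =>
    (Aff.mk' (l := (cm g l.1, cm g l.2)) (a := (g (at0 l).1, g (at0 l).2)) (h.t.twist g)
      (h.p.twist g) (by simpa using h.ne)).1
  have inv : ∀ f : LaurentSeries κ, cm g.symm (cm g f) = f := fun f => by
    ext i
    rw [cm_coeff, cm_coeff, AlgEquiv.symm_apply_apply]
  refine ⟨fun h => ?_, key g l⟩
  have := key g.symm _ h
  simpa only [inv] using this

theorem at0_cm (g : κ ≃ₐ[k] κ) (l : LaurentSeries κ × LaurentSeries κ) :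
    at0 (cm g l.1, cm g l.2) = (g (at0 l).1, g (at0 l).2) :=
  Prod.ext (cm_coeff g l.1 0) (cm_coeff g l.2 0)

theorem Aff.ex {l l' : LaurentSeries κ × LaurentSeries κ} (h : Aff l) (h' : Aff l')
    (D : Derivation k κ κ) (hx : Ex (dcoef D) l l') : Ex D (at0 l) (at0 l') := by
  obtain ⟨f, hf⟩ := hx
  refine ⟨f.coeff 0, ?_⟩
  have h1 := ((h'.p.mul (h'.t.dco D)).div h'.t h'.ne).sub ((h.p.mul (h.t.dco D)).div h.t h.ne)
  rw [hf] at h1
  rw [← h1.coeff, coeff_dcoef]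

/-- composite valuation ring -/
theorem exists_comp (O : ValuationSubring κ) : ∃ O' : ValuationSubring (LaurentSeries κ),
    (∀ f, O'.valuation f ≤ 1 ↔ ∃ a, Ev f a ∧ O.valuation a ≤ 1) ∧
    ∀ f, O'.valuation f < 1 ↔ ∃ a, Ev f a ∧ O.valuation a < 1 := by
  let S : Subring (LaurentSeries κ) :=
    { carrier := {f | ∃ a, Ev f a ∧ a ∈ O}
      mul_mem' := fun ⟨a, ha, ha'⟩ ⟨b, hb, hb'⟩ => ⟨a * b, ha.mul hb, mul_mem ha' hb'⟩
      one_mem' := ⟨1, Ev.one, one_mem O⟩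
      add_mem' := fun ⟨a, ha, ha'⟩ ⟨b, hb, hb'⟩ => ⟨a + b, ha.add hb, add_mem ha' hb'⟩
      zero_mem' := ⟨0, ⟨0, map_zero _, map_zero _⟩, zero_mem O⟩
      neg_mem' := fun ⟨a, ha, ha'⟩ => ⟨-a, ha.neg, neg_mem ha'⟩ }
  let O' : ValuationSubring (LaurentSeries κ) :=
    { S with
      mem_or_inv_mem' := fun f => by
        rcases ev_or f with ⟨a, ha⟩ | h
        · by_cases h0 : a = 0
          · exact Or.inl ⟨a, ha, h0 ▸ zero_mem O⟩
          · rcases O.mem_or_inv_mem a with h | h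
            · exact Or.inl ⟨a, ha, h⟩
            · exact Or.inr ⟨a⁻¹, ha.inv h0, h⟩
        · exact Or.inr ⟨0, h, zero_mem O⟩ }
  have hm : ∀ f, f ∈ O' ↔ ∃ a, Ev f a ∧ a ∈ O := fun f => Iff.rfl
  refine ⟨O', fun f => ?_, fun f => ?_⟩
  · simp only [ValuationSubring.valuation_le_one_iff, hm]
  · simp only [← ValuationSubring.mem_nonunits_iff, ValuationSubring.mem_nonunits_iff_or]
    constructor
    · rintro (rfl | h)
      · exact ⟨0, ⟨0, map_zero _, map_zero _⟩, Or.inl rfl⟩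
      · obtain ⟨a, ha, -⟩ := (hm f).1 ((O'.mem_or_inv_mem f).resolve_right h)
        refine ⟨a, ha, ?_⟩
        by_cases h0 : a = 0
        · exact Or.inl h0
        · exact Or.inr fun h1 => h ((hm _).2 ⟨_, ha.inv h0, h1⟩)
    · rintro ⟨a, ha, h⟩
      by_cases hf : f = 0
      · exact Or.inl hf
      refine Or.inr fun h1 => ?_
      obtain ⟨b, hb, hb'⟩ := (hm _).1 h1
      have h2 := ha.mul hb
      rw [mul_inv_cancel₀ hf] at h2
      have h3 : a * b = 1 := h2.uniq Ev.one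
      rcases h with rfl | h
      · simp at h3
      · exact h (by rw [← eq_inv_of_mul_eq_one_right h3]; exact hb')

end Ivrii.Con
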