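import Pool.Agent.P.MP_7a8567_an.Cnc.Rho

set_option autoImplicit false

/-! The reflection near tangency, and its infinite order. -/

namespace Ivrii.Con

open MvPolynomial

variable {k K : Type} [Field k] [Field K] [Algebra k K] [CharZero k]

section Aux
variable {Γ : Type} [LinearOrderedCommGroupWithZero Γ] {v : Valuation K Γ}

theorem l1_mul_le {a b : K} {g : Γ} (ha : v a ≤ g) (hb : b ∈ v.integer) : v (a * b) ≤ g := by
  rw [map_mul]
  exact (mul_le_of_le_one_right' hb).trans ha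

omit [CharZero k] in
theorem l1_const (hv : ∀ a : k, v (algebraMap k K a) ≤ 1) {a : k} (ha : a ≠ 0) :
    v (algebraMap k K a) = 1 :=
  Valuation.Integers.one_of_isUnit' (Ne.isUnit ha) hv

omit [CharZero k] in
theorem l1_eta (q : Conic k) (y : K) : eta q y = y * algebraMap k K (-(2 * q.Δ)⁻¹) := by
  simp only [eta, map_neg, map_inv₀, map_mul, map_ofNat]
  ring

theorem l1_step (hv : ∀ a : k, v (algebraMap k K a) ≤ 1) {q : Conic k} (hq : q.Δ ≠ 0) {y : K}
    (hy0 : y ≠ 0) {l A l' : K × K} (h : Rf q y l A l') (vy : v y < 1) (vt : v l.1 ≤ 1) :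
    v (zv q.dQ l) ≤ 1 ∧ v (l'.1 - l.1 + eta q y * zv q.dQ l) ≤ v y * v y ∧
      v (zv q.dQ l' - zv q.dQ l) ≤ v y := by
  have hk : ∀ a : k, algebraMap k K a ∈ v.integer := hv
  have ht : l.1 ∈ v.integer := vt
  have hy : y ∈ v.integer := vy.le
  have ve : v (eta q y) ≤ v y := by
    rw [l1_eta]
    exact l1_mul_le le_rfl (hk _)
  have he : eta q y ∈ v.integer := ve.trans vy.le
  have hJ : JJ q.dQ (y ^ 2) ∈ v.integer := by
    rw [JJ_dQ]
    exact add_mem (mul_mem (hk _) (pow_mem hy 2))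
      (mul_mem (mul_mem (ofNat_mem _ 4) (hk _)) (hk _))
  have hZ : zv q.dQ l ∈ v.integer := by
    have h2 : zv q.dQ l ^ 2 ∈ v.integer := by
      rw [zv_sq _ h.t0, ← h.sq]
      exact sub_mem (add_mem (neg_mem (hk _)) (mul_mem hJ (pow_mem ht 2)))
        (mul_mem (hk _) (pow_mem ht 4))
    have h3 : v (zv q.dQ l) ^ 2 ≤ 1 := by
      rw [← map_pow]
      exact h2
    exact (pow_le_one_iff two_ne_zero).1 h3
  have f1 := h.form1 hq
  have fZ := h.formZ hq hy0
  rw [em_eq hq] at f1 fZ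
  have hb := hk q.b
  have hΔ := hk q.Δ
  have hB := hk (BB q.dQ)
  have h2 : (2 : K) ∈ v.integer := ofNat_mem _ 2
  generalize algebraMap k K q.b = b at *
  generalize algebraMap k K q.Δ = Δ at *
  generalize algebraMap k K (BB q.dQ) = B at *
  generalize JJ q.dQ (y ^ 2) = J at *
  generalize eta q y = η at *
  generalize zv q.dQ l = Z at *
  generalize zv q.dQ l' = Z' at *
  have hD : v (1 + η ^ 2 * B * l.1 ^ 2) = 1 := by
    refine v.map_one_add_of_lt ?_
    have e : η ^ 2 * B * l.1 ^ 2 = η * (η * B * l.1 ^ 2) := by ring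
    rw [e]
    exact (l1_mul_le ve (mul_mem (mul_mem he hB) (pow_mem ht 2))).trans_lt vy
  refine ⟨hZ, ?_, ?_⟩
  · have e : (l'.1 - l.1 + η * Z) * (1 + η ^ 2 * B * l.1 ^ 2)
        = (η * η) * (2 * b * Δ * l.1 - B * l.1 ^ 3 + η * Z * B * l.1 ^ 2) := by
      linear_combination f1
    have e2 := congrArg v e
    rw [map_mul, hD, mul_one] at e2
    rw [e2]
    refine l1_mul_le (by rw [map_mul]; exact mul_le_mul' ve ve) ?_
    exact add_mem (sub_mem (mul_mem (mul_mem (mul_mem h2 hb) hΔ) ht) (mul_mem hB (pow_mem ht 3)))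
      (mul_mem (mul_mem (mul_mem he hZ) hB) (pow_mem ht 2))
  · have e : (Z' - Z) * (1 + η ^ 2 * B * l.1 ^ 2) ^ 2
        = η * ((1 + η ^ 2 * B * l.1 ^ 2) * (η * (2 * b * Δ - B * l.1 ^ 2) * Z
            - (J * l.1 - 2 * B * l.1 ^ 3))
          - ((1 + 2 * b * Δ * η ^ 2) * l.1 - η * Z) * (2 * η * B * l.1 * Z)) := by
      linear_combination fZ
    have e2 := congrArg v e
    rw [map_mul, map_pow, hD, one_pow, mul_one] at e2
    rw [e2]
    refine l1_mul_le ve ?_
    repeat' first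
      | assumption
      | exact one_mem _
      | apply sub_mem
      | apply add_mem
      | apply mul_mem
      | apply pow_mem

end Aux

theorem lim1 {Γ : Type} [LinearOrderedCommGroupWithZero Γ] (v : Valuation K Γ)
    (hv : ∀ a : k, v (algebraMap k K a) ≤ 1) {q : Conic k} (hq : q.Δ ≠ 0) {y : K} (l : Gl k K)
    (hy : y ^ 2 = q.dQ.val l.1) (vy : v y < 1) (vt : v l.1.1 ≤ 1) (e : ℤ) :
    v (zv q.dQ l.1) ≤ 1 ∧
    v (((rho q y ^ e) l).1.1 - l.1.1 + e * eta q y * zv q.dQ l.1) ≤ v y * v y ∧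
    v (zv q.dQ ((rho q y ^ e) l).1 - zv q.dQ l.1) ≤ v y := by
  have hy0 : y ≠ 0 := by
    rintro rfl
    exact l.val_ne hq 0 (by rw [← hy]; simp)
  obtain ⟨A0, h0⟩ := rho_rf hq l hy
  have hZ := (l1_step hv hq hy0 h0 vy vt).1
  have ve : v (eta q y) ≤ v y := by
    rw [l1_eta]
    exact l1_mul_le le_rfl (hv _)
  have vyy : v y * v y ≤ 1 := mul_le_one' vy.le vy.le
  have key : ∀ (e : ℤ) (m : Gl k K),
      v (m.1.1 - l.1.1 + e * eta q y * zv q.dQ l.1) ≤ v y * v y → v m.1.1 ≤ 1 := by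
    intro e m h
    have e1 : m.1.1 = (m.1.1 - l.1.1 + e * eta q y * zv q.dQ l.1) + l.1.1
        - e * eta q y * zv q.dQ l.1 := by ring
    rw [e1]
    refine v.map_sub_le (v.map_add_le (h.trans vyy) vt) ?_
    exact mul_mem (S := Subring K) (s := v.integer)
      (mul_mem (intCast_mem _ e) (ve.trans vy.le)) hZ
  refine ⟨hZ, ?_⟩
  induction e using Int.induction_on with
  | zero => simp
  | succ n ih =>
    have hn : y ^ 2 = q.dQ.val ((rho q y ^ (n : ℤ)) l).1 := by rw [val_rho hq, hy]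
    obtain ⟨A, h⟩ := rho_rf hq _ hn
    obtain ⟨-, s1, s2⟩ := l1_step hv hq hy0 h vy (key _ _ ih.1)
    rw [add_comm (n : ℤ) 1, zpow_one_add, Equiv.Perm.mul_apply]
    generalize (rho q y ^ (n : ℤ)) l = m at *
    generalize rho q y m = m' at *
    constructor
    · have e1 : m'.1.1 - l.1.1 + ((1 + n : ℤ) : K) * eta q y * zv q.dQ l.1
          = (m'.1.1 - m.1.1 + eta q y * zv q.dQ m.1)
            + (m.1.1 - l.1.1 + ((n : ℤ) : K) * eta q y * zv q.dQ l.1)
            - eta q y * (zv q.dQ m.1 - zv q.dQ l.1) := by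
        push_cast
        ring
      rw [e1]
      refine v.map_sub_le (v.map_add_le s1 ih.1) ?_
      rw [map_mul]
      exact mul_le_mul' ve ih.2
    · rw [← sub_add_sub_cancel _ (zv q.dQ m.1)]
      exact v.map_add_le s2 ih.2
  | pred n ih =>
    have hn : (-y) ^ 2 = q.dQ.val ((rho q y ^ (-n : ℤ)) l).1 := by rw [val_rho hq, neg_sq, hy]
    obtain ⟨A, h⟩ := rho_rf hq _ hn
    obtain ⟨-, s1, s2⟩ := l1_step hv hq (neg_ne_zero.2 hy0) h (by rwa [v.map_neg])
      (key _ _ ih.1)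
    rw [v.map_neg] at s1 s2
    have e0 : eta q (-y) = -eta q y := by simp only [eta, neg_div]
    rw [e0] at s1
    have e2 : rho q y ^ (-(n : ℤ) - 1) = rho q (-y) * rho q y ^ (-n : ℤ) := by
      rw [← rho_inv hq, sub_eq_neg_add, zpow_add, zpow_neg_one]
    rw [e2, Equiv.Perm.mul_apply]
    generalize (rho q y ^ (-n : ℤ)) l = m at *
    generalize rho q (-y) m = m' at *
    constructor
    · have e1 : m'.1.1 - l.1.1 + ((-n - 1 : ℤ) : K) * eta q y * zv q.dQ l.1
          = (m'.1.1 - m.1.1 + -eta q y * zv q.dQ m.1)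
            + (m.1.1 - l.1.1 + ((-n : ℤ) : K) * eta q y * zv q.dQ l.1)
            + eta q y * (zv q.dQ m.1 - zv q.dQ l.1) := by
        push_cast
        ring
      rw [e1]
      refine v.map_add_le (v.map_add_le s1 ih.1) ?_
      rw [map_mul]
      exact mul_le_mul' ve ih.2
    · rw [← sub_add_sub_cancel _ (zv q.dQ m.1)]
      exact v.map_add_le s2 ih.2

omit [CharZero k] in
/-- a place of `K` centred at a given point of the plane of lines -/
theorem l1_place (l : Gl k K) (a : k × k) :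
    ∃ B : ValuationSubring K, (∀ n : R2 k, B.valuation (ev l.1 n) ≤ 1) ∧
      ∀ n : R2 k, ev a n = 0 → B.valuation (ev l.1 n) < 1 := by
  have hinj : Function.Injective (ev l.1 : R2 k →ₐ[k] K) := l.2
  let E := AlgEquiv.ofInjective (ev l.1 : R2 k →ₐ[k] K) hinj
  let φ0 : (ev l.1 : R2 k →ₐ[k] K).range →ₐ[k] k := (ev a : R2 k →ₐ[k] k).comp E.symm.toAlgHom
  let φ : (ev l.1 : R2 k →ₐ[k] K).range.toSubring →+* k := φ0.toRingHom
  obtain ⟨B, h1, h2⟩ := Ideal.image_subset_nonunits_valuationSubring (RingHom.ker φ)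
    (RingHom.ker_ne_top φ)
  refine ⟨B, fun n => (B.valuation_le_one_iff _).2 (h1 ⟨n, rfl⟩), fun n hn => ?_⟩
  refine h2 ⟨E n, ?_, rfl⟩
  change ev a (E.symm (E n)) = 0
  rw [E.symm_apply_apply, hn]

/-- a tangent line over `k` in general position -/
theorem l1_point [IsAlgClosed k] {q : Conic k} (hq : q.Δ ≠ 0) :
    ∃ a : k × k, a.1 ≠ 0 ∧ q.dQ.val a = 0 ∧ zv q.dQ a ≠ 0 := by
  obtain ⟨t, ht, hR⟩ : ∃ t : k, t ≠ 0 ∧ q.a * t ^ 4 + q.b * t ^ 2 + q.c ≠ 0 := by
    by_contra hc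
    push Not at hc
    have h1 := hc 1 one_ne_zero
    have h2 := hc 2 two_ne_zero
    have h3 := hc 3 three_ne_zero
    have ha : q.a = 0 := by linear_combination (5 * h1 - 8 * h2 + 3 * h3) / 120
    have hb : q.b = 0 := by linear_combination (h2 - h1 - 15 * ha) / 3
    have hc' : q.c = 0 := by linear_combination h1 - ha - hb
    exact hq (by simp [Conic.Δ, ha, hb, hc'])
  have hsq : ∀ P : k, zv q.dQ (t, P) ^ 2 = q.dQ.c0 * q.dQ.val (t, P) * t ^ 2
      + 4 * q.Δ * (q.a * t ^ 4 + q.b * t ^ 2 + q.c) := fun P => by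
    rw [zv_sq _ (l := (t, P)) ht, JJ_dQ, AA_dQ, BB_dQ]
    simp only [Algebra.algebraMap_self, RingHom.id_apply]
    ring
  have hR' : 4 * q.Δ * (q.a * t ^ 4 + q.b * t ^ 2 + q.c) ≠ 0 :=
    mul_ne_zero (mul_ne_zero (by norm_num) hq) hR
  suffices h : ∃ P : k, q.dQ.val (t, P) = 0 by
    obtain ⟨P, hP⟩ := h
    refine ⟨(t, P), ht, hP, fun h0 => hR' ?_⟩
    have := hsq P
    rw [h0, hP] at this
    linear_combination -this
  by_cases hc : q.dQ.c0 = 0
  · have h0 := hsq 0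
    have hb : q.dQ.b1 * t + q.dQ.b2 / t ≠ 0 := fun hb => hR' (by
      have hz : zv q.dQ (t, (0 : k)) = 0 := by
        simp only [zv, Algebra.algebraMap_self, RingHom.id_apply]
        field_simp at hb
        linear_combination hb / 2
      rw [hz, hc] at h0
      linear_combination -h0)
    refine ⟨-(q.dQ.B * t ^ 2 + q.dQ.c1 + q.dQ.A / t ^ 2) / (q.dQ.b1 * t + q.dQ.b2 / t), ?_⟩
    simp only [QF.val, Algebra.algebraMap_self, RingHom.id_apply, hc]
    rw [div_mul_cancel₀ _ hb]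
    ring
  · obtain ⟨Z, hZ⟩ := IsAlgClosed.exists_pow_nat_eq
      (4 * q.Δ * (q.a * t ^ 4 + q.b * t ^ 2 + q.c)) two_pos
    refine ⟨(Z - (q.dQ.b1 * t ^ 2 + q.dQ.b2) / 2) / (q.dQ.c0 * t), ?_⟩
    have h0 := hsq ((Z - (q.dQ.b1 * t ^ 2 + q.dQ.b2) / 2) / (q.dQ.c0 * t))
    have hz : zv q.dQ (t, (Z - (q.dQ.b1 * t ^ 2 + q.dQ.b2) / 2) / (q.dQ.c0 * t)) = Z := by
      simp only [zv, Algebra.algebraMap_self, RingHom.id_apply]
      field_simp
      ring
    rw [hz, hZ] at h0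
    exact mul_left_cancel₀ (mul_ne_zero hc (pow_ne_zero 2 ht)) (by linear_combination -h0)

theorem rho_free [IsAlgClosed k] {q : Conic k} (hq : q.Δ ≠ 0) {y : K} (l : Gl k K)
    (hy : y ^ 2 = q.dQ.val l.1) {e : ℤ} (h : (rho q y ^ e) l = l) : e = 0 := by
  have : CharZero K := charZero_of_injective_algebraMap (algebraMap k K).injective
  by_contra he
  obtain ⟨a, ha, hval, hz⟩ := l1_point hq
  obtain ⟨B, h1, h2⟩ := l1_place l a
  generalize B.valuation = v at h1 h2
  have hv : ∀ c : k, v (algebraMap k K c) ≤ 1 := fun c => by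
    simpa [ev] using h1 (C c)
  have unit : ∀ n : R2 k, ev a n ≠ 0 → v (ev l.1 n) = 1 := fun n hn => by
    have h3 := h2 (n - C (ev a n)) (by simp [ev])
    have e1 : ev l.1 n = algebraMap k K (ev a n) + ev l.1 (n - C (ev a n)) := by simp [ev]
    have h4 := l1_const hv hn
    rw [e1, v.map_add_eq_of_lt_left (by rwa [h4]), h4]
  have vt : v l.1.1 = 1 := by simpa [ev] using unit (X 0) (by simpa [ev] using ha)
  have vy : v y < 1 := by
    have h3 := h2 (q.dQ.lev 0) (by rw [ev_lev _ _ ha, hval]; simp)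
    rw [ev_lev _ _ l.t_ne, map_zero, sub_zero, ← hy, map_mul, map_pow, vt, one_pow, one_mul,
      map_pow] at h3
    exact (pow_lt_one_iff two_ne_zero).1 h3
  have vZ : v (zv q.dQ l.1) = 1 := by
    have e1 : ∀ (L : Type) [Field L] [Algebra k L] (m : L × L), zv q.dQ m = ev m
        (C q.dQ.c0 * X 0 * X 1 + (C q.dQ.b1 * X 0 ^ 2 + C q.dQ.b2) * C (2 : k)⁻¹ : R2 k) := by
      intro L _ _ m
      simp [ev, zv, div_eq_mul_inv, map_ofNat]
    rw [e1]
    exact unit _ (by rwa [← e1])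
  have hy0 : y ≠ 0 := by
    rintro rfl
    exact l.val_ne hq 0 (by rw [← hy]; simp)
  have h3 := (lim1 v hv hq l hy vy vt.le e).2.1
  have ve : v (e : K) = 1 := by
    rw [← map_intCast (algebraMap k K)]
    exact l1_const hv (Int.cast_ne_zero.2 he)
  rw [h, sub_self, zero_add, l1_eta, map_mul, map_mul, map_mul, ve, vZ,
    l1_const hv (neg_ne_zero.2 (inv_ne_zero (mul_ne_zero two_ne_zero hq))), one_mul, mul_one,
    mul_one] at h3
  have h4 : 0 < v y := (v.pos_iff).2 hy0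
  exact absurd h3 (not_le.2 (mul_lt_of_lt_one_right h4 vy))

end Ivrii.Con
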