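import Pool.Agent.P.MP_7a8567_an.Cnc.Alg

set_option autoImplicit false

/-! Levels of a second family at two close points. -/

namespace Ivrii.Con

variable {k K : Type} [Field k] [Field K] [Algebra k K] [CharZero k]
  {Γ : Type} [LinearOrderedCommGroupWithZero Γ] {v : Valuation K Γ}

namespace Lim2P

/-- `x` has residue `r` -/
def R (v : Valuation K Γ) (x : K) (r : k) : Prop := v (x - algebraMap k K r) < 1

omit [CharZero k] in
lemma R.le (hv : Val k v) {x : K} {r : k} (h : R v x r) : v x ≤ 1 := by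
  have e : x = (x - algebraMap k K r) + algebraMap k K r := by ring
  rw [e]
  exact v.map_add_le (le_of_lt h) (hv.le r)

omit [CharZero k] in
lemma R.const (r : k) : R v (algebraMap k K r) r := by simp [R]

omit [CharZero k] in
lemma R.add {x y : K} {r s : k} (h : R v x r) (h' : R v y s) : R v (x + y) (r + s) := by
  have e : x + y - algebraMap k K (r + s) = (x - algebraMap k K r) + (y - algebraMap k K s) := by
    rw [map_add]; ring
  unfold R
  rw [e]
  exact v.map_add_lt h h'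

omit [CharZero k] in
lemma R.sub {x y : K} {r s : k} (h : R v x r) (h' : R v y s) : R v (x - y) (r - s) := by
  have e : x - y - algebraMap k K (r - s) = (x - algebraMap k K r) - (y - algebraMap k K s) := by
    rw [map_sub]; ring
  unfold R
  rw [e]
  exact v.map_sub_lt h h'

omit [CharZero k] in
lemma small (x y : K) (hx : v x < 1) (hy : v y ≤ 1) : v (x * y) < 1 := by
  rw [map_mul]
  exact lt_of_le_of_lt (mul_le_of_le_one_right' hy) hx

omit [CharZero k] in
lemma R.mul (hv : Val k v) {x y : K} {r s : k} (h : R v x r) (h' : R v y s) :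
    R v (x * y) (r * s) := by
  have e : x * y - algebraMap k K (r * s) =
      (x - algebraMap k K r) * y + (y - algebraMap k K s) * algebraMap k K r := by
    rw [map_mul]; ring
  unfold R
  rw [e]
  exact v.map_add_lt (small _ _ h (h'.le hv)) (small _ _ h' (hv.le r))

omit [CharZero k] in
lemma R.pow (hv : Val k v) {x : K} {r : k} (h : R v x r) (n : ℕ) : R v (x ^ n) (r ^ n) := by
  induction n with
  | zero => simpa using R.const (v := v) (1 : k)
  | succ n ih =>
    rw [pow_succ, pow_succ]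
    exact ih.mul hv h

omit [CharZero k] in
lemma v_one (hv : Val k v) {r : k} (hr : r ≠ 0) : v (algebraMap k K r) = 1 := by
  refine le_antisymm (hv.le r) ?_
  have h1 : v (algebraMap k K r) * v (algebraMap k K r⁻¹) = 1 := by
    rw [← map_mul, ← map_mul, mul_inv_cancel₀ hr, map_one, map_one]
  calc (1 : Γ) = v (algebraMap k K r) * v (algebraMap k K r⁻¹) := h1.symm
    _ ≤ v (algebraMap k K r) := mul_le_of_le_one_right' (hv.le _)

omit [CharZero k] in
lemma R.uniq (hv : Val k v) {x y : K} {r s : k} (h : R v x r) (h' : R v y s) (e : x = y) :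
    r = s := by
  by_contra hne
  have h1 := h.sub h'
  rw [e, sub_self] at h1
  unfold R at h1
  rw [zero_sub, v.map_neg, v_one hv (sub_ne_zero.2 hne)] at h1
  exact lt_irrefl _ h1

omit [CharZero k] in
lemma R.one (hv : Val k v) {x : K} {r : k} (h : R v x r) (hr : r ≠ 0) : v x = 1 := by
  rw [← v_one hv hr]
  exact v.map_eq_of_sub_lt (by rw [v_one hv hr]; exact h)

omit [CharZero k] in
lemma R.ne (hv : Val k v) {x : K} {r : k} (h : R v x r) (hr : r ≠ 0) : x ≠ 0 := by
  intro h0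
  have := h.one hv hr
  rw [h0, map_zero] at this
  exact zero_ne_one this

omit [CharZero k] in
/-- division by a unit -/
lemma R.quo (hv : Val k v) {x y z : K} {r s : k} (h : R v x r) (h' : R v y s) (hs : s ≠ 0)
    (e : z * y = x) : R v z (r / s) := by
  have h1 : R v (x - algebraMap k K (r / s) * y) (r - r / s * s) := h.sub ((R.const _).mul hv h')
  rw [div_mul_cancel₀ _ hs, sub_self] at h1
  unfold R at h1 ⊢
  rw [map_zero, sub_zero, ← e, ← sub_mul, map_mul, h'.one hv hs, mul_one] at h1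
  exact h1

omit [CharZero k] in
lemma R.two : R v (2 : K) (2 : k) := by simpa [map_ofNat] using R.const (v := v) (2 : k)

omit [CharZero k] in
lemma ex_sq (hv : Val k v) {x : K} {r : k} (h : R v (x ^ 2) r) : ∃ s : k, R v x s := by
  refine hv.res x ?_
  have h1 := h.le hv
  rw [map_pow] at h1
  exact (pow_le_one_iff_of_nonneg zero_le (by norm_num)).1 h1

omit [CharZero k] in
lemma R.near {x y : K} {r : k} (h : R v x r) (h' : v (y - x) < 1) : R v y r := by
  have e : y - algebraMap k K r = (y - x) + (x - algebraMap k K r) := by ring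
  unfold R
  rw [e]
  exact v.map_add_lt h' h

omit [CharZero k] in
lemma R.diff {x y : K} {r : k} (h : R v x r) (h' : R v y r) : v (y - x) < 1 := by
  simpa [R] using h'.sub h

omit [CharZero k] in
lemma base (J : QF k) {a : K × K} (ht : a.1 ≠ 0) : J.val a * a.1 ^ 2 =
    algebraMap k K J.c0 * (a.1 * a.2) ^ 2
      + a.1 * a.2 * (algebraMap k K J.b1 * a.1 ^ 2 + algebraMap k K J.b2)
      + algebraMap k K J.B * a.1 ^ 4 + algebraMap k K J.c1 * a.1 ^ 2 + algebraMap k K J.A := by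
  simp only [QF.val]
  field_simp

omit [CharZero k] in
lemma levA (hv : Val k v) {J : QF k} {a : K × K} (ht : a.1 ≠ 0) {c tb ub : k}
    (e : J.val a = algebraMap k K c) (h1 : R v a.1 tb) (h2 : R v (a.1 * a.2) ub) :
    c * tb ^ 2 = J.c0 * ub ^ 2 + ub * (J.b1 * tb ^ 2 + J.b2) + J.B * tb ^ 4 + J.c1 * tb ^ 2
      + J.A := by
  have hb := base J ht
  rw [e] at hb
  generalize a.1 * a.2 = u at hb h2
  exact R.uniq hv (by apply_rules [R.const, R.two, R.add, R.sub, R.mul, R.pow]) (by apply_rules [R.const, R.two, R.add, R.sub, R.mul, R.pow]) hb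

omit [CharZero k] in
lemma levB (hv : Val k v) {J : QF k} {a : K × K} (ht : a.1 ≠ 0) {c ub wb : k} {w : K}
    (e : J.val a = algebraMap k K c) (h1 : R v a.1 (0 : k)) (h2 : R v (a.1 * a.2) ub)
    (h3 : R v w wb) (hw : w * a.1 ^ 2 = a.1 * a.2 - algebraMap k K ub) :
    c = J.c1 + wb * (J.c0 * (ub + ub) + J.b2) + J.b1 * ub + J.B * 0 ^ 2 := by
  have hG := congrArg (algebraMap k K) (levA hv ht e h1 h2)
  simp only [map_add, map_mul, map_pow, map_zero] at hG
  have hb := base J ht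
  rw [e] at hb
  generalize a.1 * a.2 = u at hb h2 hw
  have h4 : algebraMap k K c = algebraMap k K J.c1
      + w * (algebraMap k K J.c0 * (u + algebraMap k K ub) + algebraMap k K J.b2)
      + algebraMap k K J.b1 * u + algebraMap k K J.B * a.1 ^ 2 := by
    refine mul_right_cancel₀ (pow_ne_zero 2 ht) ?_
    linear_combination hb - hG
      - (algebraMap k K J.c0 * (u + algebraMap k K ub) + algebraMap k K J.b2) * hw
  exact R.uniq hv (by apply_rules [R.const, R.two, R.add, R.sub, R.mul, R.pow]) (by apply_rules [R.const, R.two, R.add, R.sub, R.mul, R.pow]) h4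

omit [CharZero k] in
lemma levC (hv : Val k v) {J : QF k} {a : K × K} (ht : a.1 ≠ 0) {c ub pb : k} {p : K}
    (e : J.val a = algebraMap k K c) (h1 : R v a.1 (0 : k)) (h2 : R v (a.1 * a.2) ub)
    (h3 : R v p pb) (hp0 : pb ≠ 0) (hp : p * a.1 = a.1 * a.2 - algebraMap k K ub) :
    c = J.c1 + J.c0 * pb ^ 2 + J.b1 * ub + J.B * 0 ^ 2 := by
  have hG := congrArg (algebraMap k K) (levA hv ht e h1 h2)
  simp only [map_add, map_mul, map_pow, map_zero] at hG
  have hb := base J ht
  rw [e] at hb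
  generalize a.1 * a.2 = u at hb h2 hp
  have h4 : algebraMap k K c * a.1 = algebraMap k K J.c1 * a.1
      + p * (algebraMap k K J.c0 * (u + algebraMap k K ub) + algebraMap k K J.b2)
      + a.1 * (algebraMap k K J.b1 * u + algebraMap k K J.B * a.1 ^ 2) := by
    refine mul_right_cancel₀ ht ?_
    linear_combination hb - hG
      - (algebraMap k K J.c0 * (u + algebraMap k K ub) + algebraMap k K J.b2) * hp
  have h5 : c * 0 = J.c1 * 0 + pb * (J.c0 * (ub + ub) + J.b2) + 0 * (J.b1 * ub + J.B * 0 ^ 2) :=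
    R.uniq hv (by apply_rules [R.const, R.two, R.add, R.sub, R.mul, R.pow]) (by apply_rules [R.const, R.two, R.add, R.sub, R.mul, R.pow]) h4
  have h6 : J.c0 * (ub + ub) + J.b2 = 0 := by
    refine mul_left_cancel₀ hp0 ?_
    linear_combination -h5
  have h7 := congrArg (algebraMap k K) h6
  simp only [map_add, map_mul, map_zero] at h7
  have h8 : algebraMap k K c = algebraMap k K J.c1 + algebraMap k K J.c0 * p ^ 2
      + algebraMap k K J.b1 * u + algebraMap k K J.B * a.1 ^ 2 := by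
    refine mul_right_cancel₀ ht ?_
    linear_combination h4 + p * h7 - algebraMap k K J.c0 * p * hp
  exact R.uniq hv (by apply_rules [R.const, R.two, R.add, R.sub, R.mul, R.pow]) (by apply_rules [R.const, R.two, R.add, R.sub, R.mul, R.pow]) h8

/-- one point of the fibre with its residues -/
structure Pt (v : Valuation K Γ) (J : QF k) (j : K) (a : K × K) (tb zb : k) : Prop where
  t0 : a.1 ≠ 0
  j0 : J.val a = j
  rj : R v j (0 : k)
  rt : R v a.1 tb
  rz : R v (zv J a) zb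

lemma zv2 (J : QF k) (a : K × K) : 2 * zv J a = 2 * algebraMap k K J.c0 * (a.1 * a.2)
    + (algebraMap k K J.b1 * a.1 ^ 2 + algebraMap k K J.b2) := by
  have : CharZero K := charZero_of_injective_algebraMap (algebraMap k K).injective
  simp only [zv]
  ring

lemma rJJ (hv : Val k v) (J : QF k) {j : K} (hj : R v j (0 : k)) : R v (JJ J j) (JJ J (0 : k)) := by
  have : CharZero K := charZero_of_injective_algebraMap (algebraMap k K).injective
  have e : JJ J j = algebraMap k K J.c0 * j + algebraMap k K (JJ J (0 : k)) := by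
    simp only [JJ, map_add, map_mul, map_sub, map_div₀, map_ofNat, Algebra.algebraMap_self_apply,
      map_zero]
    ring
  have h : R v (JJ J j) (J.c0 * 0 + JJ J (0 : k)) := by
    rw [e]
    apply_rules [R.const, R.two, R.add, R.sub, R.mul, R.pow]
  simpa using h

lemma pts (hv : Val k v) {q : Conic k} {j : K} {a a' : K × K} (h : Near v q j a a') :
    ∃ tb zb : k, Pt v q.dQ j a tb zb ∧ Pt v q.dQ j a' tb zb := by
  obtain ⟨tb, ht⟩ := hv.res _ h.vt
  replace ht : R v a.1 tb := ht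
  have hj : R v j (0 : k) := by simpa [R] using h.vj
  have hJ := rJJ hv q.dQ hj
  have h2 : R v (zv q.dQ a ^ 2) (0 - AA q.dQ + JJ q.dQ (0 : k) * tb ^ 2 - BB q.dQ * tb ^ 4) := by
    rw [zv_sq q.dQ h.t0, h.j0, ← zero_sub, ← map_zero (algebraMap k K)]
    apply_rules [R.const, R.two, R.add, R.sub, R.mul, R.pow]
  obtain ⟨zb, hz⟩ := ex_sq hv h2
  exact ⟨tb, zb, ⟨h.t0, h.j0, hj, ht, hz⟩, ⟨h.t1, h.j1, hj, ht.near h.dt, hz.near h.dz⟩⟩

variable {J : QF k} {j : K} {a : K × K} {tb zb : k}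

lemma Pt.uc (hv : Val k v) (h : Pt v J j a tb zb) (h0 : J.c0 ≠ 0) :
    R v (a.1 * a.2) ((2 * zb - (J.b1 * tb ^ 2 + J.b2)) / (2 * J.c0)) := by
  obtain ⟨-, -, -, rt, rz⟩ := h
  refine R.quo hv (x := 2 * zv J a - (algebraMap k K J.b1 * a.1 ^ 2 + algebraMap k K J.b2))
    (y := 2 * algebraMap k K J.c0) (by apply_rules [R.const, R.two, R.add, R.sub, R.mul, R.pow]) (by apply_rules [R.const, R.two, R.add, R.sub, R.mul, R.pow]) (mul_ne_zero two_ne_zero h0) ?_
  linear_combination -zv2 J a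

lemma Pt.par (h : Pt v J j a tb zb) (h0 : J.c0 = 0) :
    2 * zv J a = algebraMap k K J.b1 * a.1 ^ 2 + algebraMap k K J.b2 ∧
    a.1 * a.2 * (2 * zv J a) = (j - algebraMap k K J.c1) * a.1 ^ 2 - algebraMap k K J.B * a.1 ^ 4
      - algebraMap k K J.A := by
  have h1 := zv2 J a
  have h2 := base J h.t0
  rw [h0, map_zero] at h1 h2
  rw [h.j0] at h2
  exact ⟨by linear_combination h1, by linear_combination a.1 * a.2 * h1 - h2⟩

lemma Pt.zp (hv : Val k v) (h : Pt v J j a tb zb) (h0 : J.c0 = 0) :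
    2 * zb = J.b1 * tb ^ 2 + J.b2 := by
  have h1 := (h.par h0).1
  obtain ⟨-, -, -, rt, rz⟩ := h
  exact R.uniq hv (by apply_rules [R.const, R.two, R.add, R.sub, R.mul, R.pow]) (by apply_rules [R.const, R.two, R.add, R.sub, R.mul, R.pow]) h1

lemma Pt.up (hv : Val k v) (h : Pt v J j a tb zb) (h0 : J.c0 = 0) (hz : zb ≠ 0) :
    R v (a.1 * a.2) (((0 - J.c1) * tb ^ 2 - J.B * tb ^ 4 - J.A) / (2 * zb)) := by
  have h1 := (h.par h0).2
  obtain ⟨-, -, rj, rt, rz⟩ := h
  exact R.quo hv (by apply_rules [R.const, R.two, R.add, R.sub, R.mul, R.pow]) (by apply_rules [R.const, R.two, R.add, R.sub, R.mul, R.pow]) (mul_ne_zero two_ne_zero hz) h1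

/-- the parabolic case at a pole of `P` -/
lemma Pt.levD (hv : Val k v) (h : Pt v J j a tb 0) (h0 : J.c0 = 0) (hb1 : J.b1 ≠ 0)
    (hN : (0 - J.c1) * tb ^ 2 - J.B * tb ^ 4 - J.A ≠ 0) {J' : QF k} {c : k}
    (e : J'.val a = algebraMap k K c) : J'.c0 = 0 ∧
      (c * tb ^ 2 - J'.B * tb ^ 4 - J'.c1 * tb ^ 2 - J'.A) * J.b1 =
        J'.b1 * ((0 - J.c1) * tb ^ 2 - J.B * tb ^ 4 - J.A) := by
  obtain ⟨h1, h2⟩ := h.par h0
  have h3 := congrArg (algebraMap k K) (h.zp hv h0)
  simp only [map_add, map_mul, map_pow, mul_zero, map_zero] at h3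
  have hb := base J' h.t0
  rw [e] at hb
  obtain ⟨ht, -, rj, rt, rz⟩ := h
  have rN : R v ((j - algebraMap k K J.c1) * a.1 ^ 2 - algebraMap k K J.B * a.1 ^ 4
      - algebraMap k K J.A) ((0 - J.c1) * tb ^ 2 - J.B * tb ^ 4 - J.A) := by apply_rules [R.const, R.two, R.add, R.sub, R.mul, R.pow]
  have rZ : R v (2 * zv J a) (2 * 0 : k) := by apply_rules [R.const, R.two, R.add, R.sub, R.mul, R.pow]
  generalize a.1 * a.2 = u at hb h2
  generalize (j - algebraMap k K J.c1) * a.1 ^ 2 - algebraMap k K J.B * a.1 ^ 4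
      - algebraMap k K J.A = N at rN h2
  generalize (0 - J.c1) * tb ^ 2 - J.B * tb ^ 4 - J.A = nb at rN hN
  generalize 2 * zv J a = Z at rZ h1 h2
  have rM : R v (algebraMap k K c * a.1 ^ 2 - algebraMap k K J'.B * a.1 ^ 4
      - algebraMap k K J'.c1 * a.1 ^ 2 - algebraMap k K J'.A)
      (c * tb ^ 2 - J'.B * tb ^ 4 - J'.c1 * tb ^ 2 - J'.A) := by apply_rules [R.const, R.two, R.add, R.sub, R.mul, R.pow]
  have hM : algebraMap k K c * a.1 ^ 2 - algebraMap k K J'.B * a.1 ^ 4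
      - algebraMap k K J'.c1 * a.1 ^ 2 - algebraMap k K J'.A = algebraMap k K J'.c0 * u ^ 2
      + u * (algebraMap k K J'.b1 * a.1 ^ 2 + algebraMap k K J'.b2) := by linear_combination hb
  generalize algebraMap k K c * a.1 ^ 2 - algebraMap k K J'.B * a.1 ^ 4
      - algebraMap k K J'.c1 * a.1 ^ 2 - algebraMap k K J'.A = M at rM hM
  generalize c * tb ^ 2 - J'.B * tb ^ 4 - J'.c1 * tb ^ 2 - J'.A = mb at rM
  have hZ : Z ≠ 0 := by
    intro hZ
    rw [hZ, mul_zero] at h2
    exact rN.ne hv hN h2.symm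
  have h4 : M * Z ^ 2 = algebraMap k K J'.c0 * N ^ 2
      + N * Z * (algebraMap k K J'.b1 * a.1 ^ 2 + algebraMap k K J'.b2) := by
    rw [hM, ← h2]
    ring
  have h5 : mb * (2 * 0) ^ 2 = J'.c0 * nb ^ 2 + nb * (2 * 0) * (J'.b1 * tb ^ 2 + J'.b2) :=
    R.uniq hv (by apply_rules [R.const, R.two, R.add, R.sub, R.mul, R.pow]) (by apply_rules [R.const, R.two, R.add, R.sub, R.mul, R.pow]) h4
  have h6 : J'.c0 = 0 := by
    refine mul_right_cancel₀ (pow_ne_zero 2 hN) ?_
    linear_combination -h5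
  rw [h6, map_zero] at hM
  have h7 : M * Z = N * (algebraMap k K J'.b1 * a.1 ^ 2 + algebraMap k K J'.b2) := by
    rw [hM, ← h2]
    ring
  have h8 : mb * (2 * 0) = nb * (J'.b1 * tb ^ 2 + J'.b2) := R.uniq hv (by apply_rules [R.const, R.two, R.add, R.sub, R.mul, R.pow]) (by apply_rules [R.const, R.two, R.add, R.sub, R.mul, R.pow]) h7
  have h9 : J'.b1 * tb ^ 2 + J'.b2 = 0 := by
    refine mul_left_cancel₀ hN ?_
    linear_combination -h8
  have h10 := congrArg (algebraMap k K) h9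
  simp only [map_add, map_mul, map_pow, map_zero] at h10
  have h11 : M * algebraMap k K J.b1 = algebraMap k K J'.b1 * N := by
    refine mul_right_cancel₀ hZ ?_
    linear_combination algebraMap k K J.b1 * h7 - algebraMap k K J'.b1 * N * h1
      + algebraMap k K J.b1 * N * h10 + algebraMap k K J'.b1 * N * h3
  exact ⟨h6, R.uniq hv (by apply_rules [R.const, R.two, R.add, R.sub, R.mul, R.pow]) (by apply_rules [R.const, R.two, R.add, R.sub, R.mul, R.pow]) h11⟩

lemma par_ne {J : QF k} (hJ : Nd J) (h0 : J.c0 = 0) : J.b1 ≠ 0 ∧ J.b2 ≠ 0 := by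
  have hA := hJ.par h0
  have hB : BB J ≠ 0 := fun h => hA (hJ.re.2 h)
  exact ⟨fun h => hB (by simp [BB, h0, h]), fun h => hA (by simp [AA, h0, h])⟩

lemma par_N {q : Conic k} (hq : RC q) (h0 : q.dQ.c0 = 0) {tb : k}
    (h : 2 * 0 = q.dQ.b1 * tb ^ 2 + q.dQ.b2) :
    tb ≠ 0 ∧ (0 - q.dQ.c1) * tb ^ 2 - q.dQ.B * tb ^ 4 - q.dQ.A ≠ 0 := by
  obtain ⟨h1, h2⟩ := par_ne hq.toNd h0
  have hD : 4 * q.dQ.A * q.dQ.B * q.dQ.c0 - q.dQ.A * q.dQ.b1 ^ 2 - q.dQ.B * q.dQ.b2 ^ 2
      - q.dQ.c0 * q.dQ.c1 ^ 2 + q.dQ.c1 * q.dQ.b1 * q.dQ.b2 = -16 * q.Δ ^ 2 := by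
    simp only [Conic.dQ, Conic.Δ]
    ring
  refine ⟨fun ht => h2 (by rw [ht] at h; linear_combination -h), fun hN => hq.nd ?_⟩
  rw [h0] at hD
  have h3 : q.Δ ^ 2 = 0 := by
    have hb : q.dQ.b2 = -(q.dQ.b1 * tb ^ 2) := by linear_combination -h
    rw [hb] at hD
    linear_combination (1 / 16) * hD - (1 / 16) * q.dQ.b1 ^ 2 * hN
  exact pow_eq_zero_iff (two_ne_zero) |>.1 h3

lemma Pt.zsq (hv : Val k v) (h : Pt v J j a 0 zb) : zb ^ 2 = -AA J := by
  have h1 := zv_sq J h.t0
  have hJ := rJJ hv J h.rj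
  rw [h.j0, ← zero_sub, ← map_zero (algebraMap k K)] at h1
  obtain ⟨-, -, rj, rt, rz⟩ := h
  have h2 : zb ^ 2 = 0 - AA J + JJ J (0 : k) * 0 ^ 2 - BB J * 0 ^ 4 :=
    R.uniq hv (by apply_rules [R.const, R.two, R.add, R.sub, R.mul, R.pow]) (by apply_rules [R.const, R.two, R.add, R.sub, R.mul, R.pow]) h1
  linear_combination h2

/-- the level is a function of the residues -/
lemma lev_eq (hv : Val k v) {q : Conic k} (hq : RC q) (J' : QF k) (tb zb : k) : ∃ c0 : k,
    ∀ (j : K) (a : K × K) (c : k), Pt v q.dQ j a tb zb → J'.val a = algebraMap k K c → c = c0 := by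
  have : CharZero K := charZero_of_injective_algebraMap (algebraMap k K).injective
  have hA : ∀ ub : k, tb ≠ 0 → (∀ (j : K) (a : K × K), Pt v q.dQ j a tb zb → R v (a.1 * a.2) ub) →
      ∃ c0 : k, ∀ (j : K) (a : K × K) (c : k), Pt v q.dQ j a tb zb →
        J'.val a = algebraMap k K c → c = c0 := fun ub ht hu =>
    ⟨_, fun j a c h e => eq_div_of_mul_eq (pow_ne_zero 2 ht) (levA hv h.t0 e h.rt (hu j a h))⟩
  by_cases h0 : q.dQ.c0 = 0
  · obtain ⟨h1, h2⟩ := par_ne hq.toNd h0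
    by_cases hz : zb = 0
    · subst hz
      refine ⟨(J'.b1 * ((0 - q.dQ.c1) * tb ^ 2 - q.dQ.B * tb ^ 4 - q.dQ.A) / q.dQ.b1
        + J'.B * tb ^ 4 + J'.c1 * tb ^ 2 + J'.A) / tb ^ 2, fun j a c h e => ?_⟩
      obtain ⟨ht, hN⟩ := par_N hq h0 (h.zp hv h0)
      have h3 := (h.levD hv h0 h1 hN e).2
      rw [← h3]
      field_simp
      ring
    by_cases ht : tb = 0
    · subst ht
      generalize hub : ((0 - q.dQ.c1) * 0 ^ 2 - q.dQ.B * 0 ^ 4 - q.dQ.A) / (2 * zb) = ub
      refine ⟨_, fun j a c h e => levB hv h.t0 e h.rt (hub ▸ h.up hv h0 hz)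
        (w := (a.1 * a.2 - algebraMap k K ub) / a.1 ^ 2)
        (wb := (0 - q.dQ.c1 - q.dQ.B * 0 ^ 2 - q.dQ.b1 * ub) / q.dQ.b2) ?_
        (div_mul_cancel₀ _ (pow_ne_zero 2 h.t0))⟩
      have ru : R v (a.1 * a.2) ub := hub ▸ h.up hv h0 hz
      obtain ⟨e1, e2⟩ := h.par h0
      have e3 : ub * q.dQ.b2 = -q.dQ.A := by
        have e4 := h.zp hv h0
        have e5 : q.dQ.b2 = 2 * zb := by linear_combination -e4
        rw [← hub, e5]
        field_simp
        ring
      have e6 := congrArg (algebraMap k K) e3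
      simp only [map_mul, map_neg] at e6
      obtain ⟨ht, -, rj, rt, rz⟩ := h
      generalize a.1 * a.2 = u at ru e2
      refine R.quo hv (x := j - algebraMap k K q.dQ.c1 - algebraMap k K q.dQ.B * a.1 ^ 2
        - algebraMap k K q.dQ.b1 * u) (y := algebraMap k K q.dQ.b2) (by apply_rules [R.const, R.two, R.add, R.sub, R.mul, R.pow]) (by apply_rules [R.const, R.two, R.add, R.sub, R.mul, R.pow]) h2 ?_
      field_simp
      linear_combination e2 - u * e1 - e6
    · exact hA _ ht fun j a h => h.up hv h0 hz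
  by_cases ht : tb = 0
  · subst ht
    generalize hub : (2 * zb - (q.dQ.b1 * 0 ^ 2 + q.dQ.b2)) / (2 * q.dQ.c0) = ub
    have e3 : 2 * q.dQ.c0 * ub = 2 * zb - q.dQ.b2 := by
      rw [← hub]
      field_simp
      ring
    have e6 := congrArg (algebraMap k K) e3
    simp only [map_mul, map_sub, map_ofNat] at e6
    by_cases hz : zb = 0
    · subst hz
      refine ⟨J'.c1 + J'.c0 * (JJ q.dQ (0 : k) / q.dQ.c0 ^ 2) + J'.b1 * ub + J'.B * 0 ^ 2,
        fun j a c h e => ?_⟩
      have ru : R v (a.1 * a.2) ub := hub ▸ h.uc hv h0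
      have hAA : AA q.dQ = 0 := by linear_combination h.zsq hv
      have hBB : BB q.dQ = 0 := hq.toNd.re.1 hAA
      have hJ0 : JJ q.dQ (0 : k) ≠ 0 := by
        have hc : q.c = 0 := by simpa [AA_dQ, hq.nd] using hAA
        have hb : q.b ≠ 0 := fun hb => h0 (by simp [Conic.dQ, hb, hc])
        simp [JJ_dQ, hb, hq.nd]
      have hJ := rJJ hv q.dQ h.rj
      have e1 := zv_sq q.dQ h.t0
      rw [hAA, hBB, map_zero, h.j0] at e1
      have e2 : (zv q.dQ a / a.1) ^ 2 = JJ q.dQ j := by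
        have := h.t0
        field_simp
        linear_combination e1
      obtain ⟨sb, hs⟩ := ex_sq hv (e2 ▸ hJ : R v ((zv q.dQ a / a.1) ^ 2) _)
      have e4 : sb ^ 2 = JJ q.dQ (0 : k) := R.uniq hv (by apply_rules [R.const, R.two, R.add, R.sub, R.mul, R.pow]) hJ e2
      have hs0 : sb ≠ 0 := fun hs0 => hJ0 (by rw [← e4, hs0]; ring)
      have rt := h.rt
      have rp : R v ((a.1 * a.2 - algebraMap k K ub) / a.1)
          ((2 * sb - q.dQ.b1 * 0) / (2 * q.dQ.c0)) := by
        refine R.quo hv (x := 2 * (zv q.dQ a / a.1) - algebraMap k K q.dQ.b1 * a.1)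
          (y := 2 * algebraMap k K q.dQ.c0) (by apply_rules [R.const, R.two, R.add, R.sub, R.mul, R.pow]) (by apply_rules [R.const, R.two, R.add, R.sub, R.mul, R.pow]) (mul_ne_zero two_ne_zero h0) ?_
        have := h.t0
        have e7 := zv2 q.dQ a
        rw [map_zero] at e6
        field_simp
        linear_combination -e7 - e6
      have h5 := levC hv h.t0 e rt ru rp (by simp [hs0, h0]) (div_mul_cancel₀ _ h.t0)
      rw [h5, ← e4]
      field_simp
      ring
    · refine ⟨_, fun j a c h e => levB hv h.t0 e h.rt (hub ▸ h.uc hv h0)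
        (w := (a.1 * a.2 - algebraMap k K ub) / a.1 ^ 2)
        (wb := (2 * ((JJ q.dQ (0 : k) - BB q.dQ * 0 ^ 2) / (zb + zb)) - q.dQ.b1) / (2 * q.dQ.c0)) ?_
        (div_mul_cancel₀ _ (pow_ne_zero 2 h.t0))⟩
      have hJ := rJJ hv q.dQ h.rj
      have e1 := zv_sq q.dQ h.t0
      have e2 := congrArg (algebraMap k K) (h.zsq hv)
      simp only [map_pow, map_neg] at e2
      rw [h.j0] at e1
      have e7 := zv2 q.dQ a
      obtain ⟨ht, -, rj, rt, rz⟩ := h
      have hzz : zb + zb ≠ 0 := by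
        rw [← two_mul]
        exact mul_ne_zero two_ne_zero hz
      have rs : R v ((zv q.dQ a - algebraMap k K zb) / a.1 ^ 2)
          ((JJ q.dQ (0 : k) - BB q.dQ * 0 ^ 2) / (zb + zb)) := by
        refine R.quo hv (x := JJ q.dQ j - algebraMap k K (BB q.dQ) * a.1 ^ 2)
          (y := zv q.dQ a + algebraMap k K zb) (by apply_rules [R.const, R.two, R.add, R.sub, R.mul, R.pow]) (by apply_rules [R.const, R.two, R.add, R.sub, R.mul, R.pow]) hzz ?_
        field_simp
        linear_combination e1 - e2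
      refine R.quo hv (x := 2 * ((zv q.dQ a - algebraMap k K zb) / a.1 ^ 2)
        - algebraMap k K q.dQ.b1) (y := 2 * algebraMap k K q.dQ.c0) (by apply_rules [R.const, R.two, R.add, R.sub, R.mul, R.pow]) (by apply_rules [R.const, R.two, R.add, R.sub, R.mul, R.pow])
        (mul_ne_zero two_ne_zero h0) ?_
      field_simp
      linear_combination -e7 - e6
  · exact hA _ ht fun j a h => h.uc hv h0

lemma rW (hv : Val k v) (J' : QF k) {a : K × K} {tb ub : k} (rt : R v a.1 tb)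
    (ru : R v (algebraMap k K J'.c0 * (a.1 * a.2)) ub) :
    R v (zv J' a) ((2 * ub + (J'.b1 * tb ^ 2 + J'.b2)) / 2) := by
  refine R.quo hv (x := 2 * (algebraMap k K J'.c0 * (a.1 * a.2))
    + (algebraMap k K J'.b1 * a.1 ^ 2 + algebraMap k K J'.b2)) (y := 2) ?_ R.two two_ne_zero ?_
  · generalize algebraMap k K J'.c0 * (a.1 * a.2) = u at ru
    apply_rules [R.const, R.two, R.add, R.sub, R.mul, R.pow]
  · linear_combination zv2 J' a

end Lim2P

open Lim2P

/-- (LIM) -/
theorem lim2 (hv : Val k v) {q : Conic k} (hq : RC q) {j : K} {a a' : K × K}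
    (h : Near v q j a a') (J' : QF k) {c c' : k} (e : J'.val a = algebraMap k K c)
    (e' : J'.val a' = algebraMap k K c') : c = c' := by
  obtain ⟨tb, zb, p, p'⟩ := pts hv h
  obtain ⟨c0, h0⟩ := lev_eq hv hq J' tb zb
  rw [h0 j a c p e, h0 j a' c' p' e']

theorem lim3 (hv : Val k v) {q : Conic k} (hq : RC q) {j : K} {a a' : K × K}
    (h : Near v q j a a') (J' : QF k) {c : k} (e : J'.val a = algebraMap k K c)
    (e' : J'.val a' = algebraMap k K c) :
    v (zv J' a) ≤ 1 ∧ v (zv J' a' - zv J' a) < 1 := by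
  obtain ⟨tb, zb, p, p'⟩ := pts hv h
  suffices H : ∃ ub : k, R v (algebraMap k K J'.c0 * (a.1 * a.2)) ub ∧
      R v (algebraMap k K J'.c0 * (a'.1 * a'.2)) ub by
    obtain ⟨ub, h1, h2⟩ := H
    exact ⟨(rW hv J' p.rt h1).le hv, (rW hv J' p.rt h1).diff (rW hv J' p'.rt h2)⟩
  by_cases h0 : q.dQ.c0 = 0
  · by_cases hz : zb = 0
    · subst hz
      have h1 := (p.levD hv h0 (par_ne hq.toNd h0).1 (par_N hq h0 (p.zp hv h0)).2 e).1
      exact ⟨0, by simp [h1, R], by simp [h1, R]⟩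
    · exact ⟨_, (R.const _).mul hv (p.up hv h0 hz), (R.const _).mul hv (p'.up hv h0 hz)⟩
  · exact ⟨_, (R.const _).mul hv (p.uc hv h0), (R.const _).mul hv (p'.uc hv h0)⟩

/-- degenerate levels are pencils -/
theorem deg_central [IsAlgClosed k] {J : QF k} (h0 : J.c0 ≠ 0) {c : k}
    (hc : JJ J c ^ 2 = 4 * AA J * BB J) {a : K × K} (ht : a.1 ≠ 0)
    (e : J.val a = algebraMap k K c) : Pen k a := by
  have : CharZero K := charZero_of_injective_algebraMap (algebraMap k K).injective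
  obtain ⟨α, β, hα, hβ, hαβ⟩ : ∃ α β : k, α ^ 2 = -AA J ∧ β ^ 2 = -BB J ∧ 2 * α * β = JJ J c := by
    obtain ⟨α, hα⟩ := IsAlgClosed.exists_pow_nat_eq (-AA J) (n := 2) (by norm_num)
    obtain ⟨β, hβ⟩ := IsAlgClosed.exists_pow_nat_eq (-BB J) (n := 2) (by norm_num)
    have h1 : (2 * α * β) ^ 2 = JJ J c ^ 2 := by
      rw [hc, mul_pow, mul_pow, hα, hβ]
      ring
    rcases sq_eq_sq_iff_eq_or_eq_neg.1 h1 with h2 | h2
    · exact ⟨α, β, hα, hβ, h2⟩
    · exact ⟨α, -β, hα, by rw [neg_sq, hβ], by linear_combination -h2⟩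
  have hJ : JJ J (algebraMap k K c) = algebraMap k K (JJ J c) := by
    simp only [JJ, map_add, map_mul, map_sub, map_div₀, map_ofNat, Algebra.algebraMap_self_apply]
  have h1 := zv_sq J ht
  rw [e, hJ, ← hαβ, ← neg_eq_iff_eq_neg.2 hα, ← neg_eq_iff_eq_neg.2 hβ] at h1
  simp only [map_mul, map_pow, map_neg, map_ofNat] at h1
  have h2 : zv J a ^ 2 = (algebraMap k K α + algebraMap k K β * a.1 ^ 2) ^ 2 := by
    linear_combination h1
  have h3 := zv2 J a
  have hc0 : algebraMap k K J.c0 ≠ 0 := (map_ne_zero _).2 h0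
  rcases sq_eq_sq_iff_eq_or_eq_neg.1 h2 with h4 | h4
  · refine Or.inl ⟨(α - J.b2 / 2) / J.c0, (J.b1 / 2 - β) / J.c0, ?_⟩
    simp only [On, map_div₀, map_sub, map_ofNat]
    field_simp
    linear_combination 2 * h4 - h3
  · refine Or.inl ⟨(-α - J.b2 / 2) / J.c0, (J.b1 / 2 + β) / J.c0, ?_⟩
    simp only [On, map_div₀, map_sub, map_add, map_neg, map_ofNat]
    field_simp
    linear_combination 2 * h4 - h3

theorem deg_par [IsAlgClosed k] {J : QF k} (hJ : Nd J) (h0 : J.c0 = 0) {c : k}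
    (hc : c = J.c1 - J.b1 * (J.A / J.b2) - J.b2 * (J.B / J.b1)) {a : K × K} (ht : a.1 ≠ 0)
    (e : J.val a = algebraMap k K c) : Pen k a := by
  obtain ⟨h1, h2⟩ := par_ne hJ h0
  have h1' : algebraMap k K J.b1 ≠ 0 := (map_ne_zero _).2 h1
  have h2' : algebraMap k K J.b2 ≠ 0 := (map_ne_zero _).2 h2
  have hb := base J ht
  rw [e, hc, h0] at hb
  simp only [map_sub, map_mul, map_div₀, map_zero] at hb
  have h3 : (algebraMap k K J.b1 * a.1 ^ 2 + algebraMap k K J.b2) *
      (a.1 * a.2 + algebraMap k K J.B / algebraMap k K J.b1 * a.1 ^ 2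
        + algebraMap k K J.A / algebraMap k K J.b2) = 0 := by
    have e1 : algebraMap k K J.b1 * (algebraMap k K J.B / algebraMap k K J.b1)
      = algebraMap k K J.B := mul_div_cancel₀ _ h1'
    have e2 : algebraMap k K J.b2 * (algebraMap k K J.A / algebraMap k K J.b2)
      = algebraMap k K J.A := mul_div_cancel₀ _ h2'
    linear_combination -hb + a.1 ^ 4 * e1 + e2
  rcases mul_eq_zero.1 h3 with h4 | h4
  · obtain ⟨t0, ht0⟩ := IsAlgClosed.exists_pow_nat_eq (-J.b2 / J.b1) (n := 2) (by norm_num)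
    have h5 : a.1 ^ 2 = algebraMap k K t0 ^ 2 := by
      rw [← map_pow, ht0, map_div₀, map_neg, eq_div_iff h1']
      linear_combination h4
    rcases sq_eq_sq_iff_eq_or_eq_neg.1 h5 with h6 | h6
    · exact Or.inr ⟨t0, h6⟩
    · exact Or.inr ⟨-t0, by rw [map_neg, h6]⟩
  · refine Or.inl ⟨-(J.A / J.b2), J.B / J.b1, ?_⟩
    simp only [On, map_div₀, map_neg]
    refine mul_left_cancel₀ ht ?_
    rw [mul_sub, mul_div_cancel₀ _ ht]
    linear_combination h4

end Ivrii.Con
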