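import Pool.Agent.P.MP_7a8567_an.Cnc.NE

set_option autoImplicit false

/-! Two points on an elliptic level. -/

namespace Ivrii.Con

variable {k κ : Type} [Field k] [Field κ] [Algebra k κ] [IsAlgClosed k] [CharZero k]
  {Γ : Type} [LinearOrderedCommGroupWithZero Γ] {v : Valuation κ Γ}

namespace ND1

/-- `x` has residue `a` -/
def Rs (v : Valuation κ Γ) (x : κ) (a : k) : Prop := v (x - algebraMap k κ a) < 1

omit [IsAlgClosed k] [CharZero k]

lemma Rs.le (hv : Val k v) {x : κ} {a : k} (h : Rs v x a) : v x ≤ 1 := by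
  have e : x = (x - algebraMap k κ a) + algebraMap k κ a := by ring
  rw [e]
  exact v.map_add_le (le_of_lt h) (hv.le a)

lemma Rs.const (a : k) : Rs v (algebraMap k κ a) a := by simp [Rs]

lemma Rs.near {x y : κ} {a : k} (h : Rs v x a) (hy : v (y - x) < 1) : Rs v y a := by
  have e : y - algebraMap k κ a = (y - x) + (x - algebraMap k κ a) := by ring
  rw [Rs, e]
  exact v.map_add_lt hy h

lemma Rs.add {x y : κ} {a b : k} (h : Rs v x a) (h' : Rs v y b) : Rs v (x + y) (a + b) := by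
  have e : x + y - algebraMap k κ (a + b) = (x - algebraMap k κ a) + (y - algebraMap k κ b) := by
    rw [map_add]; ring
  rw [Rs, e]
  exact v.map_add_lt h h'

lemma Rs.sub {x y : κ} {a b : k} (h : Rs v x a) (h' : Rs v y b) : Rs v (x - y) (a - b) := by
  have e : x - y - algebraMap k κ (a - b) = (x - algebraMap k κ a) - (y - algebraMap k κ b) := by
    rw [map_sub]; ring
  rw [Rs, e]
  exact v.map_sub_lt h h'

lemma Rs.neg {x : κ} {a : k} (h : Rs v x a) : Rs v (-x) (-a) := by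
  have e : -x - algebraMap k κ (-a) = -(x - algebraMap k κ a) := by
    rw [map_neg]; ring
  rw [Rs, e, v.map_neg]
  exact h

lemma Rs.mul (hv : Val k v) {x y : κ} {a b : k} (h : Rs v x a) (h' : Rs v y b) :
    Rs v (x * y) (a * b) := by
  have e : x * y - algebraMap k κ (a * b) =
      (x - algebraMap k κ a) * y + algebraMap k κ a * (y - algebraMap k κ b) := by
    rw [map_mul]; ring
  rw [Rs, e]
  refine v.map_add_lt ?_ ?_
  · rw [map_mul]
    exact lt_of_le_of_lt (mul_le_of_le_one_right' (h'.le hv)) h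
  · rw [map_mul]
    exact lt_of_le_of_lt (mul_le_of_le_one_left' (hv.le a)) h'

lemma Rs.pow (hv : Val k v) {x : κ} {a : k} (h : Rs v x a) (n : ℕ) : Rs v (x ^ n) (a ^ n) := by
  induction n with
  | zero => simp [Rs]
  | succ n ih => rw [pow_succ, pow_succ]; exact ih.mul hv h

lemma Rs.uniq (hv : Val k v) {x y : κ} {a b : k} (h : Rs v x a) (h' : Rs v y b) (e : x = y) :
    a = b := by
  by_contra hne
  have h1 := (h.sub h').mul hv (Rs.const (v := v) (a - b)⁻¹)
  rw [e, sub_self, zero_mul, mul_inv_cancel₀ (sub_ne_zero.2 hne)] at h1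
  simp [Rs] at h1

lemma flow [CharZero κ] (D : Derivation k κ κ) {A B C : k} {t Z : κ} (hZ : Z ≠ 0)
    (h : Z ^ 2 = -algebraMap k κ A + algebraMap k κ C * t ^ 2 - algebraMap k κ B * t ^ 4) :
    ∃ δ : κ, D t = Z * δ ∧ D Z = (algebraMap k κ C * t - 2 * algebraMap k κ B * t ^ 3) * δ := by
  refine ⟨D t / Z, by field_simp, ?_⟩
  have h1 := congrArg D h
  simp only [map_sub, map_add, map_neg, Derivation.leibniz, Derivation.leibniz_pow,
    Derivation.map_algebraMap, smul_eq_mul, nsmul_eq_mul] at h1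
  push_cast at h1
  field_simp
  linear_combination (1 / 2 : κ) * h1

lemma ddiv (D : Derivation k κ κ) (x : κ) {t : κ} (ht : t ≠ 0) :
    D (x / t) = D x / t - x * D t / t ^ 2 := by
  have h : D (x / t * t) = D x := by rw [div_mul_cancel₀ _ ht]
  rw [Derivation.leibniz, smul_eq_mul, smul_eq_mul] at h
  rw [← h]
  field_simp
  ring

end ND1

open ND1

theorem nd1_core (hv : Val k v) {j : κ} (hb : Base k j) (D : Derivation k κ κ)
    (hD : ∀ f, D f = 0 → ∃ a : k, f = algebraMap k κ a) {A B C : k} (hA : A ≠ 0) (hB : B ≠ 0)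
    (hc : C ^ 2 ≠ 4 * A * B) {t1 t2 Z1 Z2 g : κ} (n1 : t1 ≠ 0) (n2 : t2 ≠ 0)
    (tr1 : ∀ b : k, t1 ≠ algebraMap k κ b) (tr2 : ∀ b : k, t2 ≠ algebraMap k κ b)
    (h1 : Z1 ^ 2 = -algebraMap k κ A + algebraMap k κ C * t1 ^ 2 - algebraMap k κ B * t1 ^ 4)
    (h2 : Z2 ^ 2 = -algebraMap k κ A + algebraMap k κ C * t2 ^ 2 - algebraMap k κ B * t2 ^ 4)
    (hx : Z2 * D t2 / t2 ^ 2 - Z1 * D t1 / t1 ^ 2 = D g)
    (vt : v t1 ≤ 1) (dt : v (t2 - t1) < 1) (dz : v (Z2 - Z1) < 1) : t2 = t1 ∧ Z2 = Z1 := by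
  have : CharZero κ := charZero_of_injective_algebraMap (algebraMap k κ).injective
  have hZ : ∀ t Z : κ, (∀ b : k, t ≠ algebraMap k κ b) →
      Z ^ 2 = -algebraMap k κ A + algebraMap k κ C * t ^ 2 - algebraMap k κ B * t ^ 4 → Z ≠ 0 := by
    intro t Z tr h h0
    have h3 := transcendental_iff.1 (hb.of_ne tr).tr
      (-Polynomial.C A + Polynomial.C C * Polynomial.X ^ 2 - Polynomial.C B * Polynomial.X ^ 4)
      (by
        simp only [map_sub, map_add, map_neg, map_mul, map_pow, Polynomial.aeval_C,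
          Polynomial.aeval_X]
        rw [← h, h0]
        ring)
    have h4 := congrArg (Polynomial.eval 0) h3
    simp at h4
    exact hA h4
  obtain ⟨d1, a1, b1⟩ := flow D (hZ t1 Z1 tr1 h1) h1
  obtain ⟨d2, a2, b2⟩ := flow D (hZ t2 Z2 tr2 h2) h2
  obtain ⟨tb, rt1⟩ := hv.res t1 vt
  replace rt1 : Rs v t1 tb := rt1
  have rt2 : Rs v t2 tb := rt1.near dt
  have rR := ((Rs.const (v := v) A).neg.add ((Rs.const C).mul hv (rt1.pow hv 2))).sub
    ((Rs.const B).mul hv (rt1.pow hv 4))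
  have vZ : v Z1 ≤ 1 := by
    have h3 := rR.le hv
    rw [← h1, map_pow] at h3
    exact (pow_le_one_iff (by norm_num)).1 h3
  obtain ⟨Zb, rZ1⟩ := hv.res Z1 vZ
  replace rZ1 : Rs v Z1 Zb := rZ1
  have rZ2 : Rs v Z2 Zb := rZ1.near dz
  have hR : Zb ^ 2 = -A + C * tb ^ 2 - B * tb ^ 4 := (rZ1.pow hv 2).uniq hv rR h1
  have rE := (Rs.const (v := v) A).sub
    (((Rs.const B).mul hv (rt1.pow hv 2)).mul hv (rt2.pow hv 2))
  have rS := (rt1.mul hv rZ2).add (rt2.mul hv rZ1)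
  have rN := (rt2.mul hv rZ1).sub (rt1.mul hv rZ2)
  have bad : A - B * tb ^ 2 * tb ^ 2 = 0 → tb * Zb + tb * Zb = 0 → False := by
    intro e1 e2
    have tb0 : tb ≠ 0 := by
      rintro rfl
      apply hA
      linear_combination e1
    have Zb0 : Zb = 0 := by
      have : tb * Zb = 0 := by linear_combination (1 / 2 : k) * e2
      exact (mul_eq_zero.1 this).resolve_left tb0
    rw [Zb0] at hR
    have e3 : C * tb ^ 2 = 2 * A := by linear_combination -hR - e1
    apply hc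
    have : (C ^ 2 - 4 * A * B) * tb ^ 4 = 0 := by
      linear_combination (C * tb ^ 2 + 2 * A) * e3 + 4 * A * e1
    exact sub_eq_zero.1 ((mul_eq_zero.1 this).resolve_right (pow_ne_zero 4 tb0))
  have dA := D.map_algebraMap A
  have dB := D.map_algebraMap B
  have d2c : D (2 : κ) = 0 := by simpa using D.map_natCast 2
  set a := algebraMap k κ A with ha
  set b := algebraMap k κ B with hbb
  set c := algebraMap k κ C with hcc
  have hs : (t2 * Z1 - t1 * Z2) * (t1 * Z2 + t2 * Z1) =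
      (a - b * t1 ^ 2 * t2 ^ 2) * (t1 ^ 2 - t2 ^ 2) := by
    linear_combination t2 ^ 2 * h1 - t1 ^ 2 * h2
  have q1 : D (Z1 / t1) = (c - 2 * b * t1 ^ 2) * d1 - Z1 * D t1 / t1 ^ 2 := by
    rw [ddiv D Z1 n1, b1]
    field_simp
  have q2 : D (Z2 / t2) = (c - 2 * b * t2 ^ 2) * d2 - Z2 * D t2 / t2 ^ 2 := by
    rw [ddiv D Z2 n2, b2]
    field_simp
  by_cases hE : a - b * t1 ^ 2 * t2 ^ 2 = 0
  · exfalso
    have e1 := rE.uniq hv (Rs.const 0) (by rw [map_zero]; exact hE)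
    rw [hE, zero_mul] at hs
    rcases mul_eq_zero.1 hs with hN | hS
    · have hb0 : b ≠ 0 := (map_ne_zero _).2 hB
      have h3 := congrArg D hE
      simp only [map_sub, Derivation.leibniz, Derivation.leibniz_pow, dA, dB, map_zero,
        smul_eq_mul, nsmul_eq_mul] at h3
      push_cast at h3
      have h4 : t1 * D t2 + t2 * D t1 = 0 := by
        have : (2 * b * t1 * t2) * (t1 * D t2 + t2 * D t1) = 0 := by linear_combination -h3
        exact (mul_eq_zero.1 this).resolve_left (by simp [hb0, n1, n2])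
      have h5 : Z2 * D t2 / t2 ^ 2 = -(Z1 * D t1 / t1 ^ 2) := by
        field_simp
        linear_combination (t1 * Z2) * h4 + (t2 * D t1) * hN
      refine ne_ell (hb.of_ne tr1) D (fun h0 => ?_) (r4 := -B) (r2 := C) (r0 := -A) (n2 := -2 * B)
        (n0 := C) (neg_ne_zero.2 hB) (neg_ne_zero.2 hA) (fun h => hc (by linear_combination h))
        (mul_ne_zero (by norm_num) hB) (w := Z1) (f := Z1 / t1 - g / 2)
        (by rw [map_neg, map_neg]; linear_combination h1) ?_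
      · obtain ⟨x, hx⟩ := hD t1 h0
        exact tr1 x hx
      · rw [map_sub, q1, ddiv D g two_ne_zero, d2c, ← hx, h5, map_mul, map_neg, map_ofNat]
        conv_rhs => rw [a1]
        ring
    · exact bad e1 (rS.uniq hv (Rs.const 0) (by rw [map_zero]; exact hS))
  · obtain ⟨h, hh⟩ : ∃ h : κ, h * (a - b * t1 ^ 2 * t2 ^ 2) = t2 * Z1 - t1 * Z2 :=
      ⟨_, div_mul_cancel₀ _ hE⟩
    have hs' : h * (t1 * Z2 + t2 * Z1) = t1 ^ 2 - t2 ^ 2 := by
      apply mul_left_cancel₀ hE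
      rw [← hs, ← hh]
      ring
    by_cases hk : ∃ x : k, h = algebraMap k κ x
    · obtain ⟨x, rfl⟩ := hk
      have e1 := ((Rs.const x).mul hv rE).uniq hv rN hh
      have e2 := ((Rs.const x).mul hv rS).uniq hv ((rt1.pow hv 2).sub (rt2.pow hv 2)) hs'
      rw [sub_self] at e1 e2
      have x0 : x = 0 := by
        by_contra hne
        exact bad ((mul_eq_zero.1 e1).resolve_left hne) ((mul_eq_zero.1 e2).resolve_left hne)
      rw [x0, map_zero, zero_mul] at hh hs'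
      have h3 : (t2 - t1) * (t2 + t1) = 0 := by linear_combination hs'
      rcases mul_eq_zero.1 h3 with h4 | h4
      · have h5 : t2 = t1 := sub_eq_zero.1 h4
        refine ⟨h5, mul_left_cancel₀ n1 ?_⟩
        rw [h5] at hh
        linear_combination hh
      · exfalso
        have h5 : Z2 + Z1 = 0 := by
          apply mul_left_cancel₀ n1
          linear_combination hh + Z1 * h4
        have e3 := (rt2.add rt1).uniq hv (Rs.const 0) (by rw [map_zero]; exact h4)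
        have e4 := (rZ2.add rZ1).uniq hv (Rs.const 0) (by rw [map_zero]; exact h5)
        have tb0 : tb = 0 := by linear_combination (1 / 2 : k) * e3
        have Zb0 : Zb = 0 := by linear_combination (1 / 2 : k) * e4
        rw [tb0, Zb0] at hR
        apply hA
        linear_combination hR
    · exfalso
      push Not at hk
      have hE2 := pow_ne_zero 2 hE
      obtain ⟨m, hm⟩ : ∃ m : κ, m * (a - b * t1 ^ 2 * t2 ^ 2) ^ 2 =
          -((a + b * t1 ^ 2 * t2 ^ 2) * (Z1 * Z2 - c * t1 * t2) +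
            2 * a * b * t1 * t2 * (t1 ^ 2 + t2 ^ 2)) := ⟨_, div_mul_cancel₀ _ hE2⟩
      have i1 : m ^ 2 = a * b * h ^ 4 + c * h ^ 2 + 1 := by
        apply mul_left_cancel₀ (pow_ne_zero 4 hE)
        have e : (a - b * t1 ^ 2 * t2 ^ 2) ^ 4 * (a * b * h ^ 4 + c * h ^ 2 + 1) =
            (a - b * t1 ^ 2 * t2 ^ 2) ^ 4 +
              c * (h * (a - b * t1 ^ 2 * t2 ^ 2)) ^ 2 * (a - b * t1 ^ 2 * t2 ^ 2) ^ 2 +
              a * b * (h * (a - b * t1 ^ 2 * t2 ^ 2)) ^ 4 := by ring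
        have e' : (a - b * t1 ^ 2 * t2 ^ 2) ^ 4 * m ^ 2 =
            (m * (a - b * t1 ^ 2 * t2 ^ 2) ^ 2) ^ 2 := by ring
        rw [e, e', hh, hm]
        linear_combination (a ^ 2 * b * t2 ^ 4 - a ^ 2 * c * t2 ^ 2 + a ^ 2 * Z2 ^ 2 +
          a * b ^ 2 * t1 ^ 4 * t2 ^ 4 + a * b * c * t1 ^ 2 * t2 ^ 4 -
          4 * a * b * t1 ^ 2 * t2 ^ 2 * Z2 ^ 2 + 4 * a * b * t1 * t2 ^ 3 * Z1 * Z2 -
          a * b * t2 ^ 4 * Z1 ^ 2 - b ^ 2 * c * t1 ^ 4 * t2 ^ 6 +
          b ^ 2 * t1 ^ 4 * t2 ^ 4 * Z2 ^ 2) * h1 +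
          (-a ^ 3 + 4 * a ^ 2 * b * t1 ^ 2 * t2 ^ 2 + 4 * a * b ^ 2 * t1 ^ 6 * t2 ^ 2 -
          3 * a * b * c * t1 ^ 4 * t2 ^ 2 - a * b * t1 ^ 4 * Z2 ^ 2 +
          4 * a * b * t1 ^ 3 * t2 * Z1 * Z2 - b ^ 3 * t1 ^ 8 * t2 ^ 4) * h2
      have i2 : m * t1 * t2 + h * Z1 * t2 = t1 ^ 2 + a * h ^ 2 := by
        apply mul_left_cancel₀ hE2
        have e : (a - b * t1 ^ 2 * t2 ^ 2) ^ 2 * (m * t1 * t2 + h * Z1 * t2) =
            m * (a - b * t1 ^ 2 * t2 ^ 2) ^ 2 * t1 * t2 +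
              h * (a - b * t1 ^ 2 * t2 ^ 2) * (a - b * t1 ^ 2 * t2 ^ 2) * Z1 * t2 := by ring
        have e' : (a - b * t1 ^ 2 * t2 ^ 2) ^ 2 * (t1 ^ 2 + a * h ^ 2) =
            t1 ^ 2 * (a - b * t1 ^ 2 * t2 ^ 2) ^ 2 +
              a * (h * (a - b * t1 ^ 2 * t2 ^ 2)) ^ 2 := by ring
        rw [e, e', hh, hm]
        linear_combination (-b * t1 ^ 2 * t2 ^ 4) * h1 - a * t1 ^ 2 * h2
      have i3 : m * t1 * t2 - h * Z2 * t1 = t2 ^ 2 + a * h ^ 2 := by
        apply mul_left_cancel₀ hE2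
        have e : (a - b * t1 ^ 2 * t2 ^ 2) ^ 2 * (m * t1 * t2 - h * Z2 * t1) =
            m * (a - b * t1 ^ 2 * t2 ^ 2) ^ 2 * t1 * t2 -
              h * (a - b * t1 ^ 2 * t2 ^ 2) * (a - b * t1 ^ 2 * t2 ^ 2) * Z2 * t1 := by ring
        have e' : (a - b * t1 ^ 2 * t2 ^ 2) ^ 2 * (t2 ^ 2 + a * h ^ 2) =
            t2 ^ 2 * (a - b * t1 ^ 2 * t2 ^ 2) ^ 2 +
              a * (h * (a - b * t1 ^ 2 * t2 ^ 2)) ^ 2 := by ring
        rw [e, e', hh, hm]
        linear_combination (-a * t2 ^ 2) * h1 - b * t1 ^ 4 * t2 ^ 2 * h2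
      have i4 : D h = m * (d1 - d2) := by
        have h3 := congrArg D hh
        simp only [map_sub, Derivation.leibniz, Derivation.leibniz_pow, dA, dB, a1, a2, b1, b2,
          smul_eq_mul, nsmul_eq_mul] at h3
        push_cast at h3
        apply mul_left_cancel₀ hE2
        linear_combination (a - b * t1 ^ 2 * t2 ^ 2) * h3 - (d1 - d2) * hm +
          (2 * b * t1 * t2 * (t2 * Z1 * d1 + t1 * Z2 * d2)) * hh +
          (2 * b * t1 * t2 ^ 3 * d1) * h1 - (2 * b * t1 ^ 3 * t2 * d2) * h2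
      refine ne_ell (hb.of_ne hk) D (fun h0 => ?_) (r4 := A * B) (r2 := C) (r0 := 1)
        (n2 := -2 * (A * B)) (n0 := -C) (mul_ne_zero hA hB) one_ne_zero
        (fun h => hc (by linear_combination h))
        (mul_ne_zero (by norm_num) (mul_ne_zero hA hB)) (w := m)
        (f := g - (Z1 / t1 - Z2 / t2 + 2 * b * (h * (t1 * t2))))
        (by rw [map_mul, map_one]; exact i1) ?_
      · obtain ⟨x, hx⟩ := hD h h0
        exact hk x hx
      · have q3 : D (2 * b * (h * (t1 * t2))) =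
            2 * b * (h * (t1 * (Z2 * d2) + t2 * (Z1 * d1)) + t1 * t2 * (m * (d1 - d2))) := by
          simp only [Derivation.leibniz, d2c, dB, a1, a2, i4, smul_eq_mul]
          ring
        rw [map_sub, map_add, map_sub, q1, q2, q3, ← hx, i4]
        simp only [map_mul, map_neg, map_ofNat]
        linear_combination (-2 * b * m * d1) * i2 + (2 * b * m * d2) * i3

theorem nd1 (hv : Val k v) {j : κ} (hb : Base k j) (D : Derivation k κ κ)
    (hD : ∀ f, D f = 0 → ∃ a : k, f = algebraMap k κ a) {J : QF k} (h0 : J.c0 ≠ 0)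
    (hA : AA J ≠ 0) (hB : BB J ≠ 0) {c : k} (hc : JJ J c ^ 2 ≠ 4 * AA J * BB J) {a a' : κ × κ}
    (t0 : a.1 ≠ 0) (t1 : a'.1 ≠ 0) (tr : ∀ b : k, a.1 ≠ algebraMap k κ b)
    (tr' : ∀ b : k, a'.1 ≠ algebraMap k κ b)
    (e : J.val a = algebraMap k κ c) (e' : J.val a' = algebraMap k κ c) (hx : Ex D a a')
    (vt : v a.1 ≤ 1) (dt : v (a'.1 - a.1) < 1) (dz : v (zv J a' - zv J a) < 1) : a' = a := by
  have : CharZero κ := charZero_of_injective_algebraMap (algebraMap k κ).injective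
  have hJ : JJ J (algebraMap k κ c) = algebraMap k κ (JJ J c) := by
    simp [JJ, map_ofNat]
  have z1 := zv_sq J t0
  have z2 := zv_sq J t1
  rw [e, hJ] at z1
  rw [e', hJ] at z2
  obtain ⟨f, hf⟩ := hx
  have d2c : D (2 : κ) = 0 := by simpa using D.map_natCast 2
  have hw : ∀ l : κ × κ, l.1 ≠ 0 → zv J l * D l.1 / l.1 ^ 2 =
      algebraMap k κ J.c0 * (l.2 * D l.1 / l.1) +
        D ((algebraMap k κ J.b1 * l.1 - algebraMap k κ J.b2 / l.1) / 2) := by
    intro l hl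
    rw [ddiv D _ two_ne_zero, d2c, map_sub, ddiv D _ hl, Derivation.leibniz, zv]
    simp only [Derivation.map_algebraMap, smul_eq_mul]
    field_simp
    ring
  obtain ⟨r1, r2⟩ := nd1_core hv hb D hD hA hB hc t0 t1 tr tr' z1 z2
    (g := algebraMap k κ J.c0 * f +
      ((algebraMap k κ J.b1 * a'.1 - algebraMap k κ J.b2 / a'.1) / 2 -
        (algebraMap k κ J.b1 * a.1 - algebraMap k κ J.b2 / a.1) / 2))
    (by
      rw [hw a t0, hw a' t1, map_add, map_sub, Derivation.leibniz, ← hf]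
      simp only [Derivation.map_algebraMap, smul_eq_mul]
      ring) vt dt dz
  refine Prod.ext r1 ?_
  rw [zv, zv, r1] at r2
  apply mul_left_cancel₀ (mul_ne_zero ((map_ne_zero (algebraMap k κ)).2 h0) t0)
  linear_combination r2

end Ivrii.Con
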