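import Pool.Agent.P.MP_7a8567_an.Cnc.NE

set_option autoImplicit false

/-! Two points on a level of a family of circles or parabolas. -/

namespace Ivrii.Con

variable {k κ : Type} [Field k] [Field κ] [Algebra k κ] [IsAlgClosed k] [CharZero k]

omit [IsAlgClosed k] [CharZero k] in
private lemma coef_zero {t : κ} (ht : Transcendental k t) {a0 a1 a3 a4 : k}
    (h : algebraMap k κ a0 + algebraMap k κ a1 * t + algebraMap k κ a3 * t ^ 3
      + algebraMap k κ a4 * t ^ 4 = 0) : a0 = 0 ∧ a1 = 0 ∧ a3 = 0 ∧ a4 = 0 := by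
  have hp : (Polynomial.C a0 + Polynomial.C a1 * Polynomial.X + Polynomial.C a3 * Polynomial.X ^ 3
      + Polynomial.C a4 * Polynomial.X ^ 4 : Polynomial k) = 0 := by
    by_contra hne
    exact ht ⟨_, hne, by simpa using h⟩
  have c := fun n => congrArg (fun p => Polynomial.coeff p n) hp
  have c0 := c 0
  have c1 := c 1
  have c3 := c 3
  have c4 := c 4
  simp [Polynomial.coeff_X, Polynomial.coeff_C, Polynomial.coeff_X_pow] at c0 c1 c3 c4
  exact ⟨c0, c1, c3, c4⟩

private lemma log_const {j : κ} (hb : Base k j) (D : Derivation k κ κ)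
    (hD : ∀ f, D f = 0 → ∃ a : k, f = algebraMap k κ a) {T g : κ} (h : T * D g = D T) :
    ∃ a : k, T = algebraMap k κ a := by
  by_cases h0 : D T = 0
  · exact hD T h0
  · exfalso
    refine ne_log (hb.of_ne (u := T) ?_) D h0 g h
    rintro a rfl
    exact h0 (D.map_algebraMap a)

omit [IsAlgClosed k] in
private lemma sq_shift {J' : QF k} (h0 : J'.c0 ≠ 0) (hA : AA J' = 0) (hB : BB J' = 0) {c : k}
    {a : κ × κ} (t0 : a.1 ≠ 0) (e : J'.val a = algebraMap k κ c) :
    (shL (J'.b1 / (2 * J'.c0)) (J'.b2 / (2 * J'.c0)) a).2 ^ 2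
      = algebraMap k κ (JJ J' c / J'.c0 ^ 2) := by
  haveI : CharZero κ := charZero_of_injective_algebraMap (algebraMap k κ).injective
  have h0' : algebraMap k κ J'.c0 ≠ 0 := by simpa using h0
  have hA' := congrArg (algebraMap k κ) hA
  have hB' := congrArg (algebraMap k κ) hB
  simp only [AA, BB, map_sub, map_mul, map_div₀, map_pow, map_ofNat, map_zero] at hA' hB'
  simp only [shL, JJ, Algebra.algebraMap_self, RingHom.id_apply, map_sub, map_mul, map_div₀,
    map_pow, map_ofNat, map_add]
  rw [← e]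
  simp only [QF.val]
  have eA : algebraMap k κ J'.A = algebraMap k κ J'.b2 ^ 2 / 4 / algebraMap k κ J'.c0 := by
    field_simp
    linear_combination 4 * hA'
  have eB : algebraMap k κ J'.B = algebraMap k κ J'.b1 ^ 2 / 4 / algebraMap k κ J'.c0 := by
    field_simp
    linear_combination 4 * hB'
  rw [eA, eB]
  field_simp
  ring

omit [IsAlgClosed k] [CharZero k] in
private lemma der_shift (D : Derivation k κ κ) (s1 s2 : k) {a : κ × κ} (t0 : a.1 ≠ 0) :
    a.2 * D a.1 / a.1 = (shL s1 s2 a).2 * D a.1 / a.1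
      - D (algebraMap k κ s1 * a.1 - algebraMap k κ s2 / a.1) := by
  simp only [shL, map_sub, Derivation.leibniz, Derivation.leibniz_div, Derivation.map_algebraMap,
    smul_eq_mul]
  field_simp
  ring

theorem nd2 {j : κ} (hb : Base k j) (D : Derivation k κ κ)
    (hD : ∀ f, D f = 0 → ∃ a : k, f = algebraMap k κ a) {J' : QF k} (h0 : J'.c0 ≠ 0)
    (hA : AA J' = 0) (hB : BB J' = 0) {c : k} (hc : JJ J' c ≠ 0) {a a' : κ × κ}
    (t0 : a.1 ≠ 0) (t1 : a'.1 ≠ 0) (e : J'.val a = algebraMap k κ c)
    (e' : J'.val a' = algebraMap k κ c) (hx : Ex D a a') {J : QF k} (hj : J.val a = j)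
    (hj' : J.val a' = j) : Iso J a a' := by
  have q := sq_shift h0 hA hB t0 e
  have q' := sq_shift h0 hA hB t1 e'
  generalize J'.b1 / (2 * J'.c0) = s1 at q q'
  generalize J'.b2 / (2 * J'.c0) = s2 at q q'
  obtain ⟨r0, hr0⟩ := IsAlgClosed.exists_pow_nat_eq (JJ J' c / J'.c0 ^ 2) (n := 2) (by norm_num)
  have hr0' : r0 ≠ 0 := by
    rintro rfl
    exact div_ne_zero hc (pow_ne_zero 2 h0) (by simpa using hr0.symm)
  obtain ⟨r, hr, hp⟩ : ∃ r : k, r ≠ 0 ∧ (shL s1 s2 a).2 = algebraMap k κ r := by
    rw [← hr0, map_pow] at q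
    rcases sq_eq_sq_iff_eq_or_eq_neg.1 q with h | h
    · exact ⟨r0, hr0', h⟩
    · exact ⟨-r0, neg_ne_zero.2 hr0', by rw [h, map_neg]⟩
  have hr' : algebraMap k κ r ≠ 0 := by simpa using hr
  have hpp : (shL s1 s2 a').2 ^ 2 = algebraMap k κ r ^ 2 := by rw [q', ← q, hp]
  obtain ⟨f, hf⟩ := hx
  rw [der_shift D s1 s2 t0, der_shift D s1 s2 t1, hp] at hf
  have v0 := val_shift J s1 s2 t0
  have v1 := val_shift J s1 s2 t1
  rw [hj] at v0
  rw [hj'] at v1
  have a1 : (shL s1 s2 a).1 = a.1 := rfl
  have a1' : (shL s1 s2 a').1 = a'.1 := rfl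
  have tr : Transcendental k a.1 := by
    refine (hb.of_ne (u := a.1) ?_).tr
    intro b hb'
    refine hb.tr ?_
    rw [← v0]
    simp only [QF.val, a1, hp, hb', ← map_pow, ← map_mul, ← map_div₀, ← map_add]
    exact isAlgebraic_algebraMap _
  have hG : ∀ x y : κ, D ((f + x - y) / algebraMap k κ r)
      = (D f + D x - D y) / algebraMap k κ r := by
    intro x y
    simp only [Derivation.leibniz_div, Derivation.map_algebraMap, map_add, map_sub, smul_eq_mul]
    field_simp
    ring
  have vv := v0.trans v1.symm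
  rcases sq_eq_sq_iff_eq_or_eq_neg.1 hpp with h | h
  · rw [h] at hf
    obtain ⟨u, hu⟩ := log_const hb D hD (T := a'.1 / a.1)
      (g := (f + (algebraMap k κ s1 * a'.1 - algebraMap k κ s2 / a'.1)
        - (algebraMap k κ s1 * a.1 - algebraMap k κ s2 / a.1)) / algebraMap k κ r) (by
        rw [hG, ← hf]
        simp only [Derivation.leibniz_div (a := a'.1), smul_eq_mul]
        field_simp
        ring)
    have hu1 : a'.1 = algebraMap k κ u * a.1 := by rw [← hu]; field_simp
    have hu0 : u ≠ 0 := by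
      rintro rfl
      exact t1 (by simpa using hu1)
    have hu0' : algebraMap k κ u ≠ 0 := by simpa using hu0
    refine ⟨s1, s2, u, hu0, Or.inl ⟨?_, ?_⟩⟩
    · refine Prod.ext hu1 ?_
      simp only [sym1, hp]
      simp only [shL, map_neg] at h ⊢
      rw [← hu1, ← h]
      ring
    · simp only [QF.val, a1, a1', hp, h, hu1] at vv
      unfold Inv1
      generalize shift J s1 s2 = S at vv
      obtain ⟨c0, c1, c3, c4⟩ := coef_zero tr (a0 := S.A * u ^ 2 - S.A)
        (a1 := r * u * (S.b2 * u - S.b2)) (a3 := r * u ^ 2 * (S.b1 - S.b1 * u))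
        (a4 := u ^ 2 * (S.B - S.B * u ^ 2)) (by
          simp only [map_sub, map_mul, map_pow]
          field_simp at vv
          linear_combination vv)
      refine ⟨?_, ?_, ?_, ?_⟩
      · have := (mul_eq_zero.1 c3).resolve_left (mul_ne_zero hr (pow_ne_zero 2 hu0))
        linear_combination -this
      · have := (mul_eq_zero.1 c1).resolve_left (mul_ne_zero hr hu0)
        linear_combination this
      · have := (mul_eq_zero.1 c4).resolve_left (pow_ne_zero 2 hu0)
        linear_combination -this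
      · linear_combination c0
  · rw [h] at hf
    obtain ⟨u, hu⟩ := log_const hb D hD (T := a'.1 * a.1)
      (g := -((f + (algebraMap k κ s1 * a'.1 - algebraMap k κ s2 / a'.1)
        - (algebraMap k κ s1 * a.1 - algebraMap k κ s2 / a.1)) / algebraMap k κ r)) (by
        rw [map_neg, hG, ← hf]
        simp only [Derivation.leibniz (a := a'.1), smul_eq_mul]
        field_simp
        ring)
    have hu1 : a'.1 = algebraMap k κ u / a.1 := by rw [← hu]; field_simp
    have hu0 : u ≠ 0 := by
      rintro rfl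
      exact t1 (by simpa using hu1)
    have hu0' : algebraMap k κ u ≠ 0 := by simpa using hu0
    refine ⟨s1, s2, u, hu0, Or.inr ⟨?_, ?_⟩⟩
    · refine Prod.ext hu1 ?_
      simp only [sym2, hp]
      simp only [shL, map_neg] at h ⊢
      rw [← hu1, ← h]
      ring
    · simp only [QF.val, a1, a1', hp, h, hu1] at vv
      unfold Inv2
      generalize shift J s1 s2 = S at vv
      obtain ⟨c0, c1, c3, c4⟩ := coef_zero tr (a0 := u ^ 2 * (S.A - u ^ 2 * S.B))
        (a1 := r * u ^ 2 * (S.b2 + u * S.b1)) (a3 := r * u * (S.b2 + u * S.b1))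
        (a4 := u ^ 2 * S.B - S.A) (by
          simp only [map_sub, map_mul, map_pow, map_add]
          field_simp at vv
          linear_combination vv)
      refine ⟨?_, ?_⟩
      · have := (mul_eq_zero.1 c3).resolve_left (mul_ne_zero hr hu0)
        linear_combination this
      · linear_combination -c4

end Ivrii.Con
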