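import Pool.Agent.P.MP_7a8567_an.Cnc.NE

set_option autoImplicit false

/-! Two points on a level of a family of circles or parabolas. -/

namespace Ivrii.Con

variable {k κ : Type} [Field k] [Field κ] [Algebra k κ] [IsAlgClosed k] [CharZero k]

/-- the value of a family on a parabolic level curve, as a function of the parameter -/
noncomputable def nd3F (α β γ δ : k) (H : κ) : κ :=
  algebraMap k κ α * (1 / H - H) ^ 2 + algebraMap k κ β * (H + 1 / H)
    + algebraMap k κ γ * ((1 + H) / (1 - H)) ^ 2 + algebraMap k κ δ * ((1 - H) / (1 + H)) ^ 2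

omit [IsAlgClosed k] [CharZero k] in
theorem nd3_eval {H : κ} (hH : Transcendental k H) (F : Polynomial k)
    (h : Polynomial.aeval H F = 0) (x : k) : F.eval x = 0 := by
  have : F = 0 := by
    by_contra h0
    exact hH ⟨F, h0, h⟩
  rw [this, Polynomial.eval_zero]

omit [IsAlgClosed k] [CharZero k] in
theorem nd3_ne {H : κ} (hH : Transcendental k H) (a b : k) (ha : a ≠ 0) :
    algebraMap k κ a + algebraMap k κ b * H ≠ 0 := by
  intro h
  have := nd3_eval hH (Polynomial.C a + Polynomial.C b * Polynomial.X) (by simpa using h) 0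
  exact ha (by simpa using this)

omit [IsAlgClosed k] in
theorem nd3_gen {H : κ} (hH : Transcendental k H) {u α β γ δ : k} (hu : u ≠ 0) (hu2 : u ^ 2 ≠ 1)
    (h : nd3F α β γ δ (algebraMap k κ u * H) = nd3F α β γ δ H) :
    α = 0 ∧ β = 0 ∧ γ = 0 ∧ δ = 0 := by
  have H0 : H ≠ 0 := fun h0 => hH (h0 ▸ isAlgebraic_zero)
  have u0 : algebraMap k κ u ≠ 0 := by simpa using hu
  have n1 : 1 + H ≠ 0 := by simpa using nd3_ne hH 1 1 one_ne_zero
  have n2 : 1 - H ≠ 0 := by simpa [sub_eq_add_neg] using nd3_ne hH 1 (-1) one_ne_zero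
  have n3 : 1 + algebraMap k κ u * H ≠ 0 := by simpa using nd3_ne hH 1 u one_ne_zero
  have n4 : 1 - algebraMap k κ u * H ≠ 0 := by
    simpa [sub_eq_add_neg] using nd3_ne hH 1 (-u) one_ne_zero
  have hN : ∀ G : κ, G ≠ 0 → 1 + G ≠ 0 → 1 - G ≠ 0 →
      nd3F α β γ δ G * (G ^ 2 * (1 - G ^ 2) ^ 2) =
        algebraMap k κ α * (1 - G ^ 2) ^ 4 + algebraMap k κ β * G * (G ^ 2 + 1) * (1 - G ^ 2) ^ 2
          + algebraMap k κ γ * G ^ 2 * (1 + G) ^ 4 + algebraMap k κ δ * G ^ 2 * (1 - G) ^ 4 := by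
    intro G g0 g1 g2
    simp only [nd3F]
    field_simp
    ring
  have e1 := hN H H0 n1 n2
  have e2 := hN (algebraMap k κ u * H) (mul_ne_zero u0 H0) n3 n4
  rw [h] at e2
  have key := fun x => nd3_eval hH
    ((Polynomial.C α * (1 - Polynomial.X ^ 2) ^ 4
        + Polynomial.C β * Polynomial.X * (Polynomial.X ^ 2 + 1) * (1 - Polynomial.X ^ 2) ^ 2
        + Polynomial.C γ * Polynomial.X ^ 2 * (1 + Polynomial.X) ^ 4
        + Polynomial.C δ * Polynomial.X ^ 2 * (1 - Polynomial.X) ^ 4)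
        * (Polynomial.C u ^ 2 * (1 - (Polynomial.C u * Polynomial.X) ^ 2) ^ 2)
      - (Polynomial.C α * (1 - (Polynomial.C u * Polynomial.X) ^ 2) ^ 4
        + Polynomial.C β * (Polynomial.C u * Polynomial.X)
          * ((Polynomial.C u * Polynomial.X) ^ 2 + 1) * (1 - (Polynomial.C u * Polynomial.X) ^ 2) ^ 2
        + Polynomial.C γ * (Polynomial.C u * Polynomial.X) ^ 2
          * (1 + Polynomial.C u * Polynomial.X) ^ 4
        + Polynomial.C δ * (Polynomial.C u * Polynomial.X) ^ 2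
          * (1 - Polynomial.C u * Polynomial.X) ^ 4) * (1 - Polynomial.X ^ 2) ^ 2)
    (by
      simp only [map_sub, map_add, map_mul, map_pow, map_one, Polynomial.aeval_C,
        Polynomial.aeval_X]
      rw [← e1, ← e2]
      ring) x
  simp only [Polynomial.eval_sub, Polynomial.eval_add, Polynomial.eval_mul, Polynomial.eval_pow,
    Polynomial.eval_one, Polynomial.eval_C, Polynomial.eval_X] at key
  have hw : u ^ 2 * (1 - u ^ 2) ^ 2 ≠ 0 :=
    mul_ne_zero (pow_ne_zero _ hu) (pow_ne_zero _ (sub_ne_zero.2 hu2.symm))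
  have hγ : γ = 0 := by
    have : (16 * γ) * (u ^ 2 * (1 - u ^ 2) ^ 2) = 0 := by linear_combination key 1
    simpa using (mul_eq_zero.1 this).resolve_right hw
  have hδ : δ = 0 := by
    have : (16 * δ) * (u ^ 2 * (1 - u ^ 2) ^ 2) = 0 := by linear_combination key (-1)
    simpa using (mul_eq_zero.1 this).resolve_right hw
  have hα : α = 0 := by
    have : α * (u ^ 2 - 1) = 0 := by linear_combination key 0
    exact (mul_eq_zero.1 this).resolve_right (sub_ne_zero.2 hu2)
  refine ⟨hα, ?_, hγ, hδ⟩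
  subst hα hγ hδ
  simp only [nd3F, map_zero, zero_mul, zero_add, add_zero] at h
  have key2 := nd3_eval hH
    (Polynomial.C β * (Polynomial.C u - 1) * (Polynomial.C u * Polynomial.X ^ 2 - 1))
    (by
      simp only [map_sub, map_mul, map_pow, map_one, Polynomial.aeval_C, Polynomial.aeval_X]
      field_simp at h
      linear_combination h) 0
  have hu1 : u - 1 ≠ 0 := fun h1 => hu2 (by rw [sub_eq_zero.1 h1, one_pow])
  have : β * (u - 1) = 0 := by
    simp only [Polynomial.eval_sub, Polynomial.eval_mul, Polynomial.eval_pow,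
      Polynomial.eval_one, Polynomial.eval_C, Polynomial.eval_X] at key2
    linear_combination -key2
  exact (mul_eq_zero.1 this).resolve_right hu1

omit [IsAlgClosed k] in
theorem nd3_neg {H : κ} (hH : Transcendental k H) {α β γ δ : k}
    (h : nd3F α β γ δ (-H) = nd3F α β γ δ H) : β = 0 ∧ γ = δ := by
  have : CharZero κ := charZero_of_injective_algebraMap (algebraMap k κ).injective
  have H0 : H ≠ 0 := fun h0 => hH (h0 ▸ isAlgebraic_zero)
  have n1 : 1 + H ≠ 0 := by simpa using nd3_ne hH 1 1 one_ne_zero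
  have n2 : 1 - H ≠ 0 := by simpa [sub_eq_add_neg] using nd3_ne hH 1 (-1) one_ne_zero
  have e : (nd3F α β γ δ H - nd3F α β γ δ (-H)) * (H * (1 - H ^ 2) ^ 2) =
      2 * algebraMap k κ β * (1 + H ^ 2) * (1 - H ^ 2) ^ 2
        + 8 * (algebraMap k κ γ - algebraMap k κ δ) * H ^ 2 * (1 + H ^ 2) := by
    simp only [nd3F, sub_neg_eq_add, ← sub_eq_add_neg]
    field_simp
    ring
  rw [h, sub_self, zero_mul] at e
  have key := fun x => nd3_eval hH
    (2 * Polynomial.C β * (1 + Polynomial.X ^ 2) * (1 - Polynomial.X ^ 2) ^ 2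
      + 8 * (Polynomial.C γ - Polynomial.C δ) * Polynomial.X ^ 2 * (1 + Polynomial.X ^ 2))
    (by
      simp only [map_sub, map_add, map_mul, map_pow, map_one, map_ofNat, Polynomial.aeval_C,
        Polynomial.aeval_X]
      exact e.symm) x
  simp only [Polynomial.eval_sub, Polynomial.eval_add, Polynomial.eval_mul, Polynomial.eval_pow,
    Polynomial.eval_one, Polynomial.eval_C, Polynomial.eval_X, Polynomial.eval_ofNat] at key
  constructor
  · have : 2 * β = 0 := by linear_combination key 0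
    simpa using this
  · have : 16 * (γ - δ) = 0 := by linear_combination key 1
    exact sub_eq_zero.1 (by simpa using this)

omit [IsAlgClosed k] in
/-- the parameter of a point on the level curve -/
theorem nd3_pt (D : Derivation k κ κ) {ν s1 s2 μ : k} (hν : ν ≠ 0) (hμ : μ ≠ 0) {a : κ × κ}
    (t0 : a.1 ≠ 0)
    (er : (shL s1 s2 a).2 * (a.1 ^ 2 - algebraMap k κ ν ^ 2) =
      4 * algebraMap k κ μ * algebraMap k κ ν * a.1) :
    ∃ H : κ, H ≠ 0 ∧ 1 + H ≠ 0 ∧ 1 - H ≠ 0 ∧ a.1 = algebraMap k κ ν * ((1 + H) / (1 - H)) ∧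
      (shL s1 s2 a).2 = algebraMap k κ μ * (1 / H - H) ∧
      2 * algebraMap k κ μ * D H = H * (a.2 * D a.1 / a.1 +
        D (algebraMap k κ s1 * a.1 - algebraMap k κ s2 / a.1)) := by
  have : CharZero κ := charZero_of_injective_algebraMap (algebraMap k κ).injective
  obtain ⟨t, P⟩ := a
  simp only [shL] at er t0 ⊢
  have ν0 : algebraMap k κ ν ≠ 0 := by simpa using hν
  have μ0 : algebraMap k κ μ ≠ 0 := by simpa using hμ
  have hne : (t - algebraMap k κ ν) * (t + algebraMap k κ ν) ≠ 0 := by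
    intro h
    have h' : t ^ 2 - algebraMap k κ ν ^ 2 = 0 := by linear_combination h
    rw [h', mul_zero] at er
    exact mul_ne_zero (mul_ne_zero (mul_ne_zero (by norm_num) μ0) ν0) t0 er.symm
  have h1 := left_ne_zero_of_mul hne
  have h2 := right_ne_zero_of_mul hne
  have hr : P = 4 * algebraMap k κ μ * algebraMap k κ ν * t /
      ((t - algebraMap k κ ν) * (t + algebraMap k κ ν)) - algebraMap k κ s1 * t -
      algebraMap k κ s2 / t := by
    have : P + algebraMap k κ s1 * t + algebraMap k κ s2 / t =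
        4 * algebraMap k κ μ * algebraMap k κ ν * t /
          ((t - algebraMap k κ ν) * (t + algebraMap k κ ν)) := by
      rw [eq_div_iff hne]
      linear_combination er
    linear_combination this
  have p1 : 1 + (t - algebraMap k κ ν) / (t + algebraMap k κ ν) =
      2 * t / (t + algebraMap k κ ν) := by
    field_simp
    ring
  have p2 : 1 - (t - algebraMap k κ ν) / (t + algebraMap k κ ν) =
      2 * algebraMap k κ ν / (t + algebraMap k κ ν) := by
    field_simp
    ring
  refine ⟨(t - algebraMap k κ ν) / (t + algebraMap k κ ν), div_ne_zero h1 h2, ?_, ?_, ?_, ?_, ?_⟩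
  · rw [p1]
    exact div_ne_zero (mul_ne_zero two_ne_zero t0) h2
  · rw [p2]
    exact div_ne_zero (mul_ne_zero two_ne_zero ν0) h2
  · rw [p1, p2]
    field_simp
  · rw [hr]
    field_simp
    ring
  · simp only [Derivation.leibniz_div, map_sub, map_add, Derivation.leibniz,
      Derivation.map_algebraMap, smul_eq_mul]
    rw [hr]
    field_simp
    ring

omit [IsAlgClosed k] [CharZero k] in
theorem nd3_val (J : QF k) {ν s1 s2 μ : k} (hν : ν ≠ 0) {a : κ × κ} (t0 : a.1 ≠ 0) {H : κ}
    (H0 : H ≠ 0) (n1 : 1 + H ≠ 0) (n2 : 1 - H ≠ 0)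
    (ht : a.1 = algebraMap k κ ν * ((1 + H) / (1 - H)))
    (hr : (shL s1 s2 a).2 = algebraMap k κ μ * (1 / H - H)) :
    J.val a = nd3F (J.c0 * μ ^ 2) ((shift J s1 s2).b1 * μ * ν + (shift J s1 s2).b2 * μ / ν)
      ((shift J s1 s2).B * ν ^ 2) ((shift J s1 s2).A / ν ^ 2) H + algebraMap k κ
        ((shift J s1 s2).c1 + 2 * (shift J s1 s2).b1 * μ * ν - 2 * (shift J s1 s2).b2 * μ / ν) := by
  have ν0 : algebraMap k κ ν ≠ 0 := by simpa using hν
  have e1 : (shL s1 s2 a).1 = a.1 := rfl
  have e0 : (shift J s1 s2).c0 = J.c0 := rfl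
  rw [← val_shift J s1 s2 t0, QF.val, e1, e0, hr, ht]
  generalize shift J s1 s2 = S
  simp only [nd3F, map_add, map_sub, map_mul, map_div₀, map_pow, map_ofNat]
  field_simp
  ring

theorem nd3 {j : κ} (hb : Base k j) (D : Derivation k κ κ)
    (hD : ∀ f, D f = 0 → ∃ a : k, f = algebraMap k κ a) {J' : QF k} (hJ : Nd J') (h0 : J'.c0 = 0)
    {c : k} (hc : c ≠ J'.c1 - J'.b1 * (J'.A / J'.b2) - J'.b2 * (J'.B / J'.b1)) {a a' : κ × κ}
    (t0 : a.1 ≠ 0) (t1 : a'.1 ≠ 0) (e : J'.val a = algebraMap k κ c)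
    (e' : J'.val a' = algebraMap k κ c) (hx : Ex D a a') {J : QF k} (hj : J.val a = j)
    (hj' : J.val a' = j) : Iso J a a' := by
  have : CharZero κ := charZero_of_injective_algebraMap (algebraMap k κ).injective
  have hA := hJ.par h0
  have hB : BB J' ≠ 0 := fun h => hA (hJ.re.2 h)
  have b2 : J'.b2 ≠ 0 := fun h => hA (by simp [AA, h0, h])
  have b1 : J'.b1 ≠ 0 := fun h => hB (by simp [BB, h0, h])
  obtain ⟨ν, hν2⟩ := IsAlgClosed.exists_pow_nat_eq (-J'.b2 / J'.b1) (n := 2) (by norm_num)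
  have hν : ν ≠ 0 := by
    rintro rfl
    exact div_ne_zero (neg_ne_zero.2 b2) b1 (by simpa using hν2.symm)
  set s1 : k := J'.B / J'.b1 with hs1
  set s2 : k := J'.A / J'.b2 with hs2
  set μ : k := (c - (J'.c1 - J'.b1 * s2 - J'.b2 * s1)) / (4 * J'.b1 * ν) with hμd
  have hμ : μ ≠ 0 :=
    div_ne_zero (sub_ne_zero.2 hc) (mul_ne_zero (mul_ne_zero (by norm_num) b1) hν)
  have ν0 : algebraMap k κ ν ≠ 0 := by simpa using hν
  have μ0 : algebraMap k κ μ ≠ 0 := by simpa using hμ
  have b10 : algebraMap k κ J'.b1 ≠ 0 := by simpa using b1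
  have q1 : J'.b2 = -(J'.b1 * ν ^ 2) := by
    rw [hν2]
    field_simp
  have q2 : J'.B = J'.b1 * s1 := by
    rw [hs1]
    field_simp
  have q3 : J'.A = J'.b2 * s2 := by
    rw [hs2]
    field_simp
  have q4 : c = 4 * J'.b1 * ν * μ + (J'.c1 - J'.b1 * s2 - J'.b2 * s1) := by
    rw [hμd]
    field_simp
    ring
  have er : ∀ x : κ × κ, x.1 ≠ 0 → J'.val x = algebraMap k κ c →
      (shL s1 s2 x).2 * (x.1 ^ 2 - algebraMap k κ ν ^ 2) =
        4 * algebraMap k κ μ * algebraMap k κ ν * x.1 := by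
    intro x x0 ex
    rw [QF.val, h0, q4, q3, q2, q1] at ex
    simp only [map_add, map_sub, map_mul, map_neg, map_pow, map_ofNat, map_zero] at ex
    apply mul_left_cancel₀ (mul_ne_zero b10 x0)
    simp only [shL]
    have i1 : x.1 * (x.1)⁻¹ = 1 := mul_inv_cancel₀ x0
    simp only [div_eq_mul_inv, ← inv_pow] at ex ⊢
    generalize (x.1)⁻¹ = y at ex i1 ⊢
    linear_combination x.1 ^ 2 * ex + (algebraMap k κ J'.b1 * (x.1 * x.2 * algebraMap k κ ν ^ 2
      + x.1 ^ 2 * algebraMap k κ s2 + algebraMap k κ ν ^ 2 * algebraMap k κ s2 * (x.1 * y))) * i1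
  obtain ⟨H, H0, n1, n2, ht, hr, hd⟩ := nd3_pt D hν hμ t0 (er a t0 e)
  obtain ⟨H', H0', n1', n2', ht', hr', hd'⟩ := nd3_pt D hν hμ t1 (er a' t1 e')
  have v := nd3_val J hν t0 H0 n1 n2 ht hr
  have v' := nd3_val J hν t1 H0' n1' n2' ht' hr'
  have njk : ∀ b : k, j ≠ algebraMap k κ b := fun b h => hb.tr (h ▸ isAlgebraic_algebraMap b)
  have hH : Transcendental k H := by
    refine (hb.of_ne fun b h => ?_).tr
    rw [hj, h] at v
    simp only [nd3F, ← map_one (algebraMap k κ), ← map_div₀, ← map_sub, ← map_add, ← map_pow,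
      ← map_mul] at v
    exact njk _ v
  obtain ⟨f, hf⟩ := hx
  obtain ⟨u, hu⟩ : ∃ u : k, H' / H = algebraMap k κ u := by
    by_contra hn
    have hn' : ∀ u : k, H' / H ≠ algebraMap k κ u := fun u h => hn ⟨u, h⟩
    refine ne_log (hb.of_ne hn') D (fun h => hn (hD _ h))
      (algebraMap k κ (1 / (2 * μ)) * (f + (algebraMap k κ s1 * a'.1 - algebraMap k κ s2 / a'.1)
        - (algebraMap k κ s1 * a.1 - algebraMap k κ s2 / a.1))) ?_
    rw [Derivation.leibniz, Derivation.map_algebraMap, smul_zero, add_zero, map_sub, map_add, ← hf,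
      Derivation.leibniz_div]
    generalize D (algebraMap k κ s1 * a'.1 - algebraMap k κ s2 / a'.1) = w' at hd' ⊢
    generalize D (algebraMap k κ s1 * a.1 - algebraMap k κ s2 / a.1) = w at hd ⊢
    generalize a'.2 * D a'.1 / a'.1 = o' at hd' ⊢
    generalize a.2 * D a.1 / a.1 = o at hd ⊢
    simp only [smul_eq_mul, map_div₀, map_mul, map_one, map_ofNat]
    field_simp
    linear_combination H' * hd - H * hd'
  have hu' : H' = algebraMap k κ u * H := by
    rw [← hu]
    field_simp
  have u0 : u ≠ 0 := by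
    rintro rfl
    exact H0' (by simpa using hu')
  have hF := add_right_cancel ((v'.symm.trans (hj'.trans hj.symm)).trans v)
  have back : ∀ x : κ × κ, x = shL (-s1) (-s2) (x.1, (shL s1 s2 x).2) := by
    intro x
    refine Prod.ext rfl ?_
    simp only [shL, map_neg]
    ring
  by_cases hu2 : u ^ 2 = 1
  · rcases sq_eq_one_iff.1 hu2 with rfl | rfl
    · have hH' : H' = H := by simpa using hu'
      have : a' = a := by
        rw [back a', back a, hr', hr, ht', hH', ← ht]
      rw [this]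
      exact Iso.refl J a
    · have hH' : H' = -H := by simpa using hu'
      rw [hH'] at hF ht' hr'
      obtain ⟨g1, g2⟩ := nd3_neg hH hF
      refine ⟨s1, s2, ν ^ 2, pow_ne_zero _ hν, Or.inr ⟨?_, ?_, ?_⟩⟩
      · rw [back a', sym2, hr', hr]
        congr 2
        · rw [ht', ht, map_pow, sub_neg_eq_add, ← sub_eq_add_neg]
          field_simp
        · field_simp
          ring
      · apply mul_left_cancel₀ hμ
        field_simp at g1
        linear_combination g1
      · field_simp at g2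
        linear_combination -g2
  · rw [hu'] at hF
    obtain ⟨g1, g2, g3, g4⟩ := nd3_gen hH u0 hu2 hF
    rw [hj, g1, g2, g3, g4] at v
    simp only [nd3F, map_zero, zero_mul, zero_add, add_zero] at v
    exact absurd v (njk _)

end Ivrii.Con
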