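import Pool.Agent.P.MP_7a8567_an.Cnc.BaseA

set_option autoImplicit false

/-! Differentials that are not exact. -/

namespace Ivrii.Con

variable {k κ : Type} [Field k] [Field κ] [Algebra k κ] [IsAlgClosed k] [CharZero k]

section aux

open Polynomial

omit [IsAlgClosed k] in
/-- an algebraic solution of a linear equation yields a solution in the ground field -/
lemma ne_trace (E : IntermediateField k κ) (δ : Derivation k κ κ) (hE : ∀ x ∈ E, δ x ∈ E)
    {y : κ} (hy : IsAlgebraic E y) (α β : E) (h : δ y = α * y + β) :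
    ∃ g ∈ E, δ g = α * g + β := by
  have : CharZero κ := charZero_of_injective_algebraMap (algebraMap k κ).injective
  have hi := hy.isIntegral
  set p := minpoly E y with hp
  have hm : p.Monic := minpoly.monic hi
  obtain ⟨n, hn⟩ : ∃ n, p.natDegree = n + 1 :=
    ⟨p.natDegree - 1, by have := minpoly.natDegree_pos hi; rw [← hp] at this; omega⟩
  let d : E → E := fun x => ⟨δ x, hE x x.2⟩
  let r : E[X] := ∑ i ∈ Finset.range (n + 2), monomial i (d (p.coeff i))
  have hr : ∀ i, r.coeff i = d (p.coeff i) := by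
    intro i
    simp only [r, finsetSum_coeff, coeff_monomial, Finset.sum_ite_eq', Finset.mem_range]
    split_ifs with c
    · rfl
    · rw [coeff_eq_zero_of_natDegree_lt (by omega)]
      exact Subtype.ext (map_zero δ).symm
  have hc : p.coeff (n + 1) = 1 := hn ▸ hm.coeff_natDegree
  have hd1 : d 1 = 0 := Subtype.ext δ.map_one_eq_zero
  have hd0 : d 0 = 0 := Subtype.ext (map_zero δ)
  have h0 : aeval y r + aeval y (derivative p) * δ y = 0 := by
    have h1 := congrArg δ (minpoly.aeval E y)
    rw [← hp, map_zero, aeval_eq_sum_range' (n := n + 2) (by omega), map_sum] at h1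
    rw [← h1, aeval_eq_sum_range' (p := r) (n := n + 2)
      (lt_of_le_of_lt (natDegree_le_iff_coeff_eq_zero.2 fun i hi => by
        rw [hr, coeff_eq_zero_of_natDegree_lt (by omega), hd0]) (Nat.lt_succ_self (n + 1))),
      aeval_eq_sum_range' (p := derivative p) (n := n + 1)
        (lt_of_le_of_lt (natDegree_derivative_le p) (by omega)),
      Finset.sum_range_succ' (fun i => δ (p.coeff i • y ^ i)),
      Finset.sum_range_succ' (fun i => r.coeff i • y ^ i), Finset.sum_mul, add_right_comm,
      ← Finset.sum_add_distrib]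
    congr 1
    · refine Finset.sum_congr rfl fun i _ => ?_
      simp only [hr, coeff_derivative, Algebra.smul_def, Derivation.leibniz, Derivation.leibniz_pow,
        IntermediateField.algebraMap_apply, Algebra.algebraMap_self, RingHom.id_apply, d,
        Nat.add_sub_cancel, eq_natCast]
      push_cast
      ring
    · simp [hr, Algebra.smul_def, d]
  let q : E[X] := r + (C α * X + C β) * derivative p - C (((n : E) + 1) * α) * p
  have hq : aeval y q = 0 := by
    have h2 : aeval y p = 0 := minpoly.aeval E y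
    simp only [q, map_sub, map_add, map_mul, aeval_C, aeval_X, h2, mul_zero, sub_zero,
      IntermediateField.algebraMap_apply]
    rw [← h, ← h0]
    ring
  have hco : ∀ i, q.coeff i = d (p.coeff i) + (α * (i * p.coeff i) +
      β * (p.coeff (i + 1) * (i + 1))) - ((n : E) + 1) * α * p.coeff i := by
    intro i
    simp only [q, coeff_sub, coeff_add, add_mul, mul_assoc, coeff_C_mul, hr]
    rcases i with _ | i
    · simp [coeff_derivative]
    · simp only [coeff_X_mul, coeff_derivative]
      push_cast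
      ring
  have hq0 : q = 0 := by
    by_contra hne
    have h3 := minpoly.degree_le_of_ne_zero E y hne hq
    rw [← hp, degree_eq_natDegree hm.ne_zero, hn] at h3
    refine absurd h3 (not_le.2 ((degree_lt_iff_coeff_zero _ _).2 fun i hi => ?_))
    rw [hco, coeff_eq_zero_of_natDegree_lt (n := i + 1) (by omega)]
    rcases hi.eq_or_lt with rfl | hi
    · rw [hc, hd1]
      push_cast
      ring
    · rw [coeff_eq_zero_of_natDegree_lt (by omega), hd0]
      ring
  have h4 := hco n
  rw [hq0, coeff_zero, hc] at h4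
  have h5 := congrArg (fun x : E => (x : κ)) h4
  simp only [d] at h5
  push_cast at h5
  have hn0 : (n : κ) + 1 ≠ 0 := by exact_mod_cast Nat.succ_ne_zero n
  refine ⟨-(p.coeff n : κ) / ((n : κ) + 1), div_mem (neg_mem (p.coeff n).2)
    (add_mem (natCast_mem E n) (one_mem E)), ?_⟩
  have h6 : δ ((n : κ) + 1) = 0 := by rw [map_add, δ.map_natCast, δ.map_one_eq_zero, add_zero]
  rw [δ.leibniz_div_const _ _ h6, map_neg, smul_eq_mul]
  field_simp
  linear_combination h5

/-- a rational solution without poles is a polynomial -/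
lemma ne_poly {R T N a b : k[X]} (hb : b ≠ 0) (hab : IsRelPrime b a)
    (hR : ∀ (ρ : k) (m : ℕ), R.eval ρ = 0 → ((m : k) + 1) * R.derivative.eval ρ ≠ T.eval ρ)
    (h : R * (derivative a * b - a * derivative b) + T * a * b = N * b ^ 2) :
    ∃ a₀ : k[X], R * derivative a₀ + T * a₀ = N := by
  by_cases hd : b.degree = 0
  · obtain ⟨c, rfl⟩ : ∃ c, b = C c := ⟨_, eq_C_of_degree_eq_zero hd⟩
    have hc : c ≠ 0 := fun h0 => hb (by rw [h0, C_0])
    have h1 : C c * C c⁻¹ = 1 := by rw [← C_mul, mul_inv_cancel₀ hc, C_1]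
    refine ⟨C c⁻¹ * a, mul_left_cancel₀ (pow_ne_zero 2 hb) ?_⟩
    rw [derivative_C, mul_zero, sub_zero] at h
    rw [derivative_C_mul]
    linear_combination h + (R * derivative a * C c + T * a * C c) * h1
  exfalso
  obtain ⟨ρ, hρ⟩ := IsAlgClosed.exists_root b hd
  obtain ⟨c, hc, hc0⟩ := exists_eq_pow_rootMultiplicity_mul_and_not_dvd b hb ρ
  obtain ⟨m, hm⟩ : ∃ m, b.rootMultiplicity ρ = m + 1 :=
    ⟨_, (Nat.succ_pred_eq_of_pos ((rootMultiplicity_pos hb).2 hρ)).symm⟩
  rw [hm] at hc
  have hc1 : c.eval ρ ≠ 0 := fun h0 => hc0 (dvd_iff_isRoot.2 h0)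
  have ha1 : a.eval ρ ≠ 0 := fun h0 =>
    not_isUnit_X_sub_C ρ (hab (dvd_iff_isRoot.2 hρ) (dvd_iff_isRoot.2 h0))
  have hX : (X - C ρ : k[X]) ≠ 0 := X_sub_C_ne_zero ρ
  have hm0 : (m : k) + 1 ≠ 0 := by exact_mod_cast Nat.succ_ne_zero m
  have hdb : derivative b =
      (X - C ρ) ^ m * (C ((m : k) + 1) * c + (X - C ρ) * derivative c) := by
    rw [hc, derivative_mul, derivative_X_sub_C_pow, Nat.add_sub_cancel]
    push_cast
    ring
  have h1 : R * (derivative a * (X - C ρ) * c -
      a * (C ((m : k) + 1) * c + (X - C ρ) * derivative c)) + T * a * (X - C ρ) * c =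
      N * (X - C ρ) ^ (m + 2) * c ^ 2 := by
    refine mul_left_cancel₀ (pow_ne_zero m hX) ?_
    rw [hdb, hc] at h
    linear_combination h
  have hR0 : R.eval ρ = 0 := by
    have h2 := congrArg (eval ρ) h1
    simp only [eval_add, eval_mul, eval_sub, eval_pow, eval_X, eval_C, sub_self, mul_zero, zero_mul,
      add_zero, zero_sub, ne_eq, Nat.add_eq_zero_iff, OfNat.ofNat_ne_zero, and_false,
      not_false_eq_true, zero_pow, mul_neg, neg_eq_zero, mul_eq_zero, ha1, hc1, hm0,
      or_false] at h2
    exact h2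
  obtain ⟨S, rfl⟩ := dvd_iff_isRoot.2 hR0
  have h3 : S * (derivative a * (X - C ρ) * c -
      a * (C ((m : k) + 1) * c + (X - C ρ) * derivative c)) + T * a * c =
      N * (X - C ρ) ^ (m + 1) * c ^ 2 := by
    refine mul_left_cancel₀ hX ?_
    linear_combination h1
  have h4 := congrArg (eval ρ) h3
  simp only [eval_add, eval_mul, eval_sub, eval_pow, eval_X, eval_C, sub_self, mul_zero, zero_mul,
    add_zero, zero_sub, ne_eq, Nat.add_eq_zero_iff, one_ne_zero, and_false,
    not_false_eq_true, zero_pow] at h4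
  refine hR ρ m hR0 (mul_right_cancel₀ (mul_ne_zero ha1 hc1) ?_)
  simp only [derivative_mul, derivative_sub, derivative_X, derivative_C, eval_add, eval_mul,
    eval_sub, eval_X, eval_C, sub_self, zero_mul, add_zero, sub_zero, one_mul]
  linear_combination -h4

/-- reduction to polynomial solutions -/
lemma ne_red {u : κ} (h : Base k u) (D : Derivation k κ κ) (hu : D u ≠ 0) {R T N : k[X]}
    (hR0 : R ≠ 0)
    (hR : ∀ (ρ : k) (m : ℕ), R.eval ρ = 0 → ((m : k) + 1) * R.derivative.eval ρ ≠ T.eval ρ)
    {y : κ} (hy : aeval u R * D y + aeval u T * y * D u = aeval u N * D u) :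
    ∃ a₀ : k[X], R * derivative a₀ + T * a₀ = N := by
  have inj : Function.Injective (aeval u : k[X] →ₐ[k] κ) := transcendental_iff_injective.1 h.tr
  have hRu : aeval u R ≠ 0 := fun h0 => hR0 (inj (h0.trans (map_zero _).symm))
  let δ : Derivation k κ κ := (D u)⁻¹ • D
  have hδ : ∀ x, δ x = (D u)⁻¹ * D x := fun _ => rfl
  have hδp : ∀ p : k[X], δ (aeval u p) = aeval u (derivative p) := by
    intro p
    rw [δ.map_aeval, hδ, inv_mul_cancel₀ hu, smul_eq_mul, mul_one]
  have hmem : ∀ p : k[X], aeval u p ∈ IntermediateField.adjoin k {u} := fun p =>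
    (IntermediateField.mem_adjoin_simple_iff k _).2 ⟨p, 1, by simp⟩
  have hE : ∀ x ∈ IntermediateField.adjoin k {u}, δ x ∈ IntermediateField.adjoin k {u} := by
    intro x hx
    obtain ⟨a, b, rfl⟩ := (IntermediateField.mem_adjoin_simple_iff k _).1 hx
    rw [δ.leibniz_div, hδp, hδp]
    simp only [smul_eq_mul]
    exact mul_mem (pow_mem (inv_mem (hmem _)) _)
      (sub_mem (mul_mem (hmem _) (hmem _)) (mul_mem (hmem _) (hmem _)))
  obtain ⟨g, hg, e⟩ := ne_trace _ δ hE (h.alg.isAlgebraic y)
    ⟨-aeval u T / aeval u R, div_mem (neg_mem (hmem _)) (hmem _)⟩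
    ⟨aeval u N / aeval u R, div_mem (hmem _) (hmem _)⟩ (by
      rw [hδ]
      field_simp
      linear_combination hy)
  obtain ⟨a, b, hab, hb, rfl⟩ : ∃ a b : k[X], IsRelPrime b a ∧ b ≠ 0 ∧
      g = aeval u a / aeval u b := by
    obtain ⟨a, b, rfl⟩ := (IntermediateField.mem_adjoin_simple_iff k _).1 hg
    by_cases hb : b = 0
    · exact ⟨0, 1, isRelPrime_one_left, one_ne_zero, by simp [hb]⟩
    obtain ⟨b', a', c, h1, rfl, rfl⟩ := UniqueFactorizationMonoid.exists_reduced_factors b hb a
    refine ⟨a', b', h1, right_ne_zero_of_mul hb, ?_⟩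
    rw [map_mul, map_mul, mul_div_mul_left]
    exact fun h0 => left_ne_zero_of_mul hb (inj (h0.trans (map_zero _).symm))
  refine ne_poly hb hab hR (inj ?_)
  have hbu : aeval u b ≠ 0 := fun h0 => hb (inj (h0.trans (map_zero _).symm))
  rw [δ.leibniz_div, hδp, hδp] at e
  simp only [smul_eq_mul] at e
  simp only [map_add, map_mul, map_sub, map_pow]
  field_simp at e
  linear_combination e

end aux

/-- (NE) -/
theorem ne_ell {u : κ} (h : Base k u) (D : Derivation k κ κ) (hu : D u ≠ 0) {r4 r2 r0 n2 n0 : k}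
    (h4 : r4 ≠ 0) (h0 : r0 ≠ 0) (hd : r2 ^ 2 ≠ 4 * r4 * r0) (hn : n2 ≠ 0) {w f : κ}
    (hw : w ^ 2 = algebraMap k κ r4 * u ^ 4 + algebraMap k κ r2 * u ^ 2 + algebraMap k κ r0) :
    w * D f ≠ (algebraMap k κ n2 * u ^ 2 + algebraMap k κ n0) * D u := by
  intro e
  have : CharZero κ := charZero_of_injective_algebraMap (algebraMap k κ).injective
  have hR0 : (Polynomial.C r4 * Polynomial.X ^ 4 + Polynomial.C r2 * Polynomial.X ^ 2 +
      Polynomial.C r0 : Polynomial k) ≠ 0 := fun h1 => h0 (by
    simpa using congrArg (Polynomial.eval 0) h1)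
  have hw0 : w ≠ 0 := by
    rintro rfl
    refine hR0 (transcendental_iff_injective.1 h.tr ?_)
    simpa using hw.symm
  have hDw : w * D w = (2 * algebraMap k κ r4 * u ^ 3 + algebraMap k κ r2 * u) * D u := by
    have h1 := congrArg D hw
    simp only [map_add, Derivation.leibniz, Derivation.leibniz_pow, Derivation.map_algebraMap,
      smul_eq_mul, nsmul_eq_mul] at h1
    push_cast at h1
    linear_combination h1 / 2
  obtain ⟨a, ha⟩ := ne_red h D hu hR0
    (T := Polynomial.C (2 * r4) * Polynomial.X ^ 3 + Polynomial.C r2 * Polynomial.X)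
    (N := Polynomial.C n2 * Polynomial.X ^ 2 + Polynomial.C n0) (y := f / w)
    (by
      intro ρ m h1 h2
      simp only [Polynomial.derivative_add, Polynomial.derivative_C_mul, Polynomial.derivative_C,
        Polynomial.derivative_X_pow, Polynomial.eval_add, Polynomial.eval_mul, Polynomial.eval_C,
        Polynomial.eval_pow, Polynomial.eval_X, Polynomial.eval_zero] at h1 h2
      push_cast at h2
      have hρ : ρ ≠ 0 := by
        rintro rfl
        exact h0 (by simpa using h1)
      have hm : (2 * m + 1 : k) ≠ 0 := by exact_mod_cast Nat.succ_ne_zero (2 * m)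
      have h3 : 2 * r4 * ρ ^ 2 + r2 = 0 := by
        refine mul_left_cancel₀ (mul_ne_zero hm hρ) ?_
        linear_combination h2
      exact hd (by linear_combination -4 * r4 * h1 + (2 * r4 * ρ ^ 2 + r2) * h3))
    (by
      simp only [map_add, map_mul, map_pow, Polynomial.aeval_C, Polynomial.aeval_X, map_ofNat]
      rw [← hw, ← e, D.leibniz_div]
      simp only [smul_eq_mul]
      field_simp
      linear_combination -f * hDw)
  have ha0 : a ≠ 0 := by
    rintro rfl
    have h1 := congrArg (fun p => Polynomial.coeff p 2) ha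
    simp at h1
    exact hn h1.symm
  have h1 := congrArg (fun p => Polynomial.coeff p (a.natDegree + 3)) ha
  have z1 : ∀ i, a.natDegree < i → a.coeff i = 0 := fun i hi =>
    Polynomial.coeff_eq_zero_of_natDegree_lt hi
  have e4 : (Polynomial.X ^ 4 * Polynomial.derivative a).coeff (a.natDegree + 3) =
      a.coeff a.natDegree * a.natDegree := by
    rw [Polynomial.coeff_X_pow_mul']
    split_ifs with c
    · obtain ⟨m, hm⟩ : ∃ m, a.natDegree = m + 1 := ⟨a.natDegree - 1, by omega⟩
      rw [Polynomial.coeff_derivative, hm, show m + 1 + 3 - 4 = m by omega]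
      push_cast
      rfl
    · rw [show a.natDegree = 0 by omega]
      simp
  have e2 : (Polynomial.X ^ 2 * Polynomial.derivative a).coeff (a.natDegree + 3) = 0 := by
    rw [show a.natDegree + 3 = a.natDegree + 1 + 2 from rfl, Polynomial.coeff_X_pow_mul,
      Polynomial.coeff_derivative, z1 _ (by omega), zero_mul]
  have e0 : (Polynomial.derivative a).coeff (a.natDegree + 3) = 0 := by
    rw [Polynomial.coeff_derivative, z1 _ (by omega), zero_mul]
  have e1 : (Polynomial.X * a).coeff (a.natDegree + 3) = 0 := by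
    rw [Polynomial.coeff_X_mul, z1 _ (by omega)]
  simp only [add_mul, mul_assoc, Polynomial.coeff_add, Polynomial.coeff_C_mul, e4, e2, e0, e1,
    Polynomial.coeff_X_pow_mul, Polynomial.coeff_X_pow, Polynomial.coeff_C_succ] at h1
  rw [if_neg (by omega)] at h1
  have hm : (a.natDegree + 2 : k) ≠ 0 := by exact_mod_cast Nat.succ_ne_zero (a.natDegree + 1)
  exact mul_ne_zero (mul_ne_zero h4 hm) (Polynomial.leadingCoeff_ne_zero.2 ha0)
    (by rw [Polynomial.leadingCoeff]; linear_combination h1)

/-- a logarithmic differential is not exact -/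
theorem ne_log {u : κ} (h : Base k u) (D : Derivation k κ κ) (hu : D u ≠ 0) (f : κ) :
    u * D f ≠ D u := by
  intro e
  obtain ⟨a, ha⟩ := ne_red h D hu (R := Polynomial.X) (T := 0) (N := 1) (y := f)
    Polynomial.X_ne_zero
    (fun ρ m _ => by simpa using (by exact_mod_cast Nat.succ_ne_zero m : (m : k) + 1 ≠ 0))
    (by simpa using e)
  simpa using congrArg (Polynomial.eval 0) ha

end Ivrii.Con
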