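import Pool.Agent.P.MP_7a8567_an.Cnc.Alg
import Pool.Agent.P.MP_7a8567_an.Alg.Sq0

set_option autoImplicit false

/-! The tangent prime of a conic. -/

namespace Ivrii.Con

open MvPolynomial

variable {k : Type} [Field k] [IsAlgClosed k] [CharZero k]

section aux

variable {κ : Type} [Field κ] [Algebra k κ]

omit [IsAlgClosed k] [CharZero k] in
theorem vert_quad {u : κ} (hu : Transcendental k u) {α β γ : k}
    (h : algebraMap k κ α * u ^ 2 + algebraMap k κ β * u + algebraMap k κ γ = 0) :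
    α = 0 ∧ β = 0 ∧ γ = 0 := by
  have h0 := transcendental_iff.1 hu
    (Polynomial.C α * Polynomial.X ^ 2 + Polynomial.C β * Polynomial.X + Polynomial.C γ)
    (by simpa using h)
  refine ⟨?_, ?_, ?_⟩
  · simpa [Polynomial.coeff_X, Polynomial.coeff_C] using congrArg (Polynomial.coeff · 2) h0
  · simpa [Polynomial.coeff_X, Polynomial.coeff_C] using congrArg (Polynomial.coeff · 1) h0
  · simpa [Polynomial.coeff_X, Polynomial.coeff_C] using congrArg (Polynomial.coeff · 0) h0

theorem vert_root {α β γ : k} (hd : β ^ 2 - 4 * α * γ ≠ 0) :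
    ∃ r : k, α * (r * r) + β * r + γ = 0 := by
  by_cases hα : α = 0
  · have hβ : β ≠ 0 := fun h => hd (by simp [hα, h])
    exact ⟨-γ / β, by rw [hα]; field_simp; ring⟩
  · exact exists_quadratic_eq_zero hα (IsAlgClosed.exists_eq_mul_self _)

theorem vert_odd {u y : κ} (hu : Transcendental k u) {α β γ v1 v0 : k}
    (hd : β ^ 2 - 4 * α * γ ≠ 0) (U : Polynomial k)
    (hy : y ^ 2 = algebraMap k κ α * u ^ 2 + algebraMap k κ β * u + algebraMap k κ γ)
    (h : y * (algebraMap k κ v1 * u + algebraMap k κ v0) = Polynomial.aeval u U) :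
    v1 = 0 ∧ v0 = 0 := by
  obtain ⟨r, hr⟩ := vert_root hd
  set S : Polynomial k := Polynomial.C α * Polynomial.X + Polynomial.C (β + α * r) with hS
  set V : Polynomial k := Polynomial.C v1 * Polynomial.X + Polynomial.C v0 with hV
  have hSr : ¬ S.IsRoot r := by
    intro h0
    simp only [hS, Polynomial.IsRoot, Polynomial.eval_add, Polynomial.eval_mul, Polynomial.eval_C,
      Polynomial.eval_X] at h0
    exact hd (by linear_combination (2 * α * r + β) * h0 - 4 * α * hr)
  have hr' := congrArg (algebraMap k κ) hr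
  simp only [map_add, map_mul, map_zero] at hr'
  have e : U * U = V * V * ((Polynomial.X - Polynomial.C r) * S) := by
    rw [← sub_eq_zero]
    refine transcendental_iff.1 hu _ ?_
    simp only [hS, hV, map_sub, map_mul, map_add, Polynomial.aeval_C, Polynomial.aeval_X, ← h]
    linear_combination (algebraMap k κ v1 * u + algebraMap k κ v0) ^ 2 * (hy + hr')
  have hV0 : V = 0 := by
    by_contra hV0
    have hS0 : S ≠ 0 := fun h0 => hSr (by simp [h0])
    have h1 : (Polynomial.X - Polynomial.C r) * S ≠ 0 :=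
      mul_ne_zero (Polynomial.X_sub_C_ne_zero r) hS0
    have h2 : V * V * ((Polynomial.X - Polynomial.C r) * S) ≠ 0 :=
      mul_ne_zero (mul_ne_zero hV0 hV0) h1
    have h3 := congrArg (Polynomial.rootMultiplicity r) e
    rw [Polynomial.rootMultiplicity_mul (e ▸ h2), Polynomial.rootMultiplicity_mul h2,
      Polynomial.rootMultiplicity_mul (mul_ne_zero hV0 hV0), Polynomial.rootMultiplicity_mul h1,
      Polynomial.rootMultiplicity_X_sub_C_self, Polynomial.rootMultiplicity_eq_zero hSr] at h3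
    omega
  have := vert_quad hu (α := 0) (β := v1) (γ := v0)
    (by simpa [hV] using congrArg (Polynomial.aeval u) hV0)
  exact this.2

/-- two families with a common transcendental point are proportional -/
theorem vert_prop {u W : κ} (hu : Transcendental k u) {c0 b1 b2 B c1 A c0' b1' b2' B' c1' A' : k}
    (hD : 4 * A * B * c0 - A * b1 ^ 2 - c0 * c1 ^ 2 + c1 * b1 * b2 - B * b2 ^ 2 ≠ 0)
    (hb : c0 = 0 → b1 ≠ 0)
    (h : algebraMap k κ c0 * W ^ 2 + W * (algebraMap k κ b1 * u + algebraMap k κ b2)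
      + algebraMap k κ B * u ^ 2 + algebraMap k κ c1 * u + algebraMap k κ A = 0)
    (h' : algebraMap k κ c0' * W ^ 2 + W * (algebraMap k κ b1' * u + algebraMap k κ b2')
      + algebraMap k κ B' * u ^ 2 + algebraMap k κ c1' * u + algebraMap k κ A' = 0) :
    ∃ μ : k, c0' = μ * c0 ∧ b1' = μ * b1 ∧ b2' = μ * b2 ∧ B' = μ * B ∧ c1' = μ * c1 ∧
      A' = μ * A := by
  by_cases hc : c0 = 0
  · have hb1 := hb hc
    subst hc
    rw [map_zero, zero_mul, zero_add] at h
    obtain ⟨ρ, hρ⟩ : ∃ ρ : k, b1 * ρ + b2 = 0 := ⟨-b2 / b1, by field_simp; ring⟩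
    have hr : B * ρ ^ 2 + c1 * ρ + A ≠ 0 := fun h0 =>
      hD (by linear_combination (-b1 ^ 2) * h0 + (B * (b1 * ρ - b2) + c1 * b1) * hρ)
    have hp : algebraMap k κ b1 * u + algebraMap k κ b2 ≠ 0 := fun h0 =>
      hb1 (vert_quad hu (α := 0) (by simpa using h0)).2.1
    set p : Polynomial k := Polynomial.C b1 * Polynomial.X + Polynomial.C b2 with hp0
    set r : Polynomial k := Polynomial.C B * Polynomial.X ^ 2 + Polynomial.C c1 * Polynomial.X
      + Polynomial.C A with hr0
    set p' : Polynomial k := Polynomial.C b1' * Polynomial.X + Polynomial.C b2' with hp1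
    set r' : Polynomial k := Polynomial.C B' * Polynomial.X ^ 2 + Polynomial.C c1' * Polynomial.X
      + Polynomial.C A' with hr1
    have e1 := transcendental_iff.1 hu (Polynomial.C c0' * r ^ 2 - p' * r * p + r' * p ^ 2) (by
      simp only [hp0, hr0, hp1, hr1, map_sub, map_mul, map_add, map_pow, Polynomial.aeval_C,
        Polynomial.aeval_X]
      linear_combination (algebraMap k κ b1 * u + algebraMap k κ b2) ^ 2 * h' +
        (algebraMap k κ c0' * ((algebraMap k κ B * u ^ 2 + algebraMap k κ c1 * u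
          + algebraMap k κ A) - W * (algebraMap k κ b1 * u + algebraMap k κ b2))
          - (algebraMap k κ b1' * u + algebraMap k κ b2')
            * (algebraMap k κ b1 * u + algebraMap k κ b2)) * h)
    have e2 := congrArg (Polynomial.eval ρ) e1
    simp only [hp0, hr0, hp1, hr1, Polynomial.eval_sub, Polynomial.eval_mul, Polynomial.eval_add,
      Polynomial.eval_pow, Polynomial.eval_C, Polynomial.eval_X, hρ, Polynomial.eval_zero] at e2
    have hc' : c0' = 0 := by
      have : c0' * (B * ρ ^ 2 + c1 * ρ + A) ^ 2 = 0 := by linear_combination e2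
      exact (mul_eq_zero.1 this).resolve_right (pow_ne_zero 2 hr)
    subst hc'
    rw [map_zero, zero_mul, zero_add] at h'
    have e3 := transcendental_iff.1 hu (r' * p - p' * r) (by
      simp only [hp0, hr0, hp1, hr1, map_sub, map_mul, map_add, map_pow, Polynomial.aeval_C,
        Polynomial.aeval_X]
      linear_combination (algebraMap k κ b1 * u + algebraMap k κ b2) * h' -
        (algebraMap k κ b1' * u + algebraMap k κ b2') * h)
    have e4 := congrArg (Polynomial.eval ρ) e3
    simp only [hp0, hr0, hp1, hr1, Polynomial.eval_sub, Polynomial.eval_mul, Polynomial.eval_add,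
      Polynomial.eval_pow, Polynomial.eval_C, Polynomial.eval_X, hρ, Polynomial.eval_zero] at e4
    have e5 : b1' * ρ + b2' = 0 := by
      have : (b1' * ρ + b2') * (B * ρ ^ 2 + c1 * ρ + A) = 0 := by linear_combination -e4
      exact (mul_eq_zero.1 this).resolve_right hr
    obtain ⟨μ, hμ⟩ : ∃ μ : k, b1' = μ * b1 := ⟨b1' / b1, by field_simp⟩
    have e6 : b2' = μ * b2 := by linear_combination e5 - μ * hρ - ρ * hμ
    have e7 := vert_quad hu (α := B' - μ * B) (β := c1' - μ * c1) (γ := A' - μ * A) (by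
      simp only [hμ, e6, map_mul] at h'
      simp only [map_sub, map_mul]
      linear_combination h' - algebraMap k κ μ * h)
    exact ⟨μ, by simp, hμ, e6, sub_eq_zero.1 e7.1, sub_eq_zero.1 e7.2.1, sub_eq_zero.1 e7.2.2⟩
  · obtain ⟨μ, hμ⟩ : ∃ μ : k, c0' = μ * c0 := ⟨c0' / c0, by field_simp⟩
    have e1 := vert_odd hu (y := 2 * algebraMap k κ c0 * W + algebraMap k κ b1 * u
        + algebraMap k κ b2) (α := b1 ^ 2 - 4 * c0 * B) (β := 2 * b1 * b2 - 4 * c0 * c1)
      (γ := b2 ^ 2 - 4 * c0 * A) (v1 := b1' - μ * b1) (v0 := b2' - μ * b2)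
      (fun h0 => hD (mul_left_cancel₀ (mul_ne_zero (by norm_num : (-16 : k) ≠ 0) hc)
        (by linear_combination h0)))
      ((Polynomial.C b1 * Polynomial.X + Polynomial.C b2) *
        (Polynomial.C (b1' - μ * b1) * Polynomial.X + Polynomial.C (b2' - μ * b2))
        - Polynomial.C (2 * c0) * (Polynomial.C (B' - μ * B) * Polynomial.X ^ 2
          + Polynomial.C (c1' - μ * c1) * Polynomial.X + Polynomial.C (A' - μ * A)))
      (by
        simp only [map_sub, map_mul, map_pow, map_ofNat]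
        linear_combination 4 * algebraMap k κ c0 * h)
      (by
        rw [hμ, map_mul] at h'
        simp only [map_sub, map_mul, map_add, map_pow, map_ofNat, Polynomial.aeval_C,
          Polynomial.aeval_X]
        linear_combination 2 * algebraMap k κ c0 * (h' - algebraMap k κ μ * h))
    have e2 := sub_eq_zero.1 e1.1
    have e3 := sub_eq_zero.1 e1.2
    have e7 := vert_quad hu (α := B' - μ * B) (β := c1' - μ * c1) (γ := A' - μ * A) (by
      simp only [hμ, e2, e3, map_mul] at h'
      simp only [map_sub, map_mul]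
      linear_combination h' - algebraMap k κ μ * h)
    exact ⟨μ, hμ, e2, e3, sub_eq_zero.1 e7.1, sub_eq_zero.1 e7.2.1, sub_eq_zero.1 e7.2.2⟩

omit [IsAlgClosed k] [CharZero k] in
theorem vert_ev_lev (J : QF k) (c : k) (t P : κ) :
    ev (t, P) (J.lev c) = algebraMap k κ J.c0 * (t * P) ^ 2
      + t * P * (algebraMap k κ J.b1 * t ^ 2 + algebraMap k κ J.b2)
      + algebraMap k κ J.B * (t ^ 2) ^ 2 + algebraMap k κ (J.c1 - c) * t ^ 2
      + algebraMap k κ J.A := by
  simp only [ev, QF.lev, map_add, map_mul, map_pow, aeval_C, aeval_X, Matrix.cons_val_zero,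
    Matrix.cons_val_one]
  ring

omit [IsAlgClosed k] [CharZero k] in
theorem vert_ev_der (J : QF k) (c : k) (t P : κ) :
    ev (t, P) (pderiv 1 (J.lev c)) = t * (2 * algebraMap k κ J.c0 * (t * P)
      + algebraMap k κ J.b1 * t ^ 2 + algebraMap k κ J.b2) := by
  simp [ev, QF.lev, pderiv_X]
  ring

omit [IsAlgClosed k] [CharZero k] in
theorem vert_factor (l : κ × κ) {n : R2 k} (hn : n ≠ 0) (h : ev l n = 0) :
    ∃ π : R2 k, Irreducible π ∧ π ∣ n ∧ ev l π = 0 := by
  induction n using WfDvdMonoid.induction_on_irreducible with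
  | zero => exact absurd rfl hn
  | unit u hu => exact absurd h (hu.map (ev l)).ne_zero
  | mul a i ha hi ih =>
    rw [map_mul] at h
    rcases mul_eq_zero.1 h with h | h
    · exact ⟨i, hi, dvd_mul_right _ _, h⟩
    · obtain ⟨π, h1, h2, h3⟩ := ih ha h
      exact ⟨π, h1, h2.mul_left _, h3⟩

end aux

omit [IsAlgClosed k] in
theorem vert_b1 {q : Conic k} (hq : RC q) (h : q.dQ.c0 = 0) : q.dQ.b1 ≠ 0 := by
  intro h1
  have h2 := hq.toNd
  exact h2.par h (h2.re.2 (by simp [BB, h, h1]))

omit [IsAlgClosed k] in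
/-- a tangent line with a given transcendental direction -/
theorem vert_point' {κ : Type} [Field κ] [Algebra k κ] [IsAlgClosed κ] {q : Conic k} (hq : RC q)
    {t : κ} (ht : Transcendental k t) :
    ∃ P : κ, ev (t, P) (q.dQ.lev 0) = 0 ∧ ev (t, P) (pderiv 1 (q.dQ.lev 0)) ≠ 0 := by
  have : CharZero κ := charZero_of_injective_algebraMap (algebraMap k κ).injective
  have ht0 : t ≠ 0 := fun h => ht (h ▸ isAlgebraic_zero)
  have hu := ht.pow (n := 2) (by norm_num)
  obtain ⟨P, hP⟩ : ∃ P : κ, ev (t, P) (q.dQ.lev 0) = 0 := by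
    simp only [vert_ev_lev]
    by_cases hc : q.dQ.c0 = 0
    · have hp : algebraMap k κ q.dQ.b1 * t ^ 2 + algebraMap k κ q.dQ.b2 ≠ 0 := fun h0 =>
        vert_b1 hq hc (vert_quad hu (α := 0) (by simpa using h0)).2.1
      refine ⟨-(algebraMap k κ q.dQ.B * (t ^ 2) ^ 2 + algebraMap k κ (q.dQ.c1 - 0) * t ^ 2
        + algebraMap k κ q.dQ.A) /
          (t * (algebraMap k κ q.dQ.b1 * t ^ 2 + algebraMap k κ q.dQ.b2)), ?_⟩
      rw [hc, map_zero]
      generalize algebraMap k κ q.dQ.b1 * t ^ 2 + algebraMap k κ q.dQ.b2 = p at hp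
      field_simp
      ring
    · obtain ⟨W, hW⟩ := exists_quadratic_eq_zero
        (b := algebraMap k κ q.dQ.b1 * t ^ 2 + algebraMap k κ q.dQ.b2)
        (c := algebraMap k κ q.dQ.B * (t ^ 2) ^ 2 + algebraMap k κ (q.dQ.c1 - 0) * t ^ 2
          + algebraMap k κ q.dQ.A) ((map_ne_zero (algebraMap k κ)).2 hc)
        (IsAlgClosed.exists_eq_mul_self _)
      refine ⟨W / t, ?_⟩
      rw [mul_div_cancel₀ _ ht0]
      linear_combination hW
  refine ⟨P, hP, fun h0 => ?_⟩
  rw [vert_ev_der] at h0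
  rw [vert_ev_lev] at hP
  have h1 := (mul_eq_zero.1 h0).resolve_left ht0
  have h2 := vert_quad hu (α := q.a * q.Δ) (β := q.b * q.Δ) (γ := q.c * q.Δ) (by
    simp only [Conic.dQ, Conic.Δ, map_sub, map_mul, map_add, map_pow, map_ofNat, map_zero]
      at h1 hP ⊢
    linear_combination (1 / 16 : κ) * (2 * (algebraMap k κ q.b ^ 2
      - 4 * algebraMap k κ q.a * algebraMap k κ q.c) * (t * P)
      + (4 * algebraMap k κ q.a * algebraMap k κ q.e
        - 2 * algebraMap k κ q.b * algebraMap k κ q.d) * t ^ 2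
      + (2 * algebraMap k κ q.b * algebraMap k κ q.e
        - 4 * algebraMap k κ q.c * algebraMap k κ q.d)) * h1
      - (1 / 4 : κ) * (algebraMap k κ q.b ^ 2 - 4 * algebraMap k κ q.a * algebraMap k κ q.c) * hP)
  have ha := (mul_eq_zero.1 h2.1).resolve_right hq.nd
  have hb := (mul_eq_zero.1 h2.2.1).resolve_right hq.nd
  have hc := (mul_eq_zero.1 h2.2.2).resolve_right hq.nd
  exact hq.nd (by simp [Conic.Δ, ha, hb, hc])

omit [IsAlgClosed k] in
/-- a tangent line with transcendental direction -/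
theorem vert_point {q : Conic k} (hq : RC q) :
    ∃ t P : AlgebraicClosure (RatFunc k), Transcendental k t ∧ ev (t, P) (q.dQ.lev 0) = 0 ∧
      ev (t, P) (pderiv 1 (q.dQ.lev 0)) ≠ 0 := by
  have ht : Transcendental k (algebraMap (RatFunc k) (AlgebraicClosure (RatFunc k)) RatFunc.X) :=
    (transcendental_algebraMap_iff (algebraMap (RatFunc k) _).injective).2 RatFunc.transcendental_X
  obtain ⟨P, hP⟩ := vert_point' hq ht
  exact ⟨_, P, ht, hP⟩

omit [IsAlgClosed k] in
theorem vert_lev_ne {q : Conic k} (hq : RC q) : q.dQ.lev 0 ≠ 0 := by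
  obtain ⟨t, P, -, -, h⟩ := vert_point hq
  intro h0
  exact h (by rw [h0, map_zero, map_zero])

theorem vert {q : Conic k} (hq : RC q) : ∃ π : R2 k, Irreducible π ∧ ¬ Associated π (X 0) ∧
    multiplicity π (q.dQ.lev 0) = 1 ∧ (∀ c : k, c ≠ 0 → ¬ π ∣ q.dQ.lev c) ∧
    ∀ J' : QF k, Nd J' → J'.Vert π → q.dQ.Same J' := by
  obtain ⟨t, P, ht, h0, h1⟩ := vert_point hq
  have ht0 : t ≠ 0 := fun h => ht (h ▸ isAlgebraic_zero)
  obtain ⟨π, hπ, hd, he⟩ := vert_factor (t, P) (vert_lev_ne hq) h0
  have hv : ∀ g : R2 k, π ∣ g → ev (t, P) g = 0 := by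
    rintro _ ⟨g, rfl⟩
    rw [map_mul, he, zero_mul]
  refine ⟨π, hπ, fun h => ht0 ?_, ?_, fun c hc h => ?_, ?_⟩
  · simpa [ev_X0] using hv _ h.dvd
  · refine multiplicity_eq_of_dvd_of_not_dvd (by rwa [pow_one]) ?_
    rintro ⟨g, hg⟩
    refine h1 (hv _ ?_)
    rw [hg, pow_two, mul_assoc, Derivation.leibniz, Derivation.leibniz]
    simp only [smul_eq_mul]
    exact dvd_add (dvd_mul_right _ _) ((dvd_mul_right _ _).mul_right _)
  · have h2 := hv _ h
    rw [vert_ev_lev] at h0 h2
    simp only [map_sub, map_zero] at h0 h2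
    have h3 : algebraMap k _ c * t ^ 2 = 0 := by linear_combination h0 - h2
    exact mul_ne_zero ((map_ne_zero _).2 hc) (pow_ne_zero 2 ht0) h3
  · rintro J' hJ ⟨c, hc⟩
    have h2 := hv _ hc
    rw [vert_ev_lev] at h0 h2
    obtain ⟨μ, e1, e2, e3, e4, e5, e6⟩ := vert_prop (ht.pow (n := 2) (by norm_num))
      (fun h => hq.nd (by
        have : (-16 : k) * q.Δ ^ 2 = 0 := by
          rw [← h]
          simp only [Conic.dQ, Conic.Δ]
          ring
        simpa using this)) (vert_b1 hq) h0 h2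
    refine ⟨μ, c, ?_, QF.ext e1 e2 e3 e4 (by linear_combination e5) e6⟩
    rintro rfl
    exact hJ.par (by simpa using e1) (by simp [AA, e1, e3])

/-- `y` is not a rational function of the line -/
theorem y_notMem {K : Type} [Field K] [Algebra k K] {q : Conic k} (hq : RC q) {l : K × K}
    (hl : Gen k l) {y : K} (hy : y ^ 2 = q.dQ.val l) : y ∉ Fd k l := by
  intro h
  obtain ⟨π, h1, h2, h3, -⟩ := vert hq
  refine sq0 hl (vert_lev_ne hq) ⟨l.1 * y, mul_mem ?_ h, ?_⟩ π ⟨h1, h2, by rw [h3]; exact odd_one⟩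
  · simpa [ev_X0] using ev_mem_Fd l (X 0 : R2 k)
  · rw [ev_lev _ _ hl.t_ne, map_zero, sub_zero, mul_pow, hy]

end Ivrii.Con
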