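import Pool.Agent.P.MP_7a8567_an.Cnc.Lim1
import Pool.Agent.P.MP_7a8567_an.Cnc.Vert
import Pool.Agent.P.MP_7a8567_an.Cnc.Sq
import Pool.Agent.P.MP_7a8567_an.Alg.Bas
import Pool.Agent.P.MP_7a8567_an.Alg.Sq0

set_option autoImplicit false

/-! Norms along one level. -/

namespace Ivrii.Con

open MvPolynomial

section Univ
variable (k : Type) [Field k]

/-- a universal algebraically closed field of functions of a line -/
abbrev NK : Type := AlgebraicClosure (FractionRing (R2 k))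

lemma nk_ev (n : R2 k) :
    ev ((algebraMap (R2 k) (NK k) (X 0), algebraMap (R2 k) (NK k) (X 1)) : NK k × NK k) n
      = algebraMap (R2 k) (NK k) n := by
  have : (ev ((algebraMap (R2 k) (NK k) (X 0), algebraMap (R2 k) (NK k) (X 1)) : NK k × NK k) :
      R2 k →ₐ[k] NK k) = IsScalarTower.toAlgHom k (R2 k) (NK k) := by
    ext i; fin_cases i <;> simp [ev]
  exact DFunLike.congr_fun this n

lemma nk_inj : Function.Injective (algebraMap (R2 k) (NK k)) := by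
  rw [IsScalarTower.algebraMap_eq (R2 k) (FractionRing (R2 k)) (NK k), RingHom.coe_comp]
  exact (algebraMap (FractionRing (R2 k)) (NK k)).injective.comp
    (IsFractionRing.injective (R2 k) (FractionRing (R2 k)))

/-- the universal generic line -/
noncomputable def nkL : Gl k (NK k) :=
  ⟨(algebraMap (R2 k) (NK k) (X 0), algebraMap (R2 k) (NK k) (X 1)), fun a b h =>
    nk_inj k ((nk_ev k a).symm.trans (Eq.trans h (nk_ev k b)))⟩

variable {k}

lemma nk_lift {M : Type} [Field M] [Algebra k M] [IsAlgClosed M] (l : Gl k M) :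
    ∃ φ : NK k →ₐ[k] M, Gl.map φ (nkL k) = l := by
  let _ : Algebra (R2 k) M := (ev l.1 : R2 k →ₐ[k] M).toRingHom.toAlgebra
  have i2 : IsScalarTower k (R2 k) M := .of_algebraMap_eq fun a => ((ev l.1).commutes a).symm
  have : FaithfulSMul (R2 k) M := (faithfulSMul_iff_algebraMap_injective _ _).2 l.2
  have : FaithfulSMul (R2 k) (NK k) := (faithfulSMul_iff_algebraMap_injective _ _).2 (nk_inj k)
  have : Algebra.IsAlgebraic (R2 k) (NK k) :=
    (IsFractionRing.comap_isAlgebraic_iff (K := FractionRing (R2 k))).2 inferInstance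
  let ψ : NK k →ₐ[R2 k] M := IsAlgClosed.lift
  exact ⟨ψ.restrictScalars k, Subtype.ext (Prod.ext ((ψ.commutes (X 0)).trans (ev_X0 l.1))
    ((ψ.commutes (X 1)).trans (ev_X1 l.1)))⟩

variable {K : Type} [Field K] [Algebra k K]

lemma nm_val_mem (J : QF k) (l : Gl k K) : J.val l.1 ∈ Fd k l.1 := by
  have h := ev_lev J 0 l.t_ne
  have ht := l.t_ne
  have : J.val l.1 = ev l.1 (J.lev 0) / l.1.1 ^ 2 := by
    rw [h, map_zero, sub_zero]; field_simp
  rw [this]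
  exact div_mem (ev_mem_Fd _ _) (pow_mem (fst_mem_Fd _) 2)

lemma nm_lin {X : IntermediateField k K} {y a b : K} (hy : y ∉ X) (ha : a ∈ X) (hb : b ∈ X)
    (h : a + b * y = 0) : b = 0 := by
  by_contra h0
  have : y = -a / b := by field_simp; linear_combination h
  exact hy (this ▸ div_mem (neg_mem ha) hb)

lemma nm_ev_map {K' : Type} [Field K'] [Algebra k K'] (φ : K →ₐ[k] K') (l : Gl k K) (n : R2 k) :
    ev (Gl.map φ l).1 n = φ (ev l.1 n) := ev_map φ n l.1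

end Univ

variable {k : Type} [Field k] [IsAlgClosed k] [CharZero k]

omit [IsAlgClosed k] in
lemma nm_neg {K : Type} [Field K] [Algebra k K] {q : Conic k} (hq : RC q) (y : K) (e : ℤ) :
    rho q (-y) ^ e = rho q y ^ (-e) := by
  rw [← rho_inv hq.nd, inv_zpow']

lemma nm_emb {K0 M : Type} [Field K0] [Algebra k K0] [IsAlgClosed K0] [Field M] [Algebra k M]
    {q : Conic k} (hq : RC q) (l0 : Gl k K0) (φ : K0 →ₐ[k] M) {y0 : K0} {y : M}
    (hy0 : y0 ^ 2 = q.dQ.val l0.1) (hy : y ^ 2 = q.dQ.val (Gl.map φ l0).1) :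
    ∃ ψ : K0 →ₐ[k] M, Gl.map ψ l0 = Gl.map φ l0 ∧ ψ y0 = y := by
  have hsq : y0 ^ 2 ∈ Fd k l0.1 := hy0 ▸ nm_val_mem _ _
  have e1 : φ y0 ^ 2 = y ^ 2 := by
    rw [← map_pow, hy0, hy, ← val_map, Gl.map_val]
  rcases sq_eq_sq_iff_eq_or_eq_neg.1 e1 with e2 | e2
  · exact ⟨φ, rfl, e2⟩
  · obtain ⟨σ, hσ, hne⟩ : ∃ σ ∈ G (Fd k l0.1), σ y0 ≠ y0 := by
      by_contra hn
      exact y_notMem hq l0.2 hy0 (fixG fun σ hσ => not_not.1 fun h => hn ⟨σ, hσ, h⟩)
    refine ⟨φ.comp (σ : K0 →ₐ[k] K0), ?_, ?_⟩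
    · obtain ⟨s1, s2⟩ := mem_G_Fd.1 hσ
      exact Subtype.ext (Prod.ext (congrArg φ s1) (congrArg φ s2))
    · have e3 : σ y0 = -y0 := (sq_pm hsq hσ).resolve_left hne
      change φ (σ y0) = _
      rw [e3, map_neg, e2, neg_neg]

lemma nm_expand {K0 : Type} [Field K0] [Algebra k K0] [IsAlgClosed K0] (l0 : Gl k K0)
    (hl : ∀ (M : Type) [Field M] [Algebra k M] [IsAlgClosed M] (l : Gl k M),
      ∃ φ : K0 →ₐ[k] M, Gl.map φ l0 = l) {q : Conic k} (hq : RC q) (e : ℤ) (n : R2 k) :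
    ∃ a b d : R2 k, d ≠ 0 ∧ ∀ (M : Type) [Field M] [Algebra k M] [IsAlgClosed M] (l : Gl k M)
      (y : M), y ^ 2 = q.dQ.val l.1 →
      ev ((rho q y ^ e) l).1 n * ev l.1 d = ev l.1 a + ev l.1 b * y := by
  obtain ⟨y0, hy0⟩ := IsAlgClosed.exists_pow_nat_eq (q.dQ.val l0.1) (n := 2) two_pos
  have hsq : y0 ^ 2 ∈ Fd k l0.1 := hy0 ▸ nm_val_mem _ _
  have hm := rho_mem (y := y0) hq.nd e l0 (X := Fd k l0.1 ⊔ IntermediateField.adjoin k {y0})
    (le_sup_left (a := Fd k l0.1) (fst_mem_Fd _)) (le_sup_left (a := Fd k l0.1) (snd_mem_Fd _))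
    (le_sup_right (a := Fd k l0.1) (IntermediateField.subset_adjoin _ _ rfl))
  obtain ⟨a0, ha0, b0, hb0, h0⟩ := mem_quad hsq (Fd_le.2 hm (ev_mem_Fd _ n))
  obtain ⟨a1, d1, hd1, rfl⟩ := (mem_Fd_iff l0.2).1 ha0
  obtain ⟨b1, d2, hd2, rfl⟩ := (mem_Fd_iff l0.2).1 hb0
  have h1 : ev ((rho q y0 ^ e) l0).1 n * ev l0.1 (d1 * d2)
      = ev l0.1 (a1 * d2) + ev l0.1 (b1 * d1) * y0 := by
    have := l0.ev_ne hd1
    have := l0.ev_ne hd2
    rw [h0, map_mul, map_mul, map_mul]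
    field_simp
  refine ⟨a1 * d2, b1 * d1, d1 * d2, mul_ne_zero hd1 hd2, fun M _ _ _ l y hy => ?_⟩
  obtain ⟨φ, rfl⟩ := hl M l
  obtain ⟨ψ, h2, rfl⟩ := nm_emb hq l0 φ hy0 hy
  rw [← h2, ← rho_map ψ hq.nd, nm_ev_map, nm_ev_map, nm_ev_map, nm_ev_map, ← map_mul ψ, h1,
    map_add ψ, map_mul ψ]

/-- universal expansion of a function of the reflected line -/
theorem expand {q : Conic k} (hq : RC q) (e : ℤ) (n : R2 k) :
    ∃ a b d : R2 k, d ≠ 0 ∧ ∀ (K : Type) [Field K] [Algebra k K] (l : Gl k K) (y : K),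
      y ^ 2 = q.dQ.val l.1 →
      ev ((rho q y ^ e) l).1 n * ev l.1 d = ev l.1 a + ev l.1 b * y := by
  obtain ⟨a, b, d, hd, H⟩ := nm_expand (nkL k) (fun _ _ _ _ l => nk_lift l) hq e n
  refine ⟨a, b, d, hd, fun K _ _ l y hy => ?_⟩
  let ι : K →ₐ[k] AlgebraicClosure K := IsScalarTower.toAlgHom k K _
  have h := H _ (Gl.map ι l) (ι y) (by rw [← map_pow, hy, ← val_map, Gl.map_val])
  rw [← rho_map ι hq.nd, nm_ev_map, nm_ev_map, nm_ev_map, nm_ev_map, ← map_mul ι, ← map_mul ι,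
    ← map_add ι] at h
  exact ι.injective h

/-- the norm polynomial -/
theorem exists_norm {q : Conic k} (hq : RC q) (e : ℤ) {n : R2 k} (hn : n ≠ 0) :
    ∃ N d : R2 k, N ≠ 0 ∧ d ≠ 0 ∧
      (∀ (K : Type) [Field K] [Algebra k K] (l : Gl k K) (y : K), y ^ 2 = q.dQ.val l.1 →
        ev l.1 N = ev l.1 d ^ 2 * ev ((rho q y ^ e) l).1 n * ev ((rho q y ^ (-e)) l).1 n) ∧
      ∀ (K : Type) [Field K] [Algebra k K] (l : Gl k K) (y : K), y ^ 2 = q.dQ.val l.1 →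
        ∀ (X : IntermediateField k K), Fd k l.1 ≤ X → y ∉ X → ∀ m ∈ X, m ≠ 0 →
        Sq (X ⊔ IntermediateField.adjoin k {y}) (ev ((rho q y ^ e) l).1 n * m) →
        Sq X (ev l.1 N) := by
  obtain ⟨a, b, d, hd, H⟩ := expand hq e n
  have hN : ∀ (K : Type) [Field K] [Algebra k K] (l : Gl k K) (y : K), y ^ 2 = q.dQ.val l.1 →
      ev l.1 (X 0 ^ 2 * a ^ 2 - b ^ 2 * q.dQ.lev 0)
        = l.1.1 ^ 2 * ((ev l.1 a + ev l.1 b * y) * (ev l.1 a - ev l.1 b * y)) := by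
    intro K _ _ l y hy
    simp only [map_sub, map_mul, map_pow, ev_X0, ev_lev _ _ l.t_ne, map_zero, sub_zero, ← hy]
    ring
  have h1 : ∀ (K : Type) [Field K] [Algebra k K] (l : Gl k K) (y : K), y ^ 2 = q.dQ.val l.1 →
      ev l.1 (X 0 ^ 2 * a ^ 2 - b ^ 2 * q.dQ.lev 0) = ev l.1 (X 0 * d : R2 k) ^ 2 *
        ev ((rho q y ^ e) l).1 n * ev ((rho q y ^ (-e)) l).1 n := by
    intro K _ _ l y hy
    have e1 := H K l y hy
    have e2 := H K l (-y) (by rw [neg_sq, hy])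
    rw [nm_neg hq, mul_neg, ← sub_eq_add_neg] at e2
    rw [hN K l y hy, ← e1, ← e2, map_mul, ev_X0]
    ring
  have hd' : (X 0 * d : R2 k) ≠ 0 := mul_ne_zero (X_ne_zero 0) hd
  refine ⟨_, _, fun h0 => ?_, hd', h1, fun K _ _ l y hy X hX hyX m hm hm0 ⟨r, hr, er⟩ => ?_⟩
  · obtain ⟨y0, hy0⟩ := IsAlgClosed.exists_pow_nat_eq (q.dQ.val (nkL k).1) (n := 2) two_pos
    have := h1 _ (nkL k) y0 hy0
    rw [h0, map_zero] at this
    exact mul_ne_zero (mul_ne_zero (pow_ne_zero 2 ((nkL k).ev_ne hd')) (Gl.ev_ne _ hn))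
      (Gl.ev_ne _ hn) this.symm
  · have hsq : y ^ 2 ∈ X := hy ▸ hX (nm_val_mem _ _)
    obtain ⟨α, hα, β, hβ, rfl⟩ := mem_quad hsq hr
    have hA := hX (ev_mem_Fd l.1 a)
    have hB := hX (ev_mem_Fd l.1 b)
    have hD := hX (ev_mem_Fd l.1 d)
    have e1 : (ev l.1 a + ev l.1 b * y) * m = ev l.1 d * (α + β * y) ^ 2 := by
      rw [← H K l y hy, ← er]; ring
    have e2 : ev l.1 b * m - 2 * ev l.1 d * α * β = 0 :=
      nm_lin (a := ev l.1 a * m - ev l.1 d * (α ^ 2 + β ^ 2 * y ^ 2)) hyX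
        (sub_mem (mul_mem hA hm) (mul_mem hD (add_mem (pow_mem hα 2)
          (mul_mem (pow_mem hβ 2) hsq))))
        (sub_mem (mul_mem hB hm) (mul_mem (mul_mem (mul_mem (ofNat_mem X 2) hD) hα) hβ))
        (by linear_combination e1)
    have e3 : (ev l.1 a - ev l.1 b * y) * m = ev l.1 d * (α - β * y) ^ 2 := by
      linear_combination e1 - 2 * y * e2
    refine ⟨l.1.1 * ev l.1 d * (α ^ 2 - β ^ 2 * y ^ 2) / m, div_mem (mul_mem (mul_mem
      (hX (fst_mem_Fd _)) hD) (sub_mem (pow_mem hα 2) (mul_mem (pow_mem hβ 2) hsq))) hm, ?_⟩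
    rw [hN K l y hy, div_pow, eq_div_iff (pow_ne_zero 2 hm0)]
    calc _ = l.1.1 ^ 2 * (((ev l.1 a + ev l.1 b * y) * m) * ((ev l.1 a - ev l.1 b * y) * m)) := by
          ring
      _ = _ := by rw [e1, e3]; ring

/-- (NF) -/
theorem nf {K : Type} [Field K] [Algebra k K] {q : Conic k} (hq : RC q) {y : K} (l : Gl k K)
    (hy : y ^ 2 = q.dQ.val l.1) {X : IntermediateField k K} (hX : Fd k l.1 ≤ X) (hyX : y ∉ X)
    {e : ℤ} (h : Fd k ((rho q y ^ e) l).1 ≤ X) : e = 0 := by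
  have key : ∀ n : R2 k, ev ((rho q y ^ e) l).1 n = ev ((rho q y ^ (-e)) l).1 n := fun n => by
    obtain ⟨a, b, d, hd, H⟩ := expand hq e n
    have e1 := H K l y hy
    have e2 := H K l (-y) (by rw [neg_sq, hy])
    rw [nm_neg hq] at e2
    have e3 : ev l.1 b = 0 :=
      nm_lin (a := ev l.1 a - ev ((rho q y ^ e) l).1 n * ev l.1 d) hyX
        (sub_mem (hX (ev_mem_Fd _ _)) (mul_mem (h (ev_mem_Fd _ _)) (hX (ev_mem_Fd _ _))))
        (hX (ev_mem_Fd _ _)) (by linear_combination -e1)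
    apply mul_right_cancel₀ (l.ev_ne hd)
    rw [e1, e2, e3, zero_mul, zero_mul]
  have h1 : (rho q y ^ e) l = (rho q y ^ (-e)) l := Subtype.ext (Prod.ext
    (by simpa only [ev_X0] using key (MvPolynomial.X 0))
    (by simpa only [ev_X1] using key (MvPolynomial.X 1)))
  have h2 : (rho q y ^ (e + e)) l = l := by
    rw [zpow_add, Equiv.Perm.mul_apply, h1, ← Equiv.Perm.mul_apply, ← zpow_add, add_neg_cancel,
      zpow_zero, Equiv.Perm.one_apply]
  have := rho_free hq.nd l hy h2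
  omega

end Ivrii.Con
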