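import Pool.Agent.P.MP_7a8567_an.Cnc.Ser
import Pool.Agent.P.MP_7a8567_an.Cnc.Base
import Pool.Agent.P.MP_7a8567_an.Cnc.Norm
import Pool.Agent.P.MP_7a8567_an.Cnc.Lim2
import Pool.Agent.P.MP_7a8567_an.Cnc.ND1
import Pool.Agent.P.MP_7a8567_an.Cnc.ND2
import Pool.Agent.P.MP_7a8567_an.Cnc.ND3

set_option autoImplicit false

/-! Two affine places of one orbit on levels of a second family lie on pencils. -/

namespace Ivrii.Con

open Ivrii.PX

section Mem
variable {k Ω : Type} [Field k] [Field Ω] [Algebra k Ω]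

theorem fst_mem_Fd (l : Ω × Ω) : l.1 ∈ Fd k l :=
  IntermediateField.subset_adjoin _ _ (Or.inl rfl)

theorem snd_mem_Fd (l : Ω × Ω) : l.2 ∈ Fd k l :=
  IntermediateField.subset_adjoin _ _ (Or.inr rfl)

theorem Fd_le_iff {l : Ω × Ω} {X : IntermediateField k Ω} : Fd k l ≤ X ↔ l.1 ∈ X ∧ l.2 ∈ X := by
  rw [Fd, IntermediateField.adjoin_le_iff, Set.insert_subset_iff, Set.singleton_subset_iff]
  rfl

theorem val_mem_Fd (J : QF k) (l : Ω × Ω) : J.val l ∈ Fd k l := by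
  have h1 := fst_mem_Fd (k := k) l
  have h2 := snd_mem_Fd (k := k) l
  have h := (Fd k l).algebraMap_mem
  unfold QF.val
  exact add_mem (add_mem (add_mem (add_mem (mul_mem (h _) (pow_mem h2 _)) (mul_mem h2
    (add_mem (mul_mem (h _) h1) (div_mem (h _) h1)))) (mul_mem (h _) (pow_mem h1 _))) (h _))
    (div_mem (h _) (pow_mem h1 _))

theorem shL_mem (s1 s2 : k) {l : Ω × Ω} {X : IntermediateField k Ω} (h1 : l.1 ∈ X)
    (h2 : l.2 ∈ X) : (shL s1 s2 l).1 ∈ X ∧ (shL s1 s2 l).2 ∈ X :=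
  ⟨h1, add_mem (add_mem h2 (mul_mem (X.algebraMap_mem _) h1)) (div_mem (X.algebraMap_mem _) h1)⟩

theorem Reg.fib {q : Conic k} {y : Ω} {l : LaurentSeries Ω × LaurentSeries Ω}
    (h : Reg q.dQ (y ^ 2) l) : (HahnSeries.C y : LaurentSeries Ω) ^ 2 = q.dQ.val l := by
  rw [h.val, map_pow]

theorem not_const {j : Ω} (hb : Base k j) {J J' : QF k} (h0 : J'.c0 ≠ 0) {a : Ω × Ω} {c : k}
    (e : J'.val a = algebraMap k Ω c) (hj : J.val a = j) (b : k) : a.1 ≠ algebraMap k Ω b := by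
  intro hb'
  have h2 : IsAlgebraic k a.2 := by
    refine ⟨Polynomial.C J'.c0 * Polynomial.X ^ 2 + Polynomial.C (J'.b1 * b + J'.b2 / b)
      * Polynomial.X + Polynomial.C (J'.B * b ^ 2 + J'.c1 + J'.A / b ^ 2 - c), fun h => h0 ?_, ?_⟩
    · have := congrArg (Polynomial.coeff · 2) h
      simp only [Polynomial.coeff_add, Polynomial.coeff_C_mul, Polynomial.coeff_X_pow,
        Polynomial.coeff_X, Polynomial.coeff_C, Polynomial.coeff_zero] at this
      simpa using this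
    · unfold QF.val at e
      rw [hb'] at e
      simp only [map_add, map_mul, map_pow, map_sub, map_div₀, Polynomial.aeval_C,
        Polynomial.aeval_X]
      linear_combination e
  have h3 : Fd k a ≤ algebraicClosure k Ω := Fd_le_iff.2
    ⟨hb' ▸ (algebraicClosure k Ω).algebraMap_mem b, mem_algebraicClosure_iff.2 h2⟩
  exact hb.tr (mem_algebraicClosure_iff.1 (hj ▸ h3 (val_mem_Fd J a)))

end Mem

variable {k κ : Type} [Field k] [Field κ] [Algebra k κ] [IsAlgClosed k] [CharZero k]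

theorem iso_zero {q : Conic k} (hq : RC q) {y : κ} {l : Gl k (LaurentSeries κ)}
    (h : Reg q.dQ (y ^ 2) l.1) (ha : Aff l.1) {e : ℤ}
    (ha' : Aff ((rho q (HahnSeries.C y) ^ e) l).1)
    (hi : Iso q.dQ (at0 l.1) (at0 ((rho q (HahnSeries.C y) ^ e) l).1)) : e = 0 := by
  have h' := h.step hq.nd e
  refine nf hq l h.fib le_rfl (y_notMem hq l.2 h.fib) ?_
  obtain ⟨s1, s2, u, hu, hi⟩ := hi
  have hu' : algebraMap k (LaurentSeries κ) u ≠ 0 := (map_ne_zero _).2 hu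
  have m1 := fst_mem_Fd (k := k) l.1
  have m2 := snd_mem_Fd (k := k) l.1
  have mu := (Fd k l.1).algebraMap_mem u
  have hz := l.zv_ne hq.nd
  have ht := l.t_ne
  rcases hi with ⟨e1, hI⟩ | ⟨e1, hI⟩
  · obtain ⟨v1, v2⟩ := sym1_val hu hI ht
    have hm : Reg q.dQ (y ^ 2) (sym1 s1 s2 u l.1) := ⟨v1.trans h.val, by
      rw [v2, ← h.ode]
      show dU κ k (algebraMap k _ u * l.1.1) = _
      rw [Derivation.leibniz, Derivation.map_algebraMap, smul_zero, add_zero, smul_eq_mul]⟩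
    have := h'.uniq hm (Gl.t_ne _) (mul_ne_zero hu' ht) (Gl.zv_ne _ hq.nd)
      (v2 ▸ mul_ne_zero hu' hz) ha'.t (e1 ▸ (Ev.alg u).mul ha.t) (ha'.zvl q.dQ) (by
        rw [e1, v2, (sym1_val hu hI ha.ne).2]
        exact (Ev.alg u).mul (ha.zvl q.dQ))
    rw [← this, Fd_le_iff]
    exact shL_mem _ _ (mul_mem mu m1) (shL_mem s1 s2 m1 m2).2
  · obtain ⟨v1, v2⟩ := sym2_val hu hI ht
    have hm : Reg q.dQ (y ^ 2) (sym2 s1 s2 u l.1) := ⟨v1.trans h.val, by
      rw [v2, ← h.ode]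
      show dU κ k (algebraMap k _ u / l.1.1) = _
      rw [Derivation.leibniz_div, Derivation.map_algebraMap]
      simp only [smul_eq_mul]
      field_simp
      ring⟩
    have := h'.uniq hm (Gl.t_ne _) (div_ne_zero hu' ht) (Gl.zv_ne _ hq.nd)
      (v2 ▸ neg_ne_zero.2 (div_ne_zero (mul_ne_zero hu' hz) (pow_ne_zero _ ht))) ha'.t
      (e1 ▸ (Ev.alg u).div ha.t ha.ne) (ha'.zvl q.dQ) (by
        rw [e1, v2, (sym2_val hu hI ha.ne).2]
        exact (((Ev.alg u).mul (ha.zvl q.dQ)).div (ha.t.pow 2) (pow_ne_zero _ ha.ne)).neg)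
    rw [← this, Fd_le_iff]
    exact shL_mem _ _ (div_mem mu m1) (neg_mem (shL_mem s1 s2 m1 m2).2)

omit [IsAlgClosed k] in
theorem near {q : Conic k} (hq : q.Δ ≠ 0) {y : κ} {O : ValuationSubring κ}
    (hv : Val k O.valuation) (vy : O.valuation (y ^ 2) < 1) {l : Gl k (LaurentSeries κ)}
    (h : Reg q.dQ (y ^ 2) l.1) (ha : Aff l.1) {e : ℤ}
    (ha' : Aff ((rho q (HahnSeries.C y) ^ e) l).1) (vt : O.valuation (at0 l.1).1 ≤ 1) :
    Near O.valuation q (y ^ 2) (at0 l.1) (at0 ((rho q (HahnSeries.C y) ^ e) l).1) := by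
  obtain ⟨O', i1, i2⟩ := exists_comp O
  have hk : ∀ a : k, O'.valuation (algebraMap k _ a) ≤ 1 := fun a =>
    (i1 _).2 ⟨_, Ev.alg a, hv.le a⟩
  have vy1 : O.valuation y < 1 := by
    by_contra hn
    rw [map_pow] at vy
    exact absurd vy (not_lt.2 (one_le_pow₀ (not_lt.1 hn)))
  have vy' : O'.valuation (HahnSeries.C y) < 1 := (i2 _).2 ⟨y, Ev.C y, vy1⟩
  obtain ⟨z1, z2, z3⟩ := lim1 O'.valuation hk hq l h.fib vy' ((i1 _).2 ⟨_, ha.t, vt⟩) e
  have z4 : O'.valuation (e * eta q (HahnSeries.C y : LaurentSeries κ) * zv q.dQ l.1) < 1 := by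
    have : (e : LaurentSeries κ) * eta q (HahnSeries.C y : LaurentSeries κ) * zv q.dQ l.1
        = HahnSeries.C y * (algebraMap k _ (-(e : k) / (2 * q.Δ)) * zv q.dQ l.1) := by
      simp only [eta, map_div₀, map_neg, map_mul, map_intCast, map_ofNat]
      ring
    rw [this, map_mul, map_mul]
    exact mul_lt_one_of_nonneg_of_lt_one_left zero_le vy' (mul_le_one' (hk _) z1)
  have z5 : O'.valuation (((rho q (HahnSeries.C y) ^ e) l).1.1 - l.1.1) < 1 := by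
    have := O'.valuation.map_sub_lt (z2.trans_lt (mul_lt_one_of_nonneg_of_lt_one_left zero_le vy'
      vy'.le)) z4
    rwa [add_sub_cancel_right] at this
  obtain ⟨a, a1, a2⟩ := (i2 _).1 z5
  obtain ⟨b, b1, b2⟩ := (i2 _).1 (z3.trans_lt vy')
  refine ⟨ha.ne, ha'.ne, h.val0 ha, (h.step hq e).val0 ha', fun e0 => ?_, vy, vt,
    (ha'.t.sub ha.t).uniq a1 ▸ a2, ((ha'.zvl q.dQ).sub (ha.zvl q.dQ)).uniq b1 ▸ b2⟩
  refine l.val_ne hq 0 ?_
  rw [h.val, e0, map_zero, map_zero]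

theorem pair0 {q : Conic k} (hq : RC q) {y : κ} (hb : Base k (y ^ 2)) {O : ValuationSubring κ}
    (hv : Val k O.valuation) (vy : O.valuation (y ^ 2) < 1) {J' : QF k} (hJ : Nd J')
    {l : Gl k (LaurentSeries κ)} (h : Reg q.dQ (y ^ 2) l.1) (ha : Aff l.1) {e : ℤ} (he : e ≠ 0)
    (ha' : Aff ((rho q (HahnSeries.C y) ^ e) l).1) {c c' : k}
    (hc : J'.val (at0 l.1) = algebraMap k κ c)
    (hc' : J'.val (at0 ((rho q (HahnSeries.C y) ^ e) l).1) = algebraMap k κ c')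
    (vt : O.valuation (at0 l.1).1 ≤ 1) : Pen k (at0 l.1) := by
  have hn := near hq.nd hv vy h ha ha' vt
  obtain rfl := lim2 hv hq hn J' hc hc'
  obtain ⟨D, -, hD⟩ := hb.der
  have hx := ha.ex ha' D (rho_ex hq.nd _ e l (dcoef D))
  by_contra hp
  refine he (iso_zero hq h ha ha' ?_)
  by_cases h0 : J'.c0 = 0
  · exact nd3 hb D hD hJ h0 (fun e => hp (deg_par hJ h0 e hn.t0 hc)) hn.t0 hn.t1 hc hc' hx
      hn.j0 hn.j1
  have hd : JJ J' c ^ 2 ≠ 4 * AA J' * BB J' := fun e => hp (deg_central h0 e hn.t0 hc)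
  by_cases hA : AA J' = 0
  · refine nd2 hb D hD h0 hA (hJ.re.1 hA) (fun e => hd ?_) hn.t0 hn.t1 hc hc' hx hn.j0 hn.j1
    rw [e, hA]
    ring
  · rw [nd1 hv hb D hD h0 hA (fun e => hA (hJ.re.2 e)) hd hn.t0 hn.t1
      (not_const hb h0 hc hn.j0) (not_const hb h0 hc' hn.j1) hc hc' hx vt hn.dt
      (lim3 hv hq hn J' hc hc').2]
    exact Iso.refl _ _

theorem pair {q : Conic k} (hq : RC q) {y : κ} (hb : Base k (y ^ 2)) {J' : QF k} (hJ : Nd J')
    {l : Gl k (LaurentSeries κ)} (h : Reg q.dQ (y ^ 2) l.1) (ha : Aff l.1) {e : ℤ} (he : e ≠ 0)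
    (ha' : Aff ((rho q (HahnSeries.C y) ^ e) l).1) {c c' : k}
    (hc : J'.val (at0 l.1) = algebraMap k κ c)
    (hc' : J'.val (at0 ((rho q (HahnSeries.C y) ^ e) l).1) = algebraMap k κ c') :
    Pen k (at0 l.1) := by
  obtain ⟨O, hv, vy⟩ := hb.val
  by_cases vt : O.valuation (at0 l.1).1 ≤ 1
  · exact pair0 hq hb hv vy hJ h ha he ha' hc hc' vt
  · have e1 := rho_sw hq.nd (HahnSeries.C y : LaurentSeries κ) e l
    have s1 : at0 l.sw.1 = swL (at0 l.1) := ha.sw.2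
    have s2 : at0 ((rho (swC q) (HahnSeries.C y) ^ e) l.sw).1
        = swL (at0 ((rho q (HahnSeries.C y) ^ e) l).1) := e1 ▸ ha'.sw.2
    refine Pen.sw (s1 ▸ pair0 hq.sw hb hv vy hJ.sw (l := l.sw) (swC_dQ q ▸ h.sw l.t_ne) ha.sw.1
      he (e1 ▸ ha'.sw.1) (c := c) (c' := c') ?_ ?_ ?_)
    · rw [s1, val_sw, hc]
    · rw [s2, val_sw, hc']
    · rw [s1]
      show O.valuation (at0 l.1).1⁻¹ ≤ 1
      rw [map_inv₀]
      exact inv_le_one_of_one_le₀ (not_le.1 vt).le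

end Ivrii.Con
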