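import Pool.Agent.P.MP_7a8567_an.Cnc.Alg
import Pool.Agent.P.MP_7a8567_an.T.Cl

set_option autoImplicit false

/-! The reflection as a permutation of generic lines. -/

namespace Ivrii.Con

open MvPolynomial

variable {k K : Type} [Field k] [Field K] [Algebra k K]

theorem Gl.ev_ne (l : Gl k K) {n : R2 k} (hn : n ≠ 0) : ev l.1 n ≠ 0 := by
  exact fun h => hn (algebraicIndependent_iff.1 l.2 n h)

theorem Gl.t_ne (l : Gl k K) : l.1.1 ≠ 0 := by
  simpa [ev] using l.ev_ne (n := X 0) (X_ne_zero 0)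

@[simp] theorem Gl.map_val {K' : Type} [Field K'] [Algebra k K'] (φ : K →ₐ[k] K') (l : Gl k K) :
    (Gl.map φ l).1 = (φ l.1.1, φ l.1.2) := rfl

theorem gen_sw {l : K × K} (h : Gen k l) : Gen k (swL l) := by
  obtain ⟨h1, h2⟩ := T.algInd_pair.1 h
  refine T.algInd_pair.2 ⟨fun h3 => h1 (by simpa [swL] using T.cl_inv h3), fun h3 => h2 ?_⟩
  have h4 : T.cl k {l.1⁻¹} ⊆ T.cl k {l.1} :=
    T.cl_subset_cl (Set.singleton_subset_iff.2 (T.cl_inv (T.mem_cl rfl)))
  simpa [swL] using T.cl_neg (h4 h3)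

/-- exchange of `z` and `w` on generic lines -/
def Gl.sw (l : Gl k K) : Gl k K := ⟨swL l.1, gen_sw l.2⟩

theorem rho_zero (l : Gl k K) {n : R2 k} (h : ev l.1 n = 0) (x y : k) : eval ![x, y] n = 0 := by
  rw [of_not_not fun hn => l.ev_ne hn h, map_zero]

theorem rho_semi {α β : Type} {σ : Equiv.Perm α} {τ : Equiv.Perm β} {f : α → β}
    (h : ∀ x, f (σ x) = τ (f x)) (e : ℤ) (x : α) : f ((σ ^ e) x) = (τ ^ e) (f x) := by
  induction e using Int.induction_on generalizing x with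
  | zero => rfl
  | succ n ih => rw [zpow_add_one, zpow_add_one, Equiv.Perm.mul_apply, Equiv.Perm.mul_apply, ih, h]
  | pred n ih =>
    rw [zpow_sub_one, zpow_sub_one, Equiv.Perm.mul_apply, Equiv.Perm.mul_apply, ih]
    congr 1
    rw [Equiv.Perm.eq_inv_iff_eq, ← h]
    simp

theorem rho_cz_mem (q : Conic k) {A : K × K} {X : IntermediateField k K} (h1 : A.1 ∈ X)
    (h2 : A.2 ∈ X) : cz q A ∈ X ∧ cw q A ∈ X ∧ cev q A ∈ X := by
  have hk : ∀ a : k, algebraMap k K a ∈ X := X.algebraMap_mem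
  have htwo : (2 : K) ∈ X := ofNat_mem X 2
  exact ⟨add_mem (add_mem (mul_mem (mul_mem htwo (hk _)) h1) (mul_mem (hk _) h2)) (hk _),
    add_mem (add_mem (mul_mem (hk _) h1) (mul_mem (mul_mem htwo (hk _)) h2)) (hk _),
    add_mem (add_mem (add_mem (add_mem (add_mem (mul_mem (hk _) (pow_mem h1 2))
      (mul_mem (mul_mem (hk _) h1) h2)) (mul_mem (hk _) (pow_mem h2 2))) (mul_mem (hk _) h1))
      (mul_mem (hk _) h2)) (hk _)⟩

theorem rho_pt_mem {l : K × K} {x : K} {X : IntermediateField k K} (h1 : l.1 ∈ X) (h2 : l.2 ∈ X)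
    (hx : x ∈ X) : (pt l x).1 ∈ X ∧ (pt l x).2 ∈ X :=
  ⟨mul_mem h1 (add_mem hx (div_mem h2 (ofNat_mem X 2))),
    div_mem (sub_mem hx (div_mem h2 (ofNat_mem X 2))) h1⟩

variable [CharZero k]

theorem rho_c0 {q : Conic k} (hq : q.Δ ≠ 0) (h0 : q.dQ.c0 = 0) (h1 : q.dQ.b1 = 0)
    (h2 : q.dQ.b2 = 0) : False := by
  have ha := BB_dQ q
  have hc := AA_dQ q
  rw [BB, h0, h1] at ha
  rw [AA, h0, h2] at hc
  have ha' : q.a = 0 := mul_right_cancel₀ hq (by linear_combination ha / 4)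
  have hc' : q.c = 0 := mul_right_cancel₀ hq (by linear_combination hc / 4)
  have hb : q.b = 0 := by simpa [Conic.dQ, hc'] using h0
  exact hq (by simp [Conic.Δ, ha', hb, hc'])

theorem rho_ne (l : Gl k K) {q : Conic k} (hq : q.Δ ≠ 0) {u : k} (hu : u ≠ 0) (c : k) (i : ℕ) :
    algebraMap k K u * (l.1.1 ^ 2 * q.dQ.val l.1) ≠ algebraMap k K c * l.1.1 ^ i := by
  intro h
  have h1 := rho_zero l (n := C u * q.dQ.lev 0 - C c * X 0 ^ i) (by
    rw [map_sub, map_mul, ev_lev _ _ l.t_ne, map_zero, sub_zero]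
    simpa [ev, sub_eq_zero] using h)
  simp only [QF.lev, map_sub, map_add, map_mul, map_pow, eval_C, eval_X, Matrix.cons_val_zero,
    Matrix.cons_val_one] at h1
  have e1 := h1 1 0
  have e2 := h1 1 1
  have e3 := h1 1 (-1)
  have e4 := h1 2 1
  have e5 := h1 2 (-1)
  exact rho_c0 hq (mul_left_cancel₀ hu (by linear_combination (e2 + e3) / 2 - e1))
    (mul_left_cancel₀ hu (by linear_combination (e4 - e5) / 12 - (e2 - e3) / 6))
    (mul_left_cancel₀ hu (by linear_combination 2 * (e2 - e3) / 3 - (e4 - e5) / 12))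

theorem rho_h1 (l : Gl k K) {q : Conic k} (hq : q.Δ ≠ 0) {y : K} (hy : y ^ 2 = q.dQ.val l.1) :
    algebraMap k K q.a * y ^ 2 * l.1.1 ^ 2 ≠ algebraMap k K q.Δ := by
  intro h
  by_cases ha : q.a = 0
  · rw [ha, map_zero, zero_mul, zero_mul] at h
    exact (map_ne_zero _).2 hq h.symm
  · exact rho_ne l hq ha q.Δ 0 (by rw [← hy]; linear_combination h)

theorem rho_h2 (l : Gl k K) {q : Conic k} (hq : q.Δ ≠ 0) {y : K} (hy : y ^ 2 = q.dQ.val l.1) :
    algebraMap k K q.c * y ^ 2 ≠ algebraMap k K q.Δ * l.1.1 ^ 2 := by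
  intro h
  by_cases hc : q.c = 0
  · rw [hc, map_zero, zero_mul] at h
    exact mul_ne_zero ((map_ne_zero _).2 hq) (pow_ne_zero 2 l.t_ne) h.symm
  · exact rho_ne l hq hc q.Δ 4 (by rw [← hy]; linear_combination l.1.1 ^ 2 * h)

theorem Gl.alpha_ne (l : Gl k K) {q : Conic k} (hq : q.Δ ≠ 0) :
    algebraMap k K q.a * l.1.1 ^ 2 + algebraMap k K q.b + algebraMap k K q.c / l.1.1 ^ 2 ≠ 0 := by
  intro h
  have ht := l.t_ne
  have h1 := rho_zero l (n := C q.a * X 0 ^ 4 + C q.b * X 0 ^ 2 + C q.c) (by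
    field_simp at h
    simp only [ev, map_add, map_mul, map_pow, aeval_C, aeval_X, Matrix.cons_val_zero]
    linear_combination h)
  simp only [map_add, map_mul, map_pow, eval_C, eval_X, Matrix.cons_val_zero] at h1
  have e0 := h1 0 0
  have e1 := h1 1 0
  have e2 := h1 2 0
  have hc : q.c = 0 := by linear_combination e0
  have ha : q.a = 0 := by linear_combination (e2 - 4 * e1 + 3 * e0) / 12
  have hb : q.b = 0 := by linear_combination e1 - ha - hc
  exact hq (by simp [Conic.Δ, ha, hb, hc])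

theorem Gl.zv_ne (l : Gl k K) {q : Conic k} (hq : q.Δ ≠ 0) : zv q.dQ l.1 ≠ 0 := by
  have : CharZero K := charZero_of_injective_algebraMap (algebraMap k K).injective
  intro h
  have h1 := rho_zero l (n := C (2 * q.dQ.c0) * X 0 * X 1 + C q.dQ.b1 * X 0 ^ 2 + C q.dQ.b2) (by
    simp only [ev, map_add, map_mul, map_pow, aeval_C, aeval_X, Matrix.cons_val_zero,
      Matrix.cons_val_one, map_ofNat]
    rw [zv] at h
    linear_combination 2 * h)
  simp only [map_add, map_mul, map_pow, eval_C, eval_X, Matrix.cons_val_zero,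
    Matrix.cons_val_one] at h1
  have e0 := h1 0 0
  have e1 := h1 1 0
  have e2 := h1 1 1
  exact rho_c0 hq (by linear_combination (e2 - e1) / 2) (by linear_combination e1 - e0)
    (by linear_combination e0)

theorem Gl.val_ne (l : Gl k K) {q : Conic k} (hq : q.Δ ≠ 0) (c : k) :
    q.dQ.val l.1 ≠ algebraMap k K c := by
  exact fun h => rho_ne l hq one_ne_zero c 2 (by rw [h, map_one]; ring)

theorem Gl.den_ne (l : Gl k K) {q : Conic k} (hq : q.Δ ≠ 0) {y : K} (hy : y ^ 2 = q.dQ.val l.1) :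
    1 + eta q y ^ 2 * algebraMap k K (BB q.dQ) * l.1.1 ^ 2 ≠ 0 := by
  have : CharZero K := charZero_of_injective_algebraMap (algebraMap k K).injective
  have hΔ : algebraMap k K q.Δ ≠ 0 := (map_ne_zero _).2 hq
  intro h
  refine rho_h1 l hq hy ?_
  rw [BB_dQ, eta] at h
  simp only [map_mul, map_neg, map_ofNat] at h
  field_simp at h
  linear_combination -h / 4

theorem Rf.gen {q : Conic k} (hq : q.Δ ≠ 0) {y : K} {l A l' : K × K} (h : Rf q y l A l')
    (hl : Gen k l) : Gen k l' := by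
  have : CharZero K := charZero_of_injective_algebraMap (algebraMap k K).injective
  have hy0 : y ≠ 0 := fun h0 => Gl.val_ne ⟨l, hl⟩ hq 0 (by rw [← h.sq, h0]; simp)
  obtain ⟨X, hX⟩ : ∃ X, X = T.clF k {l'.1, l'.2} := ⟨_, rfl⟩
  have hm : ∀ a, a ∈ X ↔ a ∈ T.cl k {l'.1, l'.2} := fun a => by rw [hX, T.mem_clF]
  have hk : ∀ a : k, algebraMap k K a ∈ X := X.algebraMap_mem
  have h1 : l'.1 ∈ X := (hm _).2 (T.mem_cl (by simp))
  have h2 : l'.2 ∈ X := (hm _).2 (T.mem_cl (by simp))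
  have hy : y ∈ X := by
    refine (hm _).2 (T.cl_of_pow two_ne_zero ((hm _).1 ?_))
    rw [h.sq']
    exact add_mem (add_mem (add_mem (add_mem (mul_mem (hk _) (pow_mem h2 2)) (mul_mem h2
      (add_mem (mul_mem (hk _) h1) (div_mem (hk _) h1)))) (mul_mem (hk _) (pow_mem h1 2))) (hk _))
      (div_mem (hk _) (pow_mem h1 2))
  have hp := h.symm.pos_eq
  have hA := pt_pos h.t1 h.on'
  have h0 := h.zero
  obtain ⟨α, hα⟩ : ∃ α, α = algebraMap k K q.a * l'.1 ^ 2 + algebraMap k K q.b +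
    algebraMap k K q.c / l'.1 ^ 2 := ⟨_, rfl⟩
  obtain ⟨β, hβ⟩ : ∃ β, β = (algebraMap k K q.a * l'.1 ^ 2 - algebraMap k K q.c / l'.1 ^ 2) * l'.2
    + algebraMap k K q.d * l'.1 + algebraMap k K q.e / l'.1 := ⟨_, rfl⟩
  have hαX : α ∈ X := hα ▸ add_mem (add_mem (mul_mem (hk _) (pow_mem h1 2)) (hk _))
    (div_mem (hk _) (pow_mem h1 2))
  have hβX : β ∈ X := hβ ▸ add_mem (add_mem (mul_mem (sub_mem (mul_mem (hk _) (pow_mem h1 2))
    (div_mem (hk _) (pow_mem h1 2))) h2) (mul_mem (hk _) h1)) (div_mem (hk _) h1)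
  have hγX : cev q (pt l' 0) ∈ X :=
    (rho_cz_mem q (rho_pt_mem h1 h2 X.zero_mem).1 (rho_pt_mem h1 h2 X.zero_mem).2).2.2
  have hc : ∀ x, cev q (pt l' x) = α * x ^ 2 + β * x + cev q (pt l' 0) := fun x => by
    have := h.t1
    simp only [hα, hβ, cev, pt]
    field_simp
    ring
  rw [← hα, ← hβ] at hp
  rw [← hA, hc] at h0
  have hx : pos l' A ∈ X := by
    by_cases hb : β - y = 0
    · have hα0 : α ≠ 0 := fun h3 => hy0 (by
        rw [h3] at hp
        linear_combination (hp - hb) / 2)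
      rw [show pos l' A = -y / α by
        rw [eq_div_iff hα0]
        linear_combination (hp - hb) / 2]
      exact div_mem (neg_mem hy) hαX
    · rw [show pos l' A = -(2 * cev q (pt l' 0)) / (β - y) by
        rw [eq_div_iff hb]
        linear_combination 2 * h0 - pos l' A * hp]
      exact div_mem (neg_mem (mul_mem (ofNat_mem X 2) hγX)) (sub_mem hβX hy)
  obtain ⟨hz, hw⟩ := rho_pt_mem h1 h2 hx
  rw [hA] at hz hw
  have ht : l.1 ∈ X := by
    rw [show l.1 = -cw q A / (l'.1 * cz q A) from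
      eq_div_of_mul_eq (mul_ne_zero h.t1 (h.cz_ne hq)) (by linear_combination h.law)]
    exact div_mem (neg_mem (rho_cz_mem q hz hw).2.1) (mul_mem h1 (rho_cz_mem q hz hw).1)
  have hP : l.2 ∈ X := by
    rw [h.on]
    exact sub_mem (div_mem hz ht) (mul_mem hw ht)
  obtain ⟨g1, g2⟩ := T.algInd_pair.1 hl
  have two : ∀ x : K, ¬ T.cl k {l'.1, l'.2} ⊆ T.cl k {x} := fun x hs =>
    T.not_two (N := ∅) (x := x) g1 (by simpa using g2) (by simpa using hs ((hm _).1 ht))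
      (by simpa using hs ((hm _).1 hP))
  refine T.algInd_pair.2 ⟨fun g => two l'.2 (T.cl_subset_cl ?_), fun g => two l'.1
    (T.cl_subset_cl ?_)⟩
  · exact Set.pair_subset (T.cl_mono (Set.empty_subset _) g) (T.mem_cl rfl)
  · exact Set.pair_subset (T.mem_cl rfl) g

theorem isRho {q : Conic k} (hq : q.Δ ≠ 0) (y : K) : IsRho q y (rho q y) := by
  have ex : ∀ (y : K) (l : Gl k K), ∃ l' : Gl k K,
      (y ^ 2 = q.dQ.val l.1 → ∃ A, Rf q y l.1 A l'.1) ∧ (y ^ 2 ≠ q.dQ.val l.1 → l' = l) := by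
    intro y l
    by_cases hy : y ^ 2 = q.dQ.val l.1
    · obtain ⟨A, l', h⟩ := Rf.exists l.t_ne (l.alpha_ne hq) hy (rho_h1 l hq hy) (rho_h2 l hq hy)
      exact ⟨⟨l', h.gen hq l.2⟩, fun _ => ⟨A, h⟩, fun h' => absurd hy h'⟩
    · exact ⟨l, fun h' => absurd h' hy, fun _ => rfl⟩
  choose f hf using ex
  have inv : ∀ y l, f (-y) (f y l) = l := by
    intro y l
    by_cases hy : y ^ 2 = q.dQ.val l.1
    · obtain ⟨A, h⟩ := (hf y l).1 hy
      obtain ⟨A', h'⟩ := (hf (-y) (f y l)).1 h.symm.sq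
      exact Subtype.ext (Rf.unique hq ((f y l).alpha_ne hq) h' h.symm)
    · rw [(hf y l).2 hy, (hf (-y) l).2 (by rwa [neg_sq])]
  have hex : ∃ σ : Equiv.Perm (Gl k K), IsRho q y σ :=
    ⟨⟨f y, f (-y), inv y, fun l => by simpa using inv (-y) l⟩, hf y⟩
  rw [rho, dif_pos hex]
  exact hex.choose_spec

theorem rho_rf {q : Conic k} (hq : q.Δ ≠ 0) {y : K} (l : Gl k K) (hy : y ^ 2 = q.dQ.val l.1) :
    ∃ A, Rf q y l.1 A (rho q y l).1 := ((isRho hq y) l).1 hy

theorem rho_eq {q : Conic k} (hq : q.Δ ≠ 0) {y : K} {l l' : Gl k K} {A : K × K}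
    (h : Rf q y l.1 A l'.1) : rho q y l = l' := by
  obtain ⟨A', h'⟩ := rho_rf hq l h.sq
  exact Subtype.ext (Rf.unique hq (l.alpha_ne hq) h' h)

theorem rho_id {q : Conic k} (hq : q.Δ ≠ 0) {y : K} {l : Gl k K} (hy : y ^ 2 ≠ q.dQ.val l.1) :
    rho q y l = l := ((isRho hq y) l).2 hy

theorem rho_inv {q : Conic k} (hq : q.Δ ≠ 0) (y : K) : (rho q y)⁻¹ = rho q (-y) := by
  refine inv_eq_of_mul_eq_one_left (Equiv.ext fun l => ?_)
  rw [Equiv.Perm.mul_apply, Equiv.Perm.one_apply]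
  by_cases hy : y ^ 2 = q.dQ.val l.1
  · obtain ⟨A, h⟩ := rho_rf hq l hy
    exact rho_eq hq h.symm
  · rw [rho_id hq hy, rho_id hq (by rwa [neg_sq])]

/-- induction along the orbit -/
theorem rho_ind {q : Conic k} (hq : q.Δ ≠ 0) {y : K} {p : Gl k K → Prop}
    (hp : ∀ (y' : K) (l l' : Gl k K) (A : K × K), y' = y ∨ y' = -y → Rf q y' l.1 A l'.1 → p l → p l')
    (e : ℤ) {l : Gl k K} (hl : p l) : p ((rho q y ^ e) l) := by
  have st : ∀ y' : K, y' = y ∨ y' = -y → ∀ l, p l → p (rho q y' l) := fun y' h' l hl => by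
    by_cases hy : y' ^ 2 = q.dQ.val l.1
    · obtain ⟨A, h⟩ := rho_rf hq l hy
      exact hp y' l _ A h' h hl
    · rwa [rho_id hq hy]
  induction e using Int.induction_on generalizing l with
  | zero => exact hl
  | succ n ih =>
    rw [zpow_add_one, Equiv.Perm.mul_apply]
    exact ih (st y (Or.inl rfl) l hl)
  | pred n ih =>
    rw [zpow_sub_one, Equiv.Perm.mul_apply, rho_inv hq]
    exact ih (st (-y) (Or.inr rfl) l hl)

theorem val_rho {q : Conic k} (hq : q.Δ ≠ 0) (y : K) (e : ℤ) (l : Gl k K) :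
    q.dQ.val ((rho q y ^ e) l).1 = q.dQ.val l.1 := by
  refine rho_ind hq (p := fun l' => q.dQ.val l'.1 = q.dQ.val l.1) (fun _ _ _ _ _ h h' => ?_) e rfl
  rw [← h.sq', h.sq, h']

theorem val_rho' {q : Conic k} (hq : q.Δ ≠ 0) {J : QF k} {c : k} (hJ : q.dQ = lv J c) (y : K)
    (e : ℤ) (l : Gl k K) : J.val ((rho q y ^ e) l).1 = J.val l.1 := by
  have h := val_rho hq y e l
  rw [hJ, val_lv, val_lv] at h
  exact sub_left_injective h

theorem rho_map {K' : Type} [Field K'] [Algebra k K'] (φ : K →ₐ[k] K') {q : Conic k}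
    (hq : q.Δ ≠ 0) (y : K) (e : ℤ) (l : Gl k K) :
    Gl.map φ ((rho q y ^ e) l) = (rho q (φ y) ^ e) (Gl.map φ l) := by
  refine rho_semi (fun l => ?_) e l
  by_cases hy : y ^ 2 = q.dQ.val l.1
  · obtain ⟨A, h⟩ := rho_rf hq l hy
    exact (rho_eq hq (l := Gl.map φ l) (l' := Gl.map φ (rho q y l)) (h.map φ)).symm
  · rw [rho_id hq hy, rho_id hq]
    rw [Gl.map_val, val_map, ← map_pow]
    exact fun h => hy (φ.injective h)

theorem rho_scl {q : Conic k} (hq : q.Δ ≠ 0) {u : k} (hu : u ≠ 0) (y : K) :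
    rho (scl u q) (algebraMap k K u * y) = rho q y := by
  have hq' : (scl u q).Δ ≠ 0 := by
    rw [scl_Δ]
    exact mul_ne_zero (pow_ne_zero 3 hu) hq
  refine Equiv.ext fun l => ?_
  by_cases hy : y ^ 2 = q.dQ.val l.1
  · obtain ⟨A, h⟩ := rho_rf hq l hy
    exact rho_eq hq' (h.scale u)
  · rw [rho_id hq hy, rho_id hq' fun h => hy ?_]
    refine mul_left_cancel₀ (pow_ne_zero 2 ((map_ne_zero (algebraMap k K)).2 hu)) ?_
    rw [← mul_pow, h, scl_dQ]
    simp only [QF.val, map_mul, map_pow]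
    ring

theorem rho_sw {q : Conic k} (hq : q.Δ ≠ 0) (y : K) (e : ℤ) (l : Gl k K) :
    ((rho q y ^ e) l).sw = (rho (swC q) y ^ e) l.sw := by
  have hq' : (swC q).Δ ≠ 0 := by rwa [swC_Δ]
  refine rho_semi (f := Gl.sw) (fun l => ?_) e l
  by_cases hy : y ^ 2 = q.dQ.val l.1
  · obtain ⟨A, h⟩ := rho_rf hq l hy
    exact (rho_eq hq' (l := l.sw) (l' := (rho q y l).sw) h.sw).symm
  · rw [rho_id hq hy, rho_id hq']
    rwa [swC_dQ, show l.sw.1 = swL l.1 from rfl, val_sw]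

theorem rho_mem {q : Conic k} (hq : q.Δ ≠ 0) {y : K} (e : ℤ) (l : Gl k K)
    {X : IntermediateField k K} (h1 : l.1.1 ∈ X) (h2 : l.1.2 ∈ X) (hy : y ∈ X) :
    ((rho q y ^ e) l).1.1 ∈ X ∧ ((rho q y ^ e) l).1.2 ∈ X := by
  refine rho_ind hq (p := fun l' => l'.1.1 ∈ X ∧ l'.1.2 ∈ X) (fun y' l _ _ h' h hl => ?_) e ⟨h1, h2⟩
  refine h.mem hq (l.alpha_ne hq) hl.1 hl.2 ?_
  rcases h' with rfl | rfl
  · exact hy
  · exact neg_mem hy

theorem rho_ex {q : Conic k} (hq : q.Δ ≠ 0) (y : K) (e : ℤ) (l : Gl k K)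
    (D : Derivation k K K) : Ex D l.1 ((rho q y ^ e) l).1 := by
  refine rho_ind hq (p := fun l' => Ex D l.1 l'.1) (fun _ _ _ _ _ h hl => ?_) e ⟨0, by simp⟩
  obtain ⟨f, hf⟩ := hl
  obtain ⟨g, hg⟩ := h.ex hq D
  exact ⟨f + g, by rw [map_add, ← hf, ← hg]; ring⟩

end Ivrii.Con
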