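import Pool.Agent.P.MP_7a8567_an.Cnc.SerA
import Pool.Agent.P.MP_7a8567_an.T.Sol

set_option autoImplicit false

/-! Places of the generic fibre as solutions of the flow. -/

namespace Ivrii.Con

open Ivrii.PX

variable {k κ : Type} [Field k] [Field κ] [Algebra k κ] [CharZero k]

omit [CharZero k] in
private theorem dU_alg (a : k) : dU κ k (algebraMap k (LaurentSeries κ) a) = 0 :=
  (dU κ k).map_algebraMap a

private theorem step_one {q : Conic k} (hq : q.Δ ≠ 0) {y : κ} {l : Gl k (LaurentSeries κ)}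
    (h : Reg q.dQ (y ^ 2) l.1) : Reg q.dQ (y ^ 2) (rho q (HahnSeries.C y) l).1 := by
  have : CharZero κ := charZero_of_injective_algebraMap (algebraMap k κ).injective
  have hy : (HahnSeries.C y : LaurentSeries κ) ^ 2 = q.dQ.val l.1 := by rw [h.val, map_pow]
  obtain ⟨A, hA⟩ := rho_rf hq l hy
  have hy0 : (HahnSeries.C y : LaurentSeries κ) ≠ 0 := by
    intro h0
    apply l.val_ne hq 0
    rw [← hy, h0, map_zero]
    ring
  refine ⟨by rw [← hA.sq', map_pow], ?_⟩
  have f1 := hA.form1 hq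
  have fZ := hA.formZ hq hy0
  have hD := l.den_ne hq hy
  have dz := h.dz l.t_ne (l.zv_ne hq)
  have he : ∃ c : κ, eta q (HahnSeries.C y : LaurentSeries κ) = HahnSeries.C c :=
    ⟨eta q y, by simp only [eta, algebraMap_ls, map_div₀, map_neg, map_mul, map_ofNat]⟩
  have hm : ∃ c : κ, em q (HahnSeries.C y : LaurentSeries κ) = HahnSeries.C c :=
    ⟨em q y, by
      simp only [em, algebraMap_ls, map_div₀, map_add, map_one, map_pow, map_mul, map_ofNat]⟩
  have de : dU κ k (eta q (HahnSeries.C y : LaurentSeries κ)) = 0 := by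
    obtain ⟨c, hc⟩ := he
    rw [hc, dU_C]
  have dm : dU κ k (em q (HahnSeries.C y : LaurentSeries κ)) = 0 := by
    obtain ⟨c, hc⟩ := hm
    rw [hc, dU_C]
  have f2 := congrArg (dU κ k) f1
  simp only [map_sub, map_add, Derivation.leibniz, Derivation.leibniz_pow, de, dm, dU_alg,
    Derivation.map_one_eq_zero, smul_eq_mul, h.ode, dz, nsmul_eq_mul] at f2
  rw [map_pow (HahnSeries.C : κ →+* LaurentSeries κ)] at f2
  refine mul_right_cancel₀ (pow_ne_zero 2 hD) ?_
  rw [fZ, ← f1]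
  push_cast at f2
  linear_combination
    (1 + eta q (HahnSeries.C y : LaurentSeries κ) ^ 2 * algebraMap k _ (BB q.dQ) * l.1.1 ^ 2) * f2

theorem Reg.step {q : Conic k} (hq : q.Δ ≠ 0) {y : κ} {l : Gl k (LaurentSeries κ)}
    (h : Reg q.dQ (y ^ 2) l.1) (e : ℤ) :
    Reg q.dQ (y ^ 2) ((rho q (HahnSeries.C y) ^ e) l).1 := by
  induction e using Int.induction_on with
  | zero => simpa using h
  | succ n ih =>
    rw [add_comm, zpow_add, zpow_one, Equiv.Perm.mul_apply]
    exact step_one hq ih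
  | pred n ih =>
    rw [sub_eq_neg_add, zpow_add, zpow_neg_one, Equiv.Perm.mul_apply, rho_inv hq, ← map_neg]
    rw [← neg_sq y] at ih ⊢
    exact step_one hq ih

private theorem fix_zero [IsAlgClosed k] {q : Conic k} (hq : q.Δ ≠ 0) {j : κ}
    {l : Gl k (LaurentSeries κ)} (h : Reg q.dQ j l.1) (h0 : Ev l.1.1 0) (g : κ ≃ₐ[k] κ)
    (hg : g j = j) : Gl.map (cm g) l = l := by
  have : CharZero κ := charZero_of_injective_algebraMap (algebraMap k κ).injective
  obtain ⟨b, hb⟩ := h0.deriv (k := k)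
  rw [h.ode] at hb
  have hJ : Ev (JJ q.dQ (HahnSeries.C j : LaurentSeries κ)) (JJ q.dQ j) := by
    unfold JJ
    exact ((Ev.alg _).mul ((Ev.C j).sub (Ev.alg _))).add
      (((Ev.alg _).mul (Ev.alg _)).div Ev.two two_ne_zero)
  have hs := hb.pow 2
  rw [zv_sq _ l.t_ne, h.val] at hs
  have hs' := hs.uniq (((Ev.alg (AA q.dQ)).neg.add (hJ.mul (h0.pow 2))).sub
    ((Ev.alg (BB q.dQ)).mul (h0.pow 4)))
  obtain ⟨r, hr⟩ := IsAlgClosed.exists_pow_nat_eq (-AA q.dQ) (show 0 < 2 by norm_num)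
  have hbr : b ^ 2 = algebraMap k κ r ^ 2 := by
    rw [hs', ← map_pow, hr, map_neg]
    ring
  have hgb : g b = b := by
    rcases sq_eq_sq_iff_eq_or_eq_neg.1 hbr with e | e
    · rw [e, AlgEquiv.commutes]
    · rw [e, map_neg, AlgEquiv.commutes]
  apply Subtype.ext
  have e1 := h0.twist g
  rw [map_zero] at e1
  have e2 := hb.twist g
  rw [hgb, ← zv_map] at e2
  exact h.uniq (h.twist g hg) l.t_ne (Gl.map (cm g) l).t_ne (l.zv_ne hq)
    ((Gl.map (cm g) l).zv_ne hq) h0 e1 hb e2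

/-- infinite places are fixed by the Galois twist -/
theorem Reg.inf_fix [IsAlgClosed k] {q : Conic k} (hq : q.Δ ≠ 0) {j : κ}
    {l : Gl k (LaurentSeries κ)} (h : Reg q.dQ j l.1) (hi : ¬ Aff l.1) (g : κ ≃ₐ[k] κ)
    (hg : g j = j) : Gl.map (cm g) l = l := by
  rcases ev_or l.1.1 with ⟨a, ha⟩ | h0
  · by_cases a0 : a = 0
    · exact fix_zero hq h (a0 ▸ ha) g hg
    · exact absurd (h.aff hq ha a0) hi
  · have hs : Reg (swC q).dQ j l.sw.1 := by
      rw [swC_dQ]
      exact h.sw l.t_ne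
    have e := congrArg Subtype.val (fix_zero (by rwa [swC_Δ]) hs h0 g hg)
    have e1 : cm g l.1.1⁻¹ = l.1.1⁻¹ := congrArg Prod.fst e
    have e2 : cm g (-l.1.2) = -l.1.2 := congrArg Prod.snd e
    rw [map_inv₀, inv_inj] at e1
    rw [map_neg, neg_inj] at e2
    exact Subtype.ext (Prod.ext e1 e2)

open MvPolynomial in
private theorem flow3 {L : Type} [Field L] [CharZero L] (c0 b1 b2 B A t p : L) (ht : t ≠ 0) :
    ∃ T U P : PowerSeries L, PowerSeries.constantCoeff T = t ∧ PowerSeries.constantCoeff P = p ∧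
      T * U = 1 ∧
      PowerSeries.derivative L T = PowerSeries.C c0 * T * P
        + (PowerSeries.C b1 * T ^ 2 + PowerSeries.C b2) ∧
      PowerSeries.derivative L P = -(P * (PowerSeries.C b1 * T - PowerSeries.C b2 * U)
        + PowerSeries.C B * T ^ 2 - PowerSeries.C A * U ^ 2) := by
  let Z : MvPolynomial (Fin 3) L := C c0 * X 0 * X 2 + (C b1 * X 0 ^ 2 + C b2)
  obtain ⟨ψ, h0, h1⟩ := Ivrii.T.exists_flow' (k := L) (ι := Unit)
    (aeval ![t, t⁻¹, p] : MvPolynomial (Fin 3) L →ₐ[L] L)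
    (fun _ => mkDerivation L ![Z, -(X 1 ^ 2 * Z),
      -(X 2 * (C b1 * X 0 - C b2 * X 1) + C B * X 0 ^ 2 - C A * X 1 ^ 2)]) (fun _ => 1)
  have hC : ∀ r : L, ψ (C r) = PowerSeries.C r := fun r => by
    rw [← MvPolynomial.algebraMap_eq, AlgHom.commutes, PowerSeries.algebraMap_apply]
    rfl
  have d0 := h1 (X 0)
  have d1 := h1 (X 1)
  have d2 := h1 (X 2)
  simp only [Finset.univ_unique, Finset.sum_singleton, one_mul, mkDerivation_X,
    Matrix.cons_val_zero, Matrix.cons_val_one, Matrix.cons_val] at d0 d1 d2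
  refine ⟨ψ (X 0), ψ (X 1), ψ (X 2), by simp [h0], by simp [h0], ?_, ?_, ?_⟩
  · refine sub_eq_zero.1 (Ivrii.T.van (α := Unit) Set.univ (fun _ => ψ (X 0) * ψ (X 1) - 1)
      (fun _ _ => by simp [h0, ht]) (fun _ _ => ?_) () trivial)
    have e : PowerSeries.derivative L (ψ (X 0) * ψ (X 1) - 1)
        = -(ψ Z * ψ (X 1)) * (ψ (X 0) * ψ (X 1) - 1) := by
      rw [map_sub, Derivation.leibniz, d0, d1, Derivation.map_one_eq_zero]
      simp only [map_neg, map_mul, map_pow, smul_eq_mul]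
      ring
    rw [e]
    exact Ideal.mul_mem_left _ _ (Ideal.subset_span ⟨(), trivial, rfl⟩)
  · rw [d0]
    simp only [Z, map_add, map_mul, map_pow, hC]
  · rw [d2]
    simp only [map_neg, map_sub, map_add, map_mul, map_pow, hC]

/-- existence for the flow -/
theorem exists_reg (J : QF k) {a : κ × κ} (ht : a.1 ≠ 0) :
    ∃ l, Reg J (J.val a) l ∧ Aff l ∧ at0 l = a ∧
      dU κ k l.2 = -(l.2 * (algebraMap k _ J.b1 * l.1 - algebraMap k _ J.b2 / l.1) / 2
        + algebraMap k _ J.B * l.1 ^ 2 - algebraMap k _ J.A / l.1 ^ 2) := by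
  have : CharZero κ := charZero_of_injective_algebraMap (algebraMap k κ).injective
  obtain ⟨T, U, P, hT, hP, hU, dT, dP⟩ := flow3 (algebraMap k κ J.c0) (algebraMap k κ J.b1 / 2)
    (algebraMap k κ J.b2 / 2) (algebraMap k κ J.B) (algebraMap k κ J.A) a.1 a.2 ht
  set l : LaurentSeries κ × LaurentSeries κ :=
    (HahnSeries.ofPowerSeries ℤ κ T, HahnSeries.ofPowerSeries ℤ κ P) with hl
  obtain ⟨hA, h0⟩ := Aff.mk' (l := l) (a := a) ⟨T, rfl, hT⟩ ⟨P, rfl, hP⟩ ht
  have t0 : l.1 ≠ 0 := hA.t.ne hA.ne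
  have hu : HahnSeries.ofPowerSeries ℤ κ U = l.1⁻¹ := by
    refine eq_inv_of_mul_eq_one_right ?_
    rw [← map_mul, hU, map_one]
  have e1 : dU κ k l.1 = zv J l := by
    rw [dU_ofPowerSeries, dT]
    simp only [zv, map_add, map_mul, map_pow, HahnSeries.ofPowerSeries_C, map_div₀, map_ofNat,
      algebraMap_ls]
    ring
  have e2 : dU κ k l.2 = -(l.2 * (algebraMap k _ J.b1 * l.1 - algebraMap k _ J.b2 / l.1) / 2
      + algebraMap k _ J.B * l.1 ^ 2 - algebraMap k _ J.A / l.1 ^ 2) := by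
    rw [dU_ofPowerSeries, dP]
    simp only [map_neg, map_sub, map_add, map_mul, map_pow, HahnSeries.ofPowerSeries_C, map_div₀,
      map_ofNat, algebraMap_ls, hu]
    ring
  refine ⟨l, ⟨?_, e1⟩, hA, h0, e2⟩
  have e3 : dU κ k (J.val l) = 0 := by
    simp only [QF.val, map_add, Derivation.leibniz, Derivation.leibniz_pow, Derivation.leibniz_div,
      dU_alg, smul_eq_mul, nsmul_eq_mul, e1, e2, zv]
    field_simp
    ring
  rw [eq_C_of_euler (k := k) (f := J.val l) (by rw [euler_eq, e3, mul_zero]), (hA.vall J).coeff, h0]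

end Ivrii.Con
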