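import Pool.Agent.P.MP_7a8567_an.Cnc.Ev
import Pool.Agent.P.MP_7a8567_an.Cnc.Rho

set_option autoImplicit false

/-! Places of the generic fibre as solutions of the flow. -/

namespace Ivrii.Con

open Ivrii.PX

variable {k κ : Type} [Field k] [Field κ] [Algebra k κ] [CharZero k]

omit [CharZero k] in
theorem serA_step [CharZero κ] {D : PowerSeries κ} (h0 : PowerSeries.constantCoeff D = 0) {m : ℕ}
    (h : PowerSeries.X ^ m ∣ PowerSeries.derivative κ D) : PowerSeries.X ^ (m + 1) ∣ D := by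
  rw [PowerSeries.X_pow_dvd_iff] at h ⊢
  intro n hn
  rcases n with _ | n
  · simpa using h0
  · have := h n (by omega)
    rw [PowerSeries.coeff_derivative] at this
    exact (mul_eq_zero.1 this).resolve_right (by exact_mod_cast Nat.succ_ne_zero n)

omit [CharZero k] in
theorem serA_zero {D : PowerSeries κ} (h : ∀ m : ℕ, PowerSeries.X ^ m ∣ D) : D = 0 := by
  ext n
  exact PowerSeries.X_pow_dvd_iff.1 (h (n + 1)) n (Nat.lt_succ_self n)

omit [CharZero k] in
/-- uniqueness for a linear system of two equations -/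
theorem serA_lin [CharZero κ] {U V a : LaurentSeries κ} {a0 : κ} (hU : Ev U 0) (hV : Ev V 0)
    (ha : Ev a a0) (h1 : dU κ k U = V) (h2 : dU κ k V = a * U) : U = 0 ∧ V = 0 := by
  obtain ⟨u, rfl, hu⟩ := hU
  obtain ⟨v, rfl, hv⟩ := hV
  obtain ⟨α, rfl, -⟩ := ha
  rw [dU_ofPowerSeries] at h1 h2
  rw [← map_mul] at h2
  have e1 := HahnSeries.ofPowerSeries_injective h1
  have e2 := HahnSeries.ofPowerSeries_injective h2
  have key : ∀ m : ℕ, PowerSeries.X ^ m ∣ u ∧ PowerSeries.X ^ m ∣ v := by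
    intro m
    induction m with
    | zero => simp
    | succ m ih =>
      exact ⟨serA_step hu (e1 ▸ ih.2), serA_step hv (e2 ▸ ih.1.mul_left α)⟩
  rw [serA_zero fun m => (key m).1, serA_zero fun m => (key m).2, map_zero]
  exact ⟨rfl, rfl⟩

omit [CharZero k] in
/-- uniqueness for one linear equation -/
theorem serA_lin1 [CharZero κ] {U a : LaurentSeries κ} {a0 : κ} (hU : Ev U 0)
    (ha : Ev a a0) (h1 : dU κ k U = a * U) : U = 0 := by
  obtain ⟨u, rfl, hu⟩ := hU
  obtain ⟨α, rfl, -⟩ := ha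
  rw [dU_ofPowerSeries, ← map_mul] at h1
  have e1 := HahnSeries.ofPowerSeries_injective h1
  have key : ∀ m : ℕ, PowerSeries.X ^ m ∣ u := by
    intro m
    induction m with
    | zero => simp
    | succ m ih => exact serA_step hu (e1 ▸ ih.mul_left α)
  rw [serA_zero key, map_zero]

omit [CharZero k] in
theorem serA_JJ (J : QF k) (j : κ) :
    JJ J (HahnSeries.C j : LaurentSeries κ) = HahnSeries.C (JJ J j) := by
  simp only [JJ, algebraMap_ls, map_add, map_mul, map_sub, map_div₀, map_ofNat]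

theorem reg_lv (J : QF k) (c : k) (j : κ) (l : LaurentSeries κ × LaurentSeries κ) :
    Reg (lv J c) (j - algebraMap k κ c) l ↔ Reg J j l := by
  constructor
  · rintro ⟨h1, h2⟩
    rw [val_lv, map_sub, ← algebraMap_ls, sub_left_inj] at h1
    exact ⟨h1, h2⟩
  · rintro ⟨h1, h2⟩
    exact ⟨by rw [val_lv, map_sub, ← algebraMap_ls, h1], h2⟩

theorem Reg.sw {J : QF k} {j : κ} {l : LaurentSeries κ × LaurentSeries κ} (h : Reg J j l)
    (ht : l.1 ≠ 0) : Reg (swJ J) j (swL l) := by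
  refine ⟨by rw [val_sw, h.val], ?_⟩
  rw [zv_sw J ht, ← h.ode]
  change dU κ k l.1⁻¹ = _
  rw [Derivation.leibniz_inv, smul_eq_mul]
  field_simp

theorem Reg.twist {J : QF k} {j : κ} {l : LaurentSeries κ × LaurentSeries κ} (h : Reg J j l)
    (g : κ ≃ₐ[k] κ) (hg : g j = j) : Reg J j (cm g l.1, cm g l.2) := by
  refine ⟨by rw [val_map, h.val, cm_C, hg], ?_⟩
  rw [zv_map, ← h.ode, cm_dU]

theorem Reg.val0 {J : QF k} {j : κ} {l : LaurentSeries κ × LaurentSeries κ} (h : Reg J j l)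
    (ha : Aff l) : J.val (at0 l) = j := by
  have h1 := ha.vall J
  rw [h.val] at h1
  exact h1.uniq (Ev.C j)

theorem Reg.dz {J : QF k} {j : κ} {l : LaurentSeries κ × LaurentSeries κ} (h : Reg J j l)
    (ht : l.1 ≠ 0) (hz : zv J l ≠ 0) : dU κ k (zv J l) = JJ J (HahnSeries.C j) * l.1
      - 2 * algebraMap k (LaurentSeries κ) (BB J) * l.1 ^ 3 := by
  have : CharZero κ := charZero_of_injective_algebraMap (algebraMap k κ).injective
  have e := congrArg (dU κ k) (zv_sq J ht)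
  rw [h.val, serA_JJ] at e
  rw [serA_JJ]
  simp only [map_add, map_sub, map_neg, Derivation.leibniz, Derivation.leibniz_pow,
    Derivation.map_algebraMap, dU_C, smul_eq_mul, nsmul_eq_mul, h.ode] at e
  refine mul_left_cancel₀ (mul_ne_zero (two_ne_zero (α := LaurentSeries κ)) hz) ?_
  push_cast at e
  linear_combination e

/-- uniqueness for the flow -/
theorem Reg.uniq {J : QF k} {j : κ} {l l' : LaurentSeries κ × LaurentSeries κ} (h : Reg J j l)
    (h' : Reg J j l') (ht : l.1 ≠ 0) (ht' : l'.1 ≠ 0) (hz : zv J l ≠ 0) (hz' : zv J l' ≠ 0)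
    {t z : κ} (e1 : Ev l.1 t) (e1' : Ev l'.1 t) (e2 : Ev (zv J l) z) (e2' : Ev (zv J l') z) :
    l' = l := by
  have : CharZero κ := charZero_of_injective_algebraMap (algebraMap k κ).injective
  have hU : Ev (l'.1 - l.1) 0 := by simpa using e1'.sub e1
  have hV : Ev (zv J l' - zv J l) 0 := by simpa using e2'.sub e2
  have ha := (Ev.C (JJ J j)).sub ((Ev.two.mul (Ev.alg (κ := κ) (BB J))).mul
    (((e1'.pow 2).add (e1'.mul e1)).add (e1.pow 2)))
  obtain ⟨r1, r2⟩ := serA_lin (k := k) hU hV ha (by rw [map_sub, h.ode, h'.ode]) (by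
    rw [map_sub, h.dz ht hz, h'.dz ht' hz', serA_JJ]
    ring)
  exact line_ext J ht hz (sub_eq_zero.1 r1) (sub_eq_zero.1 r2) (by rw [h.val, h'.val])

theorem Reg.uniq_aff {q : Conic k} (hq : q.Δ ≠ 0) {j : κ} {l l' : Gl k (LaurentSeries κ)}
    (h : Reg q.dQ j l.1) (h' : Reg q.dQ j l'.1) (a : Aff l.1) (a' : Aff l'.1)
    (e : at0 l'.1 = at0 l.1) : l' = l := by
  refine Subtype.ext (h.uniq h' l.t_ne l'.t_ne (l.zv_ne hq) (l'.zv_ne hq) a.t ?_ (a.zvl q.dQ) ?_)
  · exact e ▸ a'.t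
  · exact e ▸ a'.zvl q.dQ

/-- a place with `t` a unit is affine -/
theorem Reg.aff {q : Conic k} (hq : q.Δ ≠ 0) {j : κ} {l : Gl k (LaurentSeries κ)}
    (h : Reg q.dQ j l.1) {t : κ} (e : Ev l.1.1 t) (ht : t ≠ 0) : Aff l.1 := by
  have : CharZero κ := charZero_of_injective_algebraMap (algebraMap k κ).injective
  suffices hp : ∃ p, Ev l.1.2 p by
    obtain ⟨p, hp⟩ := hp
    exact (Aff.mk' (a := (t, p)) e hp ht).1
  obtain ⟨z, hz⟩ := e.deriv (k := k)
  rw [h.ode] at hz
  have hT := l.t_ne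
  have hZ := l.zv_ne hq
  have h2 : (2 : κ) ≠ 0 := two_ne_zero
  have hb := ((((Ev.alg (κ := κ) q.dQ.b1).mul (e.pow 2)).add (Ev.alg q.dQ.b2)).div Ev.two h2)
  by_cases hc : q.dQ.c0 = 0
  · have eZ : zv q.dQ l.1 = (algebraMap k (LaurentSeries κ) q.dQ.b1 * l.1.1 ^ 2 +
        algebraMap k (LaurentSeries κ) q.dQ.b2) / 2 := by
      rw [zv, hc, map_zero, zero_mul, zero_mul, zero_add]
    by_cases hz0 : z = 0
    · exfalso
      rw [← eZ] at hb
      have e0 := hb.uniq hz
      rw [hz0, div_eq_zero_iff, or_iff_left h2] at e0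
      have e3 : algebraMap k (LaurentSeries κ) q.dQ.b2 =
          -(algebraMap k (LaurentSeries κ) q.dQ.b1 * HahnSeries.C t ^ 2) := by
        rw [algebraMap_ls, algebraMap_ls, ← map_pow, ← map_mul, ← map_neg,
          eq_neg_of_add_eq_zero_right e0]
      have hU : Ev (l.1.1 - HahnSeries.C t) 0 := by simpa using e.sub (Ev.C t)
      have r := serA_lin1 (k := k) hU
        (((Ev.alg (κ := κ) q.dQ.b1).mul (e.add (Ev.C t))).div Ev.two h2) (by
          rw [map_sub, dU_C, h.ode, eZ, e3]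
          ring)
      apply hZ
      rw [← h.ode, sub_eq_zero.1 r, dU_C]
    · have hv := h.val
      have eP : l.1.2 = (HahnSeries.C j - algebraMap k (LaurentSeries κ) q.dQ.B * l.1.1 ^ 2 -
          algebraMap k (LaurentSeries κ) q.dQ.c1 -
          algebraMap k (LaurentSeries κ) q.dQ.A / l.1.1 ^ 2) * l.1.1 / (2 * zv q.dQ l.1) := by
        rw [eq_div_iff (mul_ne_zero two_ne_zero hZ), ← hv, eZ, QF.val, hc, map_zero]
        field_simp
        ring
      rw [eP]
      exact ⟨_, ((((((Ev.C j).sub ((Ev.alg _).mul (e.pow 2))).sub (Ev.alg _)).sub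
        ((Ev.alg _).div (e.pow 2) (pow_ne_zero 2 ht))).mul e).div (Ev.two.mul hz)
        (mul_ne_zero h2 hz0))⟩
  · have hc' : algebraMap k κ q.dQ.c0 ≠ 0 := (map_ne_zero _).2 hc
    have hc'' : algebraMap k (LaurentSeries κ) q.dQ.c0 ≠ 0 := (map_ne_zero _).2 hc
    have eP : l.1.2 = (zv q.dQ l.1 - (algebraMap k (LaurentSeries κ) q.dQ.b1 * l.1.1 ^ 2 +
        algebraMap k (LaurentSeries κ) q.dQ.b2) / 2) /
        (algebraMap k (LaurentSeries κ) q.dQ.c0 * l.1.1) := by
      rw [eq_div_iff (mul_ne_zero hc'' hT), zv]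
      ring
    rw [eP]
    exact ⟨_, (hz.sub hb).div ((Ev.alg _).mul e) (mul_ne_zero hc' ht)⟩

end Ivrii.Con
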