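import Pool.Agent.P.MP_7a8567_an.Cnc.TRA

set_option autoImplicit false

/-! Orders at affine places are multiplicities of primes. -/

namespace Ivrii.Con

open MvPolynomial Ivrii.PX

variable {k κ : Type} [Field k] [Field κ] [Algebra k κ] [IsAlgClosed k] [CharZero k]

/-- a prime that is odd in `n` and not vertical gives an affine place -/
theorem start {q : Conic k} {n π : R2 k} (hn : n ≠ 0) (ho : OddP n π) (hv : ¬ q.dQ.Vert π) :
    ∃ (κ : Type) (_ : Field κ) (_ : Algebra k κ) (_ : IsAlgClosed κ) (j : κ)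
      (l : Gl k (LaurentSeries κ)), Base k j ∧ Reg q.dQ j l.1 ∧ Aff l.1 ∧ Od n l.1 := by
  obtain ⟨κ, i1, i2, i3, a, ht, hπ, hb⟩ := exists_base q.dQ ho.1 ho.2.1 hv
  obtain ⟨l, hr, ha, h0, hP⟩ := exists_reg q.dQ ht
  obtain ⟨hg, π', hπ', -, hd, hm⟩ := tr hb hr ha hP
  have h1 : π' ∣ π := (hd π).2 (by rw [h0]; exact hπ)
  have h2 : Associated π' π := hπ'.associated_of_dvd ho.1 h1
  refine ⟨κ, i1, i2, i3, _, ⟨l, hg⟩, hb, hr, ha, ?_⟩
  show Odd (ev l n).order
  rw [hm n hn, ← multiplicity_eq_of_associated_left h2]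
  exact_mod_cast ho.2.2

/-- an affine place of odd order gives an odd prime -/
theorem finish {q : Conic k} (hq : q.Δ ≠ 0) {j : κ} (hb : Base k j) {l : Gl k (LaurentSeries κ)}
    (h : Reg q.dQ j l.1) {n : R2 k} (hn : n ≠ 0) (ho : Od n l.1) {J' : QF k}
    (hv : ∀ π, OddP n π → J'.Vert π) : XS J' l.1 := by
  by_cases ha : Aff l.1
  swap
  · exact Or.inl ha
  obtain ⟨-, π, hπ, h0, hd, hm⟩ := tr hb h ha (h.dP l.t_ne (l.zv_ne hq))
  have h1 : Odd (multiplicity π n) := by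
    have h2 : Odd (ev l.1 n).order := ho
    rw [hm n hn] at h2
    exact_mod_cast h2
  obtain ⟨c, hc⟩ := hv π ⟨hπ, h0, h1⟩
  have h3 := (hd _).1 hc
  rw [ev_lev J' c ha.ne] at h3
  refine Or.inr ⟨c, ?_⟩
  rcases mul_eq_zero.1 h3 with h4 | h4
  · exact absurd (pow_eq_zero_iff (by norm_num) |>.1 h4) ha.ne
  · exact sub_eq_zero.1 h4

/-- the ring generated by `t` and `t ^ 2 J` -/
noncomputable def trA (J : QF k) : Subalgebra k (R2 k) := Algebra.adjoin k {X 0, J.lev 0}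

omit [IsAlgClosed k] [CharZero k] in
lemma trA_poly (J : QF k) (j : κ) {r : R2 k} (hr : r ∈ trA J) : ∃ ρ : Polynomial κ,
    ∀ (M : Type) [Field M] [Algebra k M] (φ : κ →+* M),
      (∀ c : k, φ (algebraMap k κ c) = algebraMap k M c) → ∀ a : M × M, a.1 ≠ 0 →
        J.val a = φ j → ev a r = ρ.eval₂ φ a.1 := by
  unfold trA at hr
  induction hr using Algebra.adjoin_induction with
  | mem x hx =>
    rcases hx with rfl | rfl
    · exact ⟨Polynomial.X, fun M _ _ φ _ a _ _ => by simp [ev]⟩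
    · refine ⟨Polynomial.X ^ 2 * Polynomial.C j, fun M _ _ φ _ a ht hj => ?_⟩
      rw [ev_lev J 0 ht, hj, Polynomial.eval₂_mul, Polynomial.eval₂_pow, Polynomial.eval₂_X,
        Polynomial.eval₂_C, map_zero, sub_zero]
  | algebraMap c =>
    refine ⟨Polynomial.C (algebraMap k κ c), fun M _ _ φ hφ a _ _ => ?_⟩
    rw [AlgHom.commutes, Polynomial.eval₂_C, hφ]
  | add x y _ _ hx hy =>
    obtain ⟨ρ, h1⟩ := hx
    obtain ⟨σ, h2⟩ := hy
    exact ⟨ρ + σ, fun M _ _ φ hφ a ht hj => by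
      rw [map_add, Polynomial.eval₂_add, h1 M φ hφ a ht hj, h2 M φ hφ a ht hj]⟩
  | mul x y _ _ hx hy =>
    obtain ⟨ρ, h1⟩ := hx
    obtain ⟨σ, h2⟩ := hy
    exact ⟨ρ * σ, fun M _ _ φ hφ a ht hj => by
      rw [map_mul, Polynomial.eval₂_mul, h1 M φ hφ a ht hj, h2 M φ hφ a ht hj]⟩

omit [IsAlgClosed k] in
lemma trA_X1 (J : QF k) {K : Type} [Field K] [Algebra k K] {l : K × K} (ht : l.1 ≠ 0)
    (hz : zv J l ≠ 0) : IsAlgebraic (trA J) (X 1 : R2 k) := by
  have : CharZero K := charZero_of_injective_algebraMap (algebraMap k K).injective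
  have h0 : (X 0 : R2 k) ∈ trA J := Algebra.subset_adjoin (by simp)
  have h1 : J.lev 0 ∈ trA J := Algebra.subset_adjoin (by simp)
  have hc : ∀ c : k, (C c : R2 k) ∈ trA J := fun c => (trA J).algebraMap_mem c
  let α : trA J := ⟨C J.c0 * X 0 ^ 2, mul_mem (hc _) (pow_mem h0 _)⟩
  let β : trA J := ⟨C J.b1 * X 0 ^ 3 + C J.b2 * X 0,
    add_mem (mul_mem (hc _) (pow_mem h0 _)) (mul_mem (hc _) h0)⟩
  let γ : trA J := ⟨C J.B * X 0 ^ 4 + C (J.c1 - 0) * X 0 ^ 2 + C J.A - J.lev 0,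
    sub_mem (add_mem (add_mem (mul_mem (hc _) (pow_mem h0 _)) (mul_mem (hc _) (pow_mem h0 _)))
      (hc _)) h1⟩
  refine ⟨Polynomial.C α * Polynomial.X ^ 2 + Polynomial.C β * Polynomial.X + Polynomial.C γ,
    fun h => hz ?_, ?_⟩
  · have e2 := congrArg (fun p => Polynomial.coeff p 2) h
    have e1 := congrArg (fun p => Polynomial.coeff p 1) h
    simp [Polynomial.coeff_C] at e1 e2
    have f2 := congrArg (fun x : trA J => ev l x.1) e2
    have f1 := congrArg (fun x : trA J => ev l x.1) e1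
    simp only [α, β, ev, map_mul, map_add, map_pow, aeval_C, aeval_X, ZeroMemClass.coe_zero,
      map_zero, Matrix.cons_val_zero] at f1 f2
    apply mul_left_cancel₀ ht
    unfold zv
    linear_combination l.2 * f2 + f1 / 2
  · simp only [map_add, map_mul, map_pow, Polynomial.aeval_C, Polynomial.aeval_X, α, β, γ,
      Subalgebra.algebraMap_apply, QF.lev]
    ring

omit [IsAlgClosed k] in
lemma trA_dvd (J : QF k) {K : Type} [Field K] [Algebra k K] {l : K × K} (ht : l.1 ≠ 0)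
    (hz : zv J l ≠ 0) {n : R2 k} (hn : n ≠ 0) : ∃ r ∈ trA J, r ≠ 0 ∧ n ∣ r := by
  have h0 : (X 0 : R2 k) ∈ trA J := Algebra.subset_adjoin (by simp)
  have hX : ∀ i : Fin 2, IsAlgebraic (trA J) (X i : R2 k) := by
    intro i
    fin_cases i
    · exact isAlgebraic_algebraMap (⟨X 0, h0⟩ : trA J)
    · exact trA_X1 J ht hz
  have ha : ∀ m : R2 k, IsAlgebraic (trA J) m := by
    intro m
    induction m using MvPolynomial.induction_on with
    | C c => exact isAlgebraic_algebraMap (⟨C c, (trA J).algebraMap_mem c⟩ : trA J)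
    | add p p' h h' => exact h.add h'
    | mul_X p i h => exact h.mul (hX i)
  obtain ⟨r, hr, hd⟩ := (ha n).exists_nonzero_dvd (mem_nonZeroDivisors_of_ne_zero hn)
  exact ⟨r.1, r.2, fun h => hr (Subtype.ext h), hd⟩

/-- only finitely many affine places are zeros of `n` -/
theorem fin_zero {q : Conic k} (hq : q.Δ ≠ 0) (j : κ) {n : R2 k} (hn : n ≠ 0) :
    {l : Gl k (LaurentSeries κ) | Reg q.dQ j l.1 ∧ Aff l.1 ∧ Od n l.1}.Finite := by
  classical
  rcases Set.eq_empty_or_nonempty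
    {l : Gl k (LaurentSeries κ) | Reg q.dQ j l.1 ∧ Aff l.1 ∧ Od n l.1} with h | ⟨l0, hl0⟩
  · rw [h]
    exact Set.finite_empty
  obtain ⟨r, hr, hr0, m, hm⟩ := trA_dvd q.dQ l0.t_ne (l0.zv_ne hq) hn
  obtain ⟨ρ, hρ⟩ := trA_poly q.dQ j hr
  have hρ0 : ρ ≠ 0 := by
    intro h
    have h1 := hρ (LaurentSeries κ) HahnSeries.C (fun c => rfl) l0.1 l0.t_ne hl0.1.val
    rw [h, Polynomial.eval₂_zero] at h1
    exact l0.ev_ne hr0 h1
  let R : κ → κ := fun t => -algebraMap k κ (AA q.dQ) + JJ q.dQ j * t ^ 2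
    - algebraMap k κ (BB q.dQ) * t ^ 4
  have hT : (⋃ t ∈ (ρ.roots.toFinset : Set κ),
      ({t} : Set κ) ×ˢ ((Polynomial.nthRoots 2 (R t)).toFinset : Set κ)).Finite :=
    (Finset.finite_toSet _).biUnion fun t _ => (Set.finite_singleton t).prod (Finset.finite_toSet _)
  refine Set.Finite.of_injOn (f := fun l => ((at0 l.1).1, zv q.dQ (at0 l.1))) ?_ ?_ hT
  · rintro l ⟨h1, h2, h3⟩
    have h4 : ev (at0 l.1) n = 0 := by
      by_contra h
      have h5 : Odd (ev l.1 n).order := h3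
      rw [(h2.evl n).order h] at h5
      exact absurd h5 (by decide)
    have h5 := hρ κ (RingHom.id κ) (fun c => rfl) (at0 l.1) h2.ne (h1.val0 h2)
    rw [hm, map_mul, h4, zero_mul, Polynomial.eval₂_id] at h5
    simp only [Set.mem_iUnion]
    refine ⟨(at0 l.1).1, ?_, rfl, ?_⟩
    · simp only [Finset.mem_coe, Multiset.mem_toFinset, Polynomial.mem_roots hρ0]
      exact h5.symm
    · simp only [Finset.mem_coe, Multiset.mem_toFinset, Polynomial.mem_nthRoots two_pos]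
      rw [zv_sq _ h2.ne, h1.val0 h2]
  · rintro l ⟨h1, h2, -⟩ l' ⟨h1', h2', -⟩ e
    simp only [Prod.mk.injEq] at e
    refine Subtype.ext (h1'.uniq h1 l'.t_ne l.t_ne (l'.zv_ne hq) (l.zv_ne hq) h2'.t ?_
      (h2'.zvl _) ?_)
    · rw [← e.1]
      exact h2.t
    · rw [← e.2]
      exact h2.zvl _

end Ivrii.Con
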