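import Pool.Agent.P.MP_7a8567_an.Cnc.Ser
import Pool.Agent.P.MP_7a8567_an.Cnc.Base
import Pool.Agent.P.MP_7a8567_an.S3.Ser

set_option autoImplicit false

/-! Orders at affine places are multiplicities of primes. -/

namespace Ivrii.Con

open MvPolynomial Ivrii.PX

variable {k κ : Type} [Field k] [Field κ] [Algebra k κ] [IsAlgClosed k] [CharZero k]

omit [IsAlgClosed k] in
lemma tra_der {K : Type} [Field K] [Algebra k K] (E : Derivation k K K) (J : QF k) {l : K × K}
    (ht : l.1 ≠ 0) : l.1 * E (J.val l) = 2 * zv J l * E l.2 + 2 * E l.1 *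
      (l.2 * (algebraMap k K J.b1 * l.1 - algebraMap k K J.b2 / l.1) / 2
        + algebraMap k K J.B * l.1 ^ 2 - algebraMap k K J.A / l.1 ^ 2) := by
  have : CharZero K := charZero_of_injective_algebraMap (algebraMap k K).injective
  simp only [QF.val, zv, map_add, Derivation.leibniz, Derivation.leibniz_div,
    Derivation.leibniz_pow, Derivation.map_algebraMap, smul_eq_mul, nsmul_eq_mul]
  field_simp
  ring

/-- transversality -/
theorem tr {J : QF k} {j : κ} (hb : Base k j) {l : LaurentSeries κ × LaurentSeries κ}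
    (h : Reg J j l) (ha : Aff l)
    (hP : dU κ k l.2 = -(l.2 * (algebraMap k _ J.b1 * l.1 - algebraMap k _ J.b2 / l.1) / 2
        + algebraMap k _ J.B * l.1 ^ 2 - algebraMap k _ J.A / l.1 ^ 2)) :
    Gen k l ∧ ∃ π : R2 k, Irreducible π ∧ ¬ Associated π (X 0) ∧
      (∀ g : R2 k, π ∣ g ↔ ev (at0 l) g = 0) ∧
      ∀ g : R2 k, g ≠ 0 → (ev l g).order = (multiplicity π g : ℤ) := by
  have : CharZero κ := charZero_of_injective_algebraMap (algebraMap k κ).injective
  obtain ⟨D, hD, -⟩ := hb.der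
  have r : S3.Res2 l (at0 l) := ⟨ha.t, ha.p⟩
  have ht : l.1 ≠ 0 := r.1.ne_zero ha.ne
  have e : S3.jac (dcoef D) (dU κ k) l = -l.1 / 2 := by
    have e1 := tra_der (dcoef D) J ht
    rw [h.val, dcoef_C, hD, map_one, mul_one] at e1
    rw [S3.jac, hP, h.ode]
    linear_combination e1 / 2
  have rj : S3.Res (S3.jac (dcoef D) (dU κ k) l) (-(at0 l).1 / 2) :=
    e ▸ r.1.neg.div .two two_ne_zero
  have h0 : -(at0 l).1 / 2 ≠ 0 := div_ne_zero (neg_ne_zero.2 ha.ne) two_ne_zero
  obtain ⟨π, h1, h2⟩ := S3.exists_irr_of_not_gen (hb.not_gen (at0 l))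
  refine ⟨S3.gen_of_jac (rj.ne_zero h0), π, h1, fun hX => ha.ne ?_,
    fun g => (S3.H1 h1 h2 (S3.tr_of_jac r rj h0) g).symm, fun g hg => (S3.tr r rj h0 h1 h2 hg).2⟩
  simpa using (S3.H1 h1 h2 (S3.tr_of_jac r rj h0) _).2 hX.dvd

theorem Reg.dP {J : QF k} {j : κ} {l : LaurentSeries κ × LaurentSeries κ} (h : Reg J j l)
    (ht : l.1 ≠ 0) (hz : zv J l ≠ 0) :
    dU κ k l.2 = -(l.2 * (algebraMap k _ J.b1 * l.1 - algebraMap k _ J.b2 / l.1) / 2
        + algebraMap k _ J.B * l.1 ^ 2 - algebraMap k _ J.A / l.1 ^ 2) := by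
  have : CharZero κ := charZero_of_injective_algebraMap (algebraMap k κ).injective
  have e1 := tra_der (dU κ k) J ht
  rw [h.val, dU_C, mul_zero, h.ode] at e1
  refine mul_left_cancel₀ (mul_ne_zero two_ne_zero hz) ?_
  linear_combination -e1

end Ivrii.Con
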