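import Pool.Agent.P.MP_7a8567_an.Cnc.ZlA

set_option autoImplicit false

/-! The Galois twist of a place on a pencil. -/

namespace Ivrii.Con

open Ivrii.PX

variable {k κ : Type} [Field k] [Field κ] [Algebra k κ] [IsAlgClosed k] [CharZero k]

omit [IsAlgClosed k] in
private theorem zl_cmp {q : Conic k} (hq : q.Δ ≠ 0) {j : κ} {l l' : Gl k (LaurentSeries κ)}
    (h : Reg q.dQ j l.1) (h' : Reg q.dQ j l'.1) (a : Aff l.1) (a' : Aff l'.1)
    (e1 : (at0 l'.1).1 = (at0 l.1).1) (e2 : zv q.dQ (at0 l'.1) = zv q.dQ (at0 l.1)) :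
    l' = l := by
  apply Subtype.ext
  have t' := a'.t
  have z' := a'.zvl q.dQ
  rw [e1] at t'
  rw [e2] at z'
  exact Reg.uniq h h' l.t_ne l'.t_ne (l.zv_ne hq) (l'.zv_ne hq) a.t t' (a.zvl _) z'

omit [IsAlgClosed k] in
private theorem zl_tw {q : Conic k} {j : κ} {l : Gl k (LaurentSeries κ)}
    (h : Reg q.dQ j l.1) (ha : Aff l.1) {t0 : k} (ho : (at0 l.1).1 = algebraMap k κ t0)
    (g : κ ≃ₐ[k] κ) (hg : g j = j) :
    Reg q.dQ j (Gl.map (cm g) l).1 ∧ Aff (Gl.map (cm g) l).1 ∧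
      (at0 (Gl.map (cm g) l).1).1 = algebraMap k κ t0 ∧
      zv q.dQ (at0 (Gl.map (cm g) l).1) = g (zv q.dQ (at0 l.1)) := by
  rw [Gl.map_val]
  refine ⟨h.twist g hg, (aff_cm g l.1).2 ha, ?_, ?_⟩
  · rw [at0_cm, ho]
    simp
  · rw [at0_cm]
    exact zv_map (g : κ →ₐ[k] κ) q.dQ (at0 l.1)

omit [IsAlgClosed k] in
private theorem zl_sq {q : Conic k} {j : κ} {l : LaurentSeries κ × LaurentSeries κ}
    (h : Reg q.dQ j l) (ha : Aff l) {t0 : k} (ho : (at0 l).1 = algebraMap k κ t0) :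
    zv q.dQ (at0 l) ^ 2 = algebraMap k κ (q.dQ.c0 * t0 ^ 2) * j
      + algebraMap k κ (4 * q.Δ * (q.a * t0 ^ 4 + q.b * t0 ^ 2 + q.c)) := by
  rw [zv_sq q.dQ ha.ne, h.val0 ha, AA_dQ, BB_dQ, JJ_dQ, ho]
  simp only [map_mul, map_add, map_pow, map_neg, map_ofNat]
  ring

private theorem zl_key {q : Conic k} (hq : q.Δ ≠ 0) {y : κ} (hb : Base k (y ^ 2))
    {l : Gl k (LaurentSeries κ)} (h : Reg q.dQ (y ^ 2) l.1) (ha : Aff l.1) {t0 : k}
    (ho : (at0 l.1).1 = algebraMap k κ t0)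
    (hZ : zv q.dQ (at0 l.1) = -(y * algebraMap k κ (t0 * (2 * q.a * t0 ^ 2 + q.b))))
    (g : κ ≃ₐ[k] κ) (hg : g y = -y) :
    Gl.map (cm g) l = rho q (HahnSeries.C y) l := by
  have : CharZero κ := charZero_of_injective_algebraMap (algebraMap k κ).injective
  have hΔ : algebraMap k κ q.Δ ≠ 0 := by simpa using hq
  have hy : (HahnSeries.C y : LaurentSeries κ) ^ 2 = q.dQ.val l.1 := by
    rw [h.val, map_pow]
  obtain ⟨A, hA⟩ := rho_rf hq l hy
  have f1 := hA.form1 hq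
  have ht0 : algebraMap k κ t0 ≠ 0 := ho ▸ ha.ne
  have eT : Ev l.1.1 (algebraMap k κ t0) := ho ▸ ha.t
  have eZ := ha.zvl q.dQ
  have e2 : Ev (2 * algebraMap k (LaurentSeries κ) q.Δ) (2 * algebraMap k κ q.Δ) :=
    Ev.two.mul (Ev.alg _)
  have h2 : (2 : κ) * algebraMap k κ q.Δ ≠ 0 := mul_ne_zero two_ne_zero hΔ
  have eη : Ev (eta q (HahnSeries.C y : LaurentSeries κ)) (eta q y) :=
    (Ev.C y).neg.div e2 h2
  have em' : Ev (em q (HahnSeries.C y : LaurentSeries κ)) (em q y) :=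
    Ev.one.add (((Ev.alg q.b).mul ((Ev.C y).pow 2)).div e2 h2)
  have eD := Ev.one.add (((eη.pow 2).mul (Ev.alg (BB q.dQ))).mul (eT.pow 2))
  have eN := (em'.mul eT).sub (eη.mul eZ)
  have hD : 1 + eta q y ^ 2 * algebraMap k κ (BB q.dQ) * algebraMap k κ t0 ^ 2 ≠ 0 := by
    intro h0
    rw [BB_dQ] at h0
    simp only [eta, map_mul, map_neg, map_ofNat] at h0
    have h1 : algebraMap k κ (q.a * t0 ^ 2) * y ^ 2 = algebraMap k κ q.Δ := by
      simp only [map_mul, map_pow]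
      field_simp at h0
      linear_combination (-1 / 4 : κ) * h0
    have h3 : q.a * t0 ^ 2 ≠ 0 := by
      intro h3
      rw [h3, map_zero, zero_mul] at h1
      exact hΔ h1.symm
    have h4 : y ^ 2 = algebraMap k κ (q.Δ / (q.a * t0 ^ 2)) := by
      have h5 : algebraMap k κ (q.a * t0 ^ 2) ≠ 0 := by
        rwa [Ne, map_eq_zero]
      rw [map_div₀, eq_div_iff h5, ← h1, mul_comm]
    exact hb.tr (h4 ▸ isAlgebraic_algebraMap _)
  have eT' : Ev (rho q (HahnSeries.C y) l).1.1 (algebraMap k κ t0) := by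
    have e3 := eN.div eD hD
    rw [← f1, mul_div_assoc, div_self (eD.ne hD), mul_one] at e3
    have e4 : (em q y * algebraMap k κ t0 - eta q y * zv q.dQ (at0 l.1)) /
        (1 + eta q y ^ 2 * algebraMap k κ (BB q.dQ) * algebraMap k κ t0 ^ 2)
        = algebraMap k κ t0 := by
      rw [div_eq_iff hD, hZ, BB_dQ]
      simp only [eta, em, map_mul, map_add, map_pow, map_neg, map_ofNat]
      field_simp
      ring
    rwa [e4] at e3
  have hr : Reg q.dQ (y ^ 2) (rho q (HahnSeries.C y) l).1 := by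
    simpa using h.step hq 1
  have ha' : Aff (rho q (HahnSeries.C y) l).1 := hr.aff hq eT' ht0
  have ho' : (at0 (rho q (HahnSeries.C y) l).1).1 = algebraMap k κ t0 := ha'.t.uniq eT'
  have hsq : zv q.dQ (at0 (rho q (HahnSeries.C y) l).1) ^ 2 = zv q.dQ (at0 l.1) ^ 2 := by
    rw [zl_sq hr ha' ho', zl_sq h ha ho]
  rcases sq_eq_sq_iff_eq_or_eq_neg.1 hsq with hz | hz
  · have e := zl_cmp hq h hr ha ha' (ho'.trans ho.symm) hz
    have := rho_free hq l hy (e := 1) (by simpa using e)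
    exact absurd this one_ne_zero
  · have hg2 : g (y ^ 2) = y ^ 2 := by rw [map_pow, hg]; ring
    obtain ⟨r1, r2, r3, r4⟩ := zl_tw h ha ho g hg2
    refine zl_cmp hq hr r1 ha' r2 (r3.trans ho'.symm) ?_
    rw [r4, hz, hZ]
    simp only [map_neg, map_mul, hg, AlgEquiv.commutes]
    ring

theorem z_dir {q : Conic k} (hq : q.Δ ≠ 0) {y : κ} (hb : Base k (y ^ 2))
    {l : Gl k (LaurentSeries κ)} (h : Reg q.dQ (y ^ 2) l.1) (ha : Aff l.1) {t0 : k}
    (ho : (at0 l.1).1 = algebraMap k κ t0) : Tw q y l := by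
  have hsq := zl_sq h ha ho
  have ht0 : t0 ≠ 0 := by
    intro h0
    apply ha.ne
    rw [ho, h0, map_zero]
  -- the twist is trivial as soon as `Z(0)` is fixed
  have fix : ∀ g : κ ≃ₐ[k] κ, g y = -y → g (zv q.dQ (at0 l.1)) = zv q.dQ (at0 l.1) →
      Gl.map (cm g) l = (rho q (HahnSeries.C y) ^ (0 : ℤ)) l := by
    intro g hg hz
    have hg2 : g (y ^ 2) = y ^ 2 := by rw [map_pow, hg]; ring
    obtain ⟨r1, r2, r3, r4⟩ := zl_tw h ha ho g hg2
    simpa using zl_cmp hq h r1 ha r2 (r3.trans ho.symm) (r4.trans hz)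
  by_cases hW : q.a * t0 ^ 4 + q.b * t0 ^ 2 + q.c = 0
  · refine ⟨∅, by simp, fun g hg _ => ?_⟩
    have hc : q.dQ.c0 * t0 ^ 2 = (t0 * (2 * q.a * t0 ^ 2 + q.b)) ^ 2 := by
      simp only [Conic.dQ]
      linear_combination (-4 * q.a * t0 ^ 2) * hW
    have h1 : zv q.dQ (at0 l.1) ^ 2
        = (y * algebraMap k κ (t0 * (2 * q.a * t0 ^ 2 + q.b))) ^ 2 := by
      rw [hsq, hW, hc, mul_zero, map_zero, map_pow]
      ring
    rcases sq_eq_sq_iff_eq_or_eq_neg.1 h1 with hz | hz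
    · refine ⟨-1, ?_, Or.inl (by simp)⟩
      have hb' : Base k ((-y) ^ 2) := by rwa [neg_sq]
      have h' : Reg q.dQ ((-y) ^ 2) l.1 := by rwa [neg_sq]
      have := zl_key hq hb' h' ha ho (by rw [hz]; ring) g (by rw [map_neg, hg])
      rw [this, zpow_neg_one, rho_inv hq, map_neg]
    · refine ⟨1, ?_, Or.inl (by simp)⟩
      rw [zl_key hq hb h ha ho hz g hg, zpow_one]
  by_cases hc : q.dQ.c0 = 0
  · refine ⟨∅, by simp, fun g hg _ => ⟨0, fix g hg ?_, Or.inl (by simp)⟩⟩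
    obtain ⟨s, hs⟩ := IsAlgClosed.exists_pow_nat_eq
      (4 * q.Δ * (q.a * t0 ^ 4 + q.b * t0 ^ 2 + q.c)) (n := 2) two_pos
    have h1 : zv q.dQ (at0 l.1) ^ 2 = (algebraMap k κ s) ^ 2 := by
      rw [hsq, hc, zero_mul, map_zero, zero_mul, zero_add, ← hs, map_pow]
    rcases sq_eq_sq_iff_eq_or_eq_neg.1 h1 with hz | hz <;> rw [hz] <;> simp
  · have hne : q.dQ.c0 * t0 ^ 2 ≠ 0 := mul_ne_zero hc (pow_ne_zero 2 ht0)
    refine ⟨{-(4 * q.Δ * (q.a * t0 ^ 4 + q.b * t0 ^ 2 + q.c)) / (q.dQ.c0 * t0 ^ 2)}, ?_,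
      fun g hg hS => ⟨0, fix g hg ?_, Or.inl (by simp)⟩⟩
    · rw [Finset.mem_singleton]
      refine (div_ne_zero (neg_ne_zero.2 ?_) hne).symm
      exact mul_ne_zero (mul_ne_zero (by norm_num) hq) hW
    obtain ⟨s, hs⟩ := IsAlgClosed.exists_pow_nat_eq (q.dQ.c0 * t0 ^ 2) (n := 2) two_pos
    have hs0 : algebraMap k κ s ≠ 0 := by
      rw [Ne, map_eq_zero]
      rintro rfl
      exact hne (by rw [← hs]; ring)
    have h1 := hS _ (Finset.mem_singleton_self _) (zv q.dQ (at0 l.1) / algebraMap k κ s) (by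
      rw [div_pow, hsq, ← hs, map_div₀, map_neg, map_pow]
      field_simp
      ring)
    rw [map_div₀, AlgEquiv.commutes] at h1
    exact (div_left_inj' hs0).1 h1

end Ivrii.Con
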