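import Pool.Agent.P.MP_7a8567_an.Cnc.Pair
import Pool.Agent.P.MP_7a8567_an.Cnc.Zl
import Pool.Agent.P.MP_7a8567_an.Cnc.TR

set_option autoImplicit false

/-! Exceptional places on one orbit, and one step of the norm. -/

namespace Ivrii.Con

open Ivrii.PX

variable {k κ : Type} [Field k] [Field κ] [Algebra k κ] [IsAlgClosed k] [CharZero k]

omit [IsAlgClosed k] in
theorem twist_rho {q : Conic k} (hq : q.Δ ≠ 0) {y : κ} {g : κ ≃ₐ[k] κ} (hg : g y = -y) (e : ℤ)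
    (l : Gl k (LaurentSeries κ)) :
    Gl.map (cm g) ((rho q (HahnSeries.C y) ^ e) l)
      = (rho q (HahnSeries.C y) ^ (-e)) (Gl.map (cm g) l) := by
  rw [rho_map _ hq, cm_C, hg, map_neg, ← rho_inv hq, inv_zpow']

theorem rho_inj {q : Conic k} (hq : q.Δ ≠ 0) {y : κ} {l : Gl k (LaurentSeries κ)}
    (h : Reg q.dQ (y ^ 2) l.1) {a b : ℤ}
    (e : (rho q (HahnSeries.C y) ^ a) l = (rho q (HahnSeries.C y) ^ b) l) : a = b := by
  have h1 : (rho q (HahnSeries.C y) ^ (-b + a)) l = l := by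
    rw [zpow_add, Equiv.Perm.mul_apply, e, ← Equiv.Perm.mul_apply, ← zpow_add, neg_add_cancel,
      zpow_zero, Equiv.Perm.one_apply]
  have := rho_free hq l h.fib h1
  omega

omit [IsAlgClosed k] [CharZero k] in
theorem zpow_app {α : Type} (σ : Equiv.Perm α) (a b : ℤ) (x : α) :
    (σ ^ a) ((σ ^ b) x) = (σ ^ (a + b)) x := by
  rw [zpow_add, Equiv.Perm.mul_apply]

theorem Pen.tw {q : Conic k} (hq : q.Δ ≠ 0) {y : κ} (hb : Base k (y ^ 2))
    {l : Gl k (LaurentSeries κ)} (h : Reg q.dQ (y ^ 2) l.1) (ha : Aff l.1)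
    (hp : Pen k (at0 l.1)) : Tw q y l := by
  rcases hp with ⟨zo, wo, ho⟩ | ⟨t0, ho⟩
  · exact z_fin hq hb h ha ho
  · exact z_dir hq hb h ha ho

variable [IsAlgClosed κ]

theorem inf2 {q : Conic k} (hq : q.Δ ≠ 0) {y : κ} (hb : Base k (y ^ 2))
    {l : Gl k (LaurentSeries κ)} (h : Reg q.dQ (y ^ 2) l.1) (hi : ¬ Aff l.1) {e : ℤ}
    (hi' : ¬ Aff ((rho q (HahnSeries.C y) ^ e) l).1) : e = 0 := by
  obtain ⟨g, hg, -⟩ := hb.flip ∅ (by simp)
  have hj : g (y ^ 2) = y ^ 2 := by rw [map_pow, hg, neg_sq]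
  have h1 := (h.step hq e).inf_fix hq hi' g hj
  rw [twist_rho hq hg, h.inf_fix hq hi g hj] at h1
  have := rho_inj hq h h1
  omega

/-- an affine exceptional place is close to an infinite place of its orbit -/
theorem one_inf {q : Conic k} (hq : RC q) {y : κ} (hb : Base k (y ^ 2)) {J' : QF k} (hJ : Nd J')
    {l : Gl k (LaurentSeries κ)} (h : Reg q.dQ (y ^ 2) l.1) (ha : Aff l.1) {c : k}
    (hc : J'.val (at0 l.1) = algebraMap k κ c) {e : ℤ}
    (hi : ¬ Aff ((rho q (HahnSeries.C y) ^ e) l).1) : |e| ≤ 1 := by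
  by_cases he : e = 0
  · simp [he]
  have key : ∀ g : κ ≃ₐ[k] κ, g y = -y →
      Gl.map (cm g) l = (rho q (HahnSeries.C y) ^ (2 * e)) l := fun g hg => by
    have hj : g (y ^ 2) = y ^ 2 := by rw [map_pow, hg, neg_sq]
    have h1 := (h.step hq.nd e).inf_fix hq.nd hi g hj
    rw [twist_rho hq.nd hg] at h1
    have h2 := congrArg (rho q (HahnSeries.C y) ^ e) h1
    rwa [zpow_app, zpow_app, add_neg_cancel, zpow_zero, Equiv.Perm.one_apply, ← two_mul] at h2
  obtain ⟨g0, hg0, -⟩ := hb.flip ∅ (by simp)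
  have hp : Pen k (at0 l.1) := by
    refine pair hq hb hJ h ha (e := 2 * e) (by omega) ?_ hc (c' := c) ?_
    · rw [← key g0 hg0]
      exact (aff_cm g0 l.1).2 ha
    · rw [← key g0 hg0, Gl.map_val, at0_cm]
      have := val_map (g0 : κ →ₐ[k] κ) J' (at0 l.1)
      rw [hc, AlgHom.commutes] at this
      exact this
  obtain ⟨S, hS, hT⟩ := hp.tw hq.nd hb h ha
  obtain ⟨g, hg, hg'⟩ := hb.flip S hS
  obtain ⟨ε, e1, e2⟩ := hT g hg hg'
  have := rho_inj hq.nd h ((key g hg).symm.trans e1)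
  rw [abs_le] at e2 ⊢
  omega

/-- (XP) -/
theorem xp {q : Conic k} (hq : RC q) {y : κ} (hb : Base k (y ^ 2)) {J' : QF k} (hJ : Nd J')
    {l : Gl k (LaurentSeries κ)} (h : Reg q.dQ (y ^ 2) l.1) (hx : XS J' l.1) {e : ℤ} (he : 2 ≤ e)
    (hx' : XS J' ((rho q (HahnSeries.C y) ^ e) l).1) :
    e = 2 ∧ ¬ Aff (rho q (HahnSeries.C y) l).1 := by
  classical
  have h' := h.step hq.nd e
  have back : (rho q (HahnSeries.C y) ^ (-e)) ((rho q (HahnSeries.C y) ^ e) l) = l := by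
    rw [zpow_app, neg_add_cancel, zpow_zero, Equiv.Perm.one_apply]
  by_cases a : Aff l.1
  · obtain ⟨c, hc⟩ := hx.resolve_left (not_not.2 a)
    by_cases a' : Aff ((rho q (HahnSeries.C y) ^ e) l).1
    · obtain ⟨c', hc'⟩ := hx'.resolve_left (not_not.2 a')
      have p1 := pair hq hb hJ h a (by omega) a' hc hc'
      have p2 := pair hq hb hJ h' a' (e := -e) (by omega) (by rwa [back]) hc' (by rwa [back])
      obtain ⟨S, hS, hT⟩ := p1.tw hq.nd hb h a
      obtain ⟨S', hS', hT'⟩ := p2.tw hq.nd hb h' a'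
      obtain ⟨g, hg, hg'⟩ := hb.flip (S ∪ S') (by simp [hS, hS'])
      obtain ⟨ε, e1, e2⟩ := hT g hg fun c hc => hg' c (Finset.mem_union_left _ hc)
      obtain ⟨ε', e1', e2'⟩ := hT' g hg fun c hc => hg' c (Finset.mem_union_right _ hc)
      rw [twist_rho hq.nd hg, e1, zpow_app, zpow_app] at e1'
      have := rho_inj hq.nd h e1'
      rw [abs_le] at e2 e2'
      refine ⟨by omega, ?_⟩
      rcases e2 with e2 | e2 | e2
      · omega
      · exact e2.2
      · omega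
    · have := one_inf hq hb hJ h a hc a'
      rw [abs_le] at this
      omega
  · by_cases a' : Aff ((rho q (HahnSeries.C y) ^ e) l).1
    · obtain ⟨c', hc'⟩ := hx'.resolve_left (not_not.2 a')
      have := one_inf hq hb hJ h' a' hc' (e := -e) (by rwa [back])
      rw [abs_le] at this
      omega
    · have := inf2 hq.nd hb h a a'
      omega

/-- extreme points of the odd set of a norm -/
theorem step {q : Conic k} (hq : q.Δ ≠ 0) {y : κ} (hb : Base k (y ^ 2)) {n N d : R2 k}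
    (hn : n ≠ 0) (hd : d ≠ 0) {ν : ℤ} (hν : 1 ≤ ν)
    (hN : ∀ l : Gl k (LaurentSeries κ), HahnSeries.C y ^ 2 = q.dQ.val l.1 →
      ev l.1 N = ev l.1 d ^ 2 * ev ((rho q (HahnSeries.C y) ^ (-ν)) l).1 n
        * ev ((rho q (HahnSeries.C y) ^ (- -ν)) l).1 n)
    {l0 : Gl k (LaurentSeries κ)} (h : Reg q.dQ (y ^ 2) l0.1) (ho : Od n l0.1) :
    ∃ (l : Gl k (LaurentSeries κ)) (e : ℤ), Reg q.dQ (y ^ 2) l.1 ∧ 2 ≤ e ∧ Od N l.1 ∧
      Od N ((rho q (HahnSeries.C y) ^ e) l).1 ∧ (e = 2 → rho q (HahnSeries.C y) l = l0) := by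
  set σ := rho q (HahnSeries.C y : LaurentSeries κ) with hσ
  have hod : ∀ i : ℤ, Od N ((σ ^ i) l0).1 ↔
      (Od n ((σ ^ (-ν + i)) l0).1 ↔ ¬ Od n ((σ ^ (ν + i)) l0).1) := fun i => by
    unfold Od
    rw [hN _ (h.step hq i).fib, neg_neg, zpow_app, zpow_app,
      HahnSeries.order_mul (mul_ne_zero (pow_ne_zero _ (Gl.ev_ne _ hd)) (Gl.ev_ne _ hn))
        (Gl.ev_ne _ hn), HahnSeries.order_mul (pow_ne_zero _ (Gl.ev_ne _ hd)) (Gl.ev_ne _ hn),
      HahnSeries.order_pow, Int.odd_add, Int.odd_add', Int.not_odd_iff_even]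
    simp
  have hfin : {i : ℤ | Od n ((σ ^ i) l0).1}.Finite := by
    have f1 : {i : ℤ | ¬ Aff ((σ ^ i) l0).1}.Finite := by
      refine Set.Subsingleton.finite fun a ha b hb' => ?_
      have := inf2 hq hb (h.step hq a) ha (e := b - a) (by rwa [zpow_app, sub_add_cancel])
      omega
    have f2 := (fin_zero hq (y ^ 2) hn).preimage (f := fun i : ℤ => (σ ^ i) l0)
      fun a _ b _ e => rho_inj hq h e
    refine (f1.union f2).subset fun i hi => ?_
    by_cases a : Aff ((σ ^ i) l0).1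
    · exact Or.inr ⟨h.step hq i, a, hi⟩
    · exact Or.inl a
  have h0 : (0 : ℤ) ∈ {i : ℤ | Od n ((σ ^ i) l0).1} := ho
  obtain ⟨a, ha, ha'⟩ := Set.exists_min_image _ id hfin ⟨0, h0⟩
  obtain ⟨b, hb1, hb'⟩ := Set.exists_max_image _ id hfin ⟨0, h0⟩
  have a0 : a ≤ 0 := ha' 0 h0
  have b0 : 0 ≤ b := hb' 0 h0
  refine ⟨(σ ^ (a - ν)) l0, b - a + 2 * ν, h.step hq _, by omega, ?_, ?_, fun e => ?_⟩
  · rw [hod, show ν + (a - ν) = a by ring]
    refine iff_of_false (fun e => ?_) (not_not.2 ha)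
    have : a ≤ -ν + (a - ν) := ha' _ e
    omega
  · rw [zpow_app, hod, show -ν + (b - a + 2 * ν + (a - ν)) = b by ring]
    refine iff_of_true hb1 fun e => ?_
    have : ν + (b - a + 2 * ν + (a - ν)) ≤ b := hb' _ e
    omega
  · rw [← zpow_one σ, ← zpow_mul, one_mul, zpow_app, show 1 + (a - ν) = 0 by omega, zpow_zero,
      Equiv.Perm.one_apply]

end Ivrii.Con
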