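import Pool.Agent.P.MP_7a8567_an.Cnc.Ser
import Pool.Agent.P.MP_7a8567_an.Cnc.Lim1
import Pool.Agent.P.MP_7a8567_an.Cnc.Base

set_option autoImplicit false

/-! The Galois twist of a place on a pencil. -/

namespace Ivrii.Con

open Ivrii.PX

variable {k κ : Type} [Field k] [Field κ] [Algebra k κ] [IsAlgClosed k] [CharZero k]

/-- conclusion of (Z) -/
def Tw (q : Conic k) (y : κ) (l : Gl k (LaurentSeries κ)) : Prop :=
  ∃ S : Finset k, (0 : k) ∉ S ∧ ∀ g : κ ≃ₐ[k] κ, g y = -y →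
    (∀ c ∈ S, ∀ r : κ, r ^ 2 = y ^ 2 - algebraMap k κ c → g r = r) →
    ∃ e : ℤ, Gl.map (cm g) l = (rho q (HahnSeries.C y) ^ e) l ∧
      (|e| ≤ 1 ∨ (e = 2 ∧ ¬ Aff (rho q (HahnSeries.C y) l).1) ∨
        (e = -2 ∧ ¬ Aff ((rho q (HahnSeries.C y))⁻¹ l).1))

omit [IsAlgClosed k] in
theorem twist_eq {q : Conic k} (hq : q.Δ ≠ 0) {j : κ} {l l' : Gl k (LaurentSeries κ)}
    (h : Reg q.dQ j l.1) (h' : Reg q.dQ j l'.1) (ha : Aff l.1) (ha' : Aff l'.1)
    (g : κ ≃ₐ[k] κ) (hg : g j = j) (e : at0 l'.1 = (g (at0 l.1).1, g (at0 l.1).2)) :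
    Gl.map (cm g) l = l' := by
  refine Reg.uniq_aff hq h' (l' := Gl.map (cm g) l) (h.twist g hg) ha' ((aff_cm g l.1).2 ha) ?_
  rw [e]
  exact at0_cm g l.1

omit [IsAlgClosed k] [CharZero k] in
theorem alpha_tr {q : Conic k} (hq : q.Δ ≠ 0) {t : κ} (ht : t ≠ 0) (h : Transcendental k t) :
    algebraMap k κ q.a * t ^ 2 + algebraMap k κ q.b + algebraMap k κ q.c / t ^ 2 ≠ 0 := by
  intro h0
  have hp := transcendental_iff.1 h
    (Polynomial.C q.a * Polynomial.X ^ 4 + Polynomial.C q.b * Polynomial.X ^ 2 + Polynomial.C q.c)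
    (by
      simp only [map_add, map_mul, map_pow, Polynomial.aeval_C, Polynomial.aeval_X]
      field_simp at h0
      linear_combination h0)
  have h4 := congrArg (fun p => Polynomial.coeff p 4) hp
  have h2 := congrArg (fun p => Polynomial.coeff p 2) hp
  have h1 := congrArg (fun p => Polynomial.coeff p 0) hp
  simp [Polynomial.coeff_X_pow, Polynomial.coeff_C] at h4 h2 h1
  exact hq (by simp [Conic.Δ, h4, h2, h1])

theorem pt_pos2 {K : Type} [Field K] [CharZero K] {l A : K × K} (ht : l.1 ≠ 0) (h : On l A) :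
    pt l (pos l A) = A := by
  rw [On] at h
  refine Prod.ext ?_ ?_ <;> simp only [pt, pos, h] <;> field_simp <;> ring

omit [IsAlgClosed k] in
theorem ev_point {q : Conic k} {y : κ} {l A l' : LaurentSeries κ × LaurentSeries κ}
    (hr : Rf q (HahnSeries.C y) l A l') (ha : Aff l) {o : κ × κ} (ho : On (at0 l) o)
    (hy : y = cz q o * (at0 l).1 + cw q o / (at0 l).1)
    (hα : algebraMap k κ q.a * (at0 l).1 ^ 2 + algebraMap k κ q.b
      + algebraMap k κ q.c / (at0 l).1 ^ 2 ≠ 0) : Ev A.1 o.1 ∧ Ev A.2 o.2 := by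
  have : CharZero κ := charZero_of_injective_algebraMap (algebraMap k κ).injective
  have : CharZero (LaurentSeries κ) :=
    charZero_of_injective_algebraMap (algebraMap k (LaurentSeries κ)).injective
  have ht := ha.ne
  have e1 := ((Ev.alg (κ := κ) q.a).mul (ha.t.pow 2))
  have e2 := ((Ev.alg (κ := κ) q.c).div (ha.t.pow 2) (pow_ne_zero 2 ht))
  have eα := Ev.two.mul ((e1.add (Ev.alg q.b)).add e2)
  have hα2 := mul_ne_zero (two_ne_zero' κ) hα
  have er := (Ev.C y).sub ((((e1.sub e2).mul ha.p).add ((Ev.alg q.d).mul ha.t)).add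
    ((Ev.alg q.e).div ha.t ht))
  have ex : Ev (pos l A) (pos (at0 l) o) := by
    have h1 := er.div eα hα2
    rw [← hr.pos_eq, mul_div_cancel_left₀ _ (eα.ne hα2)] at h1
    convert h1 using 1
    rw [eq_div_iff hα2, hy, grad_pos q ht ho]
    ring
  have eh := ha.p.div Ev.two (two_ne_zero' κ)
  have p1 := ha.t.mul (ex.add eh)
  have p2 := (ex.sub eh).div ha.t ht
  have q1 := pt_pos2 hr.t0 hr.on
  have q2 := pt_pos2 ht ho
  rw [← q1, ← q2]
  exact ⟨p1, p2⟩

theorem z_on {q : Conic k} (hq : q.Δ ≠ 0) {y : κ} (hb : Base k (y ^ 2))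
    {l : Gl k (LaurentSeries κ)} (h : Reg q.dQ (y ^ 2) l.1) (ha : Aff l.1) {zo wo z0 w0 : k}
    (ho : On (at0 l.1) (algebraMap k κ zo, algebraMap k κ wo))
    (hz : cz q (algebraMap k κ zo, algebraMap k κ wo) = algebraMap k κ z0)
    (hw : cw q (algebraMap k κ zo, algebraMap k κ wo) = algebraMap k κ w0)
    (hy : y = algebraMap k κ z0 * (at0 l.1).1 + algebraMap k κ w0 / (at0 l.1).1) :
    ∃ S : Finset k, (0 : k) ∉ S ∧ ∀ g : κ ≃ₐ[k] κ, g y = -y →
      (∀ c ∈ S, ∀ r : κ, r ^ 2 = y ^ 2 - algebraMap k κ c → g r = r) →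
      Gl.map (cm g) l = (rho q (HahnSeries.C y) ^ (1 : ℤ)) l ∨
        (Gl.map (cm g) l = (rho q (HahnSeries.C y) ^ (2 : ℤ)) l ∧
          ¬ Aff (rho q (HahnSeries.C y) l).1) := by
  have : CharZero κ := charZero_of_injective_algebraMap (algebraMap k κ).injective
  have ht := ha.ne
  have htr : Transcendental k (at0 l.1).1 := fun h1 => hb.tr (by
    rw [hy, div_eq_mul_inv]
    exact (((isAlgebraic_algebraMap z0).mul h1).add ((isAlgebraic_algebraMap w0).mul h1.inv)).pow 2)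
  obtain ⟨A, hr⟩ := rho_rf hq (y := HahnSeries.C y) l (by rw [h.val, map_pow])
  obtain ⟨a1, a2⟩ := ev_point hr ha ho (by rw [hz, hw]; exact hy) (alpha_tr hq ht htr)
  have ez : Ev (cz q A) (algebraMap k κ z0) :=
    hz ▸ (((Ev.two.mul (Ev.alg q.a)).mul a1).add ((Ev.alg q.b).mul a2)).add (Ev.alg q.d)
  have ew : Ev (cw q A) (algebraMap k κ w0) :=
    hw ▸ (((Ev.alg q.b).mul a1).add ((Ev.two.mul (Ev.alg q.c)).mul a2)).add (Ev.alg q.e)
  have hreg := h.step hq 1
  rw [zpow_one] at hreg ⊢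
  by_cases h0 : z0 * w0 = 0
  · refine ⟨∅, by simp, fun g hg _ => Or.inr ?_⟩
    have hn : ¬ Aff (rho q (HahnSeries.C y) l).1 := by
      intro ha'
      have e0 := ((ha.t.mul ha'.t).mul ez).add ew
      rw [hr.law] at e0
      have e1 := e0.uniq (by simpa using Ev.nat (κ := κ) 0 : Ev (0 : LaurentSeries κ) 0)
      have hne := mul_ne_zero ht ha'.ne
      have hb0 : algebraMap k κ z0 = 0 ∧ algebraMap k κ w0 = 0 := by
        rcases mul_eq_zero.1 h0 with h1 | h1
        · simpa [h1] using e1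
        · rw [h1, map_zero, add_zero] at e1
          exact ⟨(mul_eq_zero.1 e1).resolve_left hne, by rw [h1, map_zero]⟩
      refine hb.tr ?_
      rw [hy, hb0.1, hb0.2]
      simpa using isAlgebraic_zero
    refine ⟨?_, hn⟩
    have h1 := hreg.inf_fix hq hn g (by rw [map_pow, hg, neg_sq])
    have h2 := rho_map (cm g) hq (HahnSeries.C y) 1 l
    rw [zpow_one, zpow_one, h1, cm_C, hg, map_neg, ← rho_inv hq, Equiv.Perm.eq_inv_iff_eq] at h2
    rw [← h2, zpow_two, Equiv.Perm.mul_apply]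
  · have hz0 : algebraMap k κ z0 ≠ 0 := (map_ne_zero _).2 (left_ne_zero_of_mul h0)
    have hw0 : algebraMap k κ w0 ≠ 0 := (map_ne_zero _).2 (right_ne_zero_of_mul h0)
    refine ⟨{4 * (z0 * w0)}, ?_, fun g hg hS => Or.inl ?_⟩
    · rw [Finset.mem_singleton]
      exact (mul_ne_zero (by norm_num) h0).symm
    have h1 := hS _ (Finset.mem_singleton_self _)
      (algebraMap k κ z0 * (at0 l.1).1 - algebraMap k κ w0 / (at0 l.1).1) (by
        rw [hy, map_mul, map_mul, map_ofNat]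
        field_simp
        ring)
    have h2 : g (at0 l.1).1 = -algebraMap k κ w0 / ((at0 l.1).1 * algebraMap k κ z0) := by
      rw [hy] at hg
      simp only [map_add, map_sub, map_mul, map_div₀, AlgEquiv.commutes] at hg h1
      rw [eq_div_iff (mul_ne_zero ht hz0)]
      have h3 : algebraMap k κ z0 * g (at0 l.1).1 = -(algebraMap k κ w0 / (at0 l.1).1) := by
        linear_combination (hg + h1) / 2
      field_simp at h3
      linear_combination h3
    have hgt : g (at0 l.1).1 ≠ 0 := (map_ne_zero g).2 ht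
    have et : Ev (rho q (HahnSeries.C y) l).1.1 (g (at0 l.1).1) := by
      have e1 := ew.neg.div (ha.t.mul ez) (mul_ne_zero ht hz0)
      rw [h2]
      convert e1 using 1
      rw [eq_div_iff ((ha.t.mul ez).ne (mul_ne_zero ht hz0))]
      linear_combination hr.law
    have ep : Ev (rho q (HahnSeries.C y) l).1.2 (g (at0 l.1).2) := by
      have e1 := (a1.div et hgt).sub (a2.mul et)
      rw [hr.on', ho]
      simpa only [map_sub, map_mul, map_div₀, AlgEquiv.commutes] using e1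
    obtain ⟨ha', e'⟩ := Aff.mk' (a := (g (at0 l.1).1, g (at0 l.1).2)) et ep hgt
    exact twist_eq hq h hreg ha ha' g (by rw [map_pow, hg, neg_sq]) e'

theorem z_fin {q : Conic k} (hq : q.Δ ≠ 0) {y : κ} (hb : Base k (y ^ 2))
    {l : Gl k (LaurentSeries κ)} (h : Reg q.dQ (y ^ 2) l.1) (ha : Aff l.1) {zo wo : k}
    (ho : On (at0 l.1) (algebraMap k κ zo, algebraMap k κ wo)) : Tw q y l := by
  classical
  have : CharZero κ := charZero_of_injective_algebraMap (algebraMap k κ).injective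
  have ht := ha.ne
  obtain ⟨z0, hz0⟩ : ∃ z0, z0 = 2 * q.a * zo + q.b * wo + q.d := ⟨_, rfl⟩
  obtain ⟨w0, hw0⟩ : ∃ w0, w0 = q.b * zo + 2 * q.c * wo + q.e := ⟨_, rfl⟩
  obtain ⟨Q0, hQ0⟩ : ∃ Q0, Q0 = q.a * zo ^ 2 + q.b * zo * wo + q.c * wo ^ 2 + q.d * zo + q.e * wo
    + q.f := ⟨_, rfl⟩
  have hz : cz q (algebraMap k κ zo, algebraMap k κ wo) = algebraMap k κ z0 := by
    simp [cz, hz0, map_ofNat]
  have hw : cw q (algebraMap k κ zo, algebraMap k κ wo) = algebraMap k κ w0 := by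
    simp [cw, hw0, map_ofNat]
  have hQ : cev q (algebraMap k κ zo, algebraMap k κ wo) = algebraMap k κ Q0 := by
    simp [cev, hQ0]
  have hv := val_at q ht ho
  rw [h.val0 ha, hz, hw, hQ] at hv
  by_cases h0 : Q0 = 0
  · rw [h0, map_zero, mul_zero, zero_mul, sub_zero] at hv
    rcases sq_eq_sq_iff_eq_or_eq_neg.1 hv with hy | hy
    · obtain ⟨S, hS, hT⟩ := z_on hq hb h ha ho hz hw hy
      refine ⟨S, hS, fun g hg hr => ?_⟩
      rcases hT g hg hr with h1 | h1
      · exact ⟨1, h1, Or.inl (by norm_num)⟩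
      · exact ⟨2, h1.1, Or.inr (Or.inl ⟨rfl, h1.2⟩)⟩
    · obtain ⟨S, hS, hT⟩ := z_on hq (y := -y) (by rwa [neg_sq]) (by rwa [neg_sq]) ha ho hz hw
        (by rw [hy, neg_neg])
      refine ⟨S, hS, fun g hg hr => ?_⟩
      have h2 := hT g (by rw [map_neg, hg]) (by rwa [neg_sq])
      rw [map_neg, ← rho_inv hq, inv_zpow', inv_zpow'] at h2
      rcases h2 with h1 | h1
      · exact ⟨-1, h1, Or.inl (by norm_num)⟩
      · exact ⟨-2, h1.1, Or.inr (Or.inr ⟨rfl, h1.2⟩)⟩
  · obtain ⟨γ, hγ⟩ := IsAlgClosed.exists_pow_nat_eq (z0 ^ 2 - 4 * Q0 * q.a) two_pos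
    obtain ⟨δ, hδ⟩ := IsAlgClosed.exists_pow_nat_eq (w0 ^ 2 - 4 * Q0 * q.c) two_pos
    obtain ⟨g0, hg0⟩ : ∃ g0, g0 = 2 * z0 * w0 - 4 * Q0 * q.b := ⟨_, rfl⟩
    have hp : (g0 - 2 * γ * δ) * (g0 + 2 * γ * δ) = 16 * Q0 * q.Δ := by
      have e : (g0 - 2 * γ * δ) * (g0 + 2 * γ * δ) = g0 ^ 2 - 4 * γ ^ 2 * δ ^ 2 := by ring
      rw [e, hγ, hδ, hg0, hz0, hw0, hQ0, Conic.Δ]
      ring
    have hp0 : (g0 - 2 * γ * δ) * (g0 + 2 * γ * δ) ≠ 0 := by
      rw [hp]
      exact mul_ne_zero (mul_ne_zero (by norm_num) h0) hq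
    have hv' : y ^ 2 = (algebraMap k κ γ * (at0 l.1).1) ^ 2 + algebraMap k κ g0
        + (algebraMap k κ δ / (at0 l.1).1) ^ 2 := by
      rw [hv, mul_pow, div_pow (algebraMap k κ δ), ← map_pow, ← map_pow, hγ, hδ, hg0]
      simp only [map_sub, map_mul, map_pow, map_ofNat]
      field_simp
      ring
    refine ⟨{g0 - 2 * γ * δ, g0 + 2 * γ * δ}, ?_, fun g hg hS => ⟨0, ?_, Or.inl (by norm_num)⟩⟩
    · rw [Finset.mem_insert, Finset.mem_singleton, not_or]
      exact ⟨(left_ne_zero_of_mul hp0).symm, (right_ne_zero_of_mul hp0).symm⟩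
    have h1 := hS (g0 - 2 * γ * δ) (by simp)
      (algebraMap k κ γ * (at0 l.1).1 + algebraMap k κ δ / (at0 l.1).1) (by
        rw [hv']
        simp only [map_sub, map_mul, map_ofNat]
        field_simp
        ring)
    have h2 := hS (g0 + 2 * γ * δ) (by simp)
      (algebraMap k κ γ * (at0 l.1).1 - algebraMap k κ δ / (at0 l.1).1) (by
        rw [hv']
        simp only [map_add, map_mul, map_ofNat]
        field_simp
        ring)
    simp only [map_add, map_sub, map_mul, map_div₀, AlgEquiv.commutes] at h1 h2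
    have hgt : g (at0 l.1).1 ≠ 0 := (map_ne_zero g).2 ht
    have h3 : g (at0 l.1).1 = (at0 l.1).1 := by
      by_cases c1 : γ = 0
      · by_cases c2 : δ = 0
        · refine absurd ?_ hb.tr
          rw [hv', c1, c2]
          simpa using isAlgebraic_algebraMap g0
        · have c3 : algebraMap k κ δ ≠ 0 := (map_ne_zero _).2 c2
          have h4 : algebraMap k κ δ / g (at0 l.1).1 = algebraMap k κ δ / (at0 l.1).1 := by
            linear_combination (h1 - h2) / 2
          rw [div_eq_div_iff hgt ht] at h4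
          exact (mul_left_cancel₀ c3 h4).symm
      · refine mul_left_cancel₀ ((map_ne_zero (algebraMap k κ)).2 c1) ?_
        linear_combination (h1 + h2) / 2
    rw [zpow_zero, Equiv.Perm.one_apply]
    refine twist_eq hq h h ha ha g (by rw [map_pow, hg, neg_sq]) (Prod.ext h3.symm ?_)
    show (at0 l.1).2 = g (at0 l.1).2
    rw [ho]
    simp only [map_sub, map_mul, map_div₀, AlgEquiv.commutes, h3]

end Ivrii.Con
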